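import Pool.Agent.Helper72.OC.RR

/-!
# Orbit theorem for flagged groups, block K3b: `Good` from a flag

`Phi54`: the map `A ⊗ O_G → (A ⊗ Γ_j) ⊗ O_Q` given by the element `σ_j q`; it is injective up to powers of `w_j`.
-/

set_option autoImplicit false

namespace Pool.Agent.Helper72.OC

open TensorProduct

section

attribute [local instance] Flag.ringΓ Flag.algΓ

variable {Λ : Type} [CommRing Λ] {Q G : GSch Λ} (f : Flag Q G)

/-- `χ` has invertible values where a `w_i` has the value one -/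
private theorem chi_unit54 {R : Type} [CommRing R] [Algebra Λ R] (s : G.Pt R) (i : Fin f.m)
    (hs : f.w i s = 1) (q : Q.Pt R) : IsUnit (f.χ q) := by
  have h1 : ∀ q' : Q.Pt R, f.w i (s * f.inc q') = f.χ q' := fun q' => by
    rw [f.w_mul, hs, one_mul]
  have h2 : f.χ q * f.χ q⁻¹ = 1 := by
    rw [← h1 q, ← f.w_mul, mul_assoc, ← map_mul, mul_inv_cancel, map_one, mul_one, hs]
  exact IsUnit.of_mul_eq_one _ h2

/-- the element `σ_j q` -/
private noncomputable def gj54 (A : Type) [CommRing A] [Algebra Λ A] (j : Fin f.c) :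
    G.Pt (RR Q (A ⊗[Λ] f.Γ j)) :=
  G.map ((ιR Q (A ⊗[Λ] f.Γ j)).comp Algebra.TensorProduct.includeRight) (f.σ j) *
    f.inc (gam Q (A ⊗[Λ] f.Γ j))

/-- the restriction to the chart -/
private noncomputable def Phi54 (A : Type) [CommRing A] [Algebra Λ A] (j : Fin f.c) :
    RR G A →ₐ[Λ] RR Q (A ⊗[Λ] f.Γ j) :=
  ev G ((ιR Q (A ⊗[Λ] f.Γ j)).comp Algebra.TensorProduct.includeLeft) (gj54 f A j)

private theorem map_Phi54 (A : Type) [CommRing A] [Algebra Λ A] (j : Fin f.c) :
    G.map (Phi54 f A j) (gam G A) = gj54 f A j := map_ev_gam G _ _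

/-- the function `w_j` -/
private noncomputable def W54 (A : Type) [CommRing A] [Algebra Λ A] (j : Fin f.c) : RR G A :=
  f.w (f.e j) (gam G A)

private theorem W_eq54 (A : Type) [CommRing A] [Algebra Λ A] (j : Fin f.c) :
    W54 f A j = Algebra.TensorProduct.includeRight (f.w (f.e j) G.gen) := by
  unfold W54 gam
  rw [f.w_nat]

private theorem Phi_W54 (A : Type) [CommRing A] [Algebra Λ A] (i j : Fin f.c) :
    Phi54 f A j (W54 f A i) = ιR Q (A ⊗[Λ] f.Γ j) (Algebra.TensorProduct.includeRight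
      (f.w (f.e i) (f.σ j))) * f.χ (gam Q (A ⊗[Λ] f.Γ j)) := by
  unfold W54
  rw [← f.w_nat, map_Phi54, gj54, f.w_mul, f.w_nat]
  rfl

private theorem Phi_ker54 (A : Type) [CommRing A] [Algebra Λ A] (j : Fin f.c) (x : RR G A)
    (hx : Phi54 f A j x = 0) : ∃ k : ℕ, W54 f A j ^ k * x = 0 := by
  let T := Localization.Away (W54 f A j)
  let ι : RR G A →ₐ[Λ] T := IsScalarTower.toAlgHom Λ (RR G A) T
  have hunit : IsUnit (f.w (f.e j) (G.map ι (gam G A))) := by
    rw [f.w_nat]
    exact IsLocalization.Away.algebraMap_isUnit (W54 f A j)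
  obtain ⟨⟨u, q⟩, hg, -⟩ := f.chart j (G.map ι (gam G A)) hunit
  simp only at hg
  let l : A ⊗[Λ] f.Γ j →ₐ[Λ] T := Algebra.TensorProduct.productMap (ι.comp (ιR G A)) u
  have hl1 : l.comp Algebra.TensorProduct.includeLeft = ι.comp (ιR G A) :=
    Algebra.TensorProduct.productMap_left _ _
  have hl2 : l.comp Algebra.TensorProduct.includeRight = u :=
    Algebra.TensorProduct.productMap_right _ _
  have hcomp : (ev Q l q).comp (Phi54 f A j) = ι := by
    apply RR_hom_ext
    · rw [AlgHom.comp_assoc, Phi54, ev_comp_ι, ← AlgHom.comp_assoc, ev_comp_ι, hl1]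
    · rw [G.map_comp, map_Phi54, gj54, map_mul, ← G.map_comp, ← AlgHom.comp_assoc, ev_comp_ι, hl2,
        f.inc_nat, map_ev_gam, ← hg]
  have h1 : ι x = 0 := by
    rw [← hcomp, AlgHom.comp_apply, hx, map_zero]
  have h2 : algebraMap (RR G A) T x = 0 := h1
  rw [IsLocalization.map_eq_zero_iff (Submonoid.powers (W54 f A j))] at h2
  obtain ⟨⟨_, k, rfl⟩, hk⟩ := h2
  exact ⟨k, hk⟩

private theorem span_W54 (A : Type) [CommRing A] [Algebra Λ A]
    (hspan : Ideal.span (Set.range fun j => f.w (f.e j) G.gen) = ⊤) :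
    Ideal.span (Set.range (W54 f A)) = ⊤ := by
  have h1 : W54 f A = (fun x => (Algebra.TensorProduct.includeRight : G.O →ₐ[Λ] RR G A) x) ∘
      fun j => f.w (f.e j) G.gen := by
    funext j
    exact W_eq54 f A j
  have h2 := congrArg (Ideal.map (Algebra.TensorProduct.includeRight : G.O →ₐ[Λ] RR G A)) hspan
  rw [Ideal.map_span, Ideal.map_top, ← Set.range_comp] at h2
  rw [h1]
  exact h2

private theorem zero_of_Phi54 (A : Type) [CommRing A] [Algebra Λ A]
    (hspan : Ideal.span (Set.range fun j => f.w (f.e j) G.gen) = ⊤) (x : RR G A)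
    (hx : ∀ j, Phi54 f A j x = 0) : x = 0 := by
  have h1 : Ideal.span (Set.range (W54 f A)) ≤ (Ideal.span {x}).annihilator.radical := by
    rw [Ideal.span_le]
    rintro _ ⟨j, rfl⟩
    obtain ⟨k, hk⟩ := Phi_ker54 f A j x (hx j)
    refine ⟨k, ?_⟩
    rw [Ideal.span, Submodule.mem_annihilator_span_singleton]
    exact hk
  rw [span_W54 f A hspan, top_le_iff, Ideal.radical_eq_top] at h1
  have h2 : (1 : RR G A) ∈ (Ideal.span {x}).annihilator := by
    rw [h1]
    trivial
  rw [Ideal.span, Submodule.mem_annihilator_span_singleton] at h2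
  rwa [one_smul] at h2

private theorem Phi_nat54 {A R : Type} [CommRing A] [Algebra Λ A] [CommRing R] [Algebra Λ R]
    (h : A →ₐ[Λ] R) (j : Fin f.c) (b : RR G A) :
    Phi54 f R j (RRmap G h b) =
      RRmap Q (Algebra.TensorProduct.map h (AlgHom.id Λ (f.Γ j))) (Phi54 f A j b) := by
  have h0 : (Phi54 f R j).comp (RRmap G h) =
      (RRmap Q (Algebra.TensorProduct.map h (AlgHom.id Λ (f.Γ j)))).comp (Phi54 f A j) := by
    apply RR_hom_ext
    · have h1 : (Phi54 f R j).comp (ιR G R) = (ιR Q (R ⊗[Λ] f.Γ j)).comp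
          Algebra.TensorProduct.includeLeft := ev_comp_ι G _ _
      have h2 : (Phi54 f A j).comp (ιR G A) = (ιR Q (A ⊗[Λ] f.Γ j)).comp
          Algebra.TensorProduct.includeLeft := ev_comp_ι G _ _
      rw [AlgHom.comp_assoc, RRmap_comp_ι, ← AlgHom.comp_assoc, h1, AlgHom.comp_assoc,
        AlgHom.comp_assoc, h2, ← AlgHom.comp_assoc (RRmap Q _), RRmap_comp_ι, AlgHom.comp_assoc]
      congr 1
    · rw [G.map_comp, map_RRmap_gam, map_Phi54, G.map_comp, map_Phi54, gj54, gj54, map_mul,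
        ← G.map_comp, ← AlgHom.comp_assoc, RRmap_comp_ι, f.inc_nat, map_RRmap_gam]
      congr 2
      rw [AlgHom.comp_assoc]
      congr 1
      ext a
      simp
  exact congrArg (fun φ => φ b) h0

variable {n : ℕ}

/-- the chart is an affine space over `A` -/
private noncomputable def E54 (a : ∀ j, f.Γ j ≃ₐ[Λ] MvPolynomial (Fin n) Λ) (A : Type) [CommRing A]
    [Algebra Λ A] (j : Fin f.c) : A ⊗[Λ] f.Γ j ≃ₐ[Λ] MvPolynomial (Fin n) A :=
  (Algebra.TensorProduct.congr AlgEquiv.refl (a j)).trans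
    ((MvPolynomial.algebraTensorAlgEquiv Λ A).restrictScalars Λ)

private theorem E_tmul54 (a : ∀ j, f.Γ j ≃ₐ[Λ] MvPolynomial (Fin n) Λ) (A : Type) [CommRing A]
    [Algebra Λ A] (j : Fin f.c) (x : A) (z : f.Γ j) :
    E54 f a A j (x ⊗ₜ z) = x • MvPolynomial.map (algebraMap Λ A) (a j z) := by
  simp [E54]

private theorem E_nat54 (a : ∀ j, f.Γ j ≃ₐ[Λ] MvPolynomial (Fin n) Λ) {A R : Type} [CommRing A]
    [Algebra Λ A] [CommRing R] [Algebra Λ R] (h : A →ₐ[Λ] R) (j : Fin f.c) (c : A ⊗[Λ] f.Γ j) :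
    E54 f a R j (Algebra.TensorProduct.map h (AlgHom.id Λ (f.Γ j)) c) =
      MvPolynomial.map (h : A →+* R) (E54 f a A j c) := by
  induction c using TensorProduct.induction_on with
  | zero => simp
  | tmul x z =>
    rw [Algebra.TensorProduct.map_tmul, AlgHom.coe_id, id_eq, E_tmul54, E_tmul54,
      MvPolynomial.smul_eq_C_mul, MvPolynomial.smul_eq_C_mul, map_mul, MvPolynomial.map_C,
      MvPolynomial.map_map, AlgHom.comp_algebraMap]
    rfl
  | add x y hx hy => rw [map_add, map_add, map_add, map_add, hx, hy]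

private theorem domain54 (a : ∀ j, f.Γ j ≃ₐ[Λ] MvPolynomial (Fin n) Λ) (hQ : Q.Good)
    (hspan : Ideal.span (Set.range fun j => f.w (f.e j) G.gen) = ⊤)
    (hmeet : ∀ i j, ∃ d, MvPolynomial.coeff d (a j (f.w (f.e i) (f.σ j))) = 1)
    (A : Type) [CommRing A] [Algebra Λ A] (hA : IsDomain A) : IsDomain (A ⊗[Λ] G.O) := by
  have hdA : ∀ j, IsDomain (A ⊗[Λ] f.Γ j) := fun j => (E54 f a A j).toMulEquiv.isDomain _
  have hdD : ∀ j, IsDomain (RR Q (A ⊗[Λ] f.Γ j)) := fun j => hQ.domain _ (hdA j)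
  have hW : ∀ i j, Phi54 f A j (W54 f A i) ≠ 0 := by
    intro i j
    rw [Phi_W54]
    refine mul_ne_zero ?_ ?_
    · rw [Ne, map_eq_zero_iff _ (ιR_inj Q)]
      intro h0
      obtain ⟨d, hd⟩ := hmeet i j
      have h1 := congrArg (E54 f a A j) h0
      rw [Algebra.TensorProduct.includeRight_apply, E_tmul54, one_smul, map_zero] at h1
      have h2 := congrArg (MvPolynomial.coeff d) h1
      rw [MvPolynomial.coeff_map, hd, map_one, MvPolynomial.coeff_zero] at h2
      exact one_ne_zero h2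
    · refine (chi_unit54 f (G.map ((ιR Q (A ⊗[Λ] f.Γ j)).comp
        Algebra.TensorProduct.includeRight) (f.σ j)) (f.e j) ?_ _).ne_zero
      rw [f.w_nat, f.w_σ, map_one]
  let j0 : Fin f.c := ⟨0, f.pos⟩
  have hinj : Function.Injective (Phi54 f A j0) := by
    rw [injective_iff_map_eq_zero]
    intro x hx
    obtain ⟨k, hk⟩ := Phi_ker54 f A j0 x hx
    refine zero_of_Phi54 f A hspan x fun i => ?_
    have h1 := congrArg (Phi54 f A i) hk
    rw [map_mul, map_pow, map_zero] at h1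
    exact (mul_eq_zero.1 h1).resolve_left (pow_ne_zero _ (hW j0 i))
  exact hinj.isDomain (Phi54 f A j0 : RR G A →+* RR Q (A ⊗[Λ] f.Γ j0))

private theorem content54 (a : ∀ j, f.Γ j ≃ₐ[Λ] MvPolynomial (Fin n) Λ) (hQ : Q.Good)
    (hspan : Ideal.span (Set.range fun j => f.w (f.e j) G.gen) = ⊤)
    (A : Type) [CommRing A] [Algebra Λ A] (b : A ⊗[Λ] G.O) : ∃ s : Finset A,
    ∀ (R : Type) [CommRing R] [Algebra Λ R] (h : A →ₐ[Λ] R),
      Algebra.TensorProduct.map h (AlgHom.id Λ G.O) b = 0 ↔ ∀ c ∈ s, h c = 0 := by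
  classical
  choose s hs using fun j => exists_content Q hQ (Phi54 f A j b)
  refine ⟨Finset.univ.biUnion fun j => (s j).biUnion fun c =>
    (E54 f a A j c).support.image fun d => MvPolynomial.coeff d (E54 f a A j c), ?_⟩
  intro R _ _ h
  have h1 : Algebra.TensorProduct.map h (AlgHom.id Λ G.O) b = RRmap G h b := by
    rw [RRmap_eq]
  rw [h1]
  have h2 : RRmap G h b = 0 ↔ ∀ j, Phi54 f R j (RRmap G h b) = 0 := by
    constructor
    · intro h3 j
      rw [h3, map_zero]
    · exact zero_of_Phi54 f R hspan _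
  rw [h2]
  have h3 : ∀ j, Phi54 f R j (RRmap G h b) = 0 ↔ ∀ c ∈ s j, ∀ d,
      h (MvPolynomial.coeff d (E54 f a A j c)) = 0 := by
    intro j
    rw [Phi_nat54, hs j]
    refine forall₂_congr fun c _ => ?_
    rw [← map_eq_zero_iff (E54 f a R j) (E54 f a R j).injective, E_nat54, MvPolynomial.ext_iff]
    refine forall_congr' fun d => ?_
    rw [MvPolynomial.coeff_map, MvPolynomial.coeff_zero]
    rfl
  simp only [h3, Finset.mem_biUnion, Finset.mem_univ, true_and, Finset.mem_image]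
  constructor
  · rintro h4 x ⟨j, c, hc, d, -, rfl⟩
    exact h4 j c hc d
  · intro h4 j c hc d
    by_cases hd : d ∈ (E54 f a A j c).support
    · exact h4 _ ⟨j, c, hc, d, hd, rfl⟩
    · rw [MvPolynomial.notMem_support_iff.1 hd, map_zero]

private theorem smooth54 (a : ∀ j, f.Γ j ≃ₐ[Λ] MvPolynomial (Fin n) Λ) (hQ : Q.Good)
    (hfp : Algebra.FinitePresentation Λ G.O)
    (hspan : Ideal.span (Set.range fun j => f.w (f.e j) G.gen) = ⊤) : Algebra.Smooth Λ G.O := by
  have hloc : ∀ j, Algebra.FormallySmooth Λ (Localization.Away (f.w (f.e j) G.gen)) := by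
    intro j
    let T := Localization.Away (f.w (f.e j) G.gen)
    let ι : G.O →ₐ[Λ] T := IsScalarTower.toAlgHom Λ G.O T
    have hunit : IsUnit (f.w (f.e j) (G.map ι G.gen)) := by
      rw [f.w_nat]
      exact IsLocalization.Away.algebraMap_isUnit (f.w (f.e j) G.gen)
    obtain ⟨⟨u, q⟩, hg, -⟩ := f.chart j (G.map ι G.gen) hunit
    simp only at hg
    let D := RR Q (f.Γ j)
    let g' : G.Pt D := G.map (ιR Q (f.Γ j)) (f.σ j) * f.inc (gam Q (f.Γ j))
    have hφu : IsUnit (G.ev g' (f.w (f.e j) G.gen)) := by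
      have h1 : f.w (f.e j) (G.map (ιR Q (f.Γ j)) (f.σ j)) = 1 := by
        rw [f.w_nat, f.w_σ, map_one]
      have h2 : G.ev g' (f.w (f.e j) G.gen) = f.χ (gam Q (f.Γ j)) := by
        rw [← f.w_nat, G.map_ev]
        simp only [g']
        rw [f.w_mul, h1, one_mul]
      rw [h2]
      exact chi_unit54 f _ _ h1 _
    let φ : T →ₐ[Λ] D := IsLocalization.liftAlgHom (M := Submonoid.powers (f.w (f.e j) G.gen))
      (f := G.ev g') (by
        rintro ⟨_, k, rfl⟩
        rw [map_pow]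
        exact hφu.pow k)
    have hφ : φ.comp ι = G.ev g' := by
      ext x
      exact IsLocalization.lift_eq _ x
    have hcomp : ((ev Q u q).comp φ).comp ι = ι := by
      rw [AlgHom.comp_assoc, hφ, ← G.ev_map ι, ← G.ev_map ((ev Q u q).comp (G.ev g'))]
      congr 1
      rw [G.map_comp, G.map_ev]
      simp only [g']
      rw [map_mul, ← G.map_comp, ev_comp_ι, f.inc_nat, map_ev_gam, ← hg]
    have hid : (ev Q u q).comp φ = AlgHom.id Λ T := by
      apply IsLocalization.algHom_ext (Submonoid.powers (f.w (f.e j) G.gen))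
      exact hcomp
    have hD : Algebra.FormallySmooth Λ D := by
      have h1 : Algebra.FormallySmooth Λ (f.Γ j) := Algebra.FormallySmooth.of_equiv (a j).symm
      have h2 := hQ.smooth
      exact Algebra.FormallySmooth.comp Λ (f.Γ j) D
    exact Algebra.FormallySmooth.of_split (ev Q u q) ((Ideal.Quotient.mkₐ _ _).comp φ) (by
      rw [← hid]
      rfl)
  have huniv : Algebra.smoothLocus Λ G.O = Set.univ := by
    rw [Set.eq_univ_iff_forall]
    intro p
    obtain ⟨j, hj⟩ : ∃ j, f.w (f.e j) G.gen ∉ p.asIdeal := by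
      by_contra hcon
      push Not at hcon
      have h1 : Ideal.span (Set.range fun j => f.w (f.e j) G.gen) ≤ p.asIdeal := by
        rw [Ideal.span_le]
        rintro _ ⟨j, rfl⟩
        exact hcon j
      rw [hspan, top_le_iff] at h1
      exact p.2.ne_top h1
    exact Algebra.basicOpen_subset_smoothLocus_iff.2 (hloc j) hj
  exact ⟨Algebra.smoothLocus_eq_univ_iff.1 huniv, hfp⟩

end

/-- Let `Q ⊂ G` be a flag whose charts are affine spaces; if the charts cover `G` and meet
pairwise, then `G` is good if `Q` is good. -/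
theorem good_of_flag {Λ : Type} [CommRing Λ] {Q G : GSch Λ} (f : Flag Q G) (hQ : Q.Good)
    (hfp : Algebra.FinitePresentation Λ G.O)
    (hspan : Ideal.span (Set.range fun j => f.w (f.e j) G.gen) = ⊤) (n : ℕ)
    (a : ∀ j, letI := f.ringΓ j; letI := f.algΓ j; f.Γ j ≃ₐ[Λ] MvPolynomial (Fin n) Λ)
    (hmeet : ∀ i j, ∃ d, MvPolynomial.coeff d (a j (letI := f.ringΓ j; letI := f.algΓ j;
      f.w (f.e i) (f.σ j))) = 1) : G.Good :=
  ⟨smooth54 f a hQ hfp hspan, domain54 f a hQ hspan hmeet, content54 f a hQ hspan⟩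

end Pool.Agent.Helper72.OC
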