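import Pool.Agent.Helper72.OC.Defs

/-!
# The linear groups of a preorder and their subgroups of determinant one
-/

set_option autoImplicit false

namespace Pool.Agent.Helper72.OC

open Pool.Agent.Helper72.OB (Pre Gp)

variable {n : ℕ}

/-- `G_r(R)` if `s` is false, its subgroup of elements of determinant one if `s` is true -/
def Gs (s : Prop) (r : Pre n) (R : Type) [CommRing R] : Subgroup (Gp r R) where
  carrier := {g | s → g.1.1.det = 1}
  one_mem' _ := Matrix.det_one
  mul_mem' {a b} ha hb h := by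
    have h1 : (a * b).1.1 = a.1.1 * b.1.1 := rfl
    rw [h1, Matrix.det_mul, ha h, hb h, one_mul]
  inv_mem' {a} ha h := by
    have h1 : a⁻¹.1.1 * a.1.1 = 1 := congrArg (fun x : Gp r R => x.1.1) (inv_mul_cancel a)
    have h2 : (a⁻¹.1.1 * a.1.1).det = 1 := by rw [h1]; exact Matrix.det_one
    rw [Matrix.det_mul, ha h, mul_one] at h2
    exact h2

/-- The map `Gs s r R → Gs s r R'` induced by a ring homomorphism `f : R → R'`. -/
def Gs.map (s : Prop) (r : Pre n) {R R' : Type} [CommRing R] [CommRing R'] (f : R →+* R') :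
    Gs s r R →* Gs s r R' where
  toFun g := ⟨Gp.map r f g.1, fun h => by
    have h1 : (Gp.map r f g.1).1.1 = f.mapMatrix g.1.1.1 := rfl
    rw [h1, ← RingHom.map_det, g.2 h, map_one]⟩
  map_one' := Subtype.ext (map_one _)
  map_mul' _ _ := Subtype.ext (map_mul _ _ _)

/-- The affine group scheme `G` over `Λ` represents the functor `Gs s r`. -/
def IsGs (s : Prop) (r : Pre n) {Λ : Type} [CommRing Λ] (G : GSch Λ) : Prop :=
  ∃ e : ∀ (R : Type) [CommRing R] [Algebra Λ R], G.Pt R ≃* Gs s r R,
    ∀ (R R' : Type) [CommRing R] [Algebra Λ R] [CommRing R'] [Algebra Λ R'] (f : R →ₐ[Λ] R')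
      (g : G.Pt R), e R' (G.map f g) = Gs.map s r (f : R →+* R') (e R g)

end Pool.Agent.Helper72.OC
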