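import Pool.Agent.Helper72.OC.Defs

/-!
# Orbit theorem for flagged groups: `Good` and `Solv` along isomorphisms, polynomial coordinates
-/

set_option autoImplicit false

namespace Pool.Agent.Helper72.OC

open TensorProduct

variable {Λ : Type} [CommRing Λ]

/-- the conditions of `Good` for an algebra -/
structure GoodAlg (Λ O : Type) [CommRing Λ] [CommRing O] [Algebra Λ O] : Prop where
  smooth : Algebra.Smooth Λ O
  domain : ∀ (A : Type) [CommRing A] [Algebra Λ A], IsDomain A → IsDomain (A ⊗[Λ] O)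
  content : ∀ (A : Type) [CommRing A] [Algebra Λ A] (b : A ⊗[Λ] O), ∃ s : Finset A,
    ∀ (R : Type) [CommRing R] [Algebra Λ R] (f : A →ₐ[Λ] R),
      Algebra.TensorProduct.map f (AlgHom.id Λ O) b = 0 ↔ ∀ c ∈ s, f c = 0

theorem GSch.Good.goodAlg {G : GSch Λ} (h : G.Good) : GoodAlg Λ G.O :=
  ⟨h.smooth, h.domain, h.content⟩

theorem GoodAlg.good {G : GSch Λ} (h : GoodAlg Λ G.O) : G.Good :=
  ⟨h.smooth, h.domain, h.content⟩

theorem GoodAlg.of_equiv {O O' : Type} [CommRing O] [Algebra Λ O] [CommRing O'] [Algebra Λ O']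
    (h : GoodAlg Λ O) (e : O ≃ₐ[Λ] O') : GoodAlg Λ O' := by
  refine ⟨?_, ?_, ?_⟩
  · have := h.smooth
    exact Algebra.Smooth.of_equiv e
  · intro A _ _ hA
    have := h.domain A hA
    exact (Algebra.TensorProduct.congr (AlgEquiv.refl : A ≃ₐ[Λ] A) e).symm.toMulEquiv.isDomain _
  · intro A _ _ b
    obtain ⟨s, hs⟩ := h.content A
      (Algebra.TensorProduct.map (AlgHom.id Λ A) (e.symm : O' →ₐ[Λ] O) b)
    refine ⟨s, fun R _ _ f => ?_⟩
    rw [← hs R f]
    have h1 : (Algebra.TensorProduct.map f (AlgHom.id Λ O)).comp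
        (Algebra.TensorProduct.map (AlgHom.id Λ A) (e.symm : O' →ₐ[Λ] O)) =
        (Algebra.TensorProduct.map (AlgHom.id Λ R) (e.symm : O' →ₐ[Λ] O)).comp
          (Algebra.TensorProduct.map f (AlgHom.id Λ O')) := by
      apply Algebra.TensorProduct.ext
      · ext a
        simp
      · ext a
        simp
    have h2 := congrArg (fun φ => φ b) h1
    simp only [AlgHom.comp_apply] at h2
    rw [h2]
    constructor
    · intro h3
      rw [h3, map_zero]
    · intro h3
      have h4 : Algebra.TensorProduct.map (AlgHom.id Λ R) (e : O →ₐ[Λ] O')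
          (Algebra.TensorProduct.map (AlgHom.id Λ R) (e.symm : O' →ₐ[Λ] O)
          (Algebra.TensorProduct.map f (AlgHom.id Λ O') b)) =
          Algebra.TensorProduct.map f (AlgHom.id Λ O') b := by
        rw [← AlgHom.comp_apply, ← Algebra.TensorProduct.map_comp]
        simp
      rw [← h4, h3, map_zero]

theorem coeff_map_tensor80 {O : Type} [CommRing O] [Algebra Λ O] {σ A R : Type} [CommRing A]
    [Algebra Λ A] [CommRing R] [Algebra Λ R] (f : A →ₐ[Λ] R) (b : A ⊗[Λ] MvPolynomial σ O)
    (d : σ →₀ ℕ) :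
    MvPolynomial.coeff d (MvPolynomial.rTensorAlgEquiv (R := Λ) (S := R) (N := O)
        (σ := σ) (Algebra.TensorProduct.map f (AlgHom.id Λ (MvPolynomial σ O)) b)) =
        Algebra.TensorProduct.map f (AlgHom.id Λ O) (MvPolynomial.coeff d
          (MvPolynomial.rTensorAlgEquiv (R := Λ) (S := A) (N := O) (σ := σ) b)) := by
  induction b using TensorProduct.induction_on with
  | zero => simp
  | tmul a p => simp
  | add x y hx hy => simp only [map_add, MvPolynomial.coeff_add, hx, hy]

theorem GoodAlg.mvPolynomial {O : Type} [CommRing O] [Algebra Λ O] (h : GoodAlg Λ O) (σ : Type)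
    [Finite σ] : GoodAlg Λ (MvPolynomial σ O) := by
  classical
  refine ⟨?_, ?_, ?_⟩
  · have := h.smooth
    have : Algebra.Smooth O (MvPolynomial σ O) := { }
    exact Algebra.Smooth.comp Λ O (MvPolynomial σ O)
  · intro A _ _ hA
    have := h.domain A hA
    exact (MvPolynomial.rTensorAlgEquiv (R := Λ) (S := A) (N := O) (σ := σ)).toMulEquiv.isDomain _
  · intro A _ _ b
    choose s hs using fun d : σ →₀ ℕ => h.content A
      (MvPolynomial.coeff d (MvPolynomial.rTensorAlgEquiv (R := Λ) (S := A) (N := O) (σ := σ) b))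
    refine ⟨(MvPolynomial.support
      (MvPolynomial.rTensorAlgEquiv (R := Λ) (S := A) (N := O) (σ := σ) b)).biUnion s,
      fun R _ _ f => ?_⟩
    have h2 : Algebra.TensorProduct.map f (AlgHom.id Λ (MvPolynomial σ O)) b = 0 ↔
        ∀ d, Algebra.TensorProduct.map f (AlgHom.id Λ O) (MvPolynomial.coeff d
          (MvPolynomial.rTensorAlgEquiv (R := Λ) (S := A) (N := O) (σ := σ) b)) = 0 := by
      rw [← EmbeddingLike.map_eq_zero_iff
        (f := MvPolynomial.rTensorAlgEquiv (R := Λ) (S := R) (N := O) (σ := σ)),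
        MvPolynomial.ext_iff]
      refine forall_congr' fun d => ?_
      rw [coeff_map_tensor80, MvPolynomial.coeff_zero]
    rw [h2]
    constructor
    · intro h3 c hc
      obtain ⟨d, _, hd⟩ := Finset.mem_biUnion.1 hc
      exact (hs d R f).1 (h3 d) c hd
    · intro h3 d
      by_cases hd : d ∈ (MvPolynomial.rTensorAlgEquiv (R := Λ) (S := A) (N := O) (σ := σ) b).support
      · exact (hs d R f).2 fun c hc => h3 c (Finset.mem_biUnion.2 ⟨d, hd, hc⟩)
      · rw [MvPolynomial.notMem_support_iff.1 hd, map_zero]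

/-- two algebra homomorphisms on `O` agree if they agree on the universal element -/
theorem GSch.hom_ext (G : GSch Λ) {R : Type} [CommRing R] [Algebra Λ R] {f f' : G.O →ₐ[Λ] R}
    (h : G.map f G.gen = G.map f' G.gen) : f = f' := by
  rw [← G.ev_map f, h, G.ev_map]

theorem GSch.map_id' (G : GSch Λ) {R : Type} [CommRing R] [Algebra Λ R] (g : G.Pt R) :
    G.map (AlgHom.id Λ R) g = g := by
  rw [← G.map_ev g, ← G.map_comp, AlgHom.id_comp]

/-- `G` is good if, as a functor to sets, it is the product of a good group scheme and of an affine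
space -/
theorem good_of_prod {G H : GSch Λ} (σ : Type) [Finite σ]
    (E : ∀ (R : Type) [CommRing R] [Algebra Λ R], G.Pt R ≃ H.Pt R × (σ → R))
    (nat : ∀ (R R' : Type) [CommRing R] [Algebra Λ R] [CommRing R'] [Algebra Λ R']
      (f : R →ₐ[Λ] R') (g : G.Pt R), E R' (G.map f g) = (H.map f (E R g).1, fun i => f ((E R g).2 i)))
    (hH : H.Good) : G.Good := by
  refine GoodAlg.good ((hH.goodAlg.mvPolynomial σ).of_equiv ?_)
  let iC : H.O →ₐ[Λ] MvPolynomial σ H.O := IsScalarTower.toAlgHom Λ H.O (MvPolynomial σ H.O)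
  let φ : G.O →ₐ[Λ] MvPolynomial σ H.O := G.ev ((E _).symm (H.map iC H.gen, MvPolynomial.X))
  let ψ : MvPolynomial σ H.O →ₐ[Λ] G.O :=
    MvPolynomial.aevalTower (H.ev (E _ G.gen).1) (E _ G.gen).2
  have hψC : ψ.comp iC = H.ev (E _ G.gen).1 := MvPolynomial.aevalTower_comp_toAlgHom _ _
  have hφ : E _ (G.map φ G.gen) = (H.map iC H.gen, MvPolynomial.X) := by
    rw [G.map_ev, Equiv.apply_symm_apply]
  have h1 : ψ.comp φ = AlgHom.id Λ G.O := by
    apply G.hom_ext
    apply (E _).injective
    rw [G.map_comp, nat, hφ, G.map_id']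
    apply Prod.ext
    · show H.map ψ (H.map iC H.gen) = _
      rw [← H.map_comp, hψC, H.map_ev]
    · funext i
      exact MvPolynomial.aevalTower_X _ _ i
  have h2 : φ.comp ψ = AlgHom.id Λ (MvPolynomial σ H.O) := by
    have h3 := nat _ _ φ G.gen
    rw [hφ] at h3
    have h4 : (φ.comp ψ).comp iC = iC := by
      apply H.hom_ext
      rw [AlgHom.comp_assoc, hψC, H.map_comp, H.map_ev]
      exact (congrArg Prod.fst h3).symm
    have h5 : ∀ i, φ (ψ (MvPolynomial.X i)) = MvPolynomial.X i := by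
      intro i
      have h6 : ψ (MvPolynomial.X i) = (E _ G.gen).2 i := MvPolynomial.aevalTower_X _ _ i
      rw [h6]
      exact (congrFun (congrArg Prod.snd h3) i).symm
    apply AlgHom.coe_ringHom_injective
    apply MvPolynomial.ringHom_ext
    · intro a
      exact congrArg (fun f => f a) h4
    · intro i
      exact h5 i
  exact AlgEquiv.ofAlgHom ψ φ h1 h2

/-- `Good` only depends on the functor -/
theorem good_of_equiv {G H : GSch Λ}
    (E : ∀ (R : Type) [CommRing R] [Algebra Λ R], G.Pt R ≃ H.Pt R)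
    (nat : ∀ (R R' : Type) [CommRing R] [Algebra Λ R] [CommRing R'] [Algebra Λ R']
      (f : R →ₐ[Λ] R') (g : G.Pt R), E R' (G.map f g) = H.map f (E R g))
    (hH : H.Good) : G.Good :=
  good_of_prod (H := H) Empty
    (fun R _ _ => (E R).trans (Equiv.prodUnique _ _).symm)
    (fun R R' _ _ _ _ f g => Prod.ext (nat R R' f g) (funext fun i => i.elim)) hH

/-- `Solv` only depends on the functor -/
def Solv.ofEquiv {G H : GSch Λ}
    (E : ∀ (R : Type) [CommRing R] [Algebra Λ R], G.Pt R ≃* H.Pt R)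
    (nat : ∀ (R R' : Type) [CommRing R] [Algebra Λ R] [CommRing R'] [Algebra Λ R']
      (f : R →ₐ[Λ] R') (g : G.Pt R), E R' (G.map f g) = H.map f (E R g))
    (s : Solv G) : Solv H := by
  have hcl : ∀ (k : Fin s.N) {R : Type} [CommRing R] [Algebra Λ R] (g : G.Pt R),
      g ∈ Subgroup.closure {g | ∃ h < k, ∃ c : R, g = s.x h c} →
      E R g ∈ Subgroup.closure {g | ∃ h < k, ∃ c : R, g = E R (s.x h c)} := by
    intro k R _ _ g hg
    have h1 := Subgroup.mem_map_of_mem (E R).toMonoidHom hg
    rw [MonoidHom.map_closure] at h1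
    refine Subgroup.closure_mono ?_ h1
    rintro _ ⟨g, ⟨h, hh, c, rfl⟩, rfl⟩
    exact ⟨h, hh, c, rfl⟩
  exact
  { N := s.N
    n := s.n
    x := fun k R _ _ c => E R (s.x k c)
    t := fun {R} _ _ => (E R).toMonoidHom.comp s.t
    β := s.β
    x_nat := fun k R R' _ _ _ _ f c => by rw [← nat, s.x_nat]
    t_nat := fun {R R'} _ _ _ _ f u => by
      show H.map f (E R (s.t u)) = E R' (s.t _)
      rw [← nat, s.t_nat]
    x_zero := fun k R _ _ => by rw [s.x_zero, map_one]
    x_add := fun k R _ _ a b => by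
      have h := hcl k _ (s.x_add k a b)
      rwa [map_mul, map_inv, map_mul] at h
    conj := fun k R _ _ u a => by
      have h := hcl k _ (s.conj k u a)
      rwa [map_mul, map_inv, map_mul, map_mul] at h
    comm := fun k l hl R _ _ a b => by
      have h := hcl l _ (s.comm k l hl a b)
      rwa [map_mul, map_inv, map_mul, map_mul] at h
    gen := fun R _ _ => by
      have h1 := congrArg (Subgroup.map (E R).toMonoidHom) (s.gen R)
      rw [MonoidHom.map_closure] at h1
      rw [eq_top_iff]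
      intro g _
      have h2 : g ∈ Subgroup.map (E R).toMonoidHom ⊤ :=
        ⟨(E R).symm g, trivial, (E R).apply_symm_apply g⟩
      rw [← h1] at h2
      refine Subgroup.closure_mono ?_ h2
      rintro _ ⟨g, (⟨k, c, rfl⟩ | ⟨u, rfl⟩), rfl⟩
      · exact Or.inl ⟨k, c, rfl⟩
      · exact Or.inr ⟨u, rfl⟩ }

end Pool.Agent.Helper72.OC
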