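import Pool.Agent.Helper72.OC.SpDefs
import Pool.Agent.Helper72.OC.GoodPoly
import Pool.Agent.Helper72.OB.Grp

/-!
# Orbit theorem for flagged groups, block K3c: the Borel subgroup of `Sp_2m`
-/

set_option autoImplicit false

namespace Pool.Agent.Helper72.OC

open Pool.Agent.Helper72.OB (Pre Gp Root xel diagG)

/-- the order of `Fin m` -/
def leP (m : ℕ) : Pre m := ⟨fun i j => i ≤ j, fun i => le_refl i, fun h h' => le_trans h h'⟩

theorem leP_antisymm (m : ℕ) : (leP m).Antisymm := fun _ _ h h' => le_antisymm h h'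

variable {m : ℕ}

theorem SpF_ext {R : Type} [CommRing R] {x y : SpF m m R} (h : x.1.1 = y.1.1) : x = y :=
  Subtype.ext (Subtype.ext h)

theorem FlagStab_iff {R : Type} [CommRing R] (a b c d : Matrix (Fin m) (Fin m) R) :
    FlagStab m m (Matrix.fromBlocks a b c d) ↔ (∀ i j, i < j → a j i = 0) ∧ c = 0 := by
  constructor
  · intro h
    refine ⟨fun i j hij => (h i i.2).1 j hij, ?_⟩
    ext j i
    exact (h i i.2).2 j
  · rintro ⟨h1, rfl⟩ i _
    exact ⟨fun j hj => h1 i j hj, fun j => rfl⟩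

theorem mem_sp80 {R : Type} [CommRing R] (a b d : Matrix (Fin m) (Fin m) R) :
    Matrix.fromBlocks a b 0 d ∈ Matrix.symplecticGroup (Fin m) R ↔
      b * a.transpose = a * b.transpose ∧ a * d.transpose = 1 := by
  rw [SymplecticGroup.mem_iff, Matrix.J, Matrix.fromBlocks_multiply, Matrix.fromBlocks_transpose,
    Matrix.fromBlocks_multiply, Matrix.fromBlocks_inj]
  simp only [Matrix.mul_zero, Matrix.mul_one, zero_add, add_zero, Matrix.mul_neg, Matrix.zero_mul,
    Matrix.transpose_zero, Matrix.neg_mul, neg_inj, neg_zero]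
  constructor
  · rintro ⟨h1, h2, h3, _⟩
    exact ⟨by rwa [← sub_eq_add_neg, sub_eq_zero] at h1, h2⟩
  · rintro ⟨h1, h2⟩
    refine ⟨by rw [← sub_eq_add_neg, sub_eq_zero, h1], h2, ?_, trivial⟩
    rw [← Matrix.transpose_inj, Matrix.transpose_mul, Matrix.transpose_transpose,
      Matrix.transpose_one, h2]

section

variable {R : Type} [CommRing R]

/-- the symplectic matrix `(1, s; 0, 1)` -/
def upS0 (s : Matrix (Fin m) (Fin m) R) (hs : s.transpose = s) :
    Matrix.symplecticGroup (Fin m) R :=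
  ⟨Matrix.fromBlocks 1 s 0 1, (mem_sp80 _ _ _).2 (by simp [hs])⟩

theorem upS0_mul (s s' : Matrix (Fin m) (Fin m) R) (hs : s.transpose = s)
    (hs' : s'.transpose = s') : upS0 s hs * upS0 s' hs' =
      upS0 (s + s') (by rw [Matrix.transpose_add, hs, hs']) := by
  apply Subtype.ext
  show Matrix.fromBlocks 1 s 0 1 * Matrix.fromBlocks 1 s' 0 1 = Matrix.fromBlocks 1 (s + s') 0 1
  rw [Matrix.fromBlocks_multiply]
  simp [add_comm]

theorem upS0_zero : upS0 (0 : Matrix (Fin m) (Fin m) R) (by simp) = 1 := by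
  apply Subtype.ext
  exact Matrix.fromBlocks_one

theorem upS0_inv (s : Matrix (Fin m) (Fin m) R) (hs : s.transpose = s) :
    (upS0 s hs)⁻¹ = upS0 (-s) (by rw [Matrix.transpose_neg, hs]) := by
  rw [inv_eq_iff_mul_eq_one, upS0_mul]
  simp only [add_neg_cancel]
  exact upS0_zero

theorem one_flag80 : ∀ i j : Fin m, i < j → (1 : Matrix (Fin m) (Fin m) R) j i = 0 :=
  fun _ _ h => Matrix.one_apply_ne h.ne'

/-- the element `(1, s; 0, 1)` of the Borel group -/
def upS (s : Matrix (Fin m) (Fin m) R) (hs : s.transpose = s) : SpF m m R :=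
  ⟨upS0 s hs, (FlagStab_iff _ _ _ _).2 ⟨one_flag80, rfl⟩, by
    rw [upS0_inv]
    exact (FlagStab_iff _ _ _ _).2 ⟨one_flag80, rfl⟩⟩

theorem upS_val (s : Matrix (Fin m) (Fin m) R) (hs : s.transpose = s) :
    (upS s hs).1.1 = Matrix.fromBlocks 1 s 0 1 := rfl

theorem upS_add (s s' : Matrix (Fin m) (Fin m) R) (hs : s.transpose = s)
    (hs' : s'.transpose = s') (h : (s + s').transpose = s + s') :
    upS (s + s') h = upS s hs * upS s' hs' :=
  Subtype.ext (upS0_mul s s' hs hs').symm

theorem upS_zero (h : (0 : Matrix (Fin m) (Fin m) R).transpose = 0) : upS 0 h = 1 :=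
  Subtype.ext upS0_zero

theorem upS_neg (s : Matrix (Fin m) (Fin m) R) (hs : s.transpose = s)
    (h : (-s).transpose = -s) : upS (-s) h = (upS s hs)⁻¹ :=
  Subtype.ext (upS0_inv s hs).symm

theorem upS_congr {s s' : Matrix (Fin m) (Fin m) R} (hs : s.transpose = s) (h : s = s') :
    upS s hs = upS s' (h ▸ hs) := by
  subst h
  rfl

theorem Gp_mul_inv80 {r : Pre m} (a : Gp r R) : a.1.1 * a⁻¹.1.1 = 1 :=
  congrArg (fun x : Gp r R => x.1.1) (mul_inv_cancel a)

theorem Gp_inv_mul80 {r : Pre m} (a : Gp r R) : a⁻¹.1.1 * a.1.1 = 1 :=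
  congrArg (fun x : Gp r R => x.1.1) (inv_mul_cancel a)

/-- the symplectic matrix `(a, 0; 0, a^-T)` -/
def io0 (a : Gp (leP m) R) : Matrix.symplecticGroup (Fin m) R :=
  ⟨Matrix.fromBlocks a.1.1 0 0 a⁻¹.1.1.transpose, (mem_sp80 _ _ _).2 (by
    rw [Matrix.transpose_transpose, Gp_mul_inv80]
    simp)⟩

/-- `a ↦ (a, 0; 0, a^-T)` -/
def io0Hom (R : Type) [CommRing R] : Gp (leP m) R →* Matrix.symplecticGroup (Fin m) R where
  toFun := io0
  map_one' := by
    apply Subtype.ext
    show Matrix.fromBlocks (1 : Gp (leP m) R).1.1 0 0 (1 : Gp (leP m) R)⁻¹.1.1.transpose = 1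
    rw [inv_one]
    have h : (1 : Gp (leP m) R).1.1 = 1 := rfl
    rw [h, Matrix.transpose_one, Matrix.fromBlocks_one]
  map_mul' a b := by
    apply Subtype.ext
    show Matrix.fromBlocks (a * b).1.1 0 0 (a * b)⁻¹.1.1.transpose =
      Matrix.fromBlocks a.1.1 0 0 a⁻¹.1.1.transpose *
        Matrix.fromBlocks b.1.1 0 0 b⁻¹.1.1.transpose
    rw [Matrix.fromBlocks_multiply, mul_inv_rev]
    have h1 : (a * b).1.1 = a.1.1 * b.1.1 := rfl
    have h2 : (b⁻¹ * a⁻¹).1.1 = b⁻¹.1.1 * a⁻¹.1.1 := rfl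
    rw [h1, h2, Matrix.transpose_mul]
    simp

/-- `a ↦ (a, 0; 0, a^-T)` -/
def io (R : Type) [CommRing R] : Gp (leP m) R →* SpF m m R :=
  (io0Hom R).codRestrict _ fun a => by
    have key : ∀ a : Gp (leP m) R, FlagStab m m (io0Hom R a).1 := fun a =>
      (FlagStab_iff _ _ _ _).2 ⟨fun i j hij => (a.2 j i (not_le_of_gt hij)).1, rfl⟩
    refine ⟨key a, ?_⟩
    rw [← map_inv]
    exact key a⁻¹

theorem io_val (a : Gp (leP m) R) :
    (io R a).1.1 = Matrix.fromBlocks a.1.1 0 0 a⁻¹.1.1.transpose := rfl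

/-- conjugation of `(1, s; 0, 1)` by `(a, 0; 0, a^-T)` -/
theorem io_mul_upS (a : Gp (leP m) R) (s : Matrix (Fin m) (Fin m) R) (hs : s.transpose = s)
    (h : (a.1.1 * s * a.1.1.transpose).transpose = a.1.1 * s * a.1.1.transpose) :
    io R a * upS s hs = upS (a.1.1 * s * a.1.1.transpose) h * io R a := by
  apply SpF_ext
  show (io R a).1.1 * (upS s hs).1.1 = (upS _ h).1.1 * (io R a).1.1
  rw [io_val, upS_val, upS_val, Matrix.fromBlocks_multiply, Matrix.fromBlocks_multiply]
  have h1 : a.1.1.transpose * a⁻¹.1.1.transpose = 1 := by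
    rw [← Matrix.transpose_mul, Gp_inv_mul80, Matrix.transpose_one]
  congr 1
  · simp
  · rw [Matrix.mul_assoc (a.1.1 * s), h1]
    simp
  · simp
  · simp

/-- shape of the elements of the Borel group -/
theorem SpF_blocks (b : SpF m m R) : b.1.1 =
    Matrix.fromBlocks b.1.1.toBlocks₁₁ b.1.1.toBlocks₁₂ 0 b.1.1.toBlocks₂₂ := by
  have h1 : b.1.1.toBlocks₂₁ = 0 := by
    have h2 := b.2.1
    change FlagStab m m b.1.1 at h2
    rw [← Matrix.fromBlocks_toBlocks b.1.1, FlagStab_iff] at h2
    exact h2.2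
  rw [← h1, Matrix.fromBlocks_toBlocks]

theorem SpF_upper (b : SpF m m R) (i j : Fin m) (h : i < j) : b.1.1.toBlocks₁₁ j i = 0 := by
  have h2 := b.2.1
  change FlagStab m m b.1.1 at h2
  rw [← Matrix.fromBlocks_toBlocks b.1.1, FlagStab_iff] at h2
  exact h2.1 i j h

theorem SpF_rel (b : SpF m m R) :
    b.1.1.toBlocks₁₂ * b.1.1.toBlocks₁₁.transpose = b.1.1.toBlocks₁₁ * b.1.1.toBlocks₁₂.transpose ∧
      b.1.1.toBlocks₁₁ * b.1.1.toBlocks₂₂.transpose = 1 := by
  rw [← mem_sp80, ← SpF_blocks]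
  exact b.1.2

theorem SpF_mul_inv (b : SpF m m R) : b.1.1.toBlocks₁₁ * b⁻¹.1.1.toBlocks₁₁ = 1 := by
  have h1 : b.1.1 * b⁻¹.1.1 = 1 := congrArg (fun x : SpF m m R => x.1.1) (mul_inv_cancel b)
  rw [SpF_blocks b, SpF_blocks b⁻¹, Matrix.fromBlocks_multiply, ← Matrix.fromBlocks_one,
    Matrix.fromBlocks_inj] at h1
  have h2 := h1.1
  rwa [Matrix.mul_zero, add_zero] at h2

theorem SpF_inv_mul (b : SpF m m R) : b⁻¹.1.1.toBlocks₁₁ * b.1.1.toBlocks₁₁ = 1 := by
  have h := SpF_mul_inv b⁻¹
  rwa [inv_inv] at h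

/-- the diagonal block of an element of the Borel group -/
def aB (b : SpF m m R) : Gp (leP m) R :=
  ⟨⟨b.1.1.toBlocks₁₁, b⁻¹.1.1.toBlocks₁₁, SpF_mul_inv b, SpF_inv_mul b⟩, fun i j h =>
    ⟨SpF_upper b j i (lt_of_not_ge h), SpF_upper b⁻¹ j i (lt_of_not_ge h)⟩⟩

theorem aB_val (b : SpF m m R) : (aB b).1.1 = b.1.1.toBlocks₁₁ := rfl

/-- the symmetric matrix of an element of the Borel group -/
def sB (b : SpF m m R) : Matrix (Fin m) (Fin m) R :=
  b.1.1.toBlocks₁₂ * b.1.1.toBlocks₁₁.transpose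

theorem sB_symm (b : SpF m m R) : (sB b).transpose = sB b := by
  rw [sB, Matrix.transpose_mul, Matrix.transpose_transpose, (SpF_rel b).1]

theorem SpF_decomp (b : SpF m m R) : upS (sB b) (sB_symm b) * io R (aB b) = b := by
  have h1 : b.1.1.toBlocks₂₂ = (aB b)⁻¹.1.1.transpose := by
    rw [← Matrix.transpose_inj, Matrix.transpose_transpose]
    have h2 := (SpF_rel b).2
    have h3 := Gp_inv_mul80 (aB b)
    rw [aB_val] at h3
    rw [← one_mul (Matrix.transpose _), ← h3, mul_assoc, h2, mul_one]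
  have h4 : b.1.1.toBlocks₁₁.transpose * (aB b)⁻¹.1.1.transpose = 1 := by
    rw [← aB_val, ← Matrix.transpose_mul, Gp_inv_mul80, Matrix.transpose_one]
  apply SpF_ext
  show (upS _ _).1.1 * (io R _).1.1 = _
  rw [upS_val, io_val, Matrix.fromBlocks_multiply]
  conv_rhs => rw [SpF_blocks b]
  congr 1
  · simp [aB_val]
  · rw [sB, Matrix.mul_assoc, h4]
    simp
  · simp
  · rw [h1]
    simp

theorem aB_decomp (s : Matrix (Fin m) (Fin m) R) (hs : s.transpose = s) (a : Gp (leP m) R) :
    aB (upS s hs * io R a) = a := by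
  apply Pool.Agent.Helper72.OB.Gp.ext_val
  rw [aB_val]
  show ((upS _ _).1.1 * (io R _).1.1).toBlocks₁₁ = _
  rw [upS_val, io_val, Matrix.fromBlocks_multiply, Matrix.toBlocks_fromBlocks₁₁]
  simp

theorem sB_decomp (s : Matrix (Fin m) (Fin m) R) (hs : s.transpose = s) (a : Gp (leP m) R) :
    sB (upS s hs * io R a) = s := by
  have h4 : a⁻¹.1.1.transpose * a.1.1.transpose = 1 := by
    rw [← Matrix.transpose_mul, Gp_mul_inv80, Matrix.transpose_one]
  rw [sB]
  show ((upS _ _).1.1 * (io R _).1.1).toBlocks₁₂ *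
    ((upS _ _).1.1 * (io R _).1.1).toBlocks₁₁.transpose = _
  rw [upS_val, io_val, Matrix.fromBlocks_multiply, Matrix.toBlocks_fromBlocks₁₁,
    Matrix.toBlocks_fromBlocks₁₂]
  simp only [Matrix.one_mul, Matrix.mul_zero, zero_add, add_zero]
  rw [Matrix.mul_assoc, h4, Matrix.mul_one]

/-- the symmetric matrix with given upper triangular part -/
def symM (f : {p : Fin m × Fin m // p.1 ≤ p.2} → R) : Matrix (Fin m) (Fin m) R :=
  fun i j => f ⟨(min i j, max i j), min_le_max⟩

theorem symM_symm (f : {p : Fin m × Fin m // p.1 ≤ p.2} → R) : (symM f).transpose = symM f := by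
  ext i j
  simp only [Matrix.transpose_apply, symM, min_comm, max_comm]

theorem symM_of (s : Matrix (Fin m) (Fin m) R) (hs : s.transpose = s) :
    symM (fun p => s p.1.1 p.1.2) = s := by
  ext i j
  show s (min i j) (max i j) = s i j
  rcases le_total i j with h | h
  · rw [min_eq_left h, max_eq_right h]
  · rw [min_eq_right h, max_eq_left h]
    exact congrFun (congrFun hs i) j

theorem symM_apply (f : {p : Fin m × Fin m // p.1 ≤ p.2} → R)
    (p : {p : Fin m × Fin m // p.1 ≤ p.2}) : symM f p.1.1 p.1.2 = f p := by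
  obtain ⟨⟨i, j⟩, h⟩ := p
  simp only [symM, min_eq_left h, max_eq_right h]

/-- the Borel group is as a set the product of the Borel group of `GL_m` and symmetric matrices -/
def eqB : SpF m m R ≃ Gp (leP m) R × ({p : Fin m × Fin m // p.1 ≤ p.2} → R) where
  toFun b := (aB b, fun p => sB b p.1.1 p.1.2)
  invFun q := upS (symM q.2) (symM_symm q.2) * io R q.1
  left_inv b := by
    have h1 := SpF_decomp b
    rw [upS_congr (sB_symm b) (symM_of _ (sB_symm b)).symm] at h1
    exact h1
  right_inv q := by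
    apply Prod.ext
    · exact aB_decomp _ _ _
    · funext p
      show sB _ p.1.1 p.1.2 = _
      rw [sB_decomp]
      exact symM_apply q.2 p

end

theorem aB_map {R R' : Type} [CommRing R] [CommRing R'] (f : R →+* R') (b : SpF m m R)
    (b' : SpF m m R') (h : b'.1.1 = b.1.1.map f) : aB b' = Gp.map (leP m) f (aB b) := by
  apply Pool.Agent.Helper72.OB.Gp.ext'
  intro i j _
  rw [Pool.Agent.Helper72.OB.Gp.map_val, aB_val, aB_val, h]
  rfl

theorem sB_map {R R' : Type} [CommRing R] [CommRing R'] (f : R →+* R') (b : SpF m m R)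
    (b' : SpF m m R') (h : b'.1.1 = b.1.1.map f) : sB b' = (sB b).map f := by
  rw [sB, sB, h, Matrix.map_mul]
  rfl

theorem good_SpB {Λ : Type} [CommRing Λ] {G H : GSch Λ} (hG : IsSpF m m G)
    (e : ∀ (R : Type) [CommRing R] [Algebra Λ R], H.Pt R ≃ Gp (leP m) R)
    (nat : ∀ (R R' : Type) [CommRing R] [Algebra Λ R] [CommRing R'] [Algebra Λ R'] (f : R →ₐ[Λ] R')
      (g : H.Pt R), e R' (H.map f g) = Gp.map (leP m) (f : R →+* R') (e R g))
    (hH : H.Good) : G.Good := by
  obtain ⟨E, hE⟩ := hG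
  refine good_of_prod (H := H) {p : Fin m × Fin m // p.1 ≤ p.2}
    (fun R _ _ => ((E R).toEquiv.trans eqB).trans ((e R).symm.prodCongr (Equiv.refl _))) ?_ hH
  intro R R' _ _ _ _ f g
  apply Prod.ext
  · show (e R').symm (aB (E R' (G.map f g))) = H.map f ((e R).symm (aB (E R g)))
    rw [Equiv.symm_apply_eq, nat, Equiv.apply_symm_apply]
    exact aB_map _ _ _ (hE R R' f g)
  · funext p
    show sB (E R' (G.map f g)) p.1.1 p.1.2 = f (sB (E R g) p.1.1 p.1.2)
    rw [sB_map (f : R →+* R') _ _ (hE R R' f g)]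
    rfl

/-! ### root subgroups -/

theorem symM_add {R : Type} [CommRing R] (f g : {p : Fin m × Fin m // p.1 ≤ p.2} → R) :
    symM (f + g) = symM f + symM g := rfl

theorem symM_zero {R : Type} [CommRing R] :
    symM (0 : {p : Fin m × Fin m // p.1 ≤ p.2} → R) = 0 := rfl

theorem symM_sub {R : Type} [CommRing R] (f g : {p : Fin m × Fin m // p.1 ≤ p.2} → R) :
    symM (f - g) = symM f - symM g := rfl

theorem symM_map {R R' : Type} [CommRing R] [CommRing R'] (φ : R →+* R')
    (f : {p : Fin m × Fin m // p.1 ≤ p.2} → R) : symM (fun p => φ (f p)) = (symM f).map φ := rfl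

/-- the element `(1, s; 0, 1)` with `s` given by its upper triangular part -/
def sS {R : Type} [CommRing R] (f : {p : Fin m × Fin m // p.1 ≤ p.2} → R) : SpF m m R :=
  upS (symM f) (symM_symm f)

theorem sS_add {R : Type} [CommRing R] (f g : {p : Fin m × Fin m // p.1 ≤ p.2} → R) :
    sS (f + g) = sS f * sS g := upS_add _ _ (symM_symm f) (symM_symm g) _

theorem sS_zero {R : Type} [CommRing R] :
    sS (0 : {p : Fin m × Fin m // p.1 ≤ p.2} → R) = 1 := upS_zero _

theorem sS_map {R R' : Type} [CommRing R] [CommRing R'] (φ : R →+* R')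
    (f : {p : Fin m × Fin m // p.1 ≤ p.2} → R) :
    (sS fun p => φ (f p)).1.1 = (sS f).1.1.map φ := by
  show Matrix.fromBlocks 1 ((symM f).map φ) 0 1 = (Matrix.fromBlocks 1 (symM f) 0 1).map φ
  rw [Matrix.fromBlocks_map]
  congr 1
  · simp
  · simp
  · simp

theorem io_map {R R' : Type} [CommRing R] [CommRing R'] (φ : R →+* R') (a : Gp (leP m) R) :
    (io R' (Gp.map (leP m) φ a)).1.1 = (io R a).1.1.map φ := by
  rw [io_val, io_val, Matrix.fromBlocks_map, ← map_inv]
  congr 1
  · simp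
  · simp

/-- closure of the groups `sS` -/
theorem sS_mem {R : Type} [CommRing R] (H : Subgroup (SpF m m R)) (W : ℤ)
    (hH : ∀ (p : {p : Fin m × Fin m // p.1 ≤ p.2}) (c : R),
      (p.1.1 : ℤ) + (p.1.2 : ℤ) < W → sS (Pi.single p c) ∈ H)
    (f : {p : Fin m × Fin m // p.1 ≤ p.2} → R)
    (hf : ∀ p, f p ≠ 0 → (p.1.1 : ℤ) + (p.1.2 : ℤ) < W) : sS f ∈ H := by
  have key : ∀ t : Finset {p : Fin m × Fin m // p.1 ≤ p.2},
      sS (∑ p ∈ t, Pi.single p (f p)) ∈ H := by
    intro t
    induction t using Finset.induction_on with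
    | empty =>
      rw [Finset.sum_empty, sS_zero]
      exact H.one_mem
    | insert a t ha ih =>
      rw [Finset.sum_insert ha, sS_add]
      refine H.mul_mem ?_ ih
      by_cases h : f a = 0
      · rw [h, Pi.single_zero, sS_zero]
        exact H.one_mem
      · exact hH a _ (hf a h)
  have h := key Finset.univ
  rwa [Finset.univ_sum_single] at h

/-- the index set of the root subgroups of the Borel group -/
abbrev IxB (m : ℕ) : Type := {p : Fin m × Fin m // p.1 ≤ p.2} ⊕ Root (leP m)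

/-- the weight used to sort the root subgroups -/
noncomputable def wtB : IxB m → ℤ
  | .inl p => (p.1.1 : ℤ) + (p.1.2 : ℤ)
  | .inr k => 3 * (m : ℤ) - (k.height : ℤ)

/-- the characters -/
def chB : IxB m → Fin m → ℤ
  | .inl p => Pi.single p.1.1 1 + Pi.single p.1.2 1
  | .inr k => Pi.single k.fst 1 - Pi.single k.snd 1

/-- the root subgroups of the Borel group -/
noncomputable def xB (i : IxB m) {R : Type} [CommRing R] (c : R) : SpF m m R :=
  match i with
  | .inl p => sS (Pi.single p c)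
  | .inr k => io R (xel k c)

theorem xB_add (i : IxB m) {R : Type} [CommRing R] (a b : R) : xB i (a + b) = xB i a * xB i b := by
  rcases i with p | k
  · show sS (Pi.single p (a + b)) = _
    rw [Pi.single_add, sS_add]
    rfl
  · show io R (xel k (a + b)) = _
    rw [Pool.Agent.Helper72.OB.xel_add, map_mul]
    rfl

theorem xB_zero (i : IxB m) (R : Type) [CommRing R] : xB i (0 : R) = 1 := by
  rcases i with p | k
  · show sS (Pi.single p (0 : R)) = _
    rw [Pi.single_zero, sS_zero]
  · show io R (xel k 0) = _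
    rw [Pool.Agent.Helper72.OB.xel_zero, map_one]

theorem xB_map (i : IxB m) {R R' : Type} [CommRing R] [CommRing R'] (φ : R →+* R') (c : R) :
    (xB i (φ c)).1.1 = (xB i c).1.1.map φ := by
  rcases i with p | k
  · show (sS (Pi.single p (φ c))).1.1 = (sS (Pi.single p c)).1.1.map φ
    rw [← sS_map]
    congr 3
    funext q
    by_cases h : q = p
    · subst h
      simp
    · simp [Pi.single_eq_of_ne h]
  · show (io R' (xel k (φ c))).1.1 = (io R (xel k c)).1.1.map φ
    rw [← io_map, Pool.Agent.Helper72.OB.map_xel]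

/-- the torus of the Borel group -/
noncomputable def tB (R : Type) [CommRing R] : (Fin m → Rˣ) →* SpF m m R where
  toFun u := io R (diagG (leP m) u)
  map_one' := by
    have h := Pool.Agent.Helper72.OB.diagG_one (r := leP m) R
    show io R (diagG (leP m) fun _ => (1 : Rˣ)) = 1
    rw [h, map_one]
  map_mul' u v := by
    have h := Pool.Agent.Helper72.OB.diagG_mul (r := leP m) u v
    show io R (diagG (leP m) fun i => u i * v i) = _
    rw [h, map_mul]

theorem tB_map {R R' : Type} [CommRing R] [CommRing R'] (φ : R →+* R') (u : Fin m → Rˣ) :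
    (tB R' fun i => Units.map (φ : R →* R') (u i)).1.1 = (tB R u).1.1.map φ := by
  show (io R' (diagG (leP m) fun i => Units.map (φ : R →* R') (u i))).1.1 = _
  rw [← Pool.Agent.Helper72.OB.map_diagG, io_map]
  rfl

theorem io_mul_sS {R : Type} [CommRing R] (a : Gp (leP m) R)
    (f g : {p : Fin m × Fin m // p.1 ≤ p.2} → R)
    (h : a.1.1 * symM f * a.1.1.transpose = symM g) : io R a * sS f = sS g * io R a := by
  have h1 := io_mul_upS a (symM f) (symM_symm f) (by rw [h, symM_symm])
  rw [upS_congr _ h] at h1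
  exact h1

theorem prod_single80 {R : Type} [CommRing R] (u : Fin m → Rˣ) (a : Fin m) :
    ∏ i, u i ^ (Pi.single a 1 : Fin m → ℤ) i = u a := by
  rw [Finset.prod_eq_single a]
  · rw [Pi.single_eq_same, zpow_one]
  · intro b _ hb
    rw [Pi.single_eq_of_ne hb, zpow_zero]
  · intro h
    exact absurd (Finset.mem_univ _) h

theorem tB_mul_xB {R : Type} [CommRing R] (i : IxB m) (u : Fin m → Rˣ) (a : R) :
    tB R u * xB i a = xB i (((∏ j, u j ^ chB i j : Rˣ) : R) * a) * tB R u := by
  rcases i with p | k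
  · have h1 : (∏ j, u j ^ chB (.inl p) j : Rˣ) = u p.1.1 * u p.1.2 := by
      simp only [chB, Pi.add_apply, zpow_add, Finset.prod_mul_distrib, prod_single80]
    rw [h1]
    show io R (diagG (leP m) u) * sS (Pi.single p a) = sS (Pi.single p _) * io R (diagG (leP m) u)
    apply io_mul_sS
    rw [Pool.Agent.Helper72.OB.diagG_val, Matrix.diagonal_transpose]
    ext i j
    rw [Matrix.mul_diagonal, Matrix.diagonal_mul]
    show (u i : R) * (Pi.single p a : _ → R) ⟨(min i j, max i j), min_le_max⟩ * (u j : R) =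
      (Pi.single p _ : _ → R) ⟨(min i j, max i j), min_le_max⟩
    by_cases h : (⟨(min i j, max i j), min_le_max⟩ : {p : Fin m × Fin m // p.1 ≤ p.2}) = p
    · subst h
      rw [Pi.single_eq_same, Pi.single_eq_same]
      rcases le_total i j with h2 | h2
      · simp only [min_eq_left h2, max_eq_right h2, Units.val_mul]
        ring
      · simp only [min_eq_right h2, max_eq_left h2, Units.val_mul]
        ring
    · rw [Pi.single_eq_of_ne h, Pi.single_eq_of_ne h]
      ring
  · have h1 : (∏ j, u j ^ chB (.inr k) j : Rˣ) = u k.fst * (u k.snd)⁻¹ := by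
      simp only [chB, Pi.sub_apply, zpow_sub, Finset.prod_mul_distrib, prod_single80,
        Finset.prod_inv_distrib]
    rw [h1]
    show io R (diagG (leP m) u) * io R (xel k a) = io R (xel k _) * io R (diagG (leP m) u)
    have h2 : ((u k.fst * (u k.snd)⁻¹ : Rˣ) : R) * a =
        (u k.fst : R) * a * ((u k.snd)⁻¹ : Rˣ) := by
      rw [Units.val_mul]
      ring
    rw [← map_mul, ← map_mul, Pool.Agent.Helper72.OB.diagG_mul_xel, h2]

theorem height_le80 (k : Root (leP m)) : k.height ≤ m := by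
  unfold Root.height
  refine (Finite.card_subtype_le _).trans ?_
  simp

theorem wtB_inl (p : {p : Fin m × Fin m // p.1 ≤ p.2}) : wtB (.inl p) < 2 * (m : ℤ) := by
  show (p.1.1 : ℤ) + (p.1.2 : ℤ) < 2 * (m : ℤ)
  have h1 := p.1.1.2
  have h2 := p.1.2.2
  omega

theorem wtB_inr (k : Root (leP m)) : 2 * (m : ℤ) ≤ wtB (.inr k) := by
  show 2 * (m : ℤ) ≤ 3 * (m : ℤ) - (k.height : ℤ)
  have h1 := height_le80 k
  omega

/-- a root subgroup of `GL_m` acts on the symmetric matrices unipotently -/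
theorem xel_conj80 {R : Type} [CommRing R] (k : Root (leP m)) (a : R)
    (f : {p : Fin m × Fin m // p.1 ≤ p.2} → R) (W : ℤ)
    (hf : ∀ p, f p ≠ 0 → (p.1.1 : ℤ) + (p.1.2 : ℤ) ≤ W) :
    ∃ g : {p : Fin m × Fin m // p.1 ≤ p.2} → R,
      (∀ p, g p ≠ 0 → (p.1.1 : ℤ) + (p.1.2 : ℤ) < W) ∧
      io R (xel k a) * sS f = sS g * sS f * io R (xel k a) := by
  have hk : (k.fst : ℤ) < (k.snd : ℤ) := by
    have h1 : k.fst < k.snd := lt_of_le_of_ne k.rel k.ne
    exact_mod_cast h1
  have hs : ∀ i j, symM f i j ≠ 0 → (i : ℤ) + (j : ℤ) ≤ W := by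
    intro i j h
    have h1 := hf _ h
    rcases le_total i j with h2 | h2
    · simpa only [min_eq_left h2, max_eq_right h2] using h1
    · simp only [min_eq_right h2, max_eq_left h2] at h1
      omega
  obtain ⟨T, hT⟩ : ∃ T, T = (xel k a).1.1 * symM f * (xel k a).1.1.transpose := ⟨_, rfl⟩
  have hTs : T.transpose = T := by
    rw [hT, Matrix.transpose_mul, Matrix.transpose_mul, Matrix.transpose_transpose, symM_symm,
      Matrix.mul_assoc]
  have htr : (xel k a).1.1.transpose = Matrix.transvection k.snd k.fst a := by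
    rw [Pool.Agent.Helper72.OB.xel_val]
    unfold Matrix.transvection
    rw [Matrix.transpose_add, Matrix.transpose_one, Matrix.transpose_single]
  have hent : ∀ i j, T i j - symM f i j = (if i = k.fst then a * symM f k.snd j else 0) +
      (if j = k.fst then a * (symM f i k.snd + if i = k.fst then a * symM f k.snd k.snd else 0)
        else 0) := by
    intro i j
    have e1 : ∀ j, ((xel k a).1.1 * symM f) i j =
        symM f i j + if i = k.fst then a * symM f k.snd j else 0 := by
      intro j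
      rw [Pool.Agent.Helper72.OB.xel_val]
      split_ifs with h
      · rw [h, Matrix.transvection_mul_apply_same]
      · rw [Matrix.transvection_mul_apply_of_ne _ _ _ _ h, add_zero]
    rw [hT, htr]
    by_cases hj : j = k.fst
    · rw [if_pos hj, hj, Matrix.mul_transvection_apply_same, e1, e1]
      ring
    · rw [if_neg hj, Matrix.mul_transvection_apply_of_ne _ _ _ _ hj, e1]
      ring
  refine ⟨fun p => T p.1.1 p.1.2 - f p, ?_, ?_⟩
  · intro p hp
    have h1 : symM f p.1.1 p.1.2 = f p := symM_apply f p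
    change T p.1.1 p.1.2 - f p ≠ 0 at hp
    rw [← h1, hent] at hp
    by_contra hc
    apply hp
    have z : ∀ i j : Fin m, W < (i : ℤ) + (j : ℤ) → symM f i j = 0 := by
      intro i j hij
      by_contra h0
      exact absurd (hs i j h0) (not_le.2 hij)
    have t1 : (if p.1.1 = k.fst then a * symM f k.snd p.1.2 else 0) = 0 := by
      split_ifs with h
      · rw [z _ _ (by rw [h] at hc; omega), mul_zero]
      · rfl
    have t3 : (if p.1.2 = k.fst then a * (symM f p.1.1 k.snd +
        if p.1.1 = k.fst then a * symM f k.snd k.snd else 0) else 0) = 0 := by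
      split_ifs with h h'
      · rw [z _ _ (by rw [h] at hc; omega), z _ _ (by rw [h, h'] at hc; omega)]
        ring
      · rw [z _ _ (by rw [h] at hc; omega)]
        ring
      · rfl
    rw [t1, t3, add_zero]
  · rw [← sS_add]
    apply io_mul_sS
    rw [← hT, symM_add]
    have h1 : symM (fun p : {p : Fin m × Fin m // p.1 ≤ p.2} => T p.1.1 p.1.2 - f p) =
        T - symM f := by
      have h2 := symM_of T hTs
      conv_rhs => rw [← h2]
      rfl
    rw [h1, sub_add_cancel]

theorem xB_comm {R : Type} [CommRing R] (k l : IxB m) (hkl : wtB l ≤ wtB k) (a b : R)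
    (H : Subgroup (SpF m m R)) (hH : ∀ h, wtB h < wtB l → ∀ c : R, xB h c ∈ H) :
    xB k a * xB l b * (xB l b * xB k a)⁻¹ ∈ H := by
  rcases l with p | l
  · rcases k with q | k
    · have h1 : xB (.inl q) a * xB (.inl p) b = xB (.inl p) b * xB (.inl q) a := by
        show sS (Pi.single q a) * sS (Pi.single p b) = sS (Pi.single p b) * sS (Pi.single q a)
        rw [← sS_add, ← sS_add, add_comm]
      rw [h1, mul_inv_cancel]
      exact H.one_mem
    · obtain ⟨g, h1, h2⟩ := xel_conj80 k a (Pi.single p b) ((p.1.1 : ℤ) + (p.1.2 : ℤ)) (by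
        intro q hq
        by_cases h : q = p
        · rw [h]
        · exact absurd (Pi.single_eq_of_ne h _) hq)
      show io R (xel k a) * sS (Pi.single p b) * (sS (Pi.single p b) * io R (xel k a))⁻¹ ∈ H
      rw [h2, mul_assoc (sS g), mul_assoc (sS g), mul_inv_cancel, mul_one]
      exact sS_mem H _ (fun q c hq => hH (.inl q) hq c) g h1
  · rcases k with q | k
    · exact absurd hkl (not_le.2 (lt_of_lt_of_le (wtB_inl q) (wtB_inr l)))
    · show io R (xel k a) * io R (xel l b) * (io R (xel l b) * io R (xel k a))⁻¹ ∈ H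
      rcases Pool.Agent.Helper72.OB.xel_mul_xel (leP_antisymm m) l k a b with h | ⟨h, c, h1, h2, h3⟩
      · rw [← map_mul, ← map_mul, h, mul_inv_cancel]
        exact H.one_mem
      · rw [← map_mul, ← map_mul, h3, map_mul, mul_assoc, mul_inv_cancel, mul_one]
        refine hH (.inr h) ?_ c
        show 3 * (m : ℤ) - (h.height : ℤ) < 3 * (m : ℤ) - (l.height : ℤ)
        omega

theorem xB_gen {R : Type} [CommRing R] (H : Subgroup (SpF m m R)) (h1 : ∀ i (c : R), xB i c ∈ H)
    (h2 : ∀ u, tB R u ∈ H) : H = ⊤ := by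
  rw [eq_top_iff]
  intro b _
  rw [← SpF_decomp b]
  refine H.mul_mem ?_ ?_
  · rw [upS_congr (sB_symm b) (symM_of _ (sB_symm b)).symm]
    exact sS_mem H (2 * (m : ℤ)) (fun p c _ => h1 (.inl p) c) _ fun p _ => wtB_inl p
  · have h3 : H.comap (io R) = ⊤ := Pool.Agent.Helper72.OB.closure_eq_top (leP_antisymm m) _
      (fun u => h2 u) fun k c => h1 (.inr k) c
    have h4 : aB b ∈ H.comap (io R) := by
      rw [h3]
      exact Subgroup.mem_top _
    exact h4

/-- the root subgroups listed by increasing weight -/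
theorem exists_listB (m : ℕ) : ∃ (N : ℕ) (e : Fin N ≃ IxB m), ∀ h l : Fin N,
    wtB (e h) < wtB (e l) → h < l := by
  obtain ⟨N, ⟨e0⟩⟩ := Finite.exists_equiv_fin (IxB m)
  obtain ⟨f, hf⟩ : ∃ f : Fin N → ℤ, ∀ i, f i = wtB (e0.symm i) := ⟨_, fun _ => rfl⟩
  refine ⟨N, (Tuple.sort f).trans e0.symm, ?_⟩
  intro h l hhl
  by_contra hc
  push Not at hc
  have h1 := Tuple.monotone_sort f hc
  simp only [Function.comp_apply, hf] at h1
  simp only [Equiv.trans_apply] at hhl
  omega

/-- the Borel subgroup of `Sp_2m` is a split solvable group -/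
theorem solv_SpB {Λ : Type} [CommRing Λ] {G : GSch Λ} (hG : IsSpF m m G) : Nonempty (Solv G) := by
  obtain ⟨E, hE⟩ := hG
  obtain ⟨N, e, he⟩ := exists_listB m
  have hle : ∀ h l : Fin N, l ≤ h → wtB (e l) ≤ wtB (e h) := by
    intro h l hl
    by_contra hc
    push Not at hc
    exact absurd (he h l hc) (not_lt.2 hl)
  have hmap : ∀ {R R' : Type} [CommRing R] [Algebra Λ R] [CommRing R'] [Algebra Λ R']
      (f : R →ₐ[Λ] R') (y : SpF m m R) (y' : SpF m m R'), y'.1.1 = y.1.1.map f →
      G.map f ((E R).symm y) = (E R').symm y' := by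
    intro R R' _ _ _ _ f y y' h
    apply (E R').injective
    rw [MulEquiv.apply_symm_apply]
    apply SpF_ext
    rw [hE, MulEquiv.apply_symm_apply, h]
  have hcl : ∀ (k : Fin N) {R : Type} [CommRing R] [Algebra Λ R] (y : SpF m m R),
      (∀ H : Subgroup (SpF m m R), (∀ h < k, ∀ c : R, xB (e h) c ∈ H) → y ∈ H) →
      (E R).symm y ∈ Subgroup.closure {g | ∃ h < k, ∃ c : R, g = (E R).symm (xB (e h) c)} := by
    intro k R _ _ y hy
    exact hy ((Subgroup.closure {g | ∃ h < k, ∃ c : R, g = (E R).symm (xB (e h) c)}).comap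
      (E R).symm.toMonoidHom) fun h hh c => Subgroup.subset_closure ⟨h, hh, c, rfl⟩
  refine ⟨{ N := N, n := m, x := fun k R _ _ c => (E R).symm (xB (e k) c),
            t := fun {R} _ _ => (E R).symm.toMonoidHom.comp (tB R), β := fun k => chB (e k),
            x_nat := ?_, t_nat := ?_, x_zero := ?_, x_add := ?_, conj := ?_, comm := ?_,
            gen := ?_ }⟩
  · intro k R R' _ _ _ _ f c
    exact hmap f _ _ (xB_map (e k) (f : R →+* R') c)
  · intro R R' _ _ _ _ f u
    exact hmap f _ _ (tB_map (f : R →+* R') u)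
  · intro k R _ _
    show (E R).symm (xB (e k) (0 : R)) = 1
    rw [xB_zero, map_one]
  · intro k R _ _ a b
    show (E R).symm (xB (e k) (a + b)) * _⁻¹ ∈ _
    rw [xB_add, map_mul, mul_inv_cancel]
    exact Subgroup.one_mem _
  · intro k R _ _ u a
    show (E R).symm (tB R u) * (E R).symm (xB (e k) a) *
      ((E R).symm (xB (e k) _) * (E R).symm (tB R u))⁻¹ ∈ _
    rw [← map_mul, ← map_mul, tB_mul_xB, mul_inv_cancel]
    exact Subgroup.one_mem _
  · intro k l hlk R _ _ a b
    show (E R).symm (xB (e k) a) * (E R).symm (xB (e l) b) *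
      ((E R).symm (xB (e l) b) * (E R).symm (xB (e k) a))⁻¹ ∈ _
    rw [← map_mul, ← map_mul, ← map_inv, ← map_mul]
    refine hcl l _ fun H hH => ?_
    refine xB_comm (e k) (e l) (hle k l hlk) a b H fun h hh c => ?_
    have h1 := hH (e.symm h) (he _ _ (by rwa [Equiv.apply_symm_apply])) c
    rwa [Equiv.apply_symm_apply] at h1
  · intro R _ _
    have h1 := xB_gen ((Subgroup.closure ({g : G.Pt R | ∃ k, ∃ c : R, g = (E R).symm (xB (e k) c)} ∪
      {g | ∃ u, g = (E R).symm (tB R u)})).comap (E R).symm.toMonoidHom) (by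
        intro i c
        refine Subgroup.subset_closure (Or.inl ⟨e.symm i, c, ?_⟩)
        rw [Equiv.apply_symm_apply]
        rfl) (fun u => Subgroup.subset_closure (Or.inr ⟨u, rfl⟩))
    rw [eq_top_iff]
    intro g _
    have h2 : E R g ∈ (Subgroup.closure ({g : G.Pt R | ∃ k, ∃ c : R, g = (E R).symm (xB (e k) c)} ∪
      {g | ∃ u, g = (E R).symm (tB R u)})).comap (E R).symm.toMonoidHom := by
      rw [h1]
      exact Subgroup.mem_top _
    have h3 : (E R).symm (E R g) ∈ Subgroup.closure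
        ({g : G.Pt R | ∃ k, ∃ c : R, g = (E R).symm (xB (e k) c)} ∪
        {g | ∃ u, g = (E R).symm (tB R u)}) := h2
    rw [MulEquiv.symm_apply_apply] at h3
    exact h3

theorem Flagged.good80 {Λ : Type} [CommRing Λ] {G : GSch Λ} (h : Flagged G) : G.Good := by
  cases h <;> assumption

/-- the Borel subgroup of `Sp_2m` is flagged if the Borel subgroup `H` of `GL_m` is -/
theorem flagged_SpB {Λ : Type} [CommRing Λ] {G H : GSch Λ} (hG : IsSpF m m G)
    (e : ∀ (R : Type) [CommRing R] [Algebra Λ R], H.Pt R ≃* Gp (leP m) R)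
    (nat : ∀ (R R' : Type) [CommRing R] [Algebra Λ R] [CommRing R'] [Algebra Λ R'] (f : R →ₐ[Λ] R')
      (g : H.Pt R), e R' (H.map f g) = Gp.map (leP m) (f : R →+* R') (e R g))
    (hH : Flagged H) : Flagged G :=
  Flagged.solv G (good_SpB hG (fun R _ _ => (e R).toEquiv) nat hH.good80) (solv_SpB hG)

end Pool.Agent.Helper72.OC
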