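import Pool.Agent.Helper72.OC.Defs
import Mathlib.LinearAlgebra.SymplecticGroup

/-!
# Orbit theorem for flagged groups: the matrix groups of the statement
-/

set_option autoImplicit false

namespace Pool.Agent.Helper72.OC

open Pool.Agent.Helper72.OB (Pre)

/-- `G` is the group scheme of the matrices in `Γ(R)`. -/
def IsMat {ι : Type} [Fintype ι] (Γ : ∀ (R : Type) [CommRing R], Set (Matrix ι ι R)) {Λ : Type}
    [CommRing Λ] (G : GSch Λ) : Prop :=
  ∃ e : ∀ (R : Type) [CommRing R] [Algebra Λ R], G.Pt R → Matrix ι ι R,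
    ∀ (R : Type) [CommRing R] [Algebra Λ R], Function.Injective (e R) ∧
      (∀ a, a ∈ Γ R ↔ ∃ g, e R g = a) ∧ (∀ g h, e R (g * h) = e R g * e R h) ∧
      ∀ (R' : Type) [CommRing R'] [Algebra Λ R'] (f : R →ₐ[Λ] R') (g : G.Pt R),
        e R' (G.map f g) = (e R g).map f

/-- The invertible matrices `a` such that the `(i, j)`-entries of `a` and `a⁻¹` vanish whenever
`i`, `j` are not related; if `s` holds, those of determinant one. -/
def preSet (s : Prop) {n : ℕ} (r : Pre n) (R : Type) [CommRing R] :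
    Set (Matrix (Fin n) (Fin n) R) :=
  {a | IsUnit a ∧ (∀ i j, ¬ r.rel i j → a i j = 0 ∧ a⁻¹ i j = 0) ∧ (s → a.det = 1)}

/-- The symplectic matrices of size `2m`. -/
def spSet (m : ℕ) (R : Type) [CommRing R] : Set (Matrix (Fin m ⊕ Fin m) (Fin m ⊕ Fin m) R) :=
  {a | a * Matrix.J (Fin m) R * a.transpose = Matrix.J (Fin m) R}

end Pool.Agent.Helper72.OC
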