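import Pool.Agent.Helper72.OC.Groups
import Pool.Agent.Helper72.OC.MatDefs

/-!
# Orbit theorem for flagged groups: the matrix groups of the statement are flagged
-/

set_option autoImplicit false

namespace Pool.Agent.Helper72.OC

open Pool.Agent.Helper72.OB (Pre)

theorem IsGs.isMat {s : Prop} {n : ℕ} {r : Pre n} {Λ : Type} [CommRing Λ] {G : GSch Λ}
    (h : IsGs s r G) : IsMat (preSet s r) G := by
  obtain ⟨e, he⟩ := h
  refine ⟨fun R _ _ g => (e R g).1.1.1, fun R _ _ => ⟨?_, ?_, ?_, ?_⟩⟩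
  · intro g h hgh
    apply (e R).injective
    apply Subtype.ext
    apply Subtype.ext
    apply Units.ext
    exact hgh
  · intro a
    constructor
    · rintro ⟨⟨u, rfl⟩, h1, h2⟩
      refine ⟨(e R).symm ⟨⟨u, fun i j hij => ⟨(h1 i j hij).1, ?_⟩⟩, h2⟩, ?_⟩
      · rw [Matrix.coe_units_inv]
        exact (h1 i j hij).2
      · show ((e R) ((e R).symm _)).1.1.1 = _
        rw [MulEquiv.apply_symm_apply]
    · rintro ⟨g, rfl⟩
      refine ⟨⟨(e R g).1.1, rfl⟩, fun i j hij => ⟨((e R g).1.2 i j hij).1, ?_⟩, (e R g).2⟩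
      rw [← Matrix.coe_units_inv]
      exact ((e R g).1.2 i j hij).2
  · intro g h
    show (e R (g * h)).1.1.1 = _
    rw [map_mul]
    rfl
  · intro R' _ _ f g
    show (e R' (G.map f g)).1.1.1 = _
    rw [he]
    rfl

theorem IsSp.isMat {m : ℕ} {Λ : Type} [CommRing Λ] {G : GSch Λ} (h : IsSp m G) :
    IsMat (spSet m) G := by
  obtain ⟨e, he⟩ := h
  refine ⟨fun R _ _ g => (e R g).1, fun R _ _ => ⟨?_, ?_, ?_, ?_⟩⟩
  · intro g h hgh
    exact (e R).injective (Subtype.ext hgh)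
  · intro a
    constructor
    · intro ha
      refine ⟨(e R).symm ⟨a, SymplecticGroup.mem_iff.2 ha⟩, ?_⟩
      show ((e R) ((e R).symm _)).1 = _
      rw [MulEquiv.apply_symm_apply]
    · rintro ⟨g, rfl⟩
      exact SymplecticGroup.mem_iff.1 (e R g).2
  · intro g h
    show (e R (g * h)).1 = _
    rw [map_mul]
    rfl
  · intro R' _ _ f g
    exact he R R' f g

theorem exists_preSet (s : Prop) {n : ℕ} (r : Pre n) (Λ : Type) [CommRing Λ] :
    ∃ G : GSch Λ, IsMat (preSet s r) G ∧ Flagged G := by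
  obtain ⟨G, h1, h2⟩ := exists_Gs s r Λ
  exact ⟨G, h1.isMat, h2⟩

theorem exists_spSet (m : ℕ) (Λ : Type) [CommRing Λ] :
    ∃ G : GSch Λ, IsMat (spSet m) G ∧ Flagged G := by
  obtain ⟨G, h1, h2⟩ := exists_Sp m Λ
  exact ⟨G, h1.isMat, h2⟩

end Pool.Agent.Helper72.OC
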