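import Pool.Agent.Helper72.OC.Stab
import Pool.Agent.Helper72.OB.Sch
import Pool.Agent.Helper9.RS.KD1
import Pool.Agent.Helper9.RS.KD2

/-!
# Orbit theorem for flagged groups, block F: stable opens of affine schemes

Noetherian induction over the stable ideals `b`: all schemes `D(c) ∩ V(b)` belong to `P`.
-/

set_option autoImplicit false

namespace Pool.Agent.Helper72.OC

open AlgebraicGeometry CategoryTheory
open Pool.Agent.Helper65.Mor (Arithmetic ClosedOpen FGen)
open Pool.Agent.Helper72.OB (Rules DD)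
open Pool.Agent.Helper72.OB (LC DD_congr P_bot P_iso P_glue P_union P_support)
open Pool.Agent.Helper9.RS (Kron kron_of_dim)

section

variable {P : Scheme.{0} → Prop} {A : Type} [CommRing A]

/-- the empty case -/
private theorem aff_empty54 (hP : Rules P) {b c : Ideal A} (hbc : c ≤ b.radical) : P (LC b c) := by
  have h : DD (c.map (Ideal.Quotient.mk b)) = DD (⊥ : Ideal (A ⧸ b)) := by
    refine DD_congr fun p hp => ⟨fun _ => bot_le, fun _ => ?_⟩
    rw [Ideal.map_le_iff_le_comap]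
    have hp' : (p.comap (Ideal.Quotient.mk b)).IsPrime := Ideal.IsPrime.comap _
    refine hbc.trans (hp'.radical_le_iff.2 ?_)
    intro a ha
    rw [Ideal.mem_comap, Ideal.Quotient.eq_zero_iff_mem.2 ha]
    exact p.zero_mem
  change P (DD (c.map (Ideal.Quotient.mk b))).toScheme
  rw [h]
  exact P_bot hP

/-- `V(⊥)` is everything -/
private theorem aff_of_bot54 (hP : Rules P) (hA : FGen A) {c : Ideal A} (h : P (LC ⊥ c)) :
    P (DD c).toScheme := by
  refine (P_iso hP hA (RingEquiv.quotientBot A).symm c).2 ?_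
  have e : ((RingEquiv.quotientBot A).symm : A →+* A ⧸ (⊥ : Ideal A)) = Ideal.Quotient.mk ⊥ := by
    ext a
    rfl
  rw [e]
  exact h

/-- transitivity of closed subschemes -/
private theorem LC_quot54 (hP : Rules P) (hA : FGen A) {b J c : Ideal A} (hbJ : b ≤ J) (h : P (LC J c)) :
    P (LC (J.map (Ideal.Quotient.mk b)) (c.map (Ideal.Quotient.mk b))) := by
  refine (P_iso hP ((hA.quot b).quot _) (DoubleQuot.quotQuotEquivQuotOfLE hbJ) _).2 ?_
  have e : ((c.map (Ideal.Quotient.mk b)).map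
      (Ideal.Quotient.mk (J.map (Ideal.Quotient.mk b)))).map
        ((DoubleQuot.quotQuotEquivQuotOfLE hbJ : _ ≃+* A ⧸ J) :
          (A ⧸ b) ⧸ J.map (Ideal.Quotient.mk b) →+* A ⧸ J) = c.map (Ideal.Quotient.mk J) := by
    rw [Ideal.map_map, Ideal.map_map]
    congr 1
  rw [e]
  exact h

end

/-- the case of a prime ideal: the generic statement gives a nonempty stable open -/
private theorem aff_prime54 {Λ : Type} [CommRing Λ] {P : Scheme.{0} → Prop} (hP : Rules P) {G : GSch Λ}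
    (hGen : Gen P G) {A : Type} [CommRing A] [Algebra Λ A] (hA : FGen A)
    (α : Act G A) (c : Ideal A) (hc : α.Stable c) {R : Type} [CommRing R] [Algebra Λ R]
    (hR : FGen R) (hdim : ringKrullDim R ≤ 1) (y : A →ₐ[Λ] R)
    (h : ∀ (Ω : Type) [Field Ω] [IsAlgClosed Ω] [Algebra Λ Ω] (x : A →ₐ[Λ] Ω),
      (∃ a ∈ c, x a ≠ 0) → ∃ (z : R →ₐ[Λ] Ω) (g : G.Pt Ω), x = α.act g (z.comp y))
    (b : Ideal A) (hb : α.Stable b) [hbp : b.IsPrime] (hcb : ¬ c ≤ b)
    (ih : ∀ J : Ideal A, b < J → α.Stable J → P (LC J c)) : P (LC b c) := by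
  have hD : FGen (A ⧸ b) := hA.quot b
  -- the geometric generic point
  let F := FractionRing (A ⧸ b)
  let Ω := AlgebraicClosure F
  let _algF : Algebra Λ F := ((algebraMap (A ⧸ b) F).comp (algebraMap Λ (A ⧸ b))).toAlgebra
  let x1 : A ⧸ b →+* Ω := (algebraMap F Ω).comp (algebraMap (A ⧸ b) F)
  let _algΩ : Algebra Λ Ω := (x1.comp (algebraMap Λ (A ⧸ b))).toAlgebra
  let x0 : A ⧸ b →ₐ[Λ] Ω := { x1 with commutes' := fun _ => rfl }
  have hx0 : Function.Injective x0 :=
    (algebraMap F Ω).injective.comp (IsFractionRing.injective (A ⧸ b) F)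
  obtain ⟨a, hac, hab⟩ := Set.not_subset.1 hcb
  obtain ⟨z, g, hzg⟩ := h Ω (x0.comp (Ideal.Quotient.mkₐ Λ b)) ⟨a, hac, by
    rw [AlgHom.comp_apply, Ne, map_eq_zero_iff x0 hx0, Ideal.Quotient.mkₐ_eq_mk,
      Ideal.Quotient.eq_zero_iff_mem]
    exact hab⟩
  -- the small field
  let q : Ideal R := RingHom.ker z
  have hq : q.IsPrime := RingHom.ker_isPrime z
  let L := FractionRing (R ⧸ q)
  let _algL : Algebra Λ L := ((algebraMap (R ⧸ q) L).comp (algebraMap Λ (R ⧸ q))).toAlgebra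
  have hKL : Kron 0 L := by
    have h1 : Algebra.FiniteType ℤ (R ⧸ q) := by
      have h2 : FGen (R ⧸ q) := hR.quot q
      rw [FGen] at h2
      exact RingHom.finiteType_algebraMap.1 h2
    have h3 : ringKrullDim (R ⧸ q) ≤ 1 := (ringKrullDim_quotient_le q).trans hdim
    exact kron_of_dim (R := R ⧸ q) (K := L) h1 h3
  let z0 : R ⧸ q →+* Ω := RingHom.kerLift (z : R →+* Ω)
  have hz0 : Function.Injective z0 := RingHom.kerLift_injective (z : R →+* Ω)
  let ζ0 : L →+* Ω := IsFractionRing.lift (A := R ⧸ q) (K := L) (g := z0) hz0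
  have hζ0 : ∀ t : R ⧸ q, ζ0 (algebraMap (R ⧸ q) L t) = z0 t := fun t =>
    IsFractionRing.lift_algebraMap hz0 t
  have hz0mk : ∀ s : R, z0 (Ideal.Quotient.mk q s) = z s := fun s => RingHom.kerLift_mk (z : R →+* Ω) s
  let ζ : L →ₐ[Λ] Ω := { ζ0 with
    commutes' := fun l => by
      change ζ0 (algebraMap (R ⧸ q) L (Ideal.Quotient.mk q (algebraMap Λ R l))) = algebraMap Λ Ω l
      rw [hζ0, hz0mk, z.commutes] }
  let jL : R →ₐ[Λ] L := { (algebraMap (R ⧸ q) L).comp (Ideal.Quotient.mk q) with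
    commutes' := fun _ => rfl }
  let yL : A →ₐ[Λ] L := jL.comp y
  have hyL : ζ.comp yL = z.comp y := by
    apply AlgHom.ext
    intro s
    change ζ0 (algebraMap (R ⧸ q) L (Ideal.Quotient.mk q (y s))) = z (y s)
    rw [hζ0, hz0mk]
  have hkill : ∀ s ∈ b, yL s = 0 := by
    intro s hs
    have h1 : z.comp y = α.act g⁻¹ (x0.comp (Ideal.Quotient.mkₐ Λ b)) := by
      rw [hzg, ← α.mul, inv_mul_cancel, α.one]
    have h2 : (z.comp y) s = 0 := by
      rw [h1]
      refine hb g⁻¹ _ (fun t ht => ?_) s hs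
      rw [AlgHom.comp_apply, Ideal.Quotient.mkₐ_eq_mk, Ideal.Quotient.eq_zero_iff_mem.2 ht, map_zero]
    rw [← hyL, AlgHom.comp_apply] at h2
    exact (map_eq_zero_iff ζ (ζ : L →+* Ω).injective).1 h2
  let η : A ⧸ b →ₐ[Λ] L := Ideal.Quotient.liftₐ b yL hkill
  have hη : η.comp (Ideal.Quotient.mkₐ Λ b) = yL := Ideal.Quotient.liftₐ_comp _ _ _
  have horb : Function.Injective ((α.quot b hb).orb η) := by
    rw [injective_iff_map_eq_zero]
    intro d hd
    obtain ⟨s, rfl⟩ := Ideal.Quotient.mk_surjective d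
    have h1 := congrArg (fun f => f (Ideal.Quotient.mk b s)) ((α.quot b hb).ev_orb η ζ g)
    simp only [AlgHom.comp_apply] at h1
    rw [hd, map_zero] at h1
    have h2 := congrArg (fun f => f s) (α.quot_comp_mk b hb g (ζ.comp η))
    simp only [AlgHom.comp_apply, Ideal.Quotient.mkₐ_eq_mk] at h2
    rw [← h1, AlgHom.comp_assoc, hη, hyL, ← hzg, AlgHom.comp_apply, Ideal.Quotient.mkₐ_eq_mk] at h2
    exact (map_eq_zero_iff x0 hx0).1 h2.symm
  obtain ⟨d, hd0, hds, hdP⟩ := hGen (A ⧸ b) hD (α.quot b hb) L η hKL horb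
  -- the complement
  obtain ⟨J, hbJ, hJs, rfl⟩ : ∃ J : Ideal A, b ≤ J ∧ α.Stable J ∧ d = J.map (Ideal.Quotient.mk b) := by
    refine ⟨d.comap (Ideal.Quotient.mk b), ?_, Act.Stable.comap_quot hb hds, ?_⟩
    · intro s hs
      rw [Ideal.mem_comap, Ideal.Quotient.eq_zero_iff_mem.2 hs]
      exact d.zero_mem
    · exact (Ideal.map_comap_of_surjective _ Ideal.Quotient.mk_surjective d).symm
  have hbJ' : b < J := by
    refine lt_of_le_of_ne hbJ ?_
    rintro rfl
    exact hd0 (Ideal.map_quotient_self b)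
  have h1 := LC_quot54 hP hA hbJ (ih J hbJ' hJs)
  have hc0 : c.map (Ideal.Quotient.mk b) ≠ ⊥ := by
    intro h2
    rw [Ideal.map_eq_bot_iff_le_ker, Ideal.mk_ker] at h2
    exact hcb h2
  have h2 : P (DD (c.map (Ideal.Quotient.mk b) * J.map (Ideal.Quotient.mk b))).toScheme := by
    refine hdP _ ?_ Ideal.mul_le_right (Act.Stable.mul (Act.Stable.map_quot hb hc) hds)
    rw [Ne, Ideal.mul_eq_bot]
    tauto
  exact P_glue hP hD h1 h2

/-- all `D(c) ∩ V(b)` with `b` stable -/
private theorem aff_all54 {Λ : Type} [CommRing Λ] {P : Scheme.{0} → Prop} (hP : Rules P) {G : GSch Λ}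
    (hG : G.Good) (hGen : Gen P G) {A : Type} [CommRing A] [Algebra Λ A] (hA : FGen A)
    (α : Act G A) (c : Ideal A) (hc : α.Stable c) {R : Type} [CommRing R] [Algebra Λ R]
    (hR : FGen R) (hdim : ringKrullDim R ≤ 1) (y : A →ₐ[Λ] R)
    (h : ∀ (Ω : Type) [Field Ω] [IsAlgClosed Ω] [Algebra Λ Ω] (x : A →ₐ[Λ] Ω),
      (∃ a ∈ c, x a ≠ 0) → ∃ (z : R →ₐ[Λ] Ω) (g : G.Pt Ω), x = α.act g (z.comp y))
    (b : Ideal A) (hb : α.Stable b) : P (LC b c) := by
  classical
  have hN : IsNoetherianRing A := by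
    have h1 : Algebra.FiniteType ℤ A := by
      have h2 := hA
      rw [FGen] at h2
      exact RingHom.finiteType_algebraMap.1 h2
    exact Algebra.FiniteType.isNoetherianRing ℤ A
  revert hb
  induction b using WellFoundedGT.induction with
  | ind b ih =>
  intro hb
  by_cases hcb : c ≤ b.radical
  · exact aff_empty54 hP hcb
  by_cases hbp : b.IsPrime
  · exact aff_prime54 hP hGen hA α c hc hR hdim y h b hb (fun h1 => hcb (h1.trans Ideal.le_radical))
      ih
  · -- the minimal primes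
    have hfin := Ideal.finite_minimalPrimes_of_isNoetherianRing A b
    have hmin : ∀ p ∈ b.minimalPrimes, b < p ∧ α.Stable p := by
      intro p hp
      refine ⟨lt_of_le_of_ne hp.1.2 ?_, α.stable_of_mem_minimalPrimes hG hb hp⟩
      rintro rfl
      exact hbp hp.1.1
    have key : ∀ s : Finset (Ideal A), (∀ p ∈ s, p ∈ b.minimalPrimes) →
        α.Stable (∏ p ∈ s, p) ∧ P (LC (∏ p ∈ s, p) c) := by
      intro s
      induction s using Finset.induction_on with
      | empty =>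
        intro _
        rw [Finset.prod_empty, Ideal.one_eq_top]
        exact ⟨α.stable_top, aff_empty54 hP (by rw [Ideal.radical_top]; exact le_top)⟩
      | insert p s hps ih2 =>
        intro hs
        obtain ⟨h1, h2⟩ := ih2 fun p hp => hs p (Finset.mem_insert_of_mem hp)
        obtain ⟨h3, h4⟩ := hmin p (hs p (Finset.mem_insert_self _ _))
        rw [Finset.prod_insert hps]
        refine ⟨Act.Stable.mul h4 h1, P_union hP hA (ih p h3 h4) h2 (ih _ ?_ (Act.Stable.sup h4 h1))⟩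
        exact lt_of_lt_of_le h3 le_sup_left
    obtain ⟨-, h1⟩ := key hfin.toFinset fun p hp => hfin.mem_toFinset.1 hp
    refine P_support hP hA (fun p hp _ => ?_) h1
    rw [hp.prod_le]
    constructor
    · rintro ⟨p', hp', hle⟩
      exact (hfin.mem_toFinset.1 hp').1.2.trans hle
    · intro hbp'
      obtain ⟨p', hp', hle⟩ := Ideal.exists_minimalPrimes_le hbp'
      exact ⟨p', hfin.mem_toFinset.2 hp', hle⟩

theorem aff {Λ : Type} [CommRing Λ] {P : Scheme.{0} → Prop} (hP : Rules P) {G : GSch Λ}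
    (hG : G.Good) (hGen : Gen P G) {A : Type} [CommRing A] [Algebra Λ A] (hA : FGen A)
    (α : Act G A) (c : Ideal A) (hc : α.Stable c) {R : Type} [CommRing R] [Algebra Λ R]
    (hR : FGen R) (hdim : ringKrullDim R ≤ 1) (y : A →ₐ[Λ] R)
    (h : ∀ (Ω : Type) [Field Ω] [IsAlgClosed Ω] [Algebra Λ Ω] (x : A →ₐ[Λ] Ω),
      (∃ a ∈ c, x a ≠ 0) → ∃ (z : R →ₐ[Λ] Ω) (g : G.Pt Ω), x = α.act g (z.comp y)) :
    P (DD c).toScheme :=
  aff_of_bot54 hP hA (aff_all54 hP hG hGen hA α c hc hR hdim y h ⊥ α.stable_bot)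

end Pool.Agent.Helper72.OC
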