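import Pool.Agent.Helper72.OC.Stab

/-!
# Orbit theorem for flagged groups, block H3b: the charts of `G ×^Q Z`
-/

set_option autoImplicit false

namespace Pool.Agent.Helper72.OC

open TensorProduct

variable {Λ : Type} [CommRing Λ] {Q G : GSch Λ} (f : Flag Q G)

instance (j : Fin f.c) : CommRing (f.Γ j) := f.ringΓ j

instance (j : Fin f.c) : Algebra Λ (f.Γ j) := f.algΓ j

namespace ChartAux50

section Dec

variable (j : Fin f.c) {R R' : Type} [CommRing R] [Algebra Λ R] [CommRing R'] [Algebra Λ R']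

/-- the decomposition of an element of the chart `j` -/
noncomputable def dec (g : G.Pt R) (hg : IsUnit (f.w (f.e j) g)) :
    (f.Γ j →ₐ[Λ] R) × Q.Pt R := (f.chart j g hg).choose

theorem dec_spec (g : G.Pt R) (hg : IsUnit (f.w (f.e j) g)) :
    g = G.map (dec f j g hg).1 (f.σ j) * f.inc (dec f j g hg).2 :=
  (f.chart j g hg).choose_spec.1

theorem dec_unique (g : G.Pt R) (hg : IsUnit (f.w (f.e j) g))
    (p : (f.Γ j →ₐ[Λ] R) × Q.Pt R) (hp : g = G.map p.1 (f.σ j) * f.inc p.2) :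
    dec f j g hg = p :=
  ((f.chart j g hg).choose_spec.2 p hp).symm

theorem unit_map (h : R →ₐ[Λ] R') (g : G.Pt R) (hg : IsUnit (f.w (f.e j) g)) :
    IsUnit (f.w (f.e j) (G.map h g)) := by
  rw [f.w_nat]
  exact hg.map h

theorem dec_map (h : R →ₐ[Λ] R') (g : G.Pt R) (hg : IsUnit (f.w (f.e j) g)) :
    dec f j (G.map h g) (unit_map f j h g hg) =
      (h.comp (dec f j g hg).1, Q.map h (dec f j g hg).2) := by
  apply dec_unique
  rw [G.map_comp, ← f.inc_nat, ← map_mul, ← dec_spec]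

/-- the coordinates -/
theorem w_dec (g : G.Pt R) (hg : IsUnit (f.w (f.e j) g)) (i : Fin f.m) :
    f.w i g = (dec f j g hg).1 (f.w i (f.σ j)) * f.w (f.e j) g := by
  have h1 : ∀ i, f.w i g = (dec f j g hg).1 (f.w i (f.σ j)) * f.χ (dec f j g hg).2 := fun i => by
    conv_lhs => rw [dec_spec f j g hg]
    rw [f.w_mul, f.w_nat]
  have h2 := h1 (f.e j)
  rw [f.w_σ, map_one, one_mul] at h2
  rw [h2]
  exact h1 i

end Dec

section Chart

variable {A : Type} [CommRing A] [Algebra Λ A] (α : Act G A) (I : Ideal A)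
  (hI : (α.restr f).Stable I) (j : Fin f.c)

/-- the coordinate ring of the chart -/
abbrev EE : Type := (A ⧸ I) ⊗[Λ] f.Γ j

/-- the inclusion of the base -/
abbrev iL : A ⧸ I →ₐ[Λ] EE f I j := Algebra.TensorProduct.includeLeft

/-- the inclusion of the coordinates -/
abbrev iR : f.Γ j →ₐ[Λ] EE f I j := Algebra.TensorProduct.includeRight

/-- the universal section -/
noncomputable def sE : G.Pt (EE f I j) := G.map (iR f I j) (f.σ j)

theorem w_sE (i : Fin f.m) : f.w i (sE f I j) = (1 : A ⧸ I) ⊗ₜ[Λ] f.w i (f.σ j) := by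
  rw [sE, f.w_nat]
  rfl

theorem w_sE_self : f.w (f.e j) (sE f I j) = 1 := by
  rw [w_sE, f.w_σ]
  rfl

theorem unit_sE : IsUnit (f.w (f.e j) (sE f I j)) := by
  rw [w_sE_self]
  exact isUnit_one

variable {R R' : Type} [CommRing R] [Algebra Λ R] [CommRing R'] [Algebra Λ R']

/-- the chart map -/
noncomputable def Ph (g : G.Pt R) (hg : IsUnit (f.w (f.e j) g)) (z : A ⧸ I →ₐ[Λ] R) :
    EE f I j →ₐ[Λ] R :=
  Algebra.TensorProduct.lift (((α.restr f).quot I hI).act (dec f j g hg).2 z) (dec f j g hg).1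
    fun _ _ => Commute.all _ _

theorem Ph_left (g : G.Pt R) (hg : IsUnit (f.w (f.e j) g)) (z : A ⧸ I →ₐ[Λ] R) :
    (Ph f α I hI j g hg z).comp (iL f I j) = ((α.restr f).quot I hI).act (dec f j g hg).2 z := by
  apply AlgHom.ext
  intro a
  simp [Ph]

theorem Ph_right (g : G.Pt R) (hg : IsUnit (f.w (f.e j) g)) (z : A ⧸ I →ₐ[Λ] R) :
    (Ph f α I hI j g hg z).comp (iR f I j) = (dec f j g hg).1 := by
  apply AlgHom.ext
  intro a
  simp [Ph]

theorem Ph_left_mk (g : G.Pt R) (hg : IsUnit (f.w (f.e j) g)) (z : A ⧸ I →ₐ[Λ] R) :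
    ((Ph f α I hI j g hg z).comp (iL f I j)).comp (Ideal.Quotient.mkₐ Λ I) =
      α.act (f.inc (dec f j g hg).2) (z.comp (Ideal.Quotient.mkₐ Λ I)) := by
  rw [Ph_left, Act.quot_comp_mk]
  rfl

theorem comp_Ph (h : R →ₐ[Λ] R') (g : G.Pt R) (hg : IsUnit (f.w (f.e j) g))
    (z : A ⧸ I →ₐ[Λ] R) :
    h.comp (Ph f α I hI j g hg z) = Ph f α I hI j (G.map h g) (unit_map f j h g hg) (h.comp z) := by
  apply Algebra.TensorProduct.ext
  · have h1 := Ph_left f α I hI j g hg z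
    have h2 := Ph_left f α I hI j (G.map h g) (unit_map f j h g hg) (h.comp z)
    rw [dec_map f j h g hg, Act.nat, ← h1] at h2
    exact h2.symm
  · have h1 := Ph_right f α I hI j g hg z
    have h2 := Ph_right f α I hI j (G.map h g) (unit_map f j h g hg) (h.comp z)
    rw [dec_map f j h g hg] at h2
    apply AlgHom.ext
    intro a
    have h3 := congrArg (fun x => x a) h1
    have h4 := congrArg (fun x => x a) h2
    exact (congrArg h h3).trans h4.symm

theorem Ph_congr {g g' : G.Pt R} (h1 : g = g') (hg : IsUnit (f.w (f.e j) g))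
    (hg' : IsUnit (f.w (f.e j) g')) {z z' : A ⧸ I →ₐ[Λ] R} (h2 : z = z') :
    Ph f α I hI j g hg z = Ph f α I hI j g' hg' z' := by
  subst h1 h2
  rfl

/-- the map `a ↦ a(σ_j mk)` -/
noncomputable def kap : A →ₐ[Λ] EE f I j :=
  α.act (sE f I j) ((iL f I j).comp (Ideal.Quotient.mkₐ Λ I))

theorem Ph_comp_kap (g : G.Pt R) (hg : IsUnit (f.w (f.e j) g)) (z : A ⧸ I →ₐ[Λ] R) :
    (Ph f α I hI j g hg z).comp (kap f α I j) = α.act g (z.comp (Ideal.Quotient.mkₐ Λ I)) := by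
  have h1 : G.map (Ph f α I hI j g hg z) (sE f I j) = G.map (dec f j g hg).1 (f.σ j) := by
    rw [sE, ← G.map_comp, Ph_right]
  rw [kap, ← α.nat, h1, ← AlgHom.comp_assoc, Ph_left_mk, ← α.mul, ← dec_spec]

/-- the chart map of the universal section -/
theorem Ph_self : Ph f α I hI j (sE f I j) (unit_sE f I j) (iL f I j) = AlgHom.id Λ _ := by
  have h0 : dec f j (sE f I j) (unit_sE f I j) = (iR f I j, 1) := by
    apply dec_unique
    rw [map_one, mul_one]
    rfl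
  apply Algebra.TensorProduct.ext
  · have h2 := Ph_left f α I hI j (sE f I j) (unit_sE f I j) (iL f I j)
    rw [h0, Act.one] at h2
    exact h2
  · have h2 := Ph_right f α I hI j (sE f I j) (unit_sE f I j) (iL f I j)
    rw [h0] at h2
    exact h2

theorem stable_apply {α : Act G A} {e : Ideal A} (he : α.Stable e) (q : R →ₐ[Λ] R')
    (g : G.Pt R) (x : A →ₐ[Λ] R) (hx : ∀ a ∈ e, q (x a) = 0) (a : A) (ha : a ∈ e) :
    q (α.act g x a) = 0 := by
  have h1 := he (G.map q g) (q.comp x) hx a ha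
  rw [α.nat] at h1
  exact h1

/-- the image of a stable ideal -/
theorem map_kap (e : Ideal A) (he : α.Stable e) :
    e.map (kap f α I j : A →+* EE f I j) = (e.map (Ideal.Quotient.mk I)).map (iL f I j) := by
  apply le_antisymm
  · rw [Ideal.map_le_iff_le_comap]
    intro a ha
    rw [Ideal.mem_comap, ← Ideal.Quotient.eq_zero_iff_mem]
    refine stable_apply (R' := EE f I j ⧸ (e.map (Ideal.Quotient.mk I)).map (iL f I j)) he
      (Ideal.Quotient.mkₐ Λ _) (sE f I j) ((iL f I j).comp (Ideal.Quotient.mkₐ Λ I))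
      (fun b hb => ?_) a ha
    exact Ideal.Quotient.eq_zero_iff_mem.2 (Ideal.mem_map_of_mem _ (Ideal.mem_map_of_mem _ hb))
  · rw [Ideal.map_le_iff_le_comap, Ideal.map_le_iff_le_comap]
    intro a ha
    rw [Ideal.mem_comap, Ideal.mem_comap, ← Ideal.Quotient.eq_zero_iff_mem]
    have h1 := stable_apply (R' := EE f I j ⧸ e.map (kap f α I j : A →+* EE f I j)) he
      (Ideal.Quotient.mkₐ Λ _) (sE f I j)⁻¹ (kap f α I j)
      (fun b hb => Ideal.Quotient.eq_zero_iff_mem.2 (Ideal.mem_map_of_mem _ hb)) a ha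
    rw [kap, ← α.mul, inv_mul_cancel, α.one] at h1
    exact h1

/-- evaluation at the universal section -/
noncomputable def sec : RR G (A ⧸ I) →ₐ[Λ] EE f I j := ev G (iL f I j) (sE f I j)

theorem sec_w (i : Fin f.m) : sec f I j (f.w i (gam G (A ⧸ I))) =
    (1 : A ⧸ I) ⊗ₜ[Λ] f.w i (f.σ j) := by
  rw [← f.w_nat, sec, map_ev_gam, w_sE]

theorem sec_w_self : sec f I j (f.w (f.e j) (gam G (A ⧸ I))) = 1 := by
  rw [sec_w, f.w_σ]
  rfl

theorem nontrivial_EE [I.IsPrime] : Nontrivial (EE f I j) := by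
  have h0 : Nontrivial (A ⧸ I) := inferInstance
  let u : f.Γ j →ₐ[Λ] A ⧸ I :=
    (Algebra.ofId Λ (A ⧸ I)).comp ((MvPolynomial.aeval fun _ => (0 : Λ)).comp (f.cell j))
  let v : EE f I j →ₐ[Λ] A ⧸ I :=
    Algebra.TensorProduct.lift (AlgHom.id Λ (A ⧸ I)) u fun _ _ => Commute.all _ _
  exact v.toRingHom.domain_nontrivial

theorem w_ne_zero [I.IsPrime] : f.w (f.e j) (gam G (A ⧸ I)) ≠ 0 := by
  intro h
  have h0 := nontrivial_EE f I j
  have h1 := sec_w_self f I j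
  rw [h, map_zero] at h1
  exact zero_ne_one h1

/-- injectivity of the chart map to the fraction field -/
theorem inj_K {K : Type} [Field K] [Algebra Λ K] (β : RR G (A ⧸ I) →ₐ[Λ] K)
    (hi : Function.Injective β) (hβ : f.w (f.e j) (gam G (A ⧸ I)) ≠ 0)
    (hg : IsUnit (f.w (f.e j) (G.map β (gam G (A ⧸ I))))) :
    Function.Injective (Ph f α I hI j (G.map β (gam G (A ⧸ I))) hg (β.comp (ιR G (A ⧸ I)))) := by
  let x : RR G (A ⧸ I) := f.w (f.e j) (gam G (A ⧸ I))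
  let B : Type := Localization.Away x
  let al : RR G (A ⧸ I) →ₐ[Λ] B := IsScalarTower.toAlgHom Λ (RR G (A ⧸ I)) B
  have hsu : ∀ y : Submonoid.powers x, IsUnit (sec f I j y) := by
    rintro ⟨_, k, rfl⟩
    rw [map_pow, sec_w_self, one_pow]
    exact isUnit_one
  have hβu : ∀ y : Submonoid.powers x, IsUnit (β y) := by
    rintro ⟨_, k, rfl⟩
    rw [map_pow]
    exact (isUnit_iff_ne_zero.2 fun h => hβ (hi (h.trans (map_zero β).symm))).pow k
  let s : B →ₐ[Λ] EE f I j := IsLocalization.liftAlgHom (M := Submonoid.powers x) hsu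
  let tK : B →ₐ[Λ] K := IsLocalization.liftAlgHom (M := Submonoid.powers x) hβu
  have hs : s.comp al = sec f I j := by
    apply AlgHom.ext
    intro b
    exact IsLocalization.lift_eq _ b
  have hK : tK.comp al = β := by
    apply AlgHom.ext
    intro b
    exact IsLocalization.lift_eq _ b
  have hKi : Function.Injective tK := by
    rw [injective_iff_map_eq_zero]
    intro b hb
    obtain ⟨⟨c, y⟩, hc⟩ := IsLocalization.surj (Submonoid.powers x) b
    have h1 : β c = 0 := by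
      rw [← hK]
      show tK (algebraMap _ B c) = 0
      rw [← hc, map_mul, hb, zero_mul]
    have h2 : c = 0 := hi (h1.trans (map_zero β).symm)
    rw [h2, map_zero] at hc
    exact (IsLocalization.map_units B y).mul_left_eq_zero.1 hc
  have hgB : IsUnit (f.w (f.e j) (G.map al (gam G (A ⧸ I)))) := by
    rw [f.w_nat]
    exact IsLocalization.Away.algebraMap_isUnit x
  have h1 : s.comp (Ph f α I hI j (G.map al (gam G (A ⧸ I))) hgB
      (al.comp (ιR G (A ⧸ I)))) = AlgHom.id Λ _ := by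
    rw [comp_Ph, ← Ph_self f α I hI j]
    apply Ph_congr
    · rw [← G.map_comp, hs, sec, map_ev_gam]
    · rw [← AlgHom.comp_assoc, hs, sec, ev_comp_ι]
  have h2 : tK.comp (Ph f α I hI j (G.map al (gam G (A ⧸ I))) hgB
      (al.comp (ιR G (A ⧸ I)))) = Ph f α I hI j (G.map β (gam G (A ⧸ I))) hg
        (β.comp (ιR G (A ⧸ I))) := by
    rw [comp_Ph]
    apply Ph_congr
    · rw [← G.map_comp, hK]
    · rw [← AlgHom.comp_assoc, hK]
  rw [← h2, AlgHom.coe_comp]
  refine hKi.comp fun a b hab => ?_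
  have h5 := congrArg s hab
  rw [← AlgHom.comp_apply, ← AlgHom.comp_apply, h1] at h5
  exact h5

/-- the image of the chart map -/
theorem Ph_mem {K : Type} [Field K] [Algebra Λ K] (β : RR G (A ⧸ I) →ₐ[Λ] K)
    (hg : IsUnit (f.w (f.e j) (G.map β (gam G (A ⧸ I))))) (S : Subalgebra Λ K)
    (hS : ∀ a, β (α.orb (Ideal.Quotient.mkₐ Λ I) a) ∈ S)
    (hX : ∀ i, (dec f j (G.map β (gam G (A ⧸ I))) hg).1 (f.w i (f.σ j)) ∈ S) (b : EE f I j) :
    Ph f α I hI j (G.map β (gam G (A ⧸ I))) hg (β.comp (ιR G (A ⧸ I))) b ∈ S := by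
  have hu : ∀ γ, (dec f j (G.map β (gam G (A ⧸ I))) hg).1 γ ∈ S := by
    intro γ
    have h1 : (⊤ : Subalgebra Λ (f.Γ j)) ≤ S.comap (dec f j (G.map β (gam G (A ⧸ I))) hg).1 := by
      rw [← f.gen j, Algebra.adjoin_le_iff]
      rintro _ ⟨i, rfl⟩
      exact hX i
    exact h1 trivial
  have hd : ∀ d : A ⧸ I, ((Ph f α I hI j (G.map β (gam G (A ⧸ I))) hg
      (β.comp (ιR G (A ⧸ I)))).comp (iL f I j)) d ∈ S := by
    intro d
    obtain ⟨a, rfl⟩ := Ideal.Quotient.mk_surjective d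
    let κ' : A →ₐ[Λ] S := (β.comp (α.orb (Ideal.Quotient.mkₐ Λ I))).codRestrict S hS
    have hκ' : S.val.comp κ' = β.comp (α.orb (Ideal.Quotient.mkₐ Λ I)) := rfl
    let u' : f.Γ j →ₐ[Λ] S := (dec f j (G.map β (gam G (A ⧸ I))) hg).1.codRestrict S hu
    have hu' : S.val.comp u' = (dec f j (G.map β (gam G (A ⧸ I))) hg).1 := rfl
    have h0 : G.map S.val (G.map u' (f.σ j))⁻¹ =
        (G.map (dec f j (G.map β (gam G (A ⧸ I))) hg).1 (f.σ j))⁻¹ := by
      rw [map_inv, ← G.map_comp, hu']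
    have h1 : f.inc (dec f j (G.map β (gam G (A ⧸ I))) hg).2 =
        (G.map (dec f j (G.map β (gam G (A ⧸ I))) hg).1 (f.σ j))⁻¹ *
          G.map β (gam G (A ⧸ I)) := by
      rw [eq_inv_mul_iff_mul_eq]
      exact (dec_spec f j _ hg).symm
    have h2 := Ph_left_mk f α I hI j (G.map β (gam G (A ⧸ I))) hg (β.comp (ιR G (A ⧸ I)))
    rw [h1, α.mul, AlgHom.comp_assoc β, α.nat] at h2
    have h3 : α.act (gam G (A ⧸ I)) ((ιR G (A ⧸ I)).comp (Ideal.Quotient.mkₐ Λ I)) =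
        α.orb (Ideal.Quotient.mkₐ Λ I) := rfl
    rw [h3, ← hκ', ← h0, α.nat] at h2
    have h4 := congrArg (fun x => x a) h2
    have h5 : ((Ph f α I hI j (G.map β (gam G (A ⧸ I))) hg
      (β.comp (ιR G (A ⧸ I)))).comp (iL f I j)) (Ideal.Quotient.mk I a) =
        S.val (α.act (G.map u' (f.σ j))⁻¹ κ' a) := h4
    rw [h5]
    exact (α.act (G.map u' (f.σ j))⁻¹ κ' a).2
  induction b using TensorProduct.induction_on with
  | zero => rw [map_zero]; exact S.zero_mem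
  | add p q hp hq => rw [map_add]; exact S.add_mem hp hq
  | tmul d γ =>
    have h1 : d ⊗ₜ[Λ] γ = iL f I j d * iR f I j γ := by simp
    rw [h1, map_mul]
    refine S.mul_mem (hd d) ?_
    have h2 := congrArg (fun x => x γ) (Ph_right f α I hI j (G.map β (gam G (A ⧸ I))) hg
      (β.comp (ιR G (A ⧸ I))))
    have h3 : Ph f α I hI j (G.map β (gam G (A ⧸ I))) hg (β.comp (ιR G (A ⧸ I)))
      (iR f I j γ) = (dec f j (G.map β (gam G (A ⧸ I))) hg).1 γ := h2
    rw [h3]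
    exact hu γ

include hI in
/-- the chart, in terms of algebras -/
theorem chart_main [I.IsPrime] {K : Type} [Field K] [Algebra Λ K]
    (β : RR G (A ⧸ I) →ₐ[Λ] K) (hβi : Function.Injective β)
    (hw : f.w (f.e j) (gam G (A ⧸ I)) ≠ 0) :
    ∃ Φ : EE f I j →ₐ[Λ] K, Function.Injective Φ ∧
      (∀ i, Φ ((1 : A ⧸ I) ⊗ₜ[Λ] f.w i (f.σ j)) =
        β (f.w i (gam G (A ⧸ I))) / β (f.w (f.e j) (gam G (A ⧸ I)))) ∧
      (∀ a, Φ (kap f α I j a) = β (α.orb (Ideal.Quotient.mkₐ Λ I) a)) ∧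
      ∀ S : Subring K, (∀ a, β (α.orb (Ideal.Quotient.mkₐ Λ I) a) ∈ S) →
        (∀ i, β (f.w i (gam G (A ⧸ I))) / β (f.w (f.e j) (gam G (A ⧸ I))) ∈ S) →
        ∀ b, Φ b ∈ S := by
  have hβw : β (f.w (f.e j) (gam G (A ⧸ I))) ≠ 0 := fun h => hw (hβi (h.trans (map_zero β).symm))
  have hg : IsUnit (f.w (f.e j) (G.map β (gam G (A ⧸ I)))) := by
    rw [f.w_nat]
    exact isUnit_iff_ne_zero.2 hβw
  have hw1 : ∀ i, (dec f j (G.map β (gam G (A ⧸ I))) hg).1 (f.w i (f.σ j)) =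
      β (f.w i (gam G (A ⧸ I))) / β (f.w (f.e j) (gam G (A ⧸ I))) := by
    intro i
    have h1 := w_dec f j (G.map β (gam G (A ⧸ I))) hg i
    rw [f.w_nat, f.w_nat] at h1
    rw [h1, mul_div_assoc, div_self hβw, mul_one]
  have hΦκ : (Ph f α I hI j (G.map β (gam G (A ⧸ I))) hg (β.comp (ιR G (A ⧸ I)))).comp
      (kap f α I j) = β.comp (α.orb (Ideal.Quotient.mkₐ Λ I)) := by
    rw [Ph_comp_kap, AlgHom.comp_assoc, α.nat]
    rfl
  have hinj := inj_K f α I hI j β hβi hw hg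
  have hmem := Ph_mem f α I hI j β hg
  have hR := Ph_right f α I hI j (G.map β (gam G (A ⧸ I))) hg (β.comp (ιR G (A ⧸ I)))
  refine ⟨Ph f α I hI j (G.map β (gam G (A ⧸ I))) hg (β.comp (ιR G (A ⧸ I))), hinj,
    fun i => ?_, fun a => congrArg (fun x => x a) hΦκ, fun S hS1 hS2 b => ?_⟩
  · rw [← hw1 i]
    exact congrArg (fun x => x (f.w i (f.σ j))) hR
  · refine hmem { S with algebraMap_mem' := fun l => ?_ } hS1 (fun i => ?_) b
    · have h1 := hS1 (algebraMap Λ A l)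
      rwa [AlgHom.commutes, AlgHom.commutes] at h1
    · rw [hw1]
      exact hS2 i

end Chart

end ChartAux50

open ChartAux50 in
theorem exists_chart (hQ : Q.Good) (hG : G.Good) {A : Type} [CommRing A] [Algebra Λ A]
    (α : Act G A) (I : Ideal A) [I.IsPrime] (hI : (α.restr f).Stable I) (K : Type) [Field K]
    [Algebra (RR G (A ⧸ I)) K] [IsFractionRing (RR G (A ⧸ I)) K] (j : Fin f.c) :
    f.w (f.e j) (gam G (A ⧸ I)) ≠ 0 ∧
    ∃ (Φ : (A ⧸ I) ⊗[Λ] f.Γ j →+* K) (κ : A →+* (A ⧸ I) ⊗[Λ] f.Γ j), Function.Injective Φ ∧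
      (∀ i, Φ ((1 : A ⧸ I) ⊗ₜ[Λ] f.w i (f.σ j)) =
        algebraMap (RR G (A ⧸ I)) K (f.w i (gam G (A ⧸ I))) /
          algebraMap (RR G (A ⧸ I)) K (f.w (f.e j) (gam G (A ⧸ I)))) ∧
      Φ.comp κ = (algebraMap (RR G (A ⧸ I)) K).comp
        (α.orb (Ideal.Quotient.mkₐ Λ I) : A →+* RR G (A ⧸ I)) ∧
      Φ.range = Subring.closure
        (Set.range ((algebraMap (RR G (A ⧸ I)) K).comp
            (α.orb (Ideal.Quotient.mkₐ Λ I) : A →+* RR G (A ⧸ I))) ∪
          Set.range fun i => algebraMap (RR G (A ⧸ I)) K (f.w i (gam G (A ⧸ I))) /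
            algebraMap (RR G (A ⧸ I)) K (f.w (f.e j) (gam G (A ⧸ I)))) ∧
      ∀ e : Ideal A, α.Stable e → e.map κ = (e.map (Ideal.Quotient.mk I)).map
        (Algebra.TensorProduct.includeLeft : A ⧸ I →ₐ[Λ] (A ⧸ I) ⊗[Λ] f.Γ j) := by
  have hdom : IsDomain (RR G (A ⧸ I)) := isDomain_RR G hG
  have hw := w_ne_zero f I j
  have hβi : Function.Injective (algebraMap (RR G (A ⧸ I)) K) := IsFractionRing.injective _ _
  have hmain : ∃ Φ : EE f I j →+* K, Function.Injective Φ ∧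
      (∀ i, Φ ((1 : A ⧸ I) ⊗ₜ[Λ] f.w i (f.σ j)) =
        algebraMap (RR G (A ⧸ I)) K (f.w i (gam G (A ⧸ I))) /
          algebraMap (RR G (A ⧸ I)) K (f.w (f.e j) (gam G (A ⧸ I)))) ∧
      (∀ a, Φ (kap f α I j a) =
        algebraMap (RR G (A ⧸ I)) K (α.orb (Ideal.Quotient.mkₐ Λ I) a)) ∧
      ∀ S : Subring K, (∀ a, algebraMap (RR G (A ⧸ I)) K
          (α.orb (Ideal.Quotient.mkₐ Λ I) a) ∈ S) →
        (∀ i, algebraMap (RR G (A ⧸ I)) K (f.w i (gam G (A ⧸ I))) /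
          algebraMap (RR G (A ⧸ I)) K (f.w (f.e j) (gam G (A ⧸ I))) ∈ S) →
        ∀ b, Φ b ∈ S := by
    let iK : Algebra Λ K :=
      ((algebraMap (RR G (A ⧸ I)) K).comp (algebraMap Λ (RR G (A ⧸ I)))).toAlgebra
    have iT : IsScalarTower Λ (RR G (A ⧸ I)) K := IsScalarTower.of_algebraMap_eq fun _ => rfl
    obtain ⟨Φ, h1, h2, h3, h4⟩ := chart_main f α I hI j
      (IsScalarTower.toAlgHom Λ (RR G (A ⧸ I)) K) hβi hw
    exact ⟨Φ.toRingHom, h1, h2, h3, h4⟩
  obtain ⟨Φ, h1, h2, h3, h4⟩ := hmain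
  have q3 : Φ.comp (kap f α I j : A →+* EE f I j) = (algebraMap (RR G (A ⧸ I)) K).comp
        (α.orb (Ideal.Quotient.mkₐ Λ I) : A →+* RR G (A ⧸ I)) := by
    apply RingHom.ext
    intro a
    exact h3 a
  have q4 : Φ.range = Subring.closure
        (Set.range ((algebraMap (RR G (A ⧸ I)) K).comp
            (α.orb (Ideal.Quotient.mkₐ Λ I) : A →+* RR G (A ⧸ I))) ∪
          Set.range fun i => algebraMap (RR G (A ⧸ I)) K (f.w i (gam G (A ⧸ I))) /
            algebraMap (RR G (A ⧸ I)) K (f.w (f.e j) (gam G (A ⧸ I)))) := by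
    apply le_antisymm
    · rintro x ⟨b, rfl⟩
      exact h4 _ (fun a => Subring.subset_closure (Or.inl ⟨a, rfl⟩))
        (fun i => Subring.subset_closure (Or.inr ⟨i, rfl⟩)) b
    · rw [Subring.closure_le]
      rintro x (⟨a, rfl⟩ | ⟨i, rfl⟩)
      · exact ⟨kap f α I j a, h3 a⟩
      · exact ⟨(1 : A ⧸ I) ⊗ₜ[Λ] f.w i (f.σ j), h2 i⟩
  have q5 : ∀ e : Ideal A, α.Stable e → e.map (kap f α I j : A →+* EE f I j) =
      (e.map (Ideal.Quotient.mk I)).map
        (Algebra.TensorProduct.includeLeft : A ⧸ I →ₐ[Λ] (A ⧸ I) ⊗[Λ] f.Γ j) :=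
    fun e he => map_kap f α I j e he
  exact ⟨hw, Φ, (kap f α I j : A →+* EE f I j), h1, h2, q3, q4, q5⟩

end Pool.Agent.Helper72.OC
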