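import Pool.Agent.Helper72.OB.Defs

/-!
# Flagged affine group schemes and their actions on affine schemes
-/

set_option autoImplicit false

namespace Pool.Agent.Helper72.OC

open TensorProduct

/-- An affine group scheme over `Λ`: a functor `Pt` from commutative `Λ`-algebras to groups,
represented by the `Λ`-algebra `O` and the universal element `gen`. -/
structure GSch (Λ : Type) [CommRing Λ] where
  Pt : ∀ (R : Type) [CommRing R] [Algebra Λ R], Type
  grp : ∀ (R : Type) [CommRing R] [Algebra Λ R], Group (Pt R)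
  map : ∀ {R R' : Type} [CommRing R] [Algebra Λ R] [CommRing R'] [Algebra Λ R'],
    (R →ₐ[Λ] R') → Pt R →* Pt R'
  O : Type
  ring : CommRing O
  alg : Algebra Λ O
  gen : Pt O
  ev : ∀ {R : Type} [CommRing R] [Algebra Λ R], Pt R → (O →ₐ[Λ] R)
  map_ev : ∀ {R : Type} [CommRing R] [Algebra Λ R] (g : Pt R), map (ev g) gen = g
  ev_map : ∀ {R : Type} [CommRing R] [Algebra Λ R] (f : O →ₐ[Λ] R), ev (map f gen) = f
  map_comp : ∀ {R R' R'' : Type} [CommRing R] [Algebra Λ R] [CommRing R'] [Algebra Λ R']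
    [CommRing R''] [Algebra Λ R''] (f : R →ₐ[Λ] R') (f' : R' →ₐ[Λ] R'') (g : Pt R),
    map (f'.comp f) g = map f' (map f g)

attribute [instance] GSch.grp GSch.ring GSch.alg

variable {Λ : Type} [CommRing Λ]

/-- `O` is smooth, for every domain `A` the ring `A ⊗ O` is a domain, and every element of `A ⊗ O`
has a finitely generated content ideal compatible with base change. (This holds if `O` is smooth
and projective over `Λ` with geometrically integral fibres.) -/
structure GSch.Good (G : GSch Λ) : Prop where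
  smooth : Algebra.Smooth Λ G.O
  domain : ∀ (A : Type) [CommRing A] [Algebra Λ A], IsDomain A → IsDomain (A ⊗[Λ] G.O)
  content : ∀ (A : Type) [CommRing A] [Algebra Λ A] (b : A ⊗[Λ] G.O), ∃ s : Finset A,
    ∀ (R : Type) [CommRing R] [Algebra Λ R] (f : A →ₐ[Λ] R),
      Algebra.TensorProduct.map f (AlgHom.id Λ G.O) b = 0 ↔ ∀ c ∈ s, f c = 0

/-- A split torus of rank `n` and natural maps `x_k` (`k < N`) from the additive group to `G`. -/
structure SolvGens (G : GSch Λ) where
  N : ℕ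
  n : ℕ
  x : Fin N → ∀ {R : Type} [CommRing R] [Algebra Λ R], R → G.Pt R
  t : ∀ {R : Type} [CommRing R] [Algebra Λ R], (Fin n → Rˣ) →* G.Pt R
  β : Fin N → Fin n → ℤ
  x_nat : ∀ k {R R' : Type} [CommRing R] [Algebra Λ R] [CommRing R'] [Algebra Λ R']
    (f : R →ₐ[Λ] R') (c : R), G.map f (x k c) = x k (f c)
  t_nat : ∀ {R R' : Type} [CommRing R] [Algebra Λ R] [CommRing R'] [Algebra Λ R']
    (f : R →ₐ[Λ] R') (u : Fin n → Rˣ), G.map f (t u) = t fun i => Units.map (f : R →* R') (u i)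

/-- A split solvable group: it is generated by a split torus of rank `n` and by natural maps `x_k`
(`k < N`) from the additive group; modulo the subgroup `U_k` generated by the `x_h` with `h < k` the
map `x_k` is additive and is normalised by the torus through the character `β_k`, and the
commutators of `x_k` and `x_l` lie in `U_l` if `l ≤ k`. -/
structure Solv (G : GSch Λ) extends SolvGens G where
  x_zero : ∀ k (R : Type) [CommRing R] [Algebra Λ R], x k (0 : R) = 1
  x_add : ∀ k {R : Type} [CommRing R] [Algebra Λ R] (a b : R),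
    x k (a + b) * (x k a * x k b)⁻¹ ∈ Subgroup.closure {g | ∃ h < k, ∃ c : R, g = x h c}
  conj : ∀ k {R : Type} [CommRing R] [Algebra Λ R] (u : Fin n → Rˣ) (a : R),
    t u * x k a * (x k (((∏ i, u i ^ β k i : Rˣ) : R) * a) * t u)⁻¹ ∈
      Subgroup.closure {g | ∃ h < k, ∃ c : R, g = x h c}
  comm : ∀ k l, l ≤ k → ∀ {R : Type} [CommRing R] [Algebra Λ R] (a b : R),
    x k a * x l b * (x l b * x k a)⁻¹ ∈ Subgroup.closure {g | ∃ h < l, ∃ c : R, g = x h c}
  gen : ∀ (R : Type) [CommRing R] [Algebra Λ R],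
    Subgroup.closure ({g : G.Pt R | ∃ k c, g = x k c} ∪ {g | ∃ u, g = t u}) = ⊤

/-- `Q` is a subgroup of `G`, `χ` a function on `Q`, and the functions `w_i` on `G` satisfy
`w_i(g q) = w_i(g) χ(q)`. -/
structure FlagData (Q G : GSch Λ) where
  inc : ∀ {R : Type} [CommRing R] [Algebra Λ R], Q.Pt R →* G.Pt R
  inc_nat : ∀ {R R' : Type} [CommRing R] [Algebra Λ R] [CommRing R'] [Algebra Λ R']
    (f : R →ₐ[Λ] R') (q : Q.Pt R), G.map f (inc q) = inc (Q.map f q)
  m : ℕ
  w : Fin m → ∀ {R : Type} [CommRing R] [Algebra Λ R], G.Pt R → R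
  w_nat : ∀ i {R R' : Type} [CommRing R] [Algebra Λ R] [CommRing R'] [Algebra Λ R']
    (f : R →ₐ[Λ] R') (g : G.Pt R), w i (G.map f g) = f (w i g)
  χ : ∀ {R : Type} [CommRing R] [Algebra Λ R], Q.Pt R → R
  w_mul : ∀ i {R : Type} [CommRing R] [Algebra Λ R] (g : G.Pt R) (q : Q.Pt R),
    w i (g * inc q) = w i g * χ q

/-- In addition, `c > 0` functions `w_(e j)` without common zeros on the projective scheme on which
the `w_i` are the coordinates. -/
structure FlagCover (Q G : GSch Λ) extends FlagData Q G where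
  c : ℕ
  pos : 0 < c
  e : Fin c → Fin m
  cover : ∀ i, ∃ (k : ℕ) (p : Fin c → MvPolynomial (Fin m) Λ), (∀ j, (p j).IsHomogeneous k) ∧
    ∀ {R : Type} [CommRing R] [Algebra Λ R] (g : G.Pt R),
      w i g ^ (k + 1) = ∑ j, w (e j) g * MvPolynomial.aeval (fun l => w l g) (p j)

/-- `Q` is a subgroup of `G` such that `G/Q` is a projective scheme with a covering by affine
charts with sections and cells: the functions `w_i` on `G` satisfy `w_i(g q) = w_i(g) χ(q)`; the
chart `j < c` is given by `w_(e j) ≠ 0`, its coordinate ring `Γ_j` is generated by the `w_i(σ_j)`,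
where `σ_j` is an element of `G(Γ_j)`, every `g` with `w_(e j)(g)` invertible is uniquely of the
form `u(σ_j) q`; the charts cover the projective scheme (`cover`), and the complement in the chart
`j` of the charts `l < j` is up to nilpotents an affine space (`cell`). -/
structure Flag (Q G : GSch Λ) extends FlagCover Q G where
  Γ : Fin c → Type
  ringΓ : ∀ j, CommRing (Γ j)
  algΓ : ∀ j, Algebra Λ (Γ j)
  σ : ∀ j, G.Pt (Γ j)
  w_σ : ∀ j, w (e j) (σ j) = 1
  gen : ∀ j, Algebra.adjoin Λ (Set.range fun i => w i (σ j)) = ⊤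
  chart : ∀ j {R : Type} [CommRing R] [Algebra Λ R] (g : G.Pt R), IsUnit (w (e j) g) →
    ∃! p : (Γ j →ₐ[Λ] R) × Q.Pt R, g = G.map p.1 (σ j) * inc p.2
  dim : Fin c → ℕ
  cell : ∀ j, Γ j →ₐ[Λ] MvPolynomial (Fin (dim j)) Λ
  cell_surj : ∀ j, Function.Surjective (cell j)
  cell_zero : ∀ j, ∀ l < j, cell j (w (e l) (σ j)) = 0
  cell_ker : ∀ j, ∀ f, cell j f = 0 → f ∈ (Ideal.span {a | ∃ l < j, a = w (e l) (σ j)}).radical

/-- `G'` is the base change of `G` along `Λ → Λ'`. -/
def IsBC {Λ Λ' : Type} [CommRing Λ] [CommRing Λ'] [Algebra Λ Λ'] (G : GSch Λ) (G' : GSch Λ') :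
    Prop :=
  ∃ e : ∀ (R : Type) [CommRing R] [Algebra Λ R] [Algebra Λ' R] [IsScalarTower Λ Λ' R],
    G'.Pt R ≃* G.Pt R, ∀ (R R' : Type) [CommRing R] [Algebra Λ R] [Algebra Λ' R]
      [IsScalarTower Λ Λ' R] [CommRing R'] [Algebra Λ R'] [Algebra Λ' R'] [IsScalarTower Λ Λ' R']
      (f : R →ₐ[Λ'] R') (g : G'.Pt R), e R' (G'.map f g) = G.map (f.restrictScalars Λ) (e R g)

/-- Flagged group schemes: split solvable ones, those with a flagged subgroup `Q` and data `Flag`,
and those which become flagged, for every prime ideal `p` of `Λ`, over a finitely generated domain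
`Λ'` which contains `Λ/p` and is algebraic over `Λ/p`. -/
inductive Flagged : ∀ {Λ : Type} [CommRing Λ], GSch Λ → Prop
  | solv {Λ : Type} [CommRing Λ] (G : GSch Λ) : G.Good → Nonempty (Solv G) → Flagged G
  | flag {Λ : Type} [CommRing Λ] (Q G : GSch Λ) :
      G.Good → Nonempty (Flag Q G) → Flagged Q → Flagged G
  | ext {Λ : Type} [CommRing Λ] (G : GSch Λ) (Λ' : PrimeSpectrum Λ → Type)
      [∀ p, CommRing (Λ' p)] [∀ p, IsDomain (Λ' p)] [∀ p, Algebra Λ (Λ' p)]
      [∀ p, Algebra (Λ ⧸ p.asIdeal) (Λ' p)] [∀ p, IsScalarTower Λ (Λ ⧸ p.asIdeal) (Λ' p)]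
      (G' : ∀ p, GSch (Λ' p)) : G.Good → (∀ p, Algebra.FiniteType Λ (Λ' p)) →
      (∀ p : PrimeSpectrum Λ, Function.Injective (algebraMap (Λ ⧸ p.asIdeal) (Λ' p))) →
      (∀ p : PrimeSpectrum Λ, Algebra.IsAlgebraic (Λ ⧸ p.asIdeal) (Λ' p)) →
      (∀ p, IsBC G (G' p)) → (∀ p, Flagged (G' p)) → Flagged G

/-- An action of `G` on `Spec A`, that is on the functor `Hom(A, -)` of `Λ`-algebras. -/
structure Act (G : GSch Λ) (A : Type) [CommRing A] [Algebra Λ A] where
  act : ∀ {R : Type} [CommRing R] [Algebra Λ R], G.Pt R → (A →ₐ[Λ] R) → (A →ₐ[Λ] R)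
  one : ∀ {R : Type} [CommRing R] [Algebra Λ R] (x : A →ₐ[Λ] R), act 1 x = x
  mul : ∀ {R : Type} [CommRing R] [Algebra Λ R] (g h : G.Pt R) (x : A →ₐ[Λ] R),
    act (g * h) x = act g (act h x)
  nat : ∀ {R R' : Type} [CommRing R] [Algebra Λ R] [CommRing R'] [Algebra Λ R'] (f : R →ₐ[Λ] R')
    (g : G.Pt R) (x : A →ₐ[Λ] R), act (G.map f g) (f.comp x) = f.comp (act g x)

/-- The ideal `I` (equivalently, the closed subscheme given by `I`) is stable under the action. -/
def Act.Stable {G : GSch Λ} {A : Type} [CommRing A] [Algebra Λ A] (α : Act G A) (I : Ideal A) :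
    Prop :=
  ∀ {R : Type} [CommRing R] [Algebra Λ R] (g : G.Pt R) (x : A →ₐ[Λ] R), (∀ a ∈ I, x a = 0) →
    ∀ a ∈ I, α.act g x a = 0

/-- The action on the cone `Spec S` commutes with scaling. -/
def Act.Graded {G : GSch Λ} {S : Type} [CommRing S] [Algebra Λ S] (𝒮 : ℕ → AddSubgroup S)
    (α : Act G S) : Prop :=
  ∀ {R : Type} [CommRing R] [Algebra Λ R] (g : G.Pt R) (u : Rˣ) (x x' : S →ₐ[Λ] R),
    (∀ d, ∀ s ∈ 𝒮 d, x' s = u ^ d * x s) → ∀ d, ∀ s ∈ 𝒮 d, α.act g x' s = u ^ d * α.act g x s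

end Pool.Agent.Helper72.OC
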