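import Pool.Agent.Helper72.OC.Defs
import Pool.Agent.Helper72.OB.Defs2

/-!
# Orbit theorem for flagged groups: internal definitions
-/

set_option autoImplicit false

namespace Pool.Agent.Helper72.OC

open AlgebraicGeometry CategoryTheory TensorProduct
open Pool.Agent.Helper65.Mor (Arithmetic ClosedOpen FGen)
open Pool.Agent.Helper9.RS (Kron)
open Pool.Agent.Helper72.OB (DD LC)

variable {Λ : Type} [CommRing Λ] (G : GSch Λ)

/-- the coordinate ring of `G` over `A` -/
abbrev RR (A : Type) [CommRing A] [Algebra Λ A] : Type := A ⊗[Λ] G.O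

/-- the structure map of the coordinate ring -/
abbrev ιR (A : Type) [CommRing A] [Algebra Λ A] : A →ₐ[Λ] RR G A :=
  Algebra.TensorProduct.includeLeft

/-- the universal element -/
def gam (A : Type) [CommRing A] [Algebra Λ A] : G.Pt (RR G A) :=
  G.map (Algebra.TensorProduct.includeRight : G.O →ₐ[Λ] RR G A) G.gen

/-- evaluation of functions on `G` at an element -/
noncomputable def ev {A R : Type} [CommRing A] [Algebra Λ A] [CommRing R] [Algebra Λ R]
    (x : A →ₐ[Λ] R) (g : G.Pt R) : RR G A →ₐ[Λ] R :=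
  Algebra.TensorProduct.lift x (G.ev g) fun _ _ => Commute.all _ _

section

variable {A B R R' : Type} [CommRing A] [Algebra Λ A] [CommRing B] [Algebra Λ B] [CommRing R]
  [Algebra Λ R] [CommRing R'] [Algebra Λ R']

theorem map_id (g : G.Pt R) : G.map (AlgHom.id Λ R) g = g := by
  rw [← G.map_ev g, ← G.map_comp, AlgHom.id_comp]

theorem ev_comp_ι (x : A →ₐ[Λ] R) (g : G.Pt R) : (ev G x g).comp (ιR G A) = x :=
  Algebra.TensorProduct.lift_comp_includeLeft _ _ _

theorem ev_ι (x : A →ₐ[Λ] R) (g : G.Pt R) (a : A) : ev G x g (ιR G A a) = x a :=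
  congrArg (fun f => f a) (ev_comp_ι G x g)

theorem ev_comp_right (x : A →ₐ[Λ] R) (g : G.Pt R) :
    (ev G x g).comp (Algebra.TensorProduct.includeRight : G.O →ₐ[Λ] RR G A) = G.ev g := by
  ext o
  simp [ev]

theorem map_ev_gam (x : A →ₐ[Λ] R) (g : G.Pt R) : G.map (ev G x g) (gam G A) = g := by
  rw [gam, ← G.map_comp, ev_comp_right, G.map_ev]

theorem RR_hom_ext {f f' : RR G A →ₐ[Λ] R} (h1 : f.comp (ιR G A) = f'.comp (ιR G A))
    (h2 : G.map f (gam G A) = G.map f' (gam G A)) : f = f' := by
  apply Algebra.TensorProduct.ext h1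
  rw [gam, ← G.map_comp, ← G.map_comp] at h2
  have h3 := congrArg (fun g => G.ev g) h2
  simp only [G.ev_map] at h3
  exact h3

/-- functoriality of the coordinate ring -/
noncomputable def RRmap (f : A →ₐ[Λ] B) : RR G A →ₐ[Λ] RR G B := ev G ((ιR G B).comp f) (gam G B)

theorem RRmap_eq (f : A →ₐ[Λ] B) : RRmap G f = Algebra.TensorProduct.map f (AlgHom.id Λ G.O) := by
  apply Algebra.TensorProduct.ext
  · rw [RRmap, ev_comp_ι]
    rfl
  · apply AlgHom.ext
    intro o
    have h := congrArg (fun f => f o) (ev_comp_right G ((ιR G B).comp f) (gam G B))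
    simp only [gam, G.ev_map] at h
    simpa [RRmap, gam] using h

end

variable {G} {A : Type} [CommRing A] [Algebra Λ A]

/-- the coaction -/
noncomputable def Act.rho (α : Act G A) : A →ₐ[Λ] RR G A := α.act (gam G A) (ιR G A)

/-- the orbit map of the point `y` -/
noncomputable def Act.orb (α : Act G A) {R : Type} [CommRing R] [Algebra Λ R] (y : A →ₐ[Λ] R) :
    A →ₐ[Λ] RR G R :=
  α.act (gam G R) ((ιR G R).comp y)

theorem Act.act_eq (α : Act G A) {R : Type} [CommRing R] [Algebra Λ R] (g : G.Pt R)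
    (x : A →ₐ[Λ] R) : α.act g x = (ev G x g).comp α.rho := by
  rw [Act.rho, ← α.nat, ev_comp_ι, map_ev_gam]

theorem Act.orb_eq (α : Act G A) {R : Type} [CommRing R] [Algebra Λ R] (y : A →ₐ[Λ] R) :
    α.orb y = (RRmap G y).comp α.rho := by
  rw [Act.orb, Act.act_eq]
  rfl

/-- evaluation of the orbit map -/
theorem Act.ev_orb (α : Act G A) {R R' : Type} [CommRing R] [Algebra Λ R] [CommRing R']
    [Algebra Λ R'] (y : A →ₐ[Λ] R) (f : R →ₐ[Λ] R') (g : G.Pt R') :
    (ev G f g).comp (α.orb y) = α.act g (f.comp y) := by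
  rw [Act.orb, ← α.nat, ← AlgHom.comp_assoc, ev_comp_ι, map_ev_gam]

/-- the largest stable ideal contained in `I` -/
noncomputable def Act.core (α : Act G A) (I : Ideal A) : Ideal A :=
  RingHom.ker (α.orb (Ideal.Quotient.mkₐ Λ I))

/-- the action on a stable closed subscheme -/
noncomputable def Act.quot (α : Act G A) (I : Ideal A) (hI : α.Stable I) : Act G (A ⧸ I) where
  act g x := Ideal.Quotient.liftₐ I (α.act g (x.comp (Ideal.Quotient.mkₐ Λ I)))
    (hI g _ fun a ha => by
      rw [AlgHom.comp_apply, Ideal.Quotient.mkₐ_eq_mk, Ideal.Quotient.eq_zero_iff_mem.2 ha,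
        map_zero])
  one x := by
    apply Ideal.Quotient.algHom_ext
    rw [Ideal.Quotient.liftₐ_comp, α.one]
  mul g h x := by
    apply Ideal.Quotient.algHom_ext
    rw [Ideal.Quotient.liftₐ_comp, α.mul, Ideal.Quotient.liftₐ_comp,
      Ideal.Quotient.liftₐ_comp]
  nat f g x := by
    apply Ideal.Quotient.algHom_ext
    rw [Ideal.Quotient.liftₐ_comp, AlgHom.comp_assoc, AlgHom.comp_assoc,
      Ideal.Quotient.liftₐ_comp, α.nat]

theorem Act.quot_comp_mk (α : Act G A) (I : Ideal A) (hI : α.Stable I) {R : Type} [CommRing R]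
    [Algebra Λ R] (g : G.Pt R) (x : A ⧸ I →ₐ[Λ] R) :
    ((α.quot I hI).act g x).comp (Ideal.Quotient.mkₐ Λ I) =
      α.act g (x.comp (Ideal.Quotient.mkₐ Λ I)) := Ideal.Quotient.liftₐ_comp _ _ _

/-- restriction of an action to a subgroup -/
def Act.restr {Q G : GSch Λ} (f : Flag Q G) (α : Act G A) : Act Q A where
  act q x := α.act (f.inc q) x
  one x := by rw [map_one, α.one]
  mul q q' x := by rw [map_mul, α.mul]
  nat φ q x := by rw [← α.nat, f.inc_nat]

theorem Act.Stable.restr {Q G : GSch Λ} (f : Flag Q G) {α : Act G A} {I : Ideal A}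
    (hI : α.Stable I) : (α.restr f).Stable I := fun q x hx => hI (f.inc q) x hx

/-- the generic statement for the group `G`: if a geometric generic point of the integral scheme
`Spec A` is in the orbit of a point `y` over a small field, then there is a nonempty stable open
subscheme of `Spec A` all of whose nonempty stable open subschemes belong to `P`. -/
def Gen (P : Scheme.{0} → Prop) (G : GSch Λ) : Prop :=
  ∀ (A : Type) [CommRing A] [IsDomain A] [Algebra Λ A], FGen A → ∀ (α : Act G A) (L : Type)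
    [Field L] [Algebra Λ L] (y : A →ₐ[Λ] L), Kron 0 L → Function.Injective (α.orb y) →
    ∃ d : Ideal A, d ≠ ⊥ ∧ α.Stable d ∧ ∀ e : Ideal A, e ≠ ⊥ → e ≤ d → α.Stable e →
      P (DD e).toScheme

end Pool.Agent.Helper72.OC
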