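import Pool.Agent.Helper72.OC.Stab
import Pool.Agent.Helper9.RS.KD1
import Pool.Agent.Helper9.RS.KD2

/-!
# Orbit theorem for flagged groups, block X1: algebraic extensions of the base
-/

set_option autoImplicit false

namespace Pool.Agent.Helper72.OC

open Pool.Agent.Helper65.Mor (FGen)
open Pool.Agent.Helper9.RS (Kron)
open TensorProduct

section

variable {Λ Λ' : Type} [CommRing Λ] [CommRing Λ'] [Algebra Λ Λ'] {G : GSch Λ} {G' : GSch Λ'}
  {A : Type} [CommRing A] [Algebra Λ A]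

/-- homomorphisms from a base change are determined by the restriction -/
private theorem bc_ext24 {R : Type} [CommRing R] [Algebra Λ R] [Algebra Λ' R] [IsScalarTower Λ Λ' R]
    {f f' : Λ' ⊗[Λ] A →ₐ[Λ'] R}
    (h : (f.restrictScalars Λ).comp (Algebra.TensorProduct.includeRight : A →ₐ[Λ] Λ' ⊗[Λ] A) =
      (f'.restrictScalars Λ).comp Algebra.TensorProduct.includeRight) : f = f' :=
  Algebra.TensorProduct.ext (Subsingleton.elim _ _) h

/-- the homomorphism from a base change -/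
private noncomputable def bcl24 {R : Type} [CommRing R] [Algebra Λ R] [Algebra Λ' R]
    [IsScalarTower Λ Λ' R] (x : A →ₐ[Λ] R) : Λ' ⊗[Λ] A →ₐ[Λ'] R :=
  Algebra.TensorProduct.lift (Algebra.ofId Λ' R) x fun _ _ => Commute.all _ _

private theorem bcl_comp24 {R : Type} [CommRing R] [Algebra Λ R] [Algebra Λ' R]
    [IsScalarTower Λ Λ' R] (x : A →ₐ[Λ] R) :
    ((bcl24 (Λ' := Λ') x).restrictScalars Λ).comp Algebra.TensorProduct.includeRight = x :=
  Algebra.TensorProduct.lift_comp_includeRight _ _ _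

/-- the restriction of scalars -/
private abbrev res24 (Λ Λ' R : Type) [CommRing Λ] [CommRing Λ'] [Algebra Λ Λ'] [CommRing R]
    [Algebra Λ' R] : Algebra Λ R := ((algebraMap Λ' R).comp (algebraMap Λ Λ')).toAlgebra

private theorem res_eq24 {R : Type} [CommRing R] [h : Algebra Λ R] [Algebra Λ' R]
    [IsScalarTower Λ Λ' R] : h = res24 Λ Λ' R := by
  apply Algebra.algebra_ext
  intro r
  exact IsScalarTower.algebraMap_apply Λ Λ' R r

variable (e : ∀ (R : Type) [CommRing R] [Algebra Λ R] [Algebra Λ' R] [IsScalarTower Λ Λ' R],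
    G'.Pt R ≃* G.Pt R)
  (he : ∀ (R R' : Type) [CommRing R] [Algebra Λ R] [Algebra Λ' R]
      [IsScalarTower Λ Λ' R] [CommRing R'] [Algebra Λ R'] [Algebra Λ' R'] [IsScalarTower Λ Λ' R']
      (f : R →ₐ[Λ'] R') (g : G'.Pt R), e R' (G'.map f g) = G.map (f.restrictScalars Λ) (e R g))
  (α : Act G A)

/-- the base change of an action -/
private noncomputable def bcAct24 : Act G' (Λ' ⊗[Λ] A) where
  act {R} _ _ g x :=
    letI : Algebra Λ R := res24 Λ Λ' R
    haveI : IsScalarTower Λ Λ' R := IsScalarTower.of_algebraMap_eq fun _ => rfl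
    bcl24 (α.act (e R g) ((x.restrictScalars Λ).comp Algebra.TensorProduct.includeRight))
  one {R} _ _ x := by
    let _ : Algebra Λ R := res24 Λ Λ' R
    have : IsScalarTower Λ Λ' R := IsScalarTower.of_algebraMap_eq fun _ => rfl
    apply bc_ext24 (Λ := Λ)
    rw [bcl_comp24, map_one, α.one]
  mul {R} _ _ g h x := by
    let _ : Algebra Λ R := res24 Λ Λ' R
    have : IsScalarTower Λ Λ' R := IsScalarTower.of_algebraMap_eq fun _ => rfl
    apply bc_ext24 (Λ := Λ)
    rw [bcl_comp24, bcl_comp24, bcl_comp24, map_mul, α.mul]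
  nat {R R'} _ _ _ _ f g x := by
    let _ : Algebra Λ R := res24 Λ Λ' R
    have : IsScalarTower Λ Λ' R := IsScalarTower.of_algebraMap_eq fun _ => rfl
    let _ : Algebra Λ R' := res24 Λ Λ' R'
    have : IsScalarTower Λ Λ' R' := IsScalarTower.of_algebraMap_eq fun _ => rfl
    apply bc_ext24 (Λ := Λ)
    rw [bcl_comp24, he]
    have h1 : ((f.comp x).restrictScalars Λ).comp
        (Algebra.TensorProduct.includeRight : A →ₐ[Λ] Λ' ⊗[Λ] A) =
        (f.restrictScalars Λ).comp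
          ((x.restrictScalars Λ).comp Algebra.TensorProduct.includeRight) := rfl
    have h2 : ∀ z : Λ' ⊗[Λ] A →ₐ[Λ'] R, ((f.comp z).restrictScalars Λ).comp
        (Algebra.TensorProduct.includeRight : A →ₐ[Λ] Λ' ⊗[Λ] A) =
        (f.restrictScalars Λ).comp
          ((z.restrictScalars Λ).comp Algebra.TensorProduct.includeRight) := fun _ => rfl
    rw [h1, α.nat, h2, bcl_comp24]

private theorem bcAct_comp24 {R : Type} [CommRing R] [h : Algebra Λ R] [Algebra Λ' R]
    [IsScalarTower Λ Λ' R] (g : G'.Pt R) (x : Λ' ⊗[Λ] A →ₐ[Λ'] R) :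
    (((bcAct24 e he α).act g x).restrictScalars Λ).comp
      (Algebra.TensorProduct.includeRight : A →ₐ[Λ] Λ' ⊗[Λ] A) =
      α.act (e R g) ((x.restrictScalars Λ).comp Algebra.TensorProduct.includeRight) := by
  have h1 := res_eq24 (Λ := Λ) (Λ' := Λ') (R := R) (h := h)
  subst h1
  let _ : Algebra Λ R := res24 Λ Λ' R
  exact bcl_comp24 _

private theorem bcAct_apply24 {R : Type} [CommRing R] [Algebra Λ R] [Algebra Λ' R]
    [IsScalarTower Λ Λ' R] (g : G'.Pt R) (x : Λ' ⊗[Λ] A →ₐ[Λ'] R) (a : A) :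
    (bcAct24 e he α).act g x (1 ⊗ₜ a) =
      α.act (e R g) ((x.restrictScalars Λ).comp Algebra.TensorProduct.includeRight) a :=
  congrArg (fun f => f a) (bcAct_comp24 e he α g x)

/-- stable ideals, I -/
private theorem stable_map24 {I : Ideal A} (hI : α.Stable I) : (bcAct24 e he α).Stable
    (I.map (Algebra.TensorProduct.includeRight : A →ₐ[Λ] Λ' ⊗[Λ] A)) := by
  intro R _ _ g x hx
  let _ : Algebra Λ R := res24 Λ Λ' R
  have : IsScalarTower Λ Λ' R := IsScalarTower.of_algebraMap_eq fun _ => rfl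
  have h1 : I.map (Algebra.TensorProduct.includeRight : A →ₐ[Λ] Λ' ⊗[Λ] A) ≤
      RingHom.ker ((bcAct24 e he α).act g x) := by
    rw [Ideal.map_le_iff_le_comap]
    intro a ha
    rw [Ideal.mem_comap, RingHom.mem_ker]
    refine (bcAct_apply24 e he α g x a).trans (hI _ _ (fun b hb => ?_) a ha)
    exact hx _ (Ideal.mem_map_of_mem _ hb)
  intro a ha
  exact h1 ha

/-- stable ideals, II -/
private theorem stable_comap24 (hG : G.Good) {D : Ideal (Λ' ⊗[Λ] A)}
    (hD : (bcAct24 e he α).Stable D) : α.Stable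
    (D.comap (Algebra.TensorProduct.includeRight : A →ₐ[Λ] Λ' ⊗[Λ] A)) := by
  rw [Act.stable_iff]
  intro a ha
  let f : A →ₐ[Λ] (Λ' ⊗[Λ] A) ⧸ D := (Ideal.Quotient.mkₐ Λ D).comp
    (Algebra.TensorProduct.includeRight : A →ₐ[Λ] Λ' ⊗[Λ] A)
  have hf : RingHom.ker f = D.comap
      (Algebra.TensorProduct.includeRight : A →ₐ[Λ] Λ' ⊗[Λ] A) := by
    ext b
    rw [RingHom.mem_ker, Ideal.mem_comap, ← Ideal.Quotient.eq_zero_iff_mem]
    rfl
  rw [← hf, ← RRmap_eq_zero_iff G hG]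
  have h1 : RRmap G f (α.rho a) = α.orb f a := by
    rw [α.orb_eq]
    rfl
  rw [h1]
  have h2 := hD ((e (RR G ((Λ' ⊗[Λ] A) ⧸ D))).symm (gam G ((Λ' ⊗[Λ] A) ⧸ D)))
    ((Algebra.TensorProduct.includeLeft : (Λ' ⊗[Λ] A) ⧸ D →ₐ[Λ'] RR G ((Λ' ⊗[Λ] A) ⧸ D)).comp
      (Ideal.Quotient.mkₐ Λ' D)) (fun b hb => by
        rw [AlgHom.comp_apply, Ideal.Quotient.mkₐ_eq_mk, Ideal.Quotient.eq_zero_iff_mem.2 hb,
          map_zero]) _ ha
  refine Eq.trans ?_ h2
  refine Eq.trans ?_ (bcAct_apply24 e he α _ _ a).symm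
  rw [MulEquiv.apply_symm_apply]
  rfl

include he in
/-- the universal element of the base change gives an injective map -/
private theorem ev_inj24 (R : Type) [CommRing R] [Algebra Λ R] [Algebra Λ' R]
    [IsScalarTower Λ Λ' R] :
    Function.Injective (ev G ((ιR G' R).restrictScalars Λ) (e (RR G' R) (gam G' R))) := by
  have h0 : IsScalarTower Λ Λ' (RR G R) := inferInstance
  let s : RR G' R →ₐ[Λ'] RR G R := ev G'
    (Algebra.TensorProduct.includeLeft : R →ₐ[Λ'] RR G R) ((e (RR G R)).symm (gam G R))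
  have key : (s.restrictScalars Λ).comp
      (ev G ((ιR G' R).restrictScalars Λ) (e (RR G' R) (gam G' R))) = AlgHom.id Λ (RR G R) := by
    apply RR_hom_ext
    · rw [AlgHom.comp_assoc, ev_comp_ι]
      ext r
      exact congrArg (fun f => f r) (ev_comp_ι G'
        (Algebra.TensorProduct.includeLeft : R →ₐ[Λ'] RR G R) ((e (RR G R)).symm (gam G R)))
    · rw [G.map_comp, map_ev_gam, ← he, map_ev_gam, MulEquiv.apply_symm_apply, map_id]
  intro a b hab
  have h1 := congrArg (fun f => f a) key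
  have h2 := congrArg (fun f => f b) key
  simp only [AlgHom.comp_apply, AlgHom.id_apply] at h1 h2
  rw [← h1, ← h2, hab]

end

/-- the statement for a field `L'` which contains `Λ'` -/
private theorem ext_aux24 {Λ Λ' : Type} [CommRing Λ] [CommRing Λ'] [IsDomain Λ'] [Algebra Λ Λ']
    (p : Ideal Λ) [Algebra (Λ ⧸ p) Λ'] [IsScalarTower Λ (Λ ⧸ p) Λ'] (hft : Algebra.FiniteType Λ Λ')
    (hinj : Function.Injective (algebraMap (Λ ⧸ p) Λ')) (halg : Algebra.IsAlgebraic (Λ ⧸ p) Λ')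
    {G : GSch Λ} {G' : GSch Λ'} (hG : G.Good) (hG' : G'.Good) (hBC : IsBC G G') {A : Type}
    [CommRing A] [Algebra Λ A] (hp : RingHom.ker (algebraMap Λ A) = p) (hA : FGen A)
    (α : Act G A) {L : Type} [Field L] [Algebra Λ L] (y : A →ₐ[Λ] L)
    (hy : Function.Injective (α.orb y)) {L' : Type} [Field L'] [Algebra Λ L'] [Algebra Λ' L']
    [IsScalarTower Λ Λ' L'] (j : L →ₐ[Λ] L') (hL' : Kron 0 L') :
    ∃ (B : Type) (_ : CommRing B) (_ : IsDomain B) (_ : Algebra Λ' B) (_ : Algebra A B), FGen B ∧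
      Function.Injective (algebraMap A B) ∧
      (∃ l : Λ, algebraMap Λ A l ≠ 0 ∧
        ∀ b : B, ∃ k : ℕ, IsIntegral A (algebraMap A B (algebraMap Λ A l ^ k) * b)) ∧
      ∃ (β : Act G' B) (L' : Type) (_ : Field L') (_ : Algebra Λ' L') (y' : B →ₐ[Λ'] L'),
        Kron 0 L' ∧ Function.Injective (β.orb y') ∧
        (∀ e : Ideal A, α.Stable e → β.Stable (e.map (algebraMap A B))) ∧
        ∀ d : Ideal B, β.Stable d → α.Stable (d.comap (algebraMap A B)) := by
  obtain ⟨e, he⟩ := hBC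
  let inR : A →ₐ[Λ] Λ' ⊗[Λ] A := Algebra.TensorProduct.includeRight
  let y₁ : Λ' ⊗[Λ] A →ₐ[Λ'] L' := bcl24 (j.comp y)
  let β₀ : Act G' (Λ' ⊗[Λ] A) := bcAct24 e he α
  obtain ⟨q, hq⟩ : ∃ q : Ideal (Λ' ⊗[Λ] A), q = RingHom.ker (β₀.orb y₁) := ⟨_, rfl⟩
  have hqs : β₀.Stable q := by
    rw [hq]
    exact β₀.ker_orb_stable hG' y₁
  have hdom : IsDomain (RR G' L') := isDomain_RR G' hG' (A := L')
  have hqp : q.IsPrime := by
    rw [hq]
    exact RingHom.ker_isPrime _
  have hqle : ∀ c ∈ q, y₁ c = 0 := by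
    intro c hc
    have h1 := β₀.ev_orb y₁ (AlgHom.id Λ' L') 1
    rw [β₀.one, AlgHom.id_comp] at h1
    have h2 := congrArg (fun f => f c) h1
    simp only [AlgHom.comp_apply] at h2
    rw [hq] at hc
    rw [← h2, (RingHom.mem_ker).1 hc, map_zero]
  let _ : Algebra A ((Λ' ⊗[Λ] A) ⧸ q) := ((Ideal.Quotient.mk q).comp inR.toRingHom).toAlgebra
  have hAB : ∀ a, algebraMap A ((Λ' ⊗[Λ] A) ⧸ q) a = Ideal.Quotient.mk q (1 ⊗ₜ a) := fun _ => rfl
  have hΛB : ∀ l, algebraMap Λ' ((Λ' ⊗[Λ] A) ⧸ q) l = Ideal.Quotient.mk q (l ⊗ₜ 1) := fun _ => rfl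
  let y' : (Λ' ⊗[Λ] A) ⧸ q →ₐ[Λ'] L' := Ideal.Quotient.liftₐ q y₁ hqle
  refine ⟨(Λ' ⊗[Λ] A) ⧸ q, inferInstance, Ideal.Quotient.isDomain q, inferInstance, inferInstance,
    ?_, ?_, ?_, β₀.quot q hqs, L', inferInstance, inferInstance, y', hL', ?_, ?_, ?_⟩
  · -- finitely generated
    have h1 : FGen (A ⊗[Λ] Λ') := hA.of_hom (algebraMap A (A ⊗[Λ] Λ'))
      (RingHom.finiteType_algebraMap.2 inferInstance)
    have h2 : FGen (Λ' ⊗[Λ] A) := h1.of_surjective
      (Algebra.TensorProduct.comm Λ A Λ').toRingEquiv.toRingHom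
      (Algebra.TensorProduct.comm Λ A Λ').surjective
    exact h2.of_surjective (Ideal.Quotient.mk q) Ideal.Quotient.mk_surjective
  · -- injective
    rw [injective_iff_map_eq_zero]
    intro a ha
    rw [hAB, Ideal.Quotient.eq_zero_iff_mem, hq, RingHom.mem_ker] at ha
    have h1 := bcAct_apply24 e he α (gam G' L') ((ιR G' L').comp y₁) a
    have h2 : ((((ιR G' L').comp y₁).restrictScalars Λ).comp
        (Algebra.TensorProduct.includeRight : A →ₐ[Λ] Λ' ⊗[Λ] A)) =
        (((ιR G' L').restrictScalars Λ).comp j).comp y := by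
      have h3 : ((y₁.restrictScalars Λ).comp
          (Algebra.TensorProduct.includeRight : A →ₐ[Λ] Λ' ⊗[Λ] A)) = j.comp y := bcl_comp24 _
      rw [AlgHom.comp_assoc, ← h3]
      rfl
    rw [h2, ← α.ev_orb, ← ev_comp_RRmap] at h1
    have h4 : ev G ((ιR G' L').restrictScalars Λ) (e (RR G' L') (gam G' L'))
        (RRmap G j (α.orb y a)) = 0 := h1.symm.trans ha
    have h5 : RRmap G j (α.orb y a) = 0 := by
      apply ev_inj24 e he L'
      rw [h4, map_zero]
    apply hy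
    apply RRmap_inj G hG j.injective
    rw [h5, map_zero, map_zero]
  · -- integral
    have hdomp : IsDomain (Λ ⧸ p) := hinj.isDomain (algebraMap (Λ ⧸ p) Λ')
    obtain ⟨s, hs⟩ := hft
    obtain ⟨r, hr0, hr⟩ := Algebra.IsAlgebraic.exists_integral_multiples (R := Λ ⧸ p) s
    obtain ⟨l, rfl⟩ := Ideal.Quotient.mk_surjective r
    have hl0 : algebraMap Λ A l ≠ 0 := by
      intro h1
      apply hr0
      rw [Ideal.Quotient.eq_zero_iff_mem, ← hp]
      exact h1
    refine ⟨l, hl0, ?_⟩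
    let φ : Λ ⧸ p →+* A := Ideal.Quotient.lift p (algebraMap Λ A) fun l hl => by
      rw [← hp] at hl
      exact hl
    have hcomm : ∀ l : Λ, algebraMap A ((Λ' ⊗[Λ] A) ⧸ q) (algebraMap Λ A l) =
        algebraMap Λ' ((Λ' ⊗[Λ] A) ⧸ q) (algebraMap Λ Λ' l) := by
      intro l
      rw [hAB, hΛB]
      congr 1
      exact ((Algebra.TensorProduct.includeRight : A →ₐ[Λ] Λ' ⊗[Λ] A).commutes l).trans
        ((Algebra.TensorProduct.includeLeft : Λ' →ₐ[Λ] Λ' ⊗[Λ] A).commutes l).symm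
    have hφ : (algebraMap A ((Λ' ⊗[Λ] A) ⧸ q)).comp φ =
        (algebraMap Λ' ((Λ' ⊗[Λ] A) ⧸ q)).comp (algebraMap (Λ ⧸ p) Λ') := by
      apply Ideal.Quotient.ringHom_ext
      ext l
      simp only [RingHom.comp_apply]
      have h1 : algebraMap (Λ ⧸ p) Λ' (Ideal.Quotient.mk p l) = algebraMap Λ Λ' l :=
        (IsScalarTower.algebraMap_apply Λ (Λ ⧸ p) Λ' l).symm
      rw [h1, ← hcomm]
      rfl
    have hmul : ∀ b c : (Λ' ⊗[Λ] A) ⧸ q,
        (∃ k : ℕ, IsIntegral A (algebraMap A _ (algebraMap Λ A l ^ k) * b)) →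
        (∃ k : ℕ, IsIntegral A (algebraMap A _ (algebraMap Λ A l ^ k) * c)) →
        ∃ k : ℕ, IsIntegral A (algebraMap A _ (algebraMap Λ A l ^ k) * (b * c)) := by
      rintro b c ⟨k, hk⟩ ⟨m, hm⟩
      refine ⟨k + m, ?_⟩
      have := hk.mul hm
      rwa [mul_mul_mul_comm, ← map_mul, ← pow_add] at this
    have hadd : ∀ b c : (Λ' ⊗[Λ] A) ⧸ q,
        (∃ k : ℕ, IsIntegral A (algebraMap A _ (algebraMap Λ A l ^ k) * b)) →
        (∃ k : ℕ, IsIntegral A (algebraMap A _ (algebraMap Λ A l ^ k) * c)) →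
        ∃ k : ℕ, IsIntegral A (algebraMap A _ (algebraMap Λ A l ^ k) * (b + c)) := by
      rintro b c ⟨k, hk⟩ ⟨m, hm⟩
      refine ⟨k + m, ?_⟩
      have h1 := (isIntegral_algebraMap (R := A) (A := (Λ' ⊗[Λ] A) ⧸ q)
        (x := algebraMap Λ A l ^ m)).mul hk
      have h2 := (isIntegral_algebraMap (R := A) (A := (Λ' ⊗[Λ] A) ⧸ q)
        (x := algebraMap Λ A l ^ k)).mul hm
      have h3 := h1.add h2
      rw [← mul_assoc, ← mul_assoc, ← map_mul, ← map_mul, ← pow_add, ← pow_add, add_comm m k,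
        ← mul_add] at h3
      exact h3
    have hone : ∀ a : A, ∃ k : ℕ, IsIntegral A (algebraMap A ((Λ' ⊗[Λ] A) ⧸ q)
        (algebraMap Λ A l ^ k) * algebraMap A _ a) := fun a =>
      ⟨0, isIntegral_algebraMap.mul isIntegral_algebraMap⟩
    have hΛ : ∀ x : Λ', ∃ k : ℕ, IsIntegral A (algebraMap A ((Λ' ⊗[Λ] A) ⧸ q)
        (algebraMap Λ A l ^ k) * algebraMap Λ' _ x) := by
      intro x
      have hx : x ∈ Algebra.adjoin Λ (s : Set Λ') := hs ▸ Algebra.mem_top
      induction hx using Algebra.adjoin_induction with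
      | mem x hx =>
        refine ⟨1, ?_⟩
        have h1 := (hr x hx).map_of_comp_eq φ (algebraMap Λ' ((Λ' ⊗[Λ] A) ⧸ q)) hφ
        have h2 : Ideal.Quotient.mk p l • x = algebraMap Λ Λ' l * x := by
          rw [Algebra.smul_def]
          congr 1
          exact (IsScalarTower.algebraMap_apply Λ (Λ ⧸ p) Λ' l).symm
        rw [h2, map_mul, ← hcomm] at h1
        rw [pow_one]
        exact h1
      | algebraMap l =>
        rw [← hcomm]
        exact hone _
      | add x y _ _ h1 h2 =>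
        rw [map_add]
        exact hadd _ _ h1 h2
      | mul x y _ _ h1 h2 =>
        rw [map_mul]
        exact hmul _ _ h1 h2
    intro b
    obtain ⟨c, rfl⟩ := Ideal.Quotient.mk_surjective b
    induction c using TensorProduct.induction_on with
    | zero =>
      rw [map_zero]
      refine ⟨0, ?_⟩
      rw [mul_zero]
      exact isIntegral_zero
    | tmul x a =>
      have h1 : Ideal.Quotient.mk q (x ⊗ₜ a) =
          algebraMap Λ' ((Λ' ⊗[Λ] A) ⧸ q) x * algebraMap A ((Λ' ⊗[Λ] A) ⧸ q) a := by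
        rw [hAB, hΛB, ← map_mul, Algebra.TensorProduct.tmul_mul_tmul, mul_one, one_mul]
      rw [h1]
      exact hmul _ _ (hΛ x) (hone a)
    | add x y h1 h2 =>
      rw [map_add]
      exact hadd _ _ h1 h2
  · -- the orbit map
    rw [injective_iff_map_eq_zero]
    intro b hb
    obtain ⟨c, rfl⟩ := Ideal.Quotient.mk_surjective b
    have h1 := congrArg (fun f => f c) (Act.orb_quot hqs y')
    have h2 : y'.comp (Ideal.Quotient.mkₐ Λ' q) = y₁ := Ideal.Quotient.liftₐ_comp _ _ _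
    rw [h2] at h1
    simp only [AlgHom.comp_apply, Ideal.Quotient.mkₐ_eq_mk] at h1
    rw [Ideal.Quotient.eq_zero_iff_mem, hq, RingHom.mem_ker, ← h1]
    exact hb
  · intro d hd
    have h0 : β₀.Stable (d.map inR) := @stable_map24 Λ Λ' _ _ _ G G' A _ _ e he α d hd
    have h1 : (β₀.quot q hqs).Stable ((d.map inR).map (Ideal.Quotient.mk q)) :=
      @Act.Stable.map_quot Λ' _ G' _ _ _ β₀ q (d.map inR) (@hqs) (@h0)
    have h2 : d.map (algebraMap A ((Λ' ⊗[Λ] A) ⧸ q)) = (d.map inR).map (Ideal.Quotient.mk q) :=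
      (Ideal.map_map inR.toRingHom (Ideal.Quotient.mk q)).symm
    rw [h2]
    exact @h1
  · intro d hd
    have h1 : β₀.Stable (d.comap (Ideal.Quotient.mk q)) := Act.Stable.comap_quot hqs hd
    have h2 : d.comap (algebraMap A ((Λ' ⊗[Λ] A) ⧸ q)) =
        (d.comap (Ideal.Quotient.mk q)).comap inR := Ideal.ext fun _ => Iff.rfl
    rw [h2]
    exact @stable_comap24 Λ Λ' _ _ _ G G' A _ _ e he α hG (d.comap (Ideal.Quotient.mk q)) (@h1)

/-- An action of `G` on the integral scheme `Spec A` over `Λ` and a point `y` whose orbit contains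
a geometric generic point give an action of the base change `G'` on an integral scheme `Spec B`
which dominates `Spec A` and is finite over it over an open subset of `Spec Λ`. -/
theorem exists_ext {Λ Λ' : Type} [CommRing Λ] [CommRing Λ'] [IsDomain Λ'] [Algebra Λ Λ']
    (p : Ideal Λ) [Algebra (Λ ⧸ p) Λ'] [IsScalarTower Λ (Λ ⧸ p) Λ'] (hft : Algebra.FiniteType Λ Λ')
    (hinj : Function.Injective (algebraMap (Λ ⧸ p) Λ')) (halg : Algebra.IsAlgebraic (Λ ⧸ p) Λ')
    {G : GSch Λ} {G' : GSch Λ'} (hG : G.Good) (hG' : G'.Good) (hBC : IsBC G G') {A : Type}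
    [CommRing A] [IsDomain A] [Algebra Λ A] (hp : RingHom.ker (algebraMap Λ A) = p) (hA : FGen A)
    (α : Act G A) {L : Type} [Field L] [Algebra Λ L] (y : A →ₐ[Λ] L) (hL : Kron 0 L)
    (hy : Function.Injective (α.orb y)) :
    ∃ (B : Type) (_ : CommRing B) (_ : IsDomain B) (_ : Algebra Λ' B) (_ : Algebra A B), FGen B ∧
      Function.Injective (algebraMap A B) ∧
      (∃ l : Λ, algebraMap Λ A l ≠ 0 ∧
        ∀ b : B, ∃ k : ℕ, IsIntegral A (algebraMap A B (algebraMap Λ A l ^ k) * b)) ∧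
      ∃ (β : Act G' B) (L' : Type) (_ : Field L') (_ : Algebra Λ' L') (y' : B →ₐ[Λ'] L'),
        Kron 0 L' ∧ Function.Injective (β.orb y') ∧
        (∀ e : Ideal A, α.Stable e → β.Stable (e.map (algebraMap A B))) ∧
        ∀ d : Ideal B, β.Stable d → α.Stable (d.comap (algebraMap A B)) := by
  have hdomp : IsDomain (Λ ⧸ p) := hinj.isDomain (algebraMap (Λ ⧸ p) Λ')
  have hkL : ∀ l ∈ p, algebraMap Λ L l = 0 := by
    intro l hl
    rw [← hp, RingHom.mem_ker] at hl
    rw [← y.commutes, hl, map_zero]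
  let i₀ : Λ ⧸ p →+* L := Ideal.Quotient.lift p (algebraMap Λ L) hkL
  have hi₀ : Function.Injective i₀ := by
    rw [injective_iff_map_eq_zero]
    intro l hl
    obtain ⟨l, rfl⟩ := Ideal.Quotient.mk_surjective l
    have hl' : algebraMap Λ L l = 0 := hl
    rw [Ideal.Quotient.eq_zero_iff_mem, ← hp, RingHom.mem_ker]
    apply hy
    rw [map_zero, AlgHom.commutes, ← (ιR G L).commutes, hl', map_zero]
  obtain ⟨L', hF, hAL, hac, hac'⟩ : ∃ (L' : Type) (_ : Field L') (_ : Algebra L L'),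
      IsAlgClosed L' ∧ Algebra.IsAlgebraic L L' :=
    ⟨AlgebraicClosure L, inferInstance, inferInstance, inferInstance, inferInstance⟩
  let _ : Algebra Λ L' := ((algebraMap L L').comp (algebraMap Λ L)).toAlgebra
  let _ : Algebra (Λ ⧸ p) L' := ((algebraMap L L').comp i₀).toAlgebra
  have hinj' : Function.Injective (algebraMap (Λ ⧸ p) L') := (algebraMap L L').injective.comp hi₀
  have _ : FaithfulSMul (Λ ⧸ p) L' := (faithfulSMul_iff_algebraMap_injective _ _).2 hinj'
  have _ : FaithfulSMul (Λ ⧸ p) Λ' := (faithfulSMul_iff_algebraMap_injective _ _).2 hinj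
  let θ : Λ' →ₐ[Λ ⧸ p] L' := IsAlgClosed.lift
  let _ : Algebra Λ' L' := θ.toRingHom.toAlgebra
  have _ : IsScalarTower Λ Λ' L' := by
    apply IsScalarTower.of_algebraMap_eq
    intro l
    have h1 : θ (algebraMap (Λ ⧸ p) Λ' (Ideal.Quotient.mk p l)) =
        algebraMap (Λ ⧸ p) L' (Ideal.Quotient.mk p l) := θ.commutes _
    have h2 : algebraMap (Λ ⧸ p) Λ' (Ideal.Quotient.mk p l) = algebraMap Λ Λ' l :=
      (IsScalarTower.algebraMap_apply Λ (Λ ⧸ p) Λ' l).symm
    rw [h2] at h1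
    exact h1.symm
  let j : L →ₐ[Λ] L' := { algebraMap L L' with commutes' := fun _ => rfl }
  exact ext_aux24 p hft hinj halg hG hG' hBC hp hA α y hy j
    (Pool.Agent.Helper9.RS.kron_algebraic hac' hL)

end Pool.Agent.Helper72.OC
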