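import Pool.Agent.Helper72.OB.Sch

/-!
# Orbit theorem for flagged groups, block X2: the transfer for generically finite extensions
-/

set_option autoImplicit false

namespace Pool.Agent.Helper72.OC

open AlgebraicGeometry CategoryTheory
open Pool.Agent.Helper65.Mor (Arithmetic ClosedOpen FGen)
open Pool.Agent.Helper72.OB (Rules DD)

/-- If `B ⊇ A` is finite over `A` after inverting `l`, then membership in `P` descends from the
preimage of an open subscheme of `D(l)` which is smooth over a prime field or over `ℤ`. -/
theorem P_of_integral {P : Scheme.{0} → Prop} (hP : Rules P) {A B : Type} [CommRing A]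
    [CommRing B] [Algebra A B] (hA : FGen A) (hB : FGen B)
    (hinj : Function.Injective (algebraMap A B)) (l : A)
    (hl : ∀ b : B, ∃ k : ℕ, IsIntegral A (algebraMap A B (l ^ k) * b)) (e : Ideal A)
    (he : e ≤ Ideal.span {l}) (p : ℕ) (s : (DD e).toScheme ⟶ Spec (CommRingCat.of (ZMod p)))
    (hp : p = 0 ∨ p.Prime) (hs : Smooth s)
    (h : P (DD (e.map (algebraMap A B))).toScheme) : P (DD e).toScheme := by
  -- the localisations
  let A' := Localization.Away l
  let B' := Localization.Away (algebraMap A B l)
  let g : A' →+* B' := IsLocalization.Away.map A' B' (algebraMap A B) l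
  have hA' : FGen A' := hA.away l
  have hB' : FGen B' := hB.away _
  have hcomp : g.comp (algebraMap A A') = (algebraMap B B').comp (algebraMap A B) :=
    IsLocalization.map_comp _
  have hg : Function.Injective g :=
    (IsLocalization.Away.map_injective_iff B' (algebraMap A B) l).2 fun a h =>
      ⟨0, by rw [hinj (h.trans (map_zero _).symm), mul_zero]⟩
  have hint : g.IsIntegral := by
    intro b'
    obtain ⟨n, b, hb⟩ := IsLocalization.Away.surj (algebraMap A B l) b'
    obtain ⟨k, hk⟩ := hl b
    have h1 : g.IsIntegralElem (algebraMap B B' (algebraMap A B (l ^ k) * b)) := by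
      obtain ⟨q, hq, hq0⟩ := hk
      refine ⟨q.map (algebraMap A A'), hq.map _, ?_⟩
      rw [Polynomial.eval₂_map, hcomp, ← Polynomial.hom_eval₂, hq0, map_zero]
    obtain ⟨u, hu⟩ := (IsLocalization.Away.algebraMap_isUnit (S := A') l).pow (n + k)
    have h2 : b' = g (↑u⁻¹ : A') * algebraMap B B' (algebraMap A B (l ^ k) * b) := by
      have h3 : g (↑u⁻¹ : A') * g (u : A') = 1 := by
        rw [← map_mul, Units.inv_mul, map_one]
      have h4 : g (u : A') = algebraMap B B' (algebraMap A B (l ^ (n + k))) := by
        rw [hu, ← map_pow]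
        exact congrArg (fun f => f (l ^ (n + k))) hcomp
      calc b' = (g (↑u⁻¹ : A') * g (u : A')) * b' := by rw [h3, one_mul]
        _ = _ := by
          rw [h4, map_mul (algebraMap B B') (algebraMap A B (l ^ k)) b, ← hb, pow_add, map_mul,
            map_mul, map_pow (algebraMap A B) l n, map_pow (algebraMap B B')]
          ring
    rw [h2]
    exact RingHom.IsIntegralElem.mul g (RingHom.isIntegralElem_map g) h1
  have hfin : g.Finite := hint.to_finite (RingHom.FiniteType.of_comp_finiteType
    (f := Int.castRingHom A') (by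
      have : g.comp (Int.castRingHom A') = Int.castRingHom B' := Subsingleton.elim _ _
      rw [this]
      exact hB'))
  have hφ : IsFinite (Spec.map (CommRingCat.ofHom g)) := (IsFinite.SpecMap_iff _).2 hfin
  have hsurj : Surjective (Spec.map (CommRingCat.ofHom g)) := ⟨hint.comap_surjective hg⟩
  -- the opens
  set e' : Ideal A' := e.map (algebraMap A A') with he'
  obtain ⟨ia⟩ := Pool.Agent.Helper72.OB.DD_away (B := A') l e he
  obtain ⟨ib⟩ := Pool.Agent.Helper72.OB.DD_away (B := B') (algebraMap A B l)
    (e.map (algebraMap A B)) (by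
      rw [Ideal.map_le_iff_le_comap]
      refine he.trans ((Ideal.span_singleton_le_iff_mem _).2 ?_)
      exact Ideal.mem_span_singleton_self _)
  have h1 : P (DD ((e.map (algebraMap A B)).map (algebraMap B B'))).toScheme :=
    hP.iso _ _ (Pool.Agent.Helper72.OB.arithmetic_DD hB _) ⟨ib.symm⟩ h
  have h2 : (Spec.map (CommRingCat.ofHom g)) ⁻¹ᵁ (DD e') =
      DD ((e.map (algebraMap A B)).map (algebraMap B B')) := by
    rw [Pool.Agent.Helper72.OB.preimage_DD57, he', Ideal.map_map, Ideal.map_map, hcomp]
  have h3 : P (DD e').toScheme := by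
    refine hP.proper _ (DD e').toScheme (Spec.map (CommRingCat.ofHom g) ∣_ DD e') p (ia.hom ≫ s) hp
      (Pool.Agent.Helper72.OB.arithmetic_DD hA' e') inferInstance
      (IsZariskiLocalAtTarget.restrict (P := @Surjective) hsurj (DD e')) inferInstance ?_
    rw [h2]
    exact h1
  exact Pool.Agent.Helper72.OB.P_away hP hA l e he h3

end Pool.Agent.Helper72.OC
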