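import Pool.Agent.Helper72.OC.Defs2

/-!
# Orbit theorem for flagged groups, block J1: the product with the multiplicative group
-/

set_option autoImplicit false

namespace Pool.Agent.Helper72.OC

open TensorProduct

variable {Λ : Type} [CommRing Λ]

section Laurent

open LaurentPolynomial

variable {O R R' : Type} [CommRing O] [Algebra Λ O] [CommRing R] [Algebra Λ R] [CommRing R'] [Algebra Λ R']

/-- the unit `T` -/
noncomputable def Tu (O : Type) [CommRing O] : (LaurentPolynomial O)ˣ where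
  val := T 1
  inv := T (-1)
  val_inv := by rw [← T_add]; rfl
  inv_val := by rw [← T_add]; rfl

theorem laurent_hom_ext {f g : LaurentPolynomial O →+* R} (h : ∀ a, f (C a) = g (C a))
    (hT : f (T 1) = g (T 1)) : f = g := by
  apply IsLocalization.ringHom_ext (Submonoid.powers (Polynomial.X : Polynomial O))
  apply Polynomial.ringHom_ext
  · intro a
    rw [RingHom.comp_apply, RingHom.comp_apply, LaurentPolynomial.algebraMap_eq_toLaurent,
      Polynomial.toLaurent_C]
    exact h a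
  · rw [RingHom.comp_apply, RingHom.comp_apply, LaurentPolynomial.algebraMap_eq_toLaurent,
      Polynomial.toLaurent_X]
    exact hT

/-- evaluation of Laurent polynomials -/
noncomputable def levl (f : O →ₐ[Λ] R) (v : Rˣ) : LaurentPolynomial O →ₐ[Λ] R where
  __ := LaurentPolynomial.eval₂ (f : O →+* R) v
  commutes' r := by
    change LaurentPolynomial.eval₂ (f : O →+* R) v (C (algebraMap Λ O r)) = _
    rw [eval₂_C]
    exact f.commutes r

theorem levl_C (f : O →ₐ[Λ] R) (v : Rˣ) (a : O) : levl f v (C a) = f a :=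
  eval₂_C _ _ _

theorem levl_T (f : O →ₐ[Λ] R) (v : Rˣ) : levl f v (T 1) = v := by
  have := eval₂_T (f : O →+* R) v 1
  rw [zpow_one] at this
  exact this

/-- the constants -/
noncomputable def Cl (O : Type) [CommRing O] [Algebra Λ O] : O →ₐ[Λ] LaurentPolynomial O where
  __ := LaurentPolynomial.C
  commutes' _ := rfl

theorem levl_comp_Cl (f : O →ₐ[Λ] R) (v : Rˣ) : (levl f v).comp (Cl O) = f := by
  ext a
  exact levl_C f v a

theorem laurent_algHom_ext {f g : LaurentPolynomial O →ₐ[Λ] R} (h : f.comp (Cl O) = g.comp (Cl O))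
    (hT : f (T 1) = g (T 1)) : f = g := by
  have h1 : (f : LaurentPolynomial O →+* R) = g :=
    laurent_hom_ext (fun a => congrArg (fun φ => φ a) h) hT
  apply AlgHom.ext
  intro x
  exact congrArg (fun φ => φ x) h1

end Laurent

open LaurentPolynomial in
/-- the product `G × G_m` -/
noncomputable def prodGm (G : GSch Λ) : GSch Λ where
  Pt R _ _ := G.Pt R × Rˣ
  grp R _ _ := Prod.instGroup
  map f := MonoidHom.prodMap (G.map f) (Units.map (f : _ →* _))
  O := LaurentPolynomial G.O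
  ring := inferInstance
  alg := inferInstance
  gen := (G.map (Cl G.O) G.gen, Tu G.O)
  ev g := levl (G.ev g.1) g.2
  map_ev g := by
    apply Prod.ext
    · change G.map (levl (G.ev g.1) g.2) (G.map (Cl G.O) G.gen) = g.1
      rw [← G.map_comp, levl_comp_Cl, G.map_ev]
    · apply Units.ext
      exact levl_T _ _
  ev_map f := by
    apply laurent_algHom_ext
    · rw [levl_comp_Cl]
      change G.ev (G.map f (G.map (Cl G.O) G.gen)) = _
      rw [← G.map_comp, G.ev_map]
    · rw [levl_T]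
      rfl
  map_comp f f' g := by
    apply Prod.ext
    · exact G.map_comp f f' g.1
    · apply Units.ext
      rfl

/-! ## Good -/

theorem prodGm_smooth (G : GSch Λ) (h : Algebra.Smooth Λ G.O) : Algebra.Smooth Λ (LaurentPolynomial G.O) := by
  have h1 : IsScalarTower Λ G.O (LaurentPolynomial G.O) := IsScalarTower.of_algebraMap_eq fun _ => rfl
  have h2 : IsScalarTower G.O (Polynomial G.O) (LaurentPolynomial G.O) := IsScalarTower.of_algebraMap_eq fun a => by
    rw [LaurentPolynomial.algebraMap_eq_toLaurent, Polynomial.algebraMap_apply, Polynomial.toLaurent_C]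
    rfl
  have h3 : Algebra.Smooth G.O (Polynomial G.O) := ⟨inferInstance, inferInstance⟩
  have h4 : Algebra.Smooth (Polynomial G.O) (LaurentPolynomial G.O) :=
    Algebra.Smooth.of_isLocalization_Away (Polynomial.X : Polynomial G.O)
  have h5 : Algebra.Smooth G.O (LaurentPolynomial G.O) := Algebra.Smooth.comp G.O (Polynomial G.O) _
  exact Algebra.Smooth.comp Λ G.O _

/-- the base change of the ring of Laurent polynomials -/
noncomputable def lequiv (G : GSch Λ) (A : Type) [CommRing A] [Algebra Λ A] :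
    A ⊗[Λ] LaurentPolynomial G.O ≃ₐ[Λ] LaurentPolynomial (A ⊗[Λ] G.O) :=
  AddMonoidAlgebra.rTensorEquivAlgEquiv Λ Λ A G.O

theorem lequiv_nat (G : GSch Λ) {A R : Type} [CommRing A] [Algebra Λ A] [CommRing R] [Algebra Λ R]
    (f : A →ₐ[Λ] R) (b : A ⊗[Λ] LaurentPolynomial G.O) :
    lequiv G R (Algebra.TensorProduct.map f (AlgHom.id Λ (LaurentPolynomial G.O)) b) =
      AddMonoidAlgebra.mapAlgHom ℤ (Algebra.TensorProduct.map f (AlgHom.id Λ G.O)) (lequiv G A b) := by
  induction b using TensorProduct.induction_on with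
  | zero => simp
  | add x y hx hy => rw [map_add, map_add, hx, hy, map_add, map_add]
  | tmul a p =>
    unfold lequiv
    rw [Algebra.TensorProduct.map_tmul, AlgHom.id_apply, AddMonoidAlgebra.rTensorEquiv_tmulAlgEquiv,
      AddMonoidAlgebra.rTensorEquiv_tmulAlgEquiv]
    apply AddMonoidAlgebra.ext
    ext n
    rw [AddMonoidAlgebra.coeff_mapAlgHom, AddMonoidAlgebra.coeff_smul_apply, AddMonoidAlgebra.coeff_smul_apply,
      AddMonoidAlgebra.coeff_mapAlgHom, AddMonoidAlgebra.coeff_mapAlgHom]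
    simp [Algebra.smul_def]

theorem prodGm_good (G : GSch Λ) (h : G.Good) : (prodGm G).Good where
  smooth := prodGm_smooth G h.smooth
  domain A _ _ hA := by
    have h1 := h.domain A hA
    have h2 : IsDomain (LaurentPolynomial (A ⊗[Λ] G.O)) := by
      haveI : NoZeroDivisors (LaurentPolynomial (A ⊗[Λ] G.O)) := inferInstance
      exact NoZeroDivisors.to_isDomain _
    exact (lequiv G A).toMulEquiv.isDomain _
  content A _ _ b := by
    classical
    choose s hs using h.content A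
    refine ⟨(lequiv G A b).coeff.support.biUnion fun n => s ((lequiv G A b).coeff n), ?_⟩
    intro R _ _ f
    have h1 : Algebra.TensorProduct.map f (AlgHom.id Λ (prodGm G).O) b = 0 ↔
        ∀ n, Algebra.TensorProduct.map f (AlgHom.id Λ G.O) ((lequiv G A b).coeff n) = 0 := by
      have h2 : Algebra.TensorProduct.map f (AlgHom.id Λ (prodGm G).O) b = 0 ↔
          lequiv G R (Algebra.TensorProduct.map f (AlgHom.id Λ (LaurentPolynomial G.O)) b) = 0 :=
        (map_eq_zero_iff _ (lequiv G R).injective).symm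
      rw [h2, lequiv_nat]
      constructor
      · intro h3 n
        rw [← AddMonoidAlgebra.coeff_mapAlgHom, h3]
        rfl
      · intro h3
        apply AddMonoidAlgebra.ext
        ext n
        rw [AddMonoidAlgebra.coeff_mapAlgHom, h3]
        rfl
    rw [h1]
    constructor
    · intro h2 c hc
      rw [Finset.mem_biUnion] at hc
      obtain ⟨n, -, hn⟩ := hc
      exact (hs _ R f).mp (h2 n) c hn
    · intro h2 n
      by_cases hn : n ∈ (lequiv G A b).coeff.support
      · rw [hs _ R f]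
        intro c hc
        exact h2 c (Finset.mem_biUnion.mpr ⟨n, hn, hc⟩)
      · rw [Finsupp.notMem_support_iff.mp hn, map_zero]

/-! ## Solvable groups -/

theorem mem_closure_inl {Γ U : Type} [Group Γ] [Group U] {S : Set Γ} {S' : Set (Γ × U)}
    (h : ∀ g ∈ S, (g, (1 : U)) ∈ S') {g : Γ} (hg : g ∈ Subgroup.closure S) :
    (g, (1 : U)) ∈ Subgroup.closure S' := by
  have h1 : Subgroup.closure S ≤ (Subgroup.closure S').comap (MonoidHom.inl Γ U) :=
    (Subgroup.closure_le _).mpr fun g hg => Subgroup.subset_closure (h g hg)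
  exact h1 hg

noncomputable def prodGm_solv {G : GSch Λ} (s : Solv G) : Solv (prodGm G) where
  N := s.N
  n := s.n + 1
  x k R _ _ c := (s.x k c, 1)
  t {R} _ _ := MonoidHom.prod (s.t.comp ⟨⟨fun u i => u i.castSucc, rfl⟩, fun _ _ => rfl⟩)
    ⟨⟨fun u => u (Fin.last s.n), rfl⟩, fun _ _ => rfl⟩
  β k := Fin.snoc (s.β k) 0
  x_nat k {R R'} _ _ _ _ f c := Prod.ext (s.x_nat k f c) (Units.map (f : R →* R')).map_one
  t_nat {R R'} _ _ _ _ f u := Prod.ext (s.t_nat f _) rfl
  x_zero k R _ _ := Prod.ext (s.x_zero k R) rfl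
  x_add k {R} _ _ a b := by
    have h := s.x_add k a b
    have e : ((s.x k (a + b), (1 : Rˣ)) * ((s.x k a, (1 : Rˣ)) * (s.x k b, (1 : Rˣ)))⁻¹ : G.Pt R × Rˣ) =
        (s.x k (a + b) * (s.x k a * s.x k b)⁻¹, 1) := Prod.ext rfl (by simp)
    change ((s.x k (a + b), (1 : Rˣ)) * ((s.x k a, (1 : Rˣ)) * (s.x k b, (1 : Rˣ)))⁻¹ : G.Pt R × Rˣ) ∈ _
    rw [e]
    refine mem_closure_inl ?_ h
    rintro g ⟨h, hh, c, rfl⟩
    exact ⟨h, hh, c, rfl⟩
  conj k {R} _ _ u a := by
    have h := s.conj k (fun i => u i.castSucc) a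
    have e0 : (∏ i, u i ^ (Fin.snoc (s.β k) 0 : Fin (s.n + 1) → ℤ) i : Rˣ) =
        ∏ i, u (Fin.castSucc i) ^ s.β k i := by
      rw [Fin.prod_univ_castSucc, Fin.snoc_last, zpow_zero, mul_one]
      refine Finset.prod_congr rfl fun i _ => ?_
      rw [Fin.snoc_castSucc]
    have e : ((s.t fun i => u i.castSucc, u (Fin.last s.n)) * (s.x k a, (1 : Rˣ)) *
        ((s.x k (((∏ i, u i ^ (Fin.snoc (s.β k) 0 : Fin (s.n + 1) → ℤ) i : Rˣ) : R) * a), (1 : Rˣ)) *
          (s.t fun i => u i.castSucc, u (Fin.last s.n)))⁻¹ : G.Pt R × Rˣ) =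
        ((s.t fun i => u i.castSucc) * s.x k a * (s.x k (((∏ i, u (Fin.castSucc i) ^ s.β k i : Rˣ) : R) * a) *
          s.t fun i => u i.castSucc)⁻¹, 1) := by
      rw [e0]
      exact Prod.ext rfl (by simp)
    change ((s.t fun i => u i.castSucc, u (Fin.last s.n)) * (s.x k a, (1 : Rˣ)) *
        ((s.x k (((∏ i, u i ^ (Fin.snoc (s.β k) 0 : Fin (s.n + 1) → ℤ) i : Rˣ) : R) * a), (1 : Rˣ)) *
          (s.t fun i => u i.castSucc, u (Fin.last s.n)))⁻¹ : G.Pt R × Rˣ) ∈ _
    rw [e]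
    refine mem_closure_inl ?_ h
    rintro g ⟨h, hh, c, rfl⟩
    exact ⟨h, hh, c, rfl⟩
  comm k l hlk {R} _ _ a b := by
    have h := s.comm k l hlk a b
    have e : ((s.x k a, (1 : Rˣ)) * (s.x l b, (1 : Rˣ)) * ((s.x l b, (1 : Rˣ)) * (s.x k a, (1 : Rˣ)))⁻¹ : G.Pt R × Rˣ) =
        (s.x k a * s.x l b * (s.x l b * s.x k a)⁻¹, 1) := Prod.ext rfl (by simp)
    change ((s.x k a, (1 : Rˣ)) * (s.x l b, (1 : Rˣ)) * ((s.x l b, (1 : Rˣ)) * (s.x k a, (1 : Rˣ)))⁻¹ : G.Pt R × Rˣ) ∈ _
    rw [e]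
    refine mem_closure_inl ?_ h
    rintro g ⟨h, hh, c, rfl⟩
    exact ⟨h, hh, c, rfl⟩
  gen R _ _ := by
    rw [eq_top_iff]
    rintro ⟨g, v⟩ -
    have hs : ∀ (u : Fin s.n → Rˣ) (w : Rˣ), ((s.t u, w) : G.Pt R × Rˣ) ∈ Subgroup.closure
        ({g : (prodGm G).Pt R | ∃ k c, g = (s.x k c, 1)} ∪ {g | ∃ u, g = (MonoidHom.prod (s.t.comp
          ⟨⟨fun (u : Fin (s.n + 1) → Rˣ) i => u i.castSucc, rfl⟩, fun _ _ => rfl⟩)
          ⟨⟨fun u => u (Fin.last s.n), rfl⟩, fun _ _ => rfl⟩ : (Fin (s.n + 1) → Rˣ) →* G.Pt R × Rˣ) u}) := by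
      intro u w
      apply Subgroup.subset_closure
      right
      refine ⟨Fin.snoc u w, Prod.ext ?_ ?_⟩
      · change s.t u = s.t fun i => (Fin.snoc u w : Fin (s.n + 1) → Rˣ) i.castSucc
        congr 1
        funext i
        rw [Fin.snoc_castSucc]
      · change w = (Fin.snoc u w : Fin (s.n + 1) → Rˣ) (Fin.last s.n)
        rw [Fin.snoc_last]
    have h1 : g ∈ Subgroup.closure ({g : G.Pt R | ∃ k c, g = s.x k c} ∪ {g | ∃ u, g = s.t u}) := by
      rw [s.gen]
      trivial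
    have h2 : ((g, (1 : Rˣ)) : G.Pt R × Rˣ) ∈ Subgroup.closure
        ({g : (prodGm G).Pt R | ∃ k c, g = (s.x k c, 1)} ∪ {g | ∃ u, g = (MonoidHom.prod (s.t.comp
          ⟨⟨fun (u : Fin (s.n + 1) → Rˣ) i => u i.castSucc, rfl⟩, fun _ _ => rfl⟩)
          ⟨⟨fun u => u (Fin.last s.n), rfl⟩, fun _ _ => rfl⟩ : (Fin (s.n + 1) → Rˣ) →* G.Pt R × Rˣ) u}) := by
      refine mem_closure_inl ?_ h1
      rintro g (⟨k, c, rfl⟩ | ⟨u, rfl⟩)
      · exact Or.inl ⟨k, c, rfl⟩
      · right
        refine ⟨Fin.snoc u 1, Prod.ext ?_ ?_⟩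
        · change s.t u = s.t fun i => (Fin.snoc u 1 : Fin (s.n + 1) → Rˣ) i.castSucc
          congr 1
          funext i
          rw [Fin.snoc_castSucc]
        · change 1 = (Fin.snoc u 1 : Fin (s.n + 1) → Rˣ) (Fin.last s.n)
          rw [Fin.snoc_last]
    have h3 := hs 1 v
    have e : ((g, v) : G.Pt R × Rˣ) = (g, (1 : Rˣ)) * (s.t 1, v) := by
      apply Prod.ext
      · change g = g * s.t 1
        rw [map_one, mul_one]
      · change v = 1 * v
        rw [one_mul]
    rw [e]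
    exact Subgroup.mul_mem _ h2 h3

/-! ## Flags -/

/-- the unit `1` -/
def oneU (R : Type) [CommRing R] : Rˣ := 1

noncomputable def prodGm_flag {Q G : GSch Λ} (f : Flag Q G) : Flag (prodGm Q) (prodGm G) where
  inc {R} _ _ := MonoidHom.prodMap f.inc (MonoidHom.id Rˣ)
  inc_nat φ q := Prod.ext (f.inc_nat φ q.1) rfl
  m := f.m
  w i R _ _ g := f.w i g.1
  w_nat i {R R'} _ _ _ _ φ g := f.w_nat i φ g.1
  χ {R} _ _ q := f.χ q.1
  w_mul i {R} _ _ g q := f.w_mul i g.1 q.1
  c := f.c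
  pos := f.pos
  e := f.e
  cover i := by
    obtain ⟨k, p, hp, h⟩ := f.cover i
    exact ⟨k, p, hp, fun g => h g.1⟩
  Γ := f.Γ
  ringΓ := f.ringΓ
  algΓ := f.algΓ
  σ j := Prod.mk (f.σ j) (@oneU (f.Γ j) (f.ringΓ j))
  w_σ j := f.w_σ j
  gen j := f.gen j
  chart j {R} _ _ g hg := by
    letI := f.ringΓ j
    letI := f.algΓ j
    obtain ⟨p, hp, hu⟩ := f.chart j g.1 hg
    refine ⟨(p.1, (p.2, g.2)), Prod.ext hp ?_, ?_⟩
    · change g.2 = Units.map (p.1 : f.Γ j →* R) 1 * g.2
      rw [map_one, one_mul]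
    · rintro ⟨p1, p2, v⟩ h
      have h1 : g.1 = G.map p1 (f.σ j) * f.inc p2 := congrArg Prod.fst h
      have h2 : g.2 = Units.map (p1 : f.Γ j →* R) 1 * v := congrArg Prod.snd h
      rw [map_one, one_mul] at h2
      have h3 := hu (p1, p2) h1
      rw [← h3, h2]
  dim := f.dim
  cell := f.cell
  cell_surj := f.cell_surj
  cell_zero := f.cell_zero
  cell_ker := f.cell_ker

/-! ## Base change -/

theorem prodGm_bc {Λ' : Type} [CommRing Λ'] [Algebra Λ Λ'] {G : GSch Λ} {G' : GSch Λ'} (h : IsBC G G') :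
    IsBC (prodGm G) (prodGm G') := by
  obtain ⟨e, he⟩ := h
  refine ⟨fun R _ _ _ _ => MulEquiv.prodCongr (e R) (MulEquiv.refl _), ?_⟩
  intro R R' _ _ _ _ _ _ _ _ f g
  exact Prod.ext (he R R' f g.1) rfl

theorem prodGm_flagged {G : GSch Λ} (h : Flagged G) : Flagged (prodGm G) := by
  induction h with
  | solv G hG h => exact Flagged.solv _ (prodGm_good G hG) ⟨prodGm_solv h.some⟩
  | flag Q G hG h hQ ih => exact Flagged.flag _ _ (prodGm_good G hG) ⟨prodGm_flag h.some⟩ ih
  | ext G Λ' G' hG hft hinj halg hBC hF ih =>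
    exact Flagged.ext _ Λ' (fun p => prodGm (G' p)) (prodGm_good G hG) hft hinj halg
      (fun p => prodGm_bc (hBC p)) ih

/-- the product `G × G_m` is represented -/
theorem exists_prodGm (G : GSch Λ) : ∃ G' : GSch Λ, ∃ e : ∀ (R : Type) [CommRing R] [Algebra Λ R],
    G'.Pt R ≃* G.Pt R × Rˣ, (∀ (R R' : Type) [CommRing R] [Algebra Λ R] [CommRing R']
      [Algebra Λ R'] (f : R →ₐ[Λ] R') (g : G'.Pt R), e R' (G'.map f g) =
        (G.map f (e R g).1, Units.map (f : R →* R') (e R g).2)) ∧ (Flagged G → Flagged G') :=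
  ⟨prodGm G, fun R _ _ => MulEquiv.refl _, fun _ _ _ _ _ _ _ _ => rfl, prodGm_flagged⟩

end Pool.Agent.Helper72.OC
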