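import Pool.Agent.Helper72.OC.Defs2

/-!
# Orbit theorem for flagged groups: the graded ring of the flag step
-/

set_option autoImplicit false

namespace Pool.Agent.Helper72.OC

open AlgebraicGeometry
open Pool.Agent.Helper65.Mor (FGen)

/-- A graded ring `S` with `S_0 = A`, generated by elements `ω_i`, `i < m`, of degree one; `Proj S`
is covered by the charts `S_{(ω_(e j))} = C_j`, `j < c`; `C_j` is a `D`-algebra, and the complement
in the chart `j` of the charts `l < j` is up to nilpotents an affine space over `D`. -/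
structure ProjData (A D : Type) [CommRing A] [CommRing D] (m c : ℕ) where
  S : Type
  ring : CommRing S
  𝒮 : ℕ → AddSubgroup S
  graded : GradedRing 𝒮
  zero : A ≃+* 𝒮 0
  ω : Fin m → S
  ω_mem : ∀ i, ω i ∈ 𝒮 1
  gen : Algebra.adjoin (𝒮 0) (Set.range ω) = ⊤
  e : Fin c → Fin m
  cover : ∀ i, ω i ∈ (Ideal.span (Set.range fun j => ω (e j))).radical
  C : Fin c → Type
  ringC : ∀ j, CommRing (C j)
  fgC : ∀ j, FGen (C j)
  chart : ∀ j, HomogeneousLocalization.Away 𝒮 (ω (e j)) ≃+* C j
  incl : ∀ j, D →+* C j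
  dim : Fin c → ℕ
  cell : ∀ j, C j →+* MvPolynomial (Fin (dim j)) D
  cell_surj : ∀ j, Function.Surjective (cell j)
  cell_incl : ∀ j, (cell j).comp (incl j) = MvPolynomial.C
  cell_zero : ∀ (j l : Fin c), l < j → cell j (chart j
    (HomogeneousLocalization.Away.mk 𝒮 (ω_mem (e j)) 1 (ω (e l)) (by simpa using ω_mem (e l)))) = 0
  cell_ker : ∀ (j : Fin c) (f : C j), cell j f = 0 → f ∈ (Ideal.span {a | ∃ l < j, a = chart j
    (HomogeneousLocalization.Away.mk 𝒮 (ω_mem (e j)) 1 (ω (e l))
      (by simpa using ω_mem (e l)))}).radical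

attribute [instance] ProjData.ring ProjData.graded ProjData.ringC

/-- the map from `A` to the chart `S_{(ω_(e j))}` -/
noncomputable def ProjData.toAway {A D : Type} [CommRing A] [CommRing D] {m c : ℕ}
    (pd : ProjData A D m c) (j : Fin c) :
    A →+* HomogeneousLocalization.Away pd.𝒮 (pd.ω (pd.e j)) :=
  (HomogeneousLocalization.fromZeroRingHom pd.𝒮 (Submonoid.powers (pd.ω (pd.e j)))).comp
    (pd.zero : A →+* pd.𝒮 0)

end Pool.Agent.Helper72.OC
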