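import Pool.Agent.Helper72.OB.Rees

/-!
# Orbit theorem for flagged groups, block H3a: the graded ring `⊕ (φ(A)[w])_d X^d` and its charts
-/

set_option autoImplicit false

namespace Pool.Agent.Helper72.OC

open Polynomial
open Pool.Agent.Helper72.OB

/-- Let `φ : A → B` be an injective map to a domain and `w_1, ..., w_m` elements of `B`. The
subring `S = φ(A)[w_1 X, ..., w_m X]` of `B[X]` is graded by the degree in `X`, `S_0 = A`, and the
chart `S_{(w_j X)}`, `w_j ≠ 0`, is the subring `φ(A)[w_i / w_j]` of the fraction field `K` of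
`B`. -/
theorem exists_rees {A B K : Type} [CommRing A] [CommRing B] [IsDomain B] [Field K] [Algebra B K]
    [IsFractionRing B K] (φ : A →+* B) (hφ : Function.Injective φ) {m : ℕ} (w : Fin m → B) :
    ∃ (S : Type) (_ : CommRing S) (𝒮 : ℕ → AddSubgroup S) (_ : GradedRing 𝒮) (zero : A ≃+* 𝒮 0)
      (ω : Fin m → S) (ω_mem : ∀ i, ω i ∈ 𝒮 1), Algebra.adjoin (𝒮 0) (Set.range ω) = ⊤ ∧
      (∃ ι : S →+* B[X], Function.Injective ι ∧ (∀ i, ι (ω i) = C (w i) * X) ∧
        ∀ a, ι (zero a) = C (φ a)) ∧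
      ∀ j, w j ≠ 0 → ∃ ψ : HomogeneousLocalization.Away 𝒮 (ω j) →+* K, Function.Injective ψ ∧
        (∀ i, ψ (HomogeneousLocalization.Away.mk 𝒮 (ω_mem j) 1 (ω i) (by simpa using ω_mem i)) =
          algebraMap B K (w i) / algebraMap B K (w j)) ∧
        (∀ a, ψ (HomogeneousLocalization.fromZeroRingHom 𝒮 (Submonoid.powers (ω j)) (zero a)) =
          algebraMap B K (φ a)) ∧
        ψ.range = Subring.closure (Set.range ((algebraMap B K).comp φ) ∪
          Set.range fun i => algebraMap B K (w i) / algebraMap B K (w j)) := by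
  let _ : Algebra A B := φ.toAlgebra
  have : FaithfulSMul B K :=
    (faithfulSMul_iff_algebraMap_injective B K).2 (IsFractionRing.injective B K)
  refine ⟨ReesAux.alg (ReesAux.spn A w), inferInstance, ReesAux.gr (ReesAux.spn A w),
    ReesAux.gradedRing _,
    RingEquiv.ofBijective (ReesAux.zeroHom (ReesAux.spn A w)) (ReesAux.zeroHom_bijective _ hφ),
    ReesAux.om A w, ReesAux.om_mem w, ReesAux.adjoin_eq w,
    ⟨(ReesAux.alg (ReesAux.spn A w)).subtype, Subtype.val_injective, fun i => ?_, fun a => ?_⟩,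
    fun j hj => ⟨ReesAux.psi A w K hj, ReesAux.psi_injective w hj, fun i => ?_, fun a => ?_,
      ReesAux.psi_range w hj⟩⟩
  · change ((ReesAux.om A w i : ReesAux.alg (ReesAux.spn A w)) : B[X]) = _
    rw [ReesAux.om, ReesAux.mono_coe, ← Polynomial.C_mul_X_eq_monomial]
  · change ((ReesAux.zeroHom (ReesAux.spn A w) a : ReesAux.gr (ReesAux.spn A w) 0) :
      ReesAux.alg (ReesAux.spn A w)).1 = _
    rw [ReesAux.zeroHom_coe, Polynomial.monomial_zero_left]
    rfl
  · rw [ReesAux.psi_mk, ReesAux.ev_of_mem w (ReesAux.om_mem w i), ReesAux.om, ReesAux.mono_coe,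
      Polynomial.coeff_monomial_same, pow_one]
  · rw [ReesAux.psi_zero]
    change ReesAux.ev A w K j ((ReesAux.zeroHom (ReesAux.spn A w) a :
      ReesAux.gr (ReesAux.spn A w) 0) : ReesAux.alg (ReesAux.spn A w)) = _
    rw [ReesAux.ev_of_mem w (ReesAux.zeroHom (ReesAux.spn A w) a).2, ReesAux.zeroHom_coe,
        Polynomial.coeff_monomial_same, pow_zero, div_one]
    rfl

end Pool.Agent.Helper72.OC
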