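import Pool.Agent.Helper72.OC.Chart
import Pool.Agent.Helper72.OC.Rees
import Pool.Agent.Helper72.OC.ProjDefs

/-!
# Orbit theorem for flagged groups, block H3c: the graded ring of the proper map `G ×^Q Z → Spec A`
-/

set_option autoImplicit false

namespace Pool.Agent.Helper72.OC

open Pool.Agent.Helper65.Mor (FGen)

open TensorProduct

/-- two rings which embed in a third one with the same image are isomorphic over it -/
private theorem exists_ringEquiv1 {R S K : Type} [CommRing R] [CommRing S] [CommRing K]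
    (f : R →+* K) (g : S →+* K) (hf : Function.Injective f) (hg : Function.Injective g)
    (h : f.range = g.range) : ∃ e : R ≃+* S, ∀ x, g (e x) = f x := by
  let ef : R ≃+* f.range := RingEquiv.ofBijective f.rangeRestrict
    ⟨fun x y hxy => hf (congrArg Subtype.val hxy), f.rangeRestrict_surjective⟩
  let eg : S ≃+* g.range := RingEquiv.ofBijective g.rangeRestrict
    ⟨fun x y hxy => hg (congrArg Subtype.val hxy), g.rangeRestrict_surjective⟩
  refine ⟨(ef.trans (RingEquiv.subringCongr h)).trans eg.symm, fun x => ?_⟩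
  have h1 : eg (eg.symm ((RingEquiv.subringCongr h) (ef x))) = (RingEquiv.subringCongr h) (ef x) :=
    eg.apply_symm_apply _
  have h2 := congrArg Subtype.val h1
  exact h2

/-- the chart is finitely generated -/
private theorem fgC1 {Λ D Γ : Type} [CommRing Λ] [CommRing D] [CommRing Γ] [Algebra Λ D] [Algebra Λ Γ]
    (hD : FGen D) {m : ℕ} (w : Fin m → Γ) (h : Algebra.adjoin Λ (Set.range w) = ⊤) :
    FGen (D ⊗[Λ] Γ) := by
  have h1 : Algebra.FiniteType Λ Γ := by
    refine ⟨?_⟩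
    rw [← h, ← (Set.finite_range w).coe_toFinset]
    exact Subalgebra.fg_adjoin_finset _
  have h2 : Algebra.FiniteType D (D ⊗[Λ] Γ) := inferInstance
  exact FGen.of_hom hD (algebraMap D (D ⊗[Λ] Γ)) ((RingHom.finiteType_algebraMap).2 h2)

/-- the cells over `D` -/
private noncomputable def cell1 {Λ Γ : Type} (D : Type) [CommRing Λ] [CommRing D] [CommRing Γ] [Algebra Λ D] [Algebra Λ Γ]
    {n : ℕ} (cl : Γ →ₐ[Λ] MvPolynomial (Fin n) Λ) : D ⊗[Λ] Γ →ₐ[D] MvPolynomial (Fin n) D :=
  (MvPolynomial.algebraTensorAlgEquiv (σ := Fin n) Λ D).toAlgHom.comp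
    (Algebra.TensorProduct.map (AlgHom.id D D) cl)

private theorem cell1_surj {Λ D Γ : Type} [CommRing Λ] [CommRing D] [CommRing Γ] [Algebra Λ D] [Algebra Λ Γ]
    {n : ℕ} (cl : Γ →ₐ[Λ] MvPolynomial (Fin n) Λ) (h : Function.Surjective cl) : Function.Surjective (cell1 D cl) := by
  intro y
  obtain ⟨x, hx⟩ := (MvPolynomial.algebraTensorAlgEquiv Λ D).surjective y
  obtain ⟨z, hz⟩ := Algebra.TensorProduct.map_surjective (AlgHom.id D D) cl Function.surjective_id h x
  exact ⟨z, by rw [cell1, AlgHom.comp_apply, hz]; exact hx⟩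

private theorem cell1_ker {Λ D Γ : Type} [CommRing Λ] [CommRing D] [CommRing Γ] [Algebra Λ D] [Algebra Λ Γ]
    {n : ℕ} (cl : Γ →ₐ[Λ] MvPolynomial (Fin n) Λ) (h : Function.Surjective cl) (s : Set Γ)
    (hs : ∀ f, cl f = 0 → f ∈ (Ideal.span s).radical) (f : D ⊗[Λ] Γ) (hf : cell1 D cl f = 0) :
    f ∈ (Ideal.span ((fun g => (1 : D) ⊗ₜ[Λ] g) '' s)).radical := by
  have h1 : (Algebra.TensorProduct.map (AlgHom.id Λ D) cl) f = 0 := by
    have h2 : (MvPolynomial.algebraTensorAlgEquiv Λ D) ((Algebra.TensorProduct.map (AlgHom.id D D) cl) f) = 0 := hf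
    have h3 := (map_eq_zero_iff (MvPolynomial.algebraTensorAlgEquiv Λ D) (MvPolynomial.algebraTensorAlgEquiv Λ D).injective).1 h2
    exact h3
  have h2 : f ∈ RingHom.ker (Algebra.TensorProduct.map (AlgHom.id Λ D) cl) := h1
  rw [Algebra.TensorProduct.lTensor_ker cl h] at h2
  have h3 : RingHom.ker cl ≤ (Ideal.span s).radical := fun g hg => hs g hg
  have h4 := Ideal.map_mono (f := (Algebra.TensorProduct.includeRight : Γ →ₐ[Λ] D ⊗[Λ] Γ)) h3 h2
  have h5 := Ideal.map_radical_le (f := ((Algebra.TensorProduct.includeRight : Γ →ₐ[Λ] D ⊗[Λ] Γ) : Γ →+* D ⊗[Λ] Γ)) (I := Ideal.span s) h4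
  rw [Ideal.map_span] at h5
  exact h5

/-- evaluation of homogeneous polynomials in the graded ring -/
private theorem eval_hom1 {Λ B : Type} [CommRing Λ] [CommRing B] [Algebra Λ B] {m : ℕ} (w : Fin m → B) {k : ℕ}
    {p : MvPolynomial (Fin m) Λ} (hp : p.IsHomogeneous k) :
    MvPolynomial.eval₂ (Polynomial.C.comp (algebraMap Λ B)) (fun i => Polynomial.C (w i) * Polynomial.X) p =
      Polynomial.C (MvPolynomial.aeval w p) * Polynomial.X ^ k := by
  rw [MvPolynomial.eval₂_eq, MvPolynomial.aeval_def, MvPolynomial.eval₂_eq, map_sum, Finset.sum_mul]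
  refine Finset.sum_congr rfl fun d hd => ?_
  have hk : ∑ i ∈ d.support, d i = k := by
    exact (hp.degree_eq_sum_deg_support hd).symm
  rw [map_mul, map_prod, ← hk, ← Finset.prod_pow_eq_pow_sum, mul_assoc, ← Finset.prod_mul_distrib]
  congr 1
  refine Finset.prod_congr rfl fun i _ => ?_
  rw [mul_pow, map_pow]

theorem exists_projData {Λ : Type} [CommRing Λ] {Q G : GSch Λ} (f : Flag Q G) (hQ : Q.Good)
    (hG : G.Good) {A : Type} [CommRing A] [Algebra Λ A] (hA : FGen A) (α : Act G A)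
    (I : Ideal A) [I.IsPrime] (hI : (α.restr f).Stable I) (hcore : α.core I = ⊥) :
    ∃ (m c : ℕ) (_ : 0 < c) (pd : ProjData A (A ⧸ I) m c),
      (∀ j, Function.Injective (pd.toAway j)) ∧
      ∀ e : Ideal A, α.Stable e → ∀ j,
        (e.map (pd.toAway j)).map (pd.chart j : _ →+* pd.C j) =
          (e.map (Ideal.Quotient.mk I)).map (pd.incl j) := by
  have : IsDomain (RR G (A ⧸ I)) := isDomain_RR G hG
  have hch := exists_chart f hQ hG α I hI (FractionRing (RR G (A ⧸ I)))
  have hw : ∀ j, f.w (f.e j) (gam G (A ⧸ I)) ≠ 0 := fun j => (hch j).1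
  choose Φ κ hΦ hX hκ hrange he using fun j => (hch j).2
  obtain ⟨φ, hφd⟩ : ∃ φ : A →+* RR G (A ⧸ I), φ = (α.orb (Ideal.Quotient.mkₐ Λ I) : A →+* RR G (A ⧸ I)) :=
    ⟨_, rfl⟩
  have hφΛ : ∀ l : Λ, φ (algebraMap Λ A l) = algebraMap Λ (RR G (A ⧸ I)) l := fun l => by
    rw [hφd]
    exact (α.orb (Ideal.Quotient.mkₐ Λ I)).commutes l
  rw [← hφd] at hκ hrange
  have hφ : Function.Injective φ := by
    rw [RingHom.injective_iff_ker_eq_bot, hφd]
    exact hcore
  obtain ⟨S, iS, 𝒮, gr, zero, ω, ω_mem, gen, ⟨ι, hι, hιω, hιz⟩, hψ0⟩ :=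
    exists_rees (K := FractionRing (RR G (A ⧸ I))) φ hφ (fun i => f.w i (gam G (A ⧸ I)))
  choose ψ hψ using fun j => hψ0 (f.e j) (hw j)
  choose chart hchart using fun j => exists_ringEquiv1 (ψ j) (Φ j) (hψ j).1 (hΦ j)
    ((hψ j).2.2.2.trans (hrange j).symm)
  have hD : FGen (A ⧸ I) := FGen.of_hom hA (Ideal.Quotient.mk I)
    (RingHom.FiniteType.of_surjective _ Ideal.Quotient.mk_surjective)
  have hcw : ∀ (j : Fin f.c) (i : Fin f.m), chart j (HomogeneousLocalization.Away.mk 𝒮 (ω_mem (f.e j)) 1 (ω i)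
      (by simpa using ω_mem i)) = (1 : A ⧸ I) ⊗ₜ[Λ] f.w i (f.σ j) := fun j i => hΦ j (by
    rw [hchart, (hψ j).2.1, hX j i])
  have hcov : ∀ i, ω i ∈ (Ideal.span (Set.range fun j => ω (f.e j))).radical := by
    intro i
    obtain ⟨k, p, hp, hpw⟩ := f.cover i
    refine ⟨k + 1, ?_⟩
    obtain ⟨zr, hzr⟩ : ∃ zr : Λ →+* S, ∀ l, ι (zr l) = Polynomial.C (algebraMap Λ (RR G (A ⧸ I)) l) := by
      refine ⟨((SetLike.GradeZero.subring 𝒮).subtype.comp (zero : A →+* 𝒮 0)).comp (algebraMap Λ A), fun l => ?_⟩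
      rw [← hφΛ, ← hιz]
      rfl
    have e1 : ω i ^ (k + 1) = ∑ j, ω (f.e j) * MvPolynomial.eval₂ zr ω (p j) := by
      apply hι
      rw [map_pow, map_sum, hιω]
      have e2 : ∀ j, ι (ω (f.e j) * MvPolynomial.eval₂ zr ω (p j)) =
          Polynomial.C (f.w (f.e j) (gam G (A ⧸ I)) * MvPolynomial.aeval (fun l => f.w l (gam G (A ⧸ I))) (p j)) *
            Polynomial.X ^ (k + 1) := by
        intro j
        rw [map_mul, hιω, MvPolynomial.hom_eval₂]
        have e3 : ι.comp zr = Polynomial.C.comp (algebraMap Λ (RR G (A ⧸ I))) := by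
          ext1 l
          exact hzr l
        have e4 : (fun i => ι (ω i)) = fun i => Polynomial.C (f.w i (gam G (A ⧸ I))) * Polynomial.X := by
          funext i
          exact hιω i
        rw [e3, e4, eval_hom1 (fun i => f.w i (gam G (A ⧸ I))) (hp j), map_mul]
        ring
      rw [Finset.sum_congr rfl fun j _ => e2 j, ← Finset.sum_mul, ← map_sum, ← hpw, mul_pow, map_pow]
    rw [e1]
    refine Ideal.sum_mem _ fun j _ => Ideal.mul_mem_right _ _ (Ideal.subset_span ⟨j, rfl⟩)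
  let pd : ProjData A (A ⧸ I) f.m f.c :=
    { S := S
      ring := iS
      𝒮 := 𝒮
      graded := gr
      zero := zero
      ω := ω
      ω_mem := ω_mem
      gen := gen
      e := f.e
      cover := hcov
      C := fun j => (A ⧸ I) ⊗[Λ] f.Γ j
      ringC := fun j => inferInstance
      fgC := fun j => fgC1 hD (fun i => f.w i (f.σ j)) (f.gen j)
      chart := chart
      incl := fun j => (Algebra.TensorProduct.includeLeft : A ⧸ I →ₐ[Λ] (A ⧸ I) ⊗[Λ] f.Γ j)
      dim := f.dim
      cell := fun j => cell1 (A ⧸ I) (f.cell j)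
      cell_surj := fun j => cell1_surj (f.cell j) (f.cell_surj j)
      cell_incl := fun j => RingHom.ext fun a => (cell1 (A ⧸ I) (f.cell j)).commutes a
      cell_zero := fun j l hl => by
        rw [hcw]
        show (MvPolynomial.algebraTensorAlgEquiv Λ (A ⧸ I)) ((1 : A ⧸ I) ⊗ₜ[Λ] (f.cell j (f.w (f.e l) (f.σ j)))) = 0
        rw [f.cell_zero j l hl, TensorProduct.tmul_zero, map_zero]
      cell_ker := fun j g hg => by
        have h1 := cell1_ker (f.cell j) (f.cell_surj j) _ (f.cell_ker j) g hg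
        refine Ideal.radical_mono (Ideal.span_mono ?_) h1
        rintro _ ⟨_, ⟨l, hl, rfl⟩, rfl⟩
        exact ⟨l, hl, (hcw j (f.e l)).symm⟩ }
  have hψA : ∀ j, (ψ j).comp (pd.toAway j) =
      (algebraMap (RR G (A ⧸ I)) (FractionRing (RR G (A ⧸ I)))).comp φ := fun j => by
    ext a
    exact (hψ j).2.2.1 a
  have hκ' : ∀ j, (chart j : _ →+* (A ⧸ I) ⊗[Λ] f.Γ j).comp (pd.toAway j) = κ j := fun j => by
    ext1 a
    apply hΦ j
    have h1 := congrArg (fun f => f a) (hκ j)
    have h2 := congrArg (fun f => f a) (hψA j)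
    exact ((hchart j (pd.toAway j a)).trans h2).trans h1.symm
  refine ⟨f.m, f.c, f.pos, pd, fun j => ?_, fun e hes j => ?_⟩
  · have h1 : Function.Injective ((ψ j).comp (pd.toAway j)) := by
      rw [hψA]
      exact (IsFractionRing.injective _ _).comp hφ
    exact Function.Injective.of_comp h1
  · have h2 := he j e hes
    rw [← hκ' j] at h2
    rw [Ideal.map_map]
    exact h2

end Pool.Agent.Helper72.OC
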