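import Pool.Agent.Helper72.OB.SchLine
import Pool.Agent.Helper72.OB.Strat
import Pool.Agent.Helper72.OC.ProjDefs

/-!
# Orbit theorem for flagged groups, block H4: the transfer for `Proj S → Spec A`
-/

set_option autoImplicit false

namespace Pool.Agent.Helper72.OC

open AlgebraicGeometry CategoryTheory
open Pool.Agent.Helper65.Mor (Arithmetic ClosedOpen FGen arithmetic_of_fgen)
open Pool.Agent.Helper72.OB (Rules DD LC P_strat P_iso P_mvPoly mem_DD arithmetic_DD)

section

variable {A D : Type} [CommRing A] [CommRing D] {m c : ℕ} (pd : ProjData A D m c)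

private theorem finiteType_S : Algebra.FiniteType (pd.𝒮 0) pd.S := by
  classical
  refine ⟨⟨(Set.finite_range pd.ω).toFinset, ?_⟩⟩
  rw [Set.Finite.coe_toFinset]
  exact pd.gen

/-- the structure map -/
private noncomputable def str : Proj pd.𝒮 ⟶ Spec (CommRingCat.of A) :=
  Proj.toSpecZero pd.𝒮 ≫ Spec.map (CommRingCat.ofHom (pd.zero : A →+* pd.𝒮 0))

private theorem isProper_str : IsProper (str pd) := by
  have := finiteType_S pd
  have : IsIso (CommRingCat.ofHom (pd.zero : A →+* pd.𝒮 0)) :=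
    pd.zero.toCommRingCatIso.isIso_hom
  unfold str
  infer_instance

/-- the charts -/
private noncomputable def cph (j : Fin c) : Spec (CommRingCat.of (pd.C j)) ⟶ Proj pd.𝒮 :=
  Spec.map (CommRingCat.ofHom (pd.chart j : _ →+* pd.C j)) ≫
    Proj.awayι pd.𝒮 (pd.ω (pd.e j)) (pd.ω_mem (pd.e j)) one_pos

private theorem isIso_chart (j : Fin c) : IsIso (CommRingCat.ofHom
    (pd.chart j : HomogeneousLocalization.Away pd.𝒮 (pd.ω (pd.e j)) →+* pd.C j)) :=
  (pd.chart j).toCommRingCatIso.isIso_hom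

private instance isOpenImmersion_cph (j : Fin c) : IsOpenImmersion (cph pd j) := by
  have := isIso_chart pd j
  unfold cph
  infer_instance

private theorem opensRange_cph (j : Fin c) :
    (cph pd j).opensRange = Proj.basicOpen pd.𝒮 (pd.ω (pd.e j)) := by
  have := isIso_chart pd j
  unfold cph
  exact (Scheme.Hom.opensRange_comp_of_isIso _ _).trans (Proj.opensRange_awayι _ _ _ _)

private theorem mem_range_cph (j : Fin c) (y : Proj pd.𝒮) :
    y ∈ Set.range (cph pd j) ↔ y ∈ Proj.basicOpen pd.𝒮 (pd.ω (pd.e j)) := by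
  rw [← opensRange_cph pd j]
  rfl

private theorem cph_str (j : Fin c) : cph pd j ≫ str pd =
    Spec.map (CommRingCat.ofHom ((pd.chart j : _ →+* pd.C j).comp (pd.toAway j))) := by
  rw [cph, str, Category.assoc, Proj.awayι_toSpecZero_assoc, ← Spec.map_comp, ← Spec.map_comp]
  rfl

private theorem surjective_str [IsDomain A] (hc : 0 < c)
    (hinj : ∀ j, Function.Injective (pd.toAway j)) : Surjective (str pd) := by
  have := isProper_str pd
  constructor
  have hcl : IsClosed (Set.range (str pd)) := (str pd).isClosedMap.isClosed_range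
  have hinj' : Function.Injective
      ((pd.chart ⟨0, hc⟩ : _ →+* pd.C ⟨0, hc⟩).comp (pd.toAway ⟨0, hc⟩)) :=
    (pd.chart ⟨0, hc⟩).injective.comp (hinj _)
  have hd : DenseRange (Spec.map (CommRingCat.ofHom
      ((pd.chart ⟨0, hc⟩ : _ →+* pd.C ⟨0, hc⟩).comp (pd.toAway ⟨0, hc⟩)))) := by
    refine (PrimeSpectrum.denseRange_comap_iff_ker_le_nilRadical _).2 ?_
    exact ((RingHom.injective_iff_ker_eq_bot _).1 hinj').trans_le bot_le
  have hsub : Set.range (Spec.map (CommRingCat.ofHom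
      ((pd.chart ⟨0, hc⟩ : _ →+* pd.C ⟨0, hc⟩).comp (pd.toAway ⟨0, hc⟩)))) ⊆
      Set.range (str pd) := by
    rw [← cph_str]
    rintro _ ⟨x, rfl⟩
    exact ⟨cph pd _ x, rfl⟩
  have hd2 : Dense (Set.range (str pd)) := Dense.mono hsub hd
  have := hcl.closure_eq.symm.trans hd2.closure_eq
  exact Set.range_eq_univ.1 this

private theorem arithmetic_proj (hA : FGen A) : Arithmetic (Proj pd.𝒮) := by
  have := isProper_str pd
  obtain ⟨g, h1, h2, h3⟩ := arithmetic_of_fgen hA
  exact ⟨str pd ≫ g, inferInstance, inferInstance, inferInstance⟩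

private theorem cph_mem_basicOpen (j l : Fin c) (x : Spec (CommRingCat.of (pd.C j))) :
    cph pd j x ∈ Proj.basicOpen pd.𝒮 (pd.ω (pd.e l)) ↔ pd.chart j
      (HomogeneousLocalization.Away.mk pd.𝒮 (pd.ω_mem (pd.e j)) 1 (pd.ω (pd.e l))
        (by simpa using pd.ω_mem (pd.e l))) ∉ x.asIdeal := by
  have h1 : cph pd j x ∈ Proj.basicOpen pd.𝒮 (pd.ω (pd.e l)) ↔
      Spec.map (CommRingCat.ofHom (pd.chart j : _ →+* pd.C j)) x ∈
        Proj.awayι pd.𝒮 (pd.ω (pd.e j)) (pd.ω_mem (pd.e j)) one_pos ⁻¹ᵁ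
          Proj.basicOpen pd.𝒮 (pd.ω (pd.e l)) := Iff.rfl
  rw [h1, Proj.awayι_preimage_basicOpen pd.𝒮 (pd.ω_mem (pd.e j)) one_pos (pd.ω_mem (pd.e l)) one_pos]
  have h2 : HomogeneousLocalization.Away.isLocalizationElem (pd.ω_mem (pd.e j))
      (pd.ω_mem (pd.e l)) = HomogeneousLocalization.Away.mk pd.𝒮 (pd.ω_mem (pd.e j)) 1
        (pd.ω (pd.e l)) (by simpa using pd.ω_mem (pd.e l)) := by
    apply HomogeneousLocalization.val_injective
    simp [HomogeneousLocalization.Away.isLocalizationElem]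
  rw [← h2]
  rfl

private theorem cover_basicOpen (y : Proj pd.𝒮) :
    ∃ j, y ∈ Proj.basicOpen pd.𝒮 (pd.ω (pd.e j)) := by
  have h1 := Proj.iSup_basicOpen_eq_top' pd.𝒮 pd.ω (fun i => ⟨1, pd.ω_mem i⟩) pd.gen
  have h2 : y ∈ ⨆ i, Proj.basicOpen pd.𝒮 (pd.ω i) := by
    rw [h1]
    trivial
  obtain ⟨i, hi⟩ := TopologicalSpace.Opens.mem_iSup.1 h2
  by_contra hcon
  push Not at hcon
  rw [Proj.mem_basicOpen] at hi
  apply hi
  have hy : (y.asHomogeneousIdeal.toIdeal).IsPrime := y.isPrime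
  have h3 : Ideal.span (Set.range fun j => pd.ω (pd.e j)) ≤ y.asHomogeneousIdeal.toIdeal := by
    rw [Ideal.span_le]
    rintro _ ⟨j, rfl⟩
    have h4 := hcon j
    rw [Proj.mem_basicOpen, not_not] at h4
    exact h4
  exact (hy.radical_le_iff.2 h3) (pd.cover i)

private theorem P_cell {P : Scheme.{0} → Prop} (hP : Rules P) (hD : FGen D) (e' : Ideal D)
    (h : P (DD e').toScheme) (j : Fin c) :
    P (LC (RingHom.ker (pd.cell j)) (e'.map (pd.incl j))) := by
  have hmv : FGen (MvPolynomial (Fin (pd.dim j)) D) :=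
    hD.of_hom MvPolynomial.C (RingHom.finiteType_algebraMap.2 (inferInstance :
      Algebra.FiniteType D (MvPolynomial (Fin (pd.dim j)) D)))
  set f : MvPolynomial (Fin (pd.dim j)) D ≃+* pd.C j ⧸ RingHom.ker (pd.cell j) :=
    (RingHom.quotientKerEquivOfSurjective (pd.cell_surj j)).symm with hf
  have hf2 : (f : MvPolynomial (Fin (pd.dim j)) D →+* pd.C j ⧸ RingHom.ker (pd.cell j)).comp
      MvPolynomial.C = (Ideal.Quotient.mk _).comp (pd.incl j) := by
    rw [← pd.cell_incl j]
    ext a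
    simp only [RingHom.coe_comp, Function.comp_apply, RingHom.coe_coe]
    rw [hf, RingEquiv.symm_apply_eq]
    rfl
  have h1 := (P_iso hP hmv f _).1 (P_mvPoly hP (σ := Fin (pd.dim j)) hD h)
  rw [Ideal.map_map, hf2, ← Ideal.map_map] at h1
  exact h1

end

theorem P_of_projData {P : Scheme.{0} → Prop} (hP : Rules P) {A D : Type} [CommRing A] [IsDomain A]
    [CommRing D] (hA : FGen A) (hD : FGen D) {m c : ℕ} (hc : 0 < c) (pd : ProjData A D m c)
    (hinj : ∀ j, Function.Injective (pd.toAway j)) (e : Ideal A) (e' : Ideal D)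
    (he : ∀ j, (e.map (pd.toAway j)).map (pd.chart j : _ →+* pd.C j) = e'.map (pd.incl j))
    (p : ℕ) (s : (DD e).toScheme ⟶ Spec (CommRingCat.of (ZMod p))) (hp : p = 0 ∨ p.Prime)
    (hs : Smooth s) (h : P (DD e').toScheme) : P (DD e).toScheme := by
  have hprop := isProper_str pd
  have hsurj := surjective_str pd hc hinj
  refine hP.proper _ (DD e).toScheme (str pd ∣_ DD e) p s hp (arithmetic_DD hA e) inferInstance
    (IsZariskiLocalAtTarget.restrict (P := @Surjective) hsurj (DD e)) hs ?_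
  refine P_strat hP (arithmetic_proj pd hA) (str pd ⁻¹ᵁ DD e) pd.C (cph pd) ?_
    (fun j => RingHom.ker (pd.cell j)) (fun j => e'.map (pd.incl j)) ?_ ?_
    fun j => P_cell pd hP hD e' h j
  · intro y
    obtain ⟨j, hj⟩ := cover_basicOpen pd y
    exact ⟨j, (mem_range_cph pd j y).2 hj⟩
  · intro j x
    constructor
    · intro h1 l hl h2
      rw [mem_range_cph, cph_mem_basicOpen pd j l] at h2
      exact h2 (h1 (pd.cell_zero j l hl))
    · intro h1 f hf
      have h2 := pd.cell_ker j f hf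
      have h3 : Ideal.span {a | ∃ l < j, a = pd.chart j
          (HomogeneousLocalization.Away.mk pd.𝒮 (pd.ω_mem (pd.e j)) 1 (pd.ω (pd.e l))
            (by simpa using pd.ω_mem (pd.e l)))} ≤ x.asIdeal := by
        rw [Ideal.span_le]
        rintro _ ⟨l, hl, rfl⟩
        by_contra h4
        exact h1 l hl ((mem_range_cph pd l _).2 ((cph_mem_basicOpen pd j l x).2 h4))
      exact (x.isPrime.radical_le_iff.2 h3) h2
  · intro j x
    have h1 : cph pd j x ∈ str pd ⁻¹ᵁ DD e ↔ (cph pd j ≫ str pd) x ∈ DD e := Iff.rfl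
    rw [h1, cph_str, mem_DD, ← he j, Ideal.map_map, Ideal.map_le_iff_le_comap]
    rfl

end Pool.Agent.Helper72.OC
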