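import Mathlib
import Pool.Agent.Helper72.OB.SmoFlat

/-!
# Orbit theorem for flagged groups, block H2a: descent of smoothness along smooth homomorphisms
-/

set_option autoImplicit false

namespace Pool.Agent.Helper72.OC

open TensorProduct

private theorem exists_retract_h4 (k A B : Type) [CommRing k] [CommRing A] [CommRing B]
    [Algebra k A] [Algebra k B] [Algebra A B] [IsScalarTower k A B] [Algebra.FormallySmooth A B] :
    ∃ s : Ω[B⁄k] →ₗ[B] B ⊗[A] Ω[A⁄k], s ∘ₗ KaehlerDifferential.mapBaseChange k A B =
      LinearMap.id := by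
  have h1 : Function.Injective (KaehlerDifferential.mapBaseChange k A B) := by
    rw [injective_iff_map_eq_zero]
    intro x hx
    obtain ⟨y, rfl⟩ := (Algebra.H1Cotangent.exact_δ_mapBaseChange k A B x).1 hx
    have : Subsingleton (Algebra.H1Cotangent A B) := inferInstance
    rw [Subsingleton.elim y 0, map_zero]
  have h2 : Function.Surjective (KaehlerDifferential.map k A B B) :=
    KaehlerDifferential.map_surjective k A B
  have h3 : Function.Exact (KaehlerDifferential.mapBaseChange k A B)
    (KaehlerDifferential.map k A B B) := KaehlerDifferential.exact_mapBaseChange_map k A B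
  have : Module.Projective B Ω[B⁄A] := inferInstance
  exact ((h3.split_tfae h1 h2).out 0 1 rfl rfl).1
    (Module.projective_lifting_property (KaehlerDifferential.map k A B B) LinearMap.id h2)

private theorem free_h4 (k A B : Type) [CommRing k] [CommRing A] [CommRing B]
    [Algebra k A] [Algebra k B] [Algebra A B] [IsScalarTower k A B] [Algebra.FinitePresentation k A]
    [IsNoetherianRing A] [Algebra.Smooth A B] (P : PrimeSpectrum B)
    (hP : P ∈ Module.freeLocus B Ω[B⁄k]) :
    P.comap (algebraMap A B) ∈ Module.freeLocus A Ω[A⁄k] := by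
  apply OB.free_of_flat
  obtain ⟨s, hs⟩ := exists_retract_h4 k A B
  rw [Module.mem_freeLocus_iff_tensor P (Localization.AtPrime P.asIdeal)] at hP ⊢
  have h1 : (s.baseChange (Localization.AtPrime P.asIdeal)) ∘ₗ
      ((KaehlerDifferential.mapBaseChange k A B).baseChange (Localization.AtPrime P.asIdeal)) =
      LinearMap.id := by
    rw [← LinearMap.baseChange_comp, hs, LinearMap.baseChange_id]
  have h2 : Module.Projective (Localization.AtPrime P.asIdeal)
      (Localization.AtPrime P.asIdeal ⊗[B] (B ⊗[A] Ω[A⁄k])) :=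
    Module.Projective.of_split _ _ h1
  exact Module.free_of_flat_of_isLocalRing

private theorem notMem_of_injective_h4 {A B M N : Type} [CommRing A] [CommRing B] [Algebra A B]
    [Module.Flat A B] [AddCommGroup M] [Module A M] [AddCommGroup N] [Module B N]
    (f : B ⊗[A] M →ₗ[B] N) (hf : Function.Injective f) (P : PrimeSpectrum B)
    (hP : P ∉ Module.support B N) : P.comap (algebraMap A B) ∉ Module.support A M := by
  rw [Module.notMem_support_iff'] at hP ⊢
  intro x
  obtain ⟨b, hb, hbx⟩ := hP (f (1 ⊗ₜ x))
  have h0 : b ⊗ₜ[A] x = 0 := by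
    apply hf
    rw [map_zero, ← hbx, ← map_smul, smul_tmul', smul_eq_mul, mul_one]
  let l : A →ₗ[A] M := LinearMap.toSpanSingleton A _ x
  have h1 : l.lTensor B (b ⊗ₜ[A] (1 : A)) = 0 := by
    rw [LinearMap.lTensor_tmul, LinearMap.toSpanSingleton_apply, one_smul, h0]
  have hex := Module.Flat.lTensor_exact B (LinearMap.exact_subtype_ker_map l)
  obtain ⟨c, hc⟩ := (hex _).1 h1
  by_contra hcon
  push Not at hcon
  apply hb
  have h2 : b = (TensorProduct.rid A B) (b ⊗ₜ[A] (1 : A)) := by
    rw [TensorProduct.rid_tmul, one_smul]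
  rw [h2, ← hc]
  have hmem : ∀ c : B ⊗[A] (LinearMap.ker l),
      (TensorProduct.rid A B) ((LinearMap.ker l).subtype.lTensor B c) ∈ P.asIdeal := by
    intro c
    induction c with
    | zero => simp
    | add c d hc hd => rw [map_add, map_add]; exact P.asIdeal.add_mem hc hd
    | tmul t a =>
      rw [LinearMap.lTensor_tmul, TensorProduct.rid_tmul, Algebra.smul_def]
      apply P.asIdeal.mul_mem_right
      by_contra h3
      refine hcon (a : A) ?_ a.2
      exact h3
  exact hmem c

/-- lifting a standard etale algebra along a surjection -/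
private theorem exists_lift_h4 {P S T : Type} [CommRing P] [CommRing S] [CommRing T] [Algebra P S]
    [Algebra S T] [Algebra.IsStandardEtale S T] (hs : Function.Surjective (algebraMap P S)) :
    ∃ (Q : Type) (_ : CommRing Q) (_ : Algebra P Q), Algebra.Etale P Q ∧
      Nonempty (S ⊗[P] Q ≃ₐ[S] T) := by
  classical
  obtain ⟨p⟩ := (inferInstance : Algebra.IsStandardEtale S T).nonempty_standardEtalePresentation
  obtain ⟨F, hF, -, hFm⟩ := Polynomial.lifts_and_natDegree_eq_and_monic
    ((Polynomial.mem_lifts _).2 (Polynomial.map_surjective _ hs p.f)) p.monic_f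
  obtain ⟨G, hG⟩ := Polynomial.map_surjective _ hs p.g
  obtain ⟨p1, p2, n, hc⟩ := p.cond
  obtain ⟨P1, hP1⟩ := Polynomial.map_surjective _ hs p1
  obtain ⟨P2, hP2⟩ := Polynomial.map_surjective _ hs p2
  let q : StandardEtalePair P := ⟨F, hFm, G * (Polynomial.derivative F * P1 + F * P2),
    ⟨G * P1, G * P2, 1, by ring⟩⟩
  have key : ∀ (U : Type) [CommRing U] [Algebra S U] (x : U),
      (q.map (algebraMap P S)).HasMap x ↔ p.P.HasMap x := by
    intro U _ _ x
    have e1 : (q.map (algebraMap P S)).f = p.f := hF
    have e2 : (q.map (algebraMap P S)).g = p.g ^ (n + 1) := by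
      change Polynomial.map (algebraMap P S) (G * (Polynomial.derivative F * P1 + F * P2)) = _
      rw [Polynomial.map_mul, Polynomial.map_add, Polynomial.map_mul, Polynomial.map_mul,
        ← Polynomial.derivative_map, hF, hG, hP1, hP2, hc, pow_succ']
    unfold StandardEtalePair.HasMap
    rw [e1, e2, map_pow, isUnit_pow_iff (Nat.succ_ne_zero n)]
  let e : (q.map (algebraMap P S)).Ring ≃ₐ[S] p.P.Ring :=
    AlgEquiv.ofAlgHom ((q.map (algebraMap P S)).lift p.P.X ((key _ _).2 p.P.hasMap_X))
      (p.P.lift (q.map (algebraMap P S)).X ((key _ _).1 (q.map (algebraMap P S)).hasMap_X))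
      (by ext; simp) (by ext; simp)
  let qq : StandardEtalePresentation P q.Ring := ⟨q, q.X, q.hasMap_X, by
    simpa [StandardEtalePair.lift_X_left] using Function.bijective_id⟩
  exact ⟨q.Ring, inferInstance, inferInstance, inferInstance,
    ⟨((qq.baseChange (T := S)).equivRing.trans e).trans p.equivRing.symm⟩⟩

private theorem bij_h4 {P S T Q : Type} [CommRing P] [CommRing S] [CommRing T] [Algebra P S]
    [Algebra S T] [CommRing Q] [Algebra P Q] [Module.Flat P Q]
    (hs : Function.Surjective (algebraMap P S)) (e : S ⊗[P] Q ≃ₐ[S] T) (f : Q →+* T)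
    (hf : ∀ x, f x = e (1 ⊗ₜ x)) (g : RingHom.ker (algebraMap P S) →ₗ[P] RingHom.ker f)
    (hg : ∀ x, (g x : Q) = algebraMap P Q x) :
    Function.Bijective (g.liftBaseChange Q) := by
  have hval : ∀ z : Q ⊗[P] RingHom.ker (algebraMap P S),
      ((g.liftBaseChange Q z : RingHom.ker f) : Q) =
        TensorProduct.rid P Q ((RingHom.ker (algebraMap P S)).subtype.lTensor Q z) := by
    intro z
    induction z with
    | zero => simp
    | add c d hc hd => rw [map_add, Submodule.coe_add, hc, hd, map_add, map_add]
    | tmul t a =>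
      rw [LinearMap.lTensor_tmul, TensorProduct.rid_tmul, LinearMap.liftBaseChange_tmul,
        Submodule.coe_smul, hg, Submodule.subtype_apply, Algebra.smul_def (a : P) t, smul_eq_mul,
        mul_comm]
  constructor
  · rw [injective_iff_map_eq_zero]
    intro z hz
    have h1 := hval z
    rw [hz, Submodule.coe_zero] at h1
    have h2 := (TensorProduct.rid P Q).injective (h1.symm.trans (map_zero _).symm)
    exact (Module.Flat.lTensor_preserves_injective_linearMap (M := Q)
      (RingHom.ker (algebraMap P S)).subtype Subtype.val_injective) (h2.trans (map_zero _).symm)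
  · rintro ⟨x, hx⟩
    rw [RingHom.mem_ker, hf] at hx
    have h1 : ((1 : S) ⊗ₜ[P] x) = 0 := e.injective (hx.trans (map_zero e).symm)
    have hex : Function.Exact (RingHom.ker (algebraMap P S)).subtype (Algebra.linearMap P S) := by
      intro y
      constructor
      · intro hy
        exact ⟨⟨y, hy⟩, rfl⟩
      · rintro ⟨y, rfl⟩
        exact y.2
    have hex2 := lTensor_exact Q hex hs
    have h3 : (Algebra.linearMap P S).lTensor Q (x ⊗ₜ[P] (1 : P)) = 0 := by
      rw [LinearMap.lTensor_tmul, Algebra.linearMap_apply, map_one]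
      have := congrArg (TensorProduct.comm P S Q) h1
      rwa [TensorProduct.comm_tmul, map_zero] at this
    obtain ⟨z, hz⟩ := (hex2 _).1 h3
    refine ⟨z, Subtype.ext ?_⟩
    rw [hval, hz, TensorProduct.rid_tmul, one_smul]

private theorem exists_h1_h4 {R S T : Type} [CommRing R] [CommRing S] [CommRing T] [Algebra R S]
    [Algebra R T] [Algebra S T] [IsScalarTower R S T] [Algebra.IsStandardEtale S T] :
    ∃ F : T ⊗[S] Algebra.H1Cotangent R S →ₗ[T] Algebra.H1Cotangent R T, Function.Injective F := by
  let P : Algebra.Extension R S := (Algebra.Generators.self R S).toExtension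
  obtain ⟨Q', h1, h2, h3, ⟨e⟩⟩ := exists_lift_h4 (P := P.Ring) (S := S) (T := T)
    P.algebraMap_surjective
  let _ : Algebra R Q' := Algebra.compHom Q' (algebraMap R P.Ring)
  have _ : IsScalarTower R P.Ring Q' := .of_algebraMap_eq' rfl
  let f : Q' →ₐ[R] T := 
    { (e : S ⊗[P.Ring] Q' →+* T).comp (Algebra.TensorProduct.includeRight (R := P.Ring) (A := S) (B := Q')).toRingHom with
      commutes' := fun r => by
        change e (1 ⊗ₜ[P.Ring] (algebraMap P.Ring Q' (algebraMap R P.Ring r))) = _
        have h5 : ((1 : S) ⊗ₜ[P.Ring] (algebraMap P.Ring Q' (algebraMap R P.Ring r))) =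
            algebraMap S (S ⊗[P.Ring] Q') (algebraMap R S r) := by
          rw [Algebra.TensorProduct.algebraMap_apply, Algebra.algebraMap_self, RingHom.id_apply,
            Algebra.algebraMap_eq_smul_one (algebraMap R P.Ring r), TensorProduct.tmul_smul,
            TensorProduct.smul_tmul', Algebra.smul_def, mul_one,
            ← IsScalarTower.algebraMap_apply R P.Ring S]
        rw [h5, AlgEquiv.commutes, ← IsScalarTower.algebraMap_apply R S T] }
  have hf : ∀ x, f x = e (1 ⊗ₜ x) := fun x => rfl
  have hfP : ∀ x : P.Ring, f (algebraMap P.Ring Q' x) = algebraMap S T (algebraMap P.Ring S x) := by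
    intro x
    rw [hf, ← e.commutes]
    congr 1
    rw [Algebra.TensorProduct.algebraMap_apply, Algebra.algebraMap_self, RingHom.id_apply,
      Algebra.algebraMap_eq_smul_one x, TensorProduct.tmul_smul,
      TensorProduct.smul_tmul', Algebra.smul_def, mul_one]
  have hfs : Function.Surjective f := by
    intro y
    obtain ⟨z, rfl⟩ := e.surjective y
    induction z with
    | zero => exact ⟨0, by rw [map_zero, map_zero]⟩
    | add a b ha hb =>
      obtain ⟨a', ha'⟩ := ha
      obtain ⟨b', hb'⟩ := hb
      exact ⟨a' + b', by rw [map_add, ha', hb', map_add]⟩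
    | tmul a b =>
      obtain ⟨a', rfl⟩ := P.algebraMap_surjective a
      refine ⟨a' • b, ?_⟩
      rw [hf, TensorProduct.tmul_smul, TensorProduct.smul_tmul', Algebra.smul_def, mul_one]
  let Q : Algebra.Extension R T := .ofSurjective f hfs
  let F : P.Hom Q := 
    { toRingHom := algebraMap P.Ring Q'
      toRingHom_algebraMap := fun x => (IsScalarTower.algebraMap_apply R P.Ring Q' _).symm
      algebraMap_toRingHom := fun x => hfP x }
  have hm : Algebra.FormallySmooth R (MvPolynomial S R) := inferInstance
  have : Algebra.FormallySmooth R P.Ring := hm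
  have : Algebra.FormallySmooth P.Ring Q' := inferInstance
  have : Algebra.FormallySmooth R Q.Ring := .comp R P.Ring Q'
  have : Module.Flat S T := inferInstance
  have : Module.Flat P.Ring Q' := inferInstance
  let _ : Algebra P.Ring Q.Ring := (inferInstance : Algebra P.Ring Q')
  have hE := Algebra.Extension.tensorH1CotangentOfFormallyEtale F rfl
    (RingHom.formallyEtale_algebraMap.mpr (inferInstance : Algebra.FormallyEtale P.Ring Q')) 
    (bij_h4 P.algebraMap_surjective e _ hf _ (fun x => rfl))
  exact ⟨(hE ≪≫ₗ Algebra.Extension.equivH1CotangentOfFormallySmooth _).toLinearMap, LinearEquiv.injective _⟩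

private theorem std_of_surjective_h4 {M A B : Type} [CommRing M] [CommRing A] [CommRing B]
    [Algebra M A] [Algebra M B] [Algebra A B] [IsScalarTower M A B] [Algebra.IsStandardEtale M B]
    (hs : Function.Surjective (algebraMap M A)) : Algebra.IsStandardEtale A B := by
  let f : A ⊗[M] B →ₐ[A] B := Algebra.TensorProduct.lift (Algebra.ofId A B) (AlgHom.id M B)
    (fun _ _ => .all _ _)
  have h1 : ∀ b : B, f (1 ⊗ₜ b) = b := by
    intro b
    rw [Algebra.TensorProduct.lift_tmul, map_one, one_mul]
    rfl
  have h2 : ∀ z : A ⊗[M] B, ∃ b : B, z = 1 ⊗ₜ b := by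
    intro z
    induction z with
    | zero => exact ⟨0, by rw [TensorProduct.tmul_zero]⟩
    | add a b ha hb =>
      obtain ⟨a', ha'⟩ := ha
      obtain ⟨b', hb'⟩ := hb
      exact ⟨a' + b', by rw [ha', hb', TensorProduct.tmul_add]⟩
    | tmul a b =>
      obtain ⟨a', rfl⟩ := hs a
      refine ⟨a' • b, ?_⟩
      rw [TensorProduct.tmul_smul, TensorProduct.smul_tmul', Algebra.smul_def, mul_one]
  have hf : Function.Bijective f := by
    constructor
    · intro x y hxy
      obtain ⟨a, rfl⟩ := h2 x
      obtain ⟨b, rfl⟩ := h2 y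
      rw [h1, h1] at hxy
      rw [hxy]
    · intro b
      exact ⟨1 ⊗ₜ b, h1 b⟩
  exact Algebra.IsStandardEtale.of_equiv (AlgEquiv.ofBijective f hf)

attribute [local instance] Algebra.TensorProduct.rightAlgebra in
private theorem h1_poly_h4 {k A T : Type} [CommRing k] [CommRing A] [CommRing T] [Algebra k A]
    [Algebra k T] [Module.Flat k T] (P : PrimeSpectrum (T ⊗[k] A))
    (hP : P ∉ Module.support (T ⊗[k] A) (Algebra.H1Cotangent k (T ⊗[k] A))) :
    P.comap (Algebra.TensorProduct.includeRight : A →ₐ[k] T ⊗[k] A).toRingHom ∉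
      Module.support A (Algebra.H1Cotangent k A) := by
  apply OB.h1_of_flat
  have h1 : Function.Injective (KaehlerDifferential.mapBaseChange k T (T ⊗[k] A)) := by
    have h2 : (KaehlerDifferential.map k A (T ⊗[k] A) (T ⊗[k] A)) ∘ₗ
        (KaehlerDifferential.mapBaseChange k T (T ⊗[k] A)) =
        (KaehlerDifferential.tensorKaehlerEquiv k A T (T ⊗[k] A)).toLinearMap := by
      ext x
      simp
    have h3 := (KaehlerDifferential.tensorKaehlerEquiv k A T (T ⊗[k] A)).injective
    refine Function.Injective.of_comp (f := KaehlerDifferential.map k A (T ⊗[k] A) (T ⊗[k] A)) ?_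
    rw [← LinearMap.coe_comp, h2]
    exact h3
  have h2 : Function.Surjective (Algebra.H1Cotangent.map k T (T ⊗[k] A) (T ⊗[k] A)) := by
    intro y
    apply (Algebra.H1Cotangent.exact_map_δ k T (T ⊗[k] A) y).1
    apply h1
    rw [map_zero]
    exact (Algebra.H1Cotangent.exact_δ_mapBaseChange k T (T ⊗[k] A) _).2 ⟨y, rfl⟩
  rw [Module.notMem_support_iff'] at hP ⊢
  intro y
  obtain ⟨x, rfl⟩ := h2 y
  obtain ⟨b, hb, hbx⟩ := hP x
  exact ⟨b, hb, by rw [← map_smul, hbx, map_zero]⟩

attribute [local instance] Algebra.TensorProduct.rightAlgebra in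
private theorem h1_main_h4 {k A B : Type} [CommRing k] [CommRing A] [CommRing B]
    [Algebra k A] [Algebra k B] [Algebra A B] [IsScalarTower k A B] (n : ℕ)
    [Algebra (MvPolynomial (Fin n) A) B] [IsScalarTower A (MvPolynomial (Fin n) A) B]
    [Algebra.IsStandardEtale (MvPolynomial (Fin n) A) B] (P : PrimeSpectrum B)
    (hP : P ∉ Module.support B (Algebra.H1Cotangent k B)) :
    P.comap (algebraMap A B) ∉ Module.support A (Algebra.H1Cotangent k A) := by
  let T := MvPolynomial (Fin n) k
  let e : MvPolynomial (Fin n) A ≃ₐ[k] T ⊗[k] A :=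
    ((MvPolynomial.algebraTensorAlgEquiv (σ := Fin n) k A).symm.restrictScalars k).trans
      (Algebra.TensorProduct.comm k A T)
  let _ : Algebra (T ⊗[k] A) B :=
    ((algebraMap (MvPolynomial (Fin n) A) B).comp (e.symm : (T ⊗[k] A) →+* _)).toAlgebra
  let _ : Algebra (MvPolynomial (Fin n) A) (T ⊗[k] A) := (e : _ →+* (T ⊗[k] A)).toAlgebra
  have : IsScalarTower (MvPolynomial (Fin n) A) (T ⊗[k] A) B := .of_algebraMap_eq fun x => by
    change _ = algebraMap (MvPolynomial (Fin n) A) B (e.symm (e x))
    rw [AlgEquiv.symm_apply_apply]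
  have hA : ∀ a : A, algebraMap (T ⊗[k] A) B (1 ⊗ₜ a) = algebraMap A B a := by
    intro a
    have h1 : (1 : T) ⊗ₜ[k] a = e (MvPolynomial.C a) := by
      rw [← e.symm_apply_eq]
      change MvPolynomial.algebraTensorAlgEquiv (σ := Fin n) k A (a ⊗ₜ[k] (1 : T)) = _
      rw [MvPolynomial.algebraTensorAlgEquiv_tmul, map_one, MvPolynomial.smul_eq_C_mul, mul_one]
    rw [h1]
    change algebraMap (MvPolynomial (Fin n) A) B (e.symm (e _)) = _
    rw [AlgEquiv.symm_apply_apply, IsScalarTower.algebraMap_apply A (MvPolynomial (Fin n) A) B]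
    rfl
  have : IsScalarTower k (T ⊗[k] A) B := IsScalarTower.of_algebraMap_eq (R := k)
      (S := T ⊗[k] A) (A := B) fun x => by
    have h1 : algebraMap k (T ⊗[k] A) x = (1 : T) ⊗ₜ[k] (algebraMap k A x) := by
      rw [Algebra.algebraMap_eq_smul_one, Algebra.algebraMap_eq_smul_one, TensorProduct.tmul_smul]
      rfl
    rw [h1, hA, ← IsScalarTower.algebraMap_apply k A B]
  have : Algebra.IsStandardEtale (T ⊗[k] A) B :=
    std_of_surjective_h4 (M := MvPolynomial (Fin n) A) e.surjective
  obtain ⟨F, hF⟩ := exists_h1_h4 (R := k) (S := T ⊗[k] A) (T := B)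
  have h2 := notMem_of_injective_h4 F hF P hP
  have h3 := h1_poly_h4 _ h2
  have h4 : P.comap (algebraMap A B) = (P.comap (algebraMap (T ⊗[k] A) B)).comap
      (Algebra.TensorProduct.includeRight : A →ₐ[k] T ⊗[k] A).toRingHom := by
    rw [← PrimeSpectrum.comap_comp_apply]
    congr 1
    ext a
    exact (hA a).symm
  rw [h4]
  exact h3

/-- pointwise descent of smoothness along smooth homomorphisms -/
theorem mem_smoothLocus_of_smooth {k A B : Type} [CommRing k] [CommRing A] [CommRing B]
    [Algebra k A] [Algebra k B] [Algebra A B] [IsScalarTower k A B] [Algebra.FinitePresentation k A]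
    [IsNoetherianRing A] [Algebra.Smooth A B] (P : PrimeSpectrum B)
    (hP : P ∈ Algebra.smoothLocus k B) :
    P.comap (algebraMap A B) ∈ Algebra.smoothLocus k A := by
  have hft : Algebra.FinitePresentation k B := .trans k A B
  have hsm : Algebra.IsSmoothAt A P.asIdeal := by
    have := (Algebra.smoothLocus_eq_univ (R := A) (A := B))
    have h2 : P ∈ Algebra.smoothLocus A B := by rw [this]; trivial
    exact h2
  obtain ⟨f, hf, n, alg, tower, std⟩ :=
    Algebra.IsSmoothAt.exists_isStandardEtale_mvPolynomial (R := A) (p := P.asIdeal)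
  obtain ⟨P1, hP1⟩ : P ∈ Set.range (PrimeSpectrum.comap
      (algebraMap B (Localization.Away f))) := by
    rw [PrimeSpectrum.localization_away_comap_range _ f]
    exact hf
  have h1 : P1 ∈ Algebra.smoothLocus k (Localization.Away f) := by
    rw [← Algebra.smoothLocus_comap_of_isLocalization (R := k) (A := B) f]
    rw [Set.mem_preimage, hP1]
    exact hP
  have hft2 : Algebra.FinitePresentation k (Localization.Away f) := .trans k B _
  rw [Algebra.smoothLocus_eq_compl_support_inter] at hP h1 ⊢
  refine ⟨?_, free_h4 k A B P hP.2⟩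
  have h2 := h1_main_h4 (k := k) (A := A) (B := Localization.Away f) n P1 h1.1
  rw [← hP1]
  rw [IsScalarTower.algebraMap_eq A B (Localization.Away f)] at h2
  exact h2

end Pool.Agent.Helper72.OC
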