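import Pool.Agent.Helper72.OC.Stab
import Pool.Agent.Helper72.OC.SmoSm

/-!
# Orbit theorem for flagged groups, block H2: a smooth stable open subscheme
-/

set_option autoImplicit false

namespace Pool.Agent.Helper72.OC

open AlgebraicGeometry CategoryTheory TensorProduct
open Pool.Agent.Helper65.Mor (Arithmetic ClosedOpen FGen)
open Pool.Agent.Helper72.OB (DD)

/-- the generic point of a domain finitely generated over a perfect field is smooth -/
private theorem gen_smooth_perf_56 {k A : Type} [Field k] [PerfectField k] [CommRing A] [IsDomain A]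
    [Algebra k A] [Algebra.FiniteType k A] :
    Algebra.IsSmoothAt k (⊥ : Ideal A) := by
  have h1 : IsFractionRing A (Localization.AtPrime (⊥ : Ideal A)) := by
    simpa [Ideal.primeCompl_bot] using Localization.isLocalization (M := (⊥ : Ideal A).primeCompl)
  let hF : Field (Localization.AtPrime (⊥ : Ideal A)) := IsFractionRing.toField A
  have h2 : Algebra.EssFiniteType A (Localization.AtPrime (⊥ : Ideal A)) :=
    .of_isLocalization _ (⊥ : Ideal A).primeCompl
  have h3 : Algebra.EssFiniteType k (Localization.AtPrime (⊥ : Ideal A)) := .comp _ A _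
  exact Algebra.FormallySmooth.of_perfectField

private theorem fs_int_field_56 {K : Type} [Field K] [CharZero K] [Algebra.EssFiniteType ℤ K] :
    Algebra.FormallySmooth ℤ K := by
  have h4 : Algebra.EssFiniteType ℚ K := .of_comp ℤ ℚ _
  have h5 : Algebra.FormallySmooth ℚ K := Algebra.FormallySmooth.of_perfectField
  have h6 : Algebra.FormallySmooth ℤ ℚ := .of_isLocalization (nonZeroDivisors ℤ)
  exact .comp ℤ ℚ _

private theorem gen_smooth_int_56 {A : Type} [CommRing A] [IsDomain A] [CharZero A]
    [Algebra.FiniteType ℤ A] :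
    Algebra.IsSmoothAt ℤ (⊥ : Ideal A) := by
  have h1 : IsFractionRing A (Localization.AtPrime (⊥ : Ideal A)) := by
    simpa [Ideal.primeCompl_bot] using Localization.isLocalization (M := (⊥ : Ideal A).primeCompl)
  let hF : Field (Localization.AtPrime (⊥ : Ideal A)) := IsFractionRing.toField A
  have hc : CharZero (Localization.AtPrime (⊥ : Ideal A)) :=
    charZero_of_injective_algebraMap (IsFractionRing.injective A (Localization.AtPrime (⊥ : Ideal A)))
  have h2 : Algebra.EssFiniteType A (Localization.AtPrime (⊥ : Ideal A)) :=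
    .of_isLocalization _ (⊥ : Ideal A).primeCompl
  have h3 : Algebra.EssFiniteType ℤ (Localization.AtPrime (⊥ : Ideal A)) := .comp _ A _
  have e2 : (Ring.toIntAlgebra (Localization.AtPrime (⊥ : Ideal A)) :
      Algebra ℤ (Localization.AtPrime (⊥ : Ideal A))) = OreLocalization.instAlgebra :=
    Subsingleton.elim _ _
  have h4 : @Algebra.EssFiniteType ℤ (Localization.AtPrime (⊥ : Ideal A)) _ _
      (Ring.toIntAlgebra _) := by
    rw [e2]
    exact h3
  have h5 := @fs_int_field_56 (Localization.AtPrime (⊥ : Ideal A)) hF hc h4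
  unfold Algebra.IsSmoothAt
  rw [← e2]
  exact h5

/-- smoothness of an open subscheme of an affine scheme from its points -/
private theorem smooth_of_points_56 {k A : Type} [CommRing k] [CommRing A] [Algebra k A]
    [Algebra.FinitePresentation k A] (U : (Spec (CommRingCat.of A)).Opens)
    (h : ∀ x : PrimeSpectrum A, x ∈ U → x ∈ Algebra.smoothLocus k A) :
    Smooth (U.ι ≫ Spec.map (CommRingCat.ofHom (algebraMap k A))) := by
  have hfp : LocallyOfFinitePresentation (Spec.map (CommRingCat.ofHom (algebraMap k A))) := by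
    rw [HasRingHomProperty.Spec_iff (P := @LocallyOfFinitePresentation)]
    exact (RingHom.finitePresentation_algebraMap).2 inferInstance
  have key : ∀ x : PrimeSpectrum A, x ∈ U →
      x ∈ (Spec.map (CommRingCat.ofHom (algebraMap k A))).smoothLocus := by
    intro x hx
    obtain ⟨_, ⟨_, ⟨c, rfl⟩, rfl⟩, hxc, hc⟩ :=
      PrimeSpectrum.isBasis_basic_opens.exists_subset_of_mem_open (h x hx)
        (Algebra.isOpen_smoothLocus (R := k) (A := A))
    rw [Algebra.basicOpen_subset_smoothLocus_iff_smooth] at hc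
    have h1 : Smooth (Spec.map (CommRingCat.ofHom (algebraMap A (Localization.Away c))) ≫
        Spec.map (CommRingCat.ofHom (algebraMap k A))) := by
      rw [← Spec.map_comp, HasRingHomProperty.Spec_iff (P := @Smooth)]
      have : CommRingCat.Hom.hom (CommRingCat.ofHom (algebraMap k A) ≫
          CommRingCat.ofHom (algebraMap A (Localization.Away c))) =
          algebraMap k (Localization.Away c) := by
        rw [← CommRingCat.ofHom_comp, CommRingCat.hom_ofHom]
        rfl
      rw [this, RingHom.smooth_algebraMap]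
      exact hc
    have h2 := Scheme.Hom.smoothLocus_eq_top
      (Spec.map (CommRingCat.ofHom (algebraMap A (Localization.Away c))) ≫
        Spec.map (CommRingCat.ofHom (algebraMap k A)))
    rw [← Scheme.Hom.preimage_smoothLocus_eq] at h2
    obtain ⟨y, hy⟩ : x ∈ Set.range (PrimeSpectrum.comap (algebraMap A (Localization.Away c))) := by
      rw [PrimeSpectrum.localization_away_comap_range _ c]
      exact hxc
    have h3 : (y : Spec (CommRingCat.of (Localization.Away c))) ∈
        (Spec.map (CommRingCat.ofHom (algebraMap A (Localization.Away c)))) ⁻¹ᵁ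
          (Spec.map (CommRingCat.ofHom (algebraMap k A))).smoothLocus := by
      rw [h2]
      trivial
    rw [← hy]
    exact h3
  rw [← Scheme.Hom.smoothLocus_eq_top_iff, ← Scheme.Hom.preimage_smoothLocus_eq, ← top_le_iff]
  intro x _
  exact key _ x.2


/-- a domain of finite type over its prime ring is generically smooth -/
private theorem exists_away_smooth_56 {A : Type} [CommRing A] [IsDomain A]
    (hA : (Int.castRingHom A).FiniteType) : ∃ (p : ℕ) (_ : Algebra (ZMod p) A),
      (p = 0 ∨ p.Prime) ∧ Algebra.FinitePresentation (ZMod p) A ∧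
      ∃ s : A, s ≠ 0 ∧ Algebra.Smooth (ZMod p) (Localization.Away s) := by
  obtain ⟨p, hp⟩ := CharP.exists A
  have hft : Algebra.FiniteType ℤ A := RingHom.finiteType_algebraMap.1 hA
  rcases (CharP.char_is_prime_or_zero A p) with hpr | rfl
  · have : Fact p.Prime := ⟨hpr⟩
    let hal : Algebra (ZMod p) A := ZMod.algebra A p
    have : IsScalarTower ℤ (ZMod p) A := IsScalarTower.of_algebraMap_eq' (Subsingleton.elim _ _)
    have hft' : Algebra.FiniteType (ZMod p) A := .of_restrictScalars_finiteType ℤ (ZMod p) A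
    have hfp : Algebra.FinitePresentation (ZMod p) A :=
      Algebra.FinitePresentation.of_finiteType.1 inferInstance
    have hs : Algebra.IsSmoothAt (ZMod p) (⊥ : Ideal A) := gen_smooth_perf_56
    obtain ⟨s, hs0, hs1⟩ := Algebra.IsSmoothAt.exists_notMem_smooth (ZMod p) (⊥ : Ideal A)
    exact ⟨p, hal, Or.inr hpr, hfp, s, hs0, hs1⟩
  · have : CharZero A := CharP.charP_to_charZero A
    have hfp : Algebra.FinitePresentation ℤ A :=
      Algebra.FinitePresentation.of_finiteType.1 inferInstance
    have hs : Algebra.IsSmoothAt ℤ (⊥ : Ideal A) := gen_smooth_int_56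
    obtain ⟨s, hs0, hs1⟩ := Algebra.IsSmoothAt.exists_notMem_smooth ℤ (⊥ : Ideal A)
    exact ⟨0, (inferInstance : Algebra ℤ A), Or.inl rfl, hfp, s, hs0, hs1⟩


/-- smooth points of the target of a smooth homomorphism -/
private theorem smooth_via_56 {k A B : Type} [CommRing k] [CommRing A] [CommRing B] [Algebra k A]
    [Algebra k B] [Algebra.FinitePresentation k B] (ρ : A →+* B)
    (hk : ρ.comp (algebraMap k A) = algebraMap k B) (hρ : ρ.Smooth) {s : A}
    (hs : Algebra.Smooth k (Localization.Away s)) (P : PrimeSpectrum B) (hP : ρ s ∉ P.asIdeal) :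
    P ∈ Algebra.smoothLocus k B := by
  have h1 : (IsLocalization.Away.map (Localization.Away s) (Localization.Away (ρ s)) ρ s).Smooth :=
    RingHom.Smooth.propertyIsLocal.localizationAwayPreserves ρ s (Localization.Away s)
      (Localization.Away (ρ s)) hρ
  have h2 := (RingHom.smooth_algebraMap.2 hs).comp h1
  have h3 : (IsLocalization.Away.map (Localization.Away s) (Localization.Away (ρ s)) ρ s).comp
      (algebraMap k (Localization.Away s)) = algebraMap k (Localization.Away (ρ s)) := by
    rw [IsScalarTower.algebraMap_eq k A (Localization.Away s), ← RingHom.comp_assoc,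
      IsLocalization.Away.map, IsLocalization.map_comp, RingHom.comp_assoc, hk,
      ← IsScalarTower.algebraMap_eq]
  rw [h3] at h2
  have h4 : Algebra.Smooth k (Localization.Away (ρ s)) := RingHom.smooth_algebraMap.1 h2
  exact (Algebra.basicOpen_subset_smoothLocus_iff_smooth.2 h4) hP

private theorem smooth_comap_56 {p : ℕ} {A B : Type} [CommRing A] [CommRing B] [Algebra (ZMod p) A]
    [Algebra A B] [Algebra.FinitePresentation (ZMod p) A] [IsNoetherianRing A] [Algebra.Smooth A B]
    (ρ : A →+* B) (hρ : ρ.Smooth) {s : A} (hs : Algebra.Smooth (ZMod p) (Localization.Away s))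
    (P : PrimeSpectrum B) (hP : ρ s ∉ P.asIdeal) :
    P.comap (algebraMap A B) ∈ Algebra.smoothLocus (ZMod p) A := by
  let halg : Algebra (ZMod p) B := ((algebraMap A B).comp (algebraMap (ZMod p) A)).toAlgebra
  have htow : IsScalarTower (ZMod p) A B := IsScalarTower.of_algebraMap_eq' rfl
  have hfp : Algebra.FinitePresentation (ZMod p) B := Algebra.FinitePresentation.trans _ A _
  exact mem_smoothLocus_of_smooth P
    (smooth_via_56 ρ (Subsingleton.elim _ _) hρ hs P hP)

section Theta

variable {Λ : Type} [CommRing Λ] {G : GSch Λ} {A : Type} [CommRing A] [Algebra Λ A] (α : Act G A)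

private theorem th1_56 : (ev G α.rho (gam G A)).comp
    (ev G (α.act (gam G A)⁻¹ (ιR G A)) (gam G A)) = AlgHom.id Λ (RR G A) := by
  apply RR_hom_ext G
  · rw [AlgHom.comp_assoc, ev_comp_ι, ← α.nat, ev_comp_ι, map_inv, map_ev_gam, Act.rho, ← α.mul,
      inv_mul_cancel, α.one, AlgHom.id_comp]
  · rw [G.map_comp, map_ev_gam, map_ev_gam, map_id]

private theorem th2_56 : (ev G (α.act (gam G A)⁻¹ (ιR G A)) (gam G A)).comp
    (ev G α.rho (gam G A)) = AlgHom.id Λ (RR G A) := by
  apply RR_hom_ext G
  · rw [AlgHom.comp_assoc, ev_comp_ι, Act.rho, ← α.nat, ev_comp_ι, map_ev_gam, ← α.mul,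
      mul_inv_cancel, α.one, AlgHom.id_comp]
  · rw [G.map_comp, map_ev_gam, map_ev_gam, map_id]

private noncomputable def Th_56 : RR G A ≃ₐ[Λ] RR G A :=
  AlgEquiv.ofAlgHom (ev G α.rho (gam G A)) (ev G (α.act (gam G A)⁻¹ (ιR G A)) (gam G A))
    (th1_56 α) (th2_56 α)

private theorem rho_smooth_56 (hG : G.Good) : (α.rho : A →+* RR G A).Smooth := by
  have := hG.smooth
  have h1 : (algebraMap A (RR G A)).Smooth := RingHom.smooth_algebraMap.2 inferInstance
  have h2 : ((Th_56 α : RR G A ≃ₐ[Λ] RR G A) : RR G A →+* RR G A).Smooth :=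
    RingHom.Smooth.of_bijective (Th_56 α).bijective
  have h3 := h1.comp h2
  convert h3 using 1
  ext a
  exact (AlgHom.congr_fun (ev_comp_ι G α.rho (gam G A)) a).symm

/-- the primes outside the stable hull of `s` are smooth -/
private theorem smooth_pt_56 (hG : G.Good) {p : ℕ} [Algebra (ZMod p) A]
    [Algebra.FinitePresentation (ZMod p) A] [IsNoetherianRing A] {s : A}
    (hs : Algebra.Smooth (ZMod p) (Localization.Away s)) (q : PrimeSpectrum A)
    (hq : RRmap G (Ideal.Quotient.mkₐ Λ q.asIdeal) (α.rho s) ≠ 0) :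
    q ∈ Algebra.smoothLocus (ZMod p) A := by
  have hdom : IsDomain (RR G (A ⧸ q.asIdeal)) := isDomain_RR G hG
  have := hG.smooth
  let φ : RR G A →ₐ[Λ] RR G (A ⧸ q.asIdeal) := RRmap G (Ideal.Quotient.mkₐ Λ q.asIdeal)
  let P : PrimeSpectrum (RR G A) := ⟨RingHom.ker φ, RingHom.ker_isPrime φ⟩
  have h1 := smooth_comap_56 (p := p) (α.rho : A →+* RR G A) (rho_smooth_56 α hG) hs P hq
  convert h1 using 1
  apply PrimeSpectrum.ext
  ext a
  have h2 : φ (algebraMap A (RR G A) a) = ιR G _ (Ideal.Quotient.mkₐ Λ q.asIdeal a) :=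
    AlgHom.congr_fun (RRmap_comp_ι G (Ideal.Quotient.mkₐ Λ q.asIdeal)) a
  constructor
  · intro ha
    show φ (algebraMap A (RR G A) a) = 0
    rw [h2, Ideal.Quotient.mkₐ_eq_mk, Ideal.Quotient.eq_zero_iff_mem.2 ha, map_zero]
  · intro ha
    have h4 : φ (algebraMap A (RR G A) a) = 0 := ha
    rw [h2] at h4
    exact Ideal.Quotient.eq_zero_iff_mem.1 ((injective_iff_map_eq_zero _).1 (ιR_inj G) _ h4)

end Theta

theorem exists_smooth {Λ : Type} [CommRing Λ] {G : GSch Λ} (hG : G.Good) {A : Type}
    [CommRing A] [IsDomain A] [Algebra Λ A] (hA : FGen A) (α : Act G A) :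
    ∃ d : Ideal A, d ≠ ⊥ ∧ α.Stable d ∧ ∀ e : Ideal A, e ≤ d →
      ∃ (p : ℕ) (s : (DD e).toScheme ⟶ Spec (CommRingCat.of (ZMod p))), (p = 0 ∨ p.Prime) ∧
        Smooth s := by
  obtain ⟨p, hal, hp, hfp, s, hs0, hs⟩ := exists_away_smooth_56 hA
  have hft : Algebra.FiniteType ℤ A := RingHom.finiteType_algebraMap.1 hA
  have hno : IsNoetherianRing A := Algebra.FiniteType.isNoetherianRing ℤ A
  obtain ⟨d, hd0, hd1, hd2⟩ := α.exists_hull hG s hs0
  refine ⟨d, hd0, hd1, fun e he => ?_⟩
  refine ⟨p, (DD e).ι ≫ Spec.map (CommRingCat.ofHom (algebraMap (ZMod p) A)), hp, ?_⟩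
  refine smooth_of_points_56 (DD e) fun q hq => smooth_pt_56 α hG hs q fun h => hq ?_
  intro a ha
  exact hd2 q.asIdeal h (he ha)

end Pool.Agent.Helper72.OC
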