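import Pool.Agent.Helper72.OC.RR

/-!
# Orbit theorem for flagged groups, block C: stable ideals
-/

set_option autoImplicit false

namespace Pool.Agent.Helper72.OC

variable {Λ : Type} [CommRing Λ] {G : GSch Λ} {A : Type} [CommRing A] [Algebra Λ A] (α : Act G A)

private theorem orb_act36 {R : Type} [CommRing R] [Algebra Λ R] (g : G.Pt R) (x : A →ₐ[Λ] R) :
    α.orb (α.act g x) =
      (ev G (ιR G R) (gam G R * G.map (ιR G R) g)).comp (α.orb x) := by
  rw [α.ev_orb, Act.orb, ← α.nat, ← α.mul]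

private theorem orb_comp36 {R R' : Type} [CommRing R] [Algebra Λ R] [CommRing R'] [Algebra Λ R']
    (f : R →ₐ[Λ] R') (x : A →ₐ[Λ] R) :
    α.orb (f.comp x) = (ev G ((ιR G R').comp f) (gam G R')).comp (α.orb x) := by
  rw [α.ev_orb, Act.orb, AlgHom.comp_assoc]

private theorem stable_iff36 (I : Ideal A) :
    α.Stable I ↔ I.map α.rho ≤ I.map (ιR G A) := by
  rw [Ideal.map_le_iff_le_comap]
  constructor
  · intro hI a ha
    rw [Ideal.mem_comap, ← ker_RRmap_mk, RingHom.mem_ker]
    have h := hI (gam G (A ⧸ I)) ((ιR G (A ⧸ I)).comp (Ideal.Quotient.mkₐ Λ I)) (fun b hb => by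
      rw [AlgHom.comp_apply, Ideal.Quotient.mkₐ_eq_mk, Ideal.Quotient.eq_zero_iff_mem.2 hb,
        map_zero]) a ha
    have e : α.orb (Ideal.Quotient.mkₐ Λ I) a = 0 := h
    rw [α.orb_eq] at e
    exact e
  · intro h R _ _ g x hx a ha
    rw [α.act_eq, AlgHom.comp_apply]
    have h1 : I.map (ιR G A) ≤ RingHom.ker (ev G x g) := by
      rw [Ideal.map_le_iff_le_comap]
      intro b hb
      rw [Ideal.mem_comap, RingHom.mem_ker, ev_ι]
      exact hx b hb
    exact h1 (h ha)

theorem Act.rho_inj : Function.Injective α.rho := by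
  have h : (ev G (AlgHom.id Λ A) 1).comp α.rho = AlgHom.id Λ A := by
    rw [← α.act_eq, α.one]
  intro a b hab
  have h1 := congrArg (fun f => f a) h
  have h2 := congrArg (fun f => f b) h
  simp only [AlgHom.comp_apply, AlgHom.id_apply] at h1 h2
  rw [← h1, ← h2, hab]

/-- an ideal is stable iff the coaction maps it to its extension -/
theorem Act.stable_iff (I : Ideal A) : α.Stable I ↔ ∀ a ∈ I, α.rho a ∈ I.map (ιR G A) := by
  rw [stable_iff36, Ideal.map_le_iff_le_comap]
  rfl

theorem Act.stable_bot : α.Stable (⊥ : Ideal A) := by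
  rw [stable_iff36, Ideal.map_bot]
  exact bot_le

theorem Act.stable_top : α.Stable (⊤ : Ideal A) := by
  rw [stable_iff36, Ideal.map_top, Ideal.map_top]

/-- ideals generated by constants are stable -/
theorem Act.stable_span_const (l : Λ) : α.Stable (Ideal.span {algebraMap Λ A l}) := by
  intro R _ _ g x hx a ha
  obtain ⟨b, rfl⟩ := Ideal.mem_span_singleton'.1 ha
  have h1 := hx _ (Ideal.mem_span_singleton_self (algebraMap Λ A l))
  rw [AlgHom.commutes] at h1
  rw [map_mul, AlgHom.commutes, h1, mul_zero]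

variable {α}

theorem Act.Stable.mul {I J : Ideal A} (hI : α.Stable I) (hJ : α.Stable J) : α.Stable (I * J) := by
  rw [stable_iff36] at *
  rw [Ideal.map_mul, Ideal.map_mul]
  exact Ideal.mul_mono hI hJ

theorem Act.Stable.sup {I J : Ideal A} (hI : α.Stable I) (hJ : α.Stable J) : α.Stable (I ⊔ J) := by
  rw [stable_iff36] at *
  rw [Ideal.map_sup, Ideal.map_sup]
  exact sup_le_sup hI hJ

theorem Act.Stable.pow {I : Ideal A} (hI : α.Stable I) (k : ℕ) : α.Stable (I ^ k) := by
  rw [stable_iff36] at *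
  rw [Ideal.map_pow, Ideal.map_pow]
  exact Ideal.pow_right_mono hI k

theorem Act.Stable.prod {ι : Type} (s : Finset ι) (I : ι → Ideal A) (h : ∀ i ∈ s, α.Stable (I i)) :
    α.Stable (∏ i ∈ s, I i) := by
  classical
  induction s using Finset.induction_on with
  | empty =>
    rw [Finset.prod_empty, Ideal.one_eq_top]
    exact α.stable_top
  | insert i s his ih =>
    rw [Finset.prod_insert his]
    exact Act.Stable.mul (h i (Finset.mem_insert_self i s))
      (ih fun j hj => h j (Finset.mem_insert_of_mem hj))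

variable (α)

/-- the kernel of an orbit map is stable -/
theorem Act.ker_orb_stable (hG : G.Good) {R : Type} [CommRing R] [Algebra Λ R] (y : A →ₐ[Λ] R) :
    α.Stable (RingHom.ker (α.orb y)) := by
  rw [Act.stable_iff]
  intro a ha
  rw [← RRmap_eq_zero_iff G hG]
  have h1 : RRmap G (α.orb y) (α.rho a) = α.orb (α.orb y) a := by
    rw [α.orb_eq (α.orb y)]
    rfl
  have h2 : α.orb y = α.act (gam G R) ((ιR G R).comp y) := rfl
  have h3 : α.orb (α.orb y) a = 0 := by
    rw [h2, orb_act36, orb_comp36, AlgHom.comp_apply, AlgHom.comp_apply, (RingHom.mem_ker).1 ha,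
      map_zero, map_zero]
  rw [h1, h3]

theorem Act.core_stable (hG : G.Good) (I : Ideal A) : α.Stable (α.core I) :=
  α.ker_orb_stable hG _

theorem Act.core_le (I : Ideal A) : α.core I ≤ I := by
  intro a ha
  have h1 := α.ev_orb (Ideal.Quotient.mkₐ Λ I) (AlgHom.id Λ (A ⧸ I)) 1
  rw [α.one, AlgHom.id_comp] at h1
  have h2 := congrArg (fun f => f a) h1
  simp only [AlgHom.comp_apply, Ideal.Quotient.mkₐ_eq_mk] at h2
  rw [(RingHom.mem_ker).1 ha, map_zero] at h2
  exact Ideal.Quotient.eq_zero_iff_mem.1 h2.symm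

theorem Act.le_core {I J : Ideal A} (hJ : α.Stable J) (h : J ≤ I) : J ≤ α.core I := by
  intro a ha
  have h1 := hJ (gam G (A ⧸ I)) ((ιR G (A ⧸ I)).comp (Ideal.Quotient.mkₐ Λ I)) (fun b hb => by
    rw [AlgHom.comp_apply, Ideal.Quotient.mkₐ_eq_mk, Ideal.Quotient.eq_zero_iff_mem.2 (h hb),
      map_zero]) a ha
  rw [Act.core, RingHom.mem_ker]
  exact h1

theorem Act.core_prime (hG : G.Good) (I : Ideal A) [I.IsPrime] : (α.core I).IsPrime := by
  have := isDomain_RR (A := A ⧸ I) G hG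
  exact RingHom.ker_isPrime _

theorem Act.stable_of_mem_minimalPrimes (hG : G.Good) {I p : Ideal A} (hI : α.Stable I)
    (hp : p ∈ I.minimalPrimes) : α.Stable p := by
  have hprime : p.IsPrime := hp.1.1
  have h1 : α.core p ≤ p := α.core_le p
  have h2 : I ≤ α.core p := α.le_core hI hp.1.2
  have h3 : p ≤ α.core p := hp.2 ⟨α.core_prime hG p, h2⟩ h1
  have h4 : α.core p = p := le_antisymm h1 h3
  have h5 : α.Stable (α.core p) := α.core_stable hG p
  rwa [h4] at h5

theorem Act.mem_core_iff (I : Ideal A) (a : A) :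
    a ∈ α.core I ↔ RRmap G (Ideal.Quotient.mkₐ Λ I) (α.rho a) = 0 := by
  rw [Act.core, RingHom.mem_ker, α.orb_eq]
  rfl

variable {α}

theorem Act.Stable.map_quot {I e : Ideal A} (hI : α.Stable I) (he : α.Stable e) :
    (α.quot I hI).Stable (e.map (Ideal.Quotient.mk I)) := by
  intro R _ _ g x hx b hb
  obtain ⟨a, ha, rfl⟩ := (Ideal.mem_map_iff_of_surjective _ Ideal.Quotient.mk_surjective).1 hb
  have h1 := congrArg (fun f => f a) (α.quot_comp_mk I hI g x)
  simp only [AlgHom.comp_apply, Ideal.Quotient.mkₐ_eq_mk] at h1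
  rw [h1]
  exact he g _ (fun c hc => hx _ (Ideal.mem_map_of_mem _ hc)) a ha

theorem Act.Stable.comap_quot {I : Ideal A} (hI : α.Stable I) {J : Ideal (A ⧸ I)}
    (hJ : (α.quot I hI).Stable J) : α.Stable (J.comap (Ideal.Quotient.mk I)) := by
  intro R _ _ g x hx a ha
  have hxI : ∀ b ∈ I, x b = 0 := fun b hb => hx b (by
    rw [Ideal.mem_comap, Ideal.Quotient.eq_zero_iff_mem.2 hb]
    exact J.zero_mem)
  have e : (Ideal.Quotient.liftₐ I x hxI).comp (Ideal.Quotient.mkₐ Λ I) = x :=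
    Ideal.Quotient.liftₐ_comp _ _ _
  have h1 := congrArg (fun f => f a) (α.quot_comp_mk I hI g (Ideal.Quotient.liftₐ I x hxI))
  simp only [AlgHom.comp_apply, Ideal.Quotient.mkₐ_eq_mk] at h1
  rw [e] at h1
  rw [← h1]
  refine hJ g _ (fun b hb => ?_) _ ha
  obtain ⟨c, rfl⟩ := Ideal.Quotient.mk_surjective b
  have h2 := congrArg (fun f => f c) e
  simp only [AlgHom.comp_apply, Ideal.Quotient.mkₐ_eq_mk] at h2
  rw [h2]
  exact hx c hb

theorem Act.orb_quot {I : Ideal A} (hI : α.Stable I) {R : Type} [CommRing R] [Algebra Λ R]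
    (y : A ⧸ I →ₐ[Λ] R) : ((α.quot I hI).orb y).comp (Ideal.Quotient.mkₐ Λ I) =
      α.orb (y.comp (Ideal.Quotient.mkₐ Λ I)) := by
  rw [Act.orb, α.quot_comp_mk, Act.orb, AlgHom.comp_assoc]

/-- the stable hull of an element: the ideal generated by the contents of `ρ(s)` -/
theorem Act.exists_hull (α : Act G A) (hG : G.Good) (s : A) (hs : s ≠ 0) : ∃ d : Ideal A, d ≠ ⊥ ∧
    α.Stable d ∧ ∀ q : Ideal A, RRmap G (Ideal.Quotient.mkₐ Λ q) (α.rho s) = 0 → d ≤ q := by
  obtain ⟨T, hT⟩ := exists_content G hG (α.rho s)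
  have hkey : ∀ {R : Type} [CommRing R] [Algebra Λ R] (x : A →ₐ[Λ] R), α.orb x s = 0 ↔
      Ideal.span (T : Set A) ≤ RingHom.ker x := by
    intro R _ _ x
    rw [Ideal.span_le, α.orb_eq, AlgHom.comp_apply, hT]
    rfl
  refine ⟨Ideal.span (T : Set A), ?_, ?_, ?_⟩
  · intro hbot
    have h1 : α.orb (AlgHom.id Λ A) s = 0 := by
      rw [hkey, hbot]
      exact bot_le
    have h2 := α.ev_orb (AlgHom.id Λ A) (AlgHom.id Λ A) 1
    rw [α.one, AlgHom.id_comp] at h2
    have h3 := congrArg (fun f => f s) h2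
    simp only [AlgHom.comp_apply, h1, map_zero, AlgHom.id_apply] at h3
    exact hs h3.symm
  · intro R _ _ g x hx a ha
    have h1 : α.orb x s = 0 := (hkey x).2 fun b hb => (RingHom.mem_ker).2 (hx b hb)
    have h2 : α.orb (α.act g x) s = 0 := by
      rw [orb_act36, AlgHom.comp_apply, h1, map_zero]
    exact (RingHom.mem_ker).1 ((hkey _).1 h2 ha)
  · intro q hq
    have h1 : α.orb (Ideal.Quotient.mkₐ Λ q) s = 0 := by
      rw [α.orb_eq]
      exact hq
    have h2 := (hkey _).1 h1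
    intro a ha
    have h3 := (RingHom.mem_ker).1 (h2 ha)
    exact Ideal.Quotient.eq_zero_iff_mem.1 h3

end Pool.Agent.Helper72.OC
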