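import Pool.Agent.Helper72.OC.SolvAbs
import Pool.Agent.Helper72.OC.Stab

/-!
# Orbit theorem for flagged groups, block G3: the coactions of a split solvable group
-/

set_option autoImplicit false

namespace Pool.Agent.Helper72.OC

open AlgebraicGeometry CategoryTheory
open Pool.Agent.Helper72.OB (Rules DD)

namespace G3

section General

variable {A : Type} [CommRing A]

section Poly
open Polynomial

theorem coeff_I {B : Type} [CommRing B] (ψ : A →+* B[X]) (f : A[X]) (i j : ℕ) :
    ((eval₂ ((mapRingHom (C : B →+* B[X])).comp ψ) (C (X : B[X])) f).coeff j).coeff i =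
      (ψ (f.coeff i)).coeff j := by
  induction f using Polynomial.induction_on' with
  | add p q hp hq => simp only [eval₂_add, coeff_add, map_add, hp, hq]
  | monomial m c =>
    rw [eval₂_monomial, ← C_pow, coeff_mul_C]
    simp only [RingHom.comp_apply, coe_mapRingHom, coeff_map, coeff_C_mul_X_pow, coeff_monomial]
    by_cases h : i = m
    · subst h; simp
    · rw [if_neg h, if_neg (Ne.symm h)]; simp

theorem coeff_addX (f : A[X]) (i j : ℕ) :
    ((eval₂ ((C : A[X] →+* A[X][X]).comp C) (C (X : A[X]) + X) f).coeff j).coeff i =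
      (Nat.choose (i + j) i : A) * f.coeff (i + j) := by
  induction f using Polynomial.induction_on' with
  | add p q hp hq => simp only [eval₂_add, coeff_add, hp, hq, mul_add]
  | monomial m c =>
    rw [eval₂_monomial, RingHom.comp_apply, coeff_C_mul, add_comm (C (X : A[X])) X,
      coeff_X_add_C_pow, coeff_C_mul, coeff_monomial]
    have h0 : ((m.choose j : ℕ) : A[X]) = C (m.choose j : A) := by simp
    rw [h0, coeff_mul_C, coeff_X_pow]
    by_cases h : m = i + j
    · subst h
      rw [if_pos (by omega), if_pos rfl, Nat.choose_symm_add, one_mul, mul_comm]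
    · rw [if_neg h, mul_zero]
      by_cases h2 : j ≤ m
      · rw [if_neg (by omega)]; simp
      · rw [Nat.choose_eq_zero_of_lt (by omega)]; simp

theorem coeff_CmulX {B : Type} [CommRing B] (p : A →+* B) (w : B) (f : A[X]) (i : ℕ) :
    (eval₂ ((C : B →+* B[X]).comp p) (C w * X) f).coeff i = p (f.coeff i) * w ^ i := by
  induction f using Polynomial.induction_on' with
  | add p q hp hq => simp only [eval₂_add, coeff_add, hp, hq, map_add, add_mul]
  | monomial m c =>
    rw [eval₂_monomial, RingHom.comp_apply, mul_pow, ← C_pow, ← mul_assoc, ← C_mul,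
      coeff_C_mul_X_pow, coeff_monomial]
    by_cases h : i = m
    · subst h; simp
    · rw [if_neg h, if_neg (Ne.symm h)]; simp

end Poly

section Torus
open AddMonoidAlgebra

variable {n : ℕ}

abbrev TA (n : ℕ) (A : Type) [CommRing A] : Type := AddMonoidAlgebra A (Fin n → ℤ)

noncomputable def chU {R : Type} [CommRing R] (u : Fin n → Rˣ) : Multiplicative (Fin n → ℤ) →* Rˣ where
  toFun χ := ∏ i, u i ^ (Multiplicative.toAdd χ i)
  map_one' := by simp
  map_mul' χ ψ := by simp [zpow_add, Finset.prod_mul_distrib]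

noncomputable def evT {R : Type} [CommRing R] (p : A →+* R) (u : Fin n → Rˣ) : TA n A →+* R :=
  liftNCRingHom p ((Units.coeHom R).comp (chU u)) (fun _ _ => Commute.all _ _)

theorem evT_single {R : Type} [CommRing R] (p : A →+* R) (u : Fin n → Rˣ) (χ : Fin n → ℤ) (c : A) :
    evT p u (single χ c) = p c * (chU u (.ofAdd χ) : R) := liftNCRingHom_single _ _ _ _ _

theorem evT_comp_const {R : Type} [CommRing R] (p : A →+* R) (u : Fin n → Rˣ) :
    (evT p u).comp singleZeroRingHom = p := by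
  ext a
  have h : (singleZeroRingHom a : TA n A) = single 0 a := rfl
  rw [RingHom.comp_apply, h, evT_single]
  simp [chU]

/-- the units `T^χ` -/
noncomputable def sU (n : ℕ) (A : Type) [CommRing A] : Multiplicative (Fin n → ℤ) →* (TA n A)ˣ where
  toFun χ := ⟨single χ.toAdd 1, single (-χ.toAdd) 1, by
    rw [single_mul_single, add_neg_cancel, one_mul]; rfl, by
    rw [single_mul_single, neg_add_cancel, one_mul]; rfl⟩
  map_one' := by
    apply Units.ext
    rfl
  map_mul' χ ψ := by
    apply Units.ext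
    show (single (χ * ψ).toAdd 1 : TA n A) = single χ.toAdd 1 * single ψ.toAdd 1
    rw [single_mul_single, one_mul]
    rfl

theorem sU_val (χ : Fin n → ℤ) : ((sU n A (.ofAdd χ) : (TA n A)ˣ) : TA n A) = single χ 1 := rfl

/-- the coordinates of the torus -/
noncomputable def TT (n : ℕ) (A : Type) [CommRing A] (i : Fin n) : (TA n A)ˣ :=
  sU n A (.ofAdd (Pi.single i 1))

theorem chU_map {R R' : Type} [CommRing R] [CommRing R'] (f : R →+* R') (u : Fin n → Rˣ)
    (χ : Multiplicative (Fin n → ℤ)) :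
    chU (fun i => Units.map (f : R →* R') (u i)) χ = Units.map (f : R →* R') (chU u χ) := by
  simp only [chU, MonoidHom.coe_mk, OneHom.coe_mk, map_prod, map_zpow]

theorem chU_mul {R : Type} [CommRing R] (u v : Fin n → Rˣ) (χ : Multiplicative (Fin n → ℤ)) :
    chU (fun i => u i * v i) χ = chU u χ * chU v χ := by
  simp only [chU, MonoidHom.coe_mk, OneHom.coe_mk, mul_zpow, Finset.prod_mul_distrib]

theorem chU_TT (χ : Fin n → ℤ) : chU (TT n A) (.ofAdd χ) = sU n A (.ofAdd χ) := by
  have h1 : chU (TT n A) (.ofAdd χ) = sU n A (∏ i, (.ofAdd (Pi.single i 1)) ^ (χ i)) := by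
    rw [map_prod]
    simp only [chU, MonoidHom.coe_mk, OneHom.coe_mk, map_zpow]
    rfl
  rw [h1]
  congr 1
  apply Multiplicative.toAdd.injective
  rw [toAdd_prod]
  simp only [toAdd_zpow, toAdd_ofAdd]
  ext j
  rw [Finset.sum_apply]
  simp [Pi.single_apply]

theorem chU_single {R : Type} [CommRing R] (u : Fin n → Rˣ) (i : Fin n) :
    chU u (.ofAdd (Pi.single i 1)) = u i := by
  simp only [chU, MonoidHom.coe_mk, OneHom.coe_mk, toAdd_ofAdd]
  rw [Finset.prod_eq_single i]
  · simp
  · intro j _ hj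
    simp [hj]
  · simp

theorem map_evT_TT {R : Type} [CommRing R] (p : A →+* R) (u : Fin n → Rˣ) :
    (fun i => Units.map (evT p u : TA n A →* R) (TT n A i)) = u := by
  funext i
  apply Units.ext
  show evT p u (single (Pi.single i 1) 1) = u i
  rw [evT_single, map_one, one_mul, chU_single]

theorem evT_one (z : TA n A) : evT (RingHom.id A) (fun _ => 1) z = z.coeff.sum (fun _ b => b) := by
  induction z using AddMonoidAlgebra.induction_linear with
  | zero => simp
  | add x y hx hy =>
    rw [map_add, hx, hy, coeff_add, Finsupp.sum_add_index' (fun _ => rfl) (fun _ _ _ => rfl)]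
  | single m c =>
    rw [evT_single, coeff_single, Finsupp.sum_single_index rfl]
    simp [chU]

theorem coeff_evT_TT {B : Type} [CommRing B] (φ : A →+* B) (z : TA n A) (χ : Fin n → ℤ) :
    (evT ((singleZeroRingHom : B →+* TA n B).comp φ) (TT n B) z).coeff χ = φ (z.coeff χ) := by
  classical
  induction z using AddMonoidAlgebra.induction_linear with
  | zero => simp
  | add x y hx hy => rw [map_add, coeff_add, Finsupp.add_apply, hx, hy, coeff_add,
      Finsupp.add_apply, map_add]
  | single m c =>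
    have h : ((singleZeroRingHom : B →+* TA n B).comp φ) c = single 0 (φ c) := rfl
    rw [evT_single, chU_TT, sU_val, h, single_mul_single, zero_add, mul_one, coeff_single,
      coeff_single, Finsupp.single_apply, Finsupp.single_apply]
    split_ifs <;> simp

theorem coeff_evT_mul (z : TA n A) (χ : Fin n → ℤ) :
    (evT ((singleZeroRingHom : TA n A →+* TA n (TA n A)).comp singleZeroRingHom)
      (fun i => TT n (TA n A) i * Units.map (singleZeroRingHom : TA n A →+* TA n (TA n A))
        (TT n A i)) z).coeff χ = single χ (z.coeff χ) := by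
  classical
  induction z using AddMonoidAlgebra.induction_linear with
  | zero => simp
  | add x y hx hy => rw [map_add, coeff_add, Finsupp.add_apply, hx, hy, coeff_add,
      Finsupp.add_apply, single_add]
  | single m c =>
    have h : ((singleZeroRingHom : TA n A →+* TA n (TA n A)).comp singleZeroRingHom) c =
      single 0 (single 0 c) := rfl
    have h2 : ((Units.map ((singleZeroRingHom : TA n A →+* TA n (TA n A)) :
      TA n A →* TA n (TA n A)) (sU n A (.ofAdd m)) : (TA n (TA n A))ˣ) : TA n (TA n A)) =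
      single 0 (single m 1) := rfl
    rw [evT_single, chU_mul, chU_map, chU_TT, chU_TT, Units.val_mul, sU_val, h, h2,
      single_mul_single, single_mul_single, one_mul, single_mul_single, mul_one, add_zero,
      zero_add, coeff_single, coeff_single, Finsupp.single_apply, Finsupp.single_apply]
    split_ifs with h3
    · rw [h3]
    · simp

end Torus

end General

section Coact

open Polynomial
open AddMonoidAlgebra (single singleZeroAlgHom singleZeroRingHom)

variable {Λ : Type} [CommRing Λ] {G : GSch Λ} {A : Type} [CommRing A] [Algebra Λ A]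

/-- the constants, as a homomorphism of `Λ`-algebras -/
noncomputable def cst (Λ : Type) [CommRing Λ] (R : Type) [CommRing R] [Algebra Λ R] :
    R →ₐ[Λ] R[X] := IsScalarTower.toAlgHom Λ R R[X]

theorem cst_apply {R : Type} [CommRing R] [Algebra Λ R] (a : R) : cst Λ R a = C a := rfl

/-- evaluation of polynomials, as a homomorphism of `Λ`-algebras -/
noncomputable def evP {R : Type} [CommRing R] [Algebra Λ R] (p : A →ₐ[Λ] R) (c : R) :
    A[X] →ₐ[Λ] R := eval₂AlgHom p c fun _ => Commute.all _ _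

theorem evP_apply {R : Type} [CommRing R] [Algebra Λ R] (p : A →ₐ[Λ] R) (c : R) (f : A[X]) :
    evP p c f = eval₂ (p : A →+* R) c f := rfl

theorem evP_X {R : Type} [CommRing R] [Algebra Λ R] (p : A →ₐ[Λ] R) (c : R) : evP p c X = c := by
  rw [evP_apply, eval₂_X]

theorem evP_comp_cst {R : Type} [CommRing R] [Algebra Λ R] (p : A →ₐ[Λ] R) (c : R) :
    (evP p c).comp (cst Λ A) = p := by
  ext a
  rw [AlgHom.comp_apply, cst_apply, evP_apply, eval₂_C]
  rfl

variable (t : Solv G) (α : Act G A)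

/-- the subgroup generated by the first additive subgroups -/
abbrev U (k : Fin t.N) (R : Type) [CommRing R] [Algebra Λ R] : Subgroup (G.Pt R) :=
  Subgroup.closure {g | ∃ h < k, ∃ c : R, g = t.x h c}

/-- the map attached to `x_k` -/
noncomputable def tau (k : Fin t.N) : A →ₐ[Λ] A[X] := α.act (t.x k (X : A[X])) (cst Λ A)

theorem act_x (k : Fin t.N) {R : Type} [CommRing R] [Algebra Λ R] (p : A →ₐ[Λ] R) (c : R) :
    α.act (t.x k c) p = (evP p c).comp (tau t α k) := by
  have h := α.nat (evP p c) (t.x k (X : A[X])) (cst Λ A)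
  rw [t.x_nat, evP_comp_cst, evP_X] at h
  exact h

theorem act_x_apply (k : Fin t.N) {R : Type} [CommRing R] [Algebra Λ R] (p : A →ₐ[Λ] R) (c : R)
    (a : A) : α.act (t.x k c) p a = eval₂ (p : A →+* R) c (tau t α k a) := by
  rw [act_x, AlgHom.comp_apply, evP_apply]

/-- invariants of the first coactions are invariant under the subgroup -/
theorem inv_U (k : Fin t.N) (a : A) (ha : ∀ h < k, tau t α h a = C a) {R : Type} [CommRing R]
    [Algebra Λ R] (g : G.Pt R) (hg : g ∈ U t k R) : ∀ p : A →ₐ[Λ] R, α.act g p a = p a := by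
  induction hg using Subgroup.closure_induction with
  | mem g hg =>
    obtain ⟨h, hk, c, rfl⟩ := hg
    intro p
    rw [act_x_apply, ha h hk, eval₂_C]
    rfl
  | one => intro p; rw [α.one]
  | mul g g' _ _ h1 h2 => intro p; rw [α.mul, h1, h2]
  | inv g _ h1 =>
    intro p
    have h := h1 (α.act g⁻¹ p)
    rw [← α.mul, mul_inv_cancel, α.one] at h
    exact h.symm

/-- elements of `G` which are equal modulo the subgroup act in the same way on invariants -/
theorem act_eq_of_mem (k : Fin t.N) (a : A) (ha : ∀ h < k, tau t α h a = C a) {R : Type}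
    [CommRing R] [Algebra Λ R] (g g' : G.Pt R) (hg : g * g'⁻¹ ∈ U t k R) (p : A →ₐ[Λ] R) :
    α.act g p a = α.act g' p a := by
  have h := inv_U t α k a ha _ hg (α.act g' p)
  rw [← α.mul, inv_mul_cancel_right] at h
  exact h

theorem tau_coeff_zero (k : Fin t.N) (a : A) : (tau t α k a).coeff 0 = a := by
  have h := act_x_apply t α k (AlgHom.id Λ A) 0 a
  rw [t.x_zero, α.one, eval₂_at_zero] at h
  exact h.symm

/-- double constants -/
noncomputable def cc (Λ : Type) [CommRing Λ] (R : Type) [CommRing R] [Algebra Λ R] :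
    R →ₐ[Λ] R[X][X] := (cst Λ R[X]).comp (cst Λ R)

theorem cc_coe : ((cc Λ A : A →ₐ[Λ] A[X][X]) : A →+* A[X][X]) = (C : A[X] →+* A[X][X]).comp C :=
  rfl

/-- `a(x_l(X) x_k(Y) x)`, in terms of the coactions -/
theorem double_I (k l : Fin t.N) (a : A) (i j : ℕ) :
    ((α.act (t.x l (C (X : A[X])) * t.x k X) (cc Λ A) a).coeff j).coeff i =
      (tau t α k ((tau t α l a).coeff i)).coeff j := by
  have h := α.nat (Polynomial.mapAlgHom (cst Λ A)) (t.x k (X : A[X])) (cst Λ A)
  have h1 : (Polynomial.mapAlgHom (cst Λ A)).comp (cst Λ A) = cc Λ A := by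
    ext a
    rw [AlgHom.comp_apply, cst_apply, coe_mapAlgHom, map_C]
    rfl
  have h2 : Polynomial.mapAlgHom (cst Λ A) X = X := by
    rw [coe_mapAlgHom, map_X]
  rw [t.x_nat, h1, h2] at h
  rw [α.mul, h, act_x_apply]
  exact coeff_I (tau t α k : A →+* A[X]) (tau t α l a) i j

theorem double_II (k l : Fin t.N) (a : A) (i j : ℕ) :
    ((α.act (t.x k X * t.x l (C (X : A[X]))) (cc Λ A) a).coeff j).coeff i =
      (tau t α l ((tau t α k a).coeff j)).coeff i := by
  have h := α.nat (cst Λ A[X]) (t.x l (X : A[X])) (cst Λ A)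
  rw [t.x_nat, cst_apply] at h
  rw [α.mul, cc, h, act_x_apply]
  have h1 : eval₂ (((cst Λ A[X]).comp (α.act (t.x l (X : A[X])) (cst Λ A)) : A →ₐ[Λ] A[X][X]) :
      A →+* A[X][X]) X (tau t α k a) = (tau t α k a).map (tau t α l : A →+* A[X]) := rfl
  rw [h1, coeff_map]
  rfl

theorem tau_co (k : Fin t.N) (a : A) (ha : ∀ h < k, tau t α h a = C a) (i j : ℕ) :
    (tau t α k ((tau t α k a).coeff i)).coeff j =
      (Nat.choose (i + j) i : A) * (tau t α k a).coeff (i + j) := by
  rw [← double_I, ← act_eq_of_mem t α k a ha _ _ (t.x_add k (C (X : A[X])) X), act_x_apply,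
    cc_coe, coeff_addX]

theorem tau_comm (k l : Fin t.N) (a : A) (ha : ∀ h < l, tau t α h a = C a) (i j : ℕ) :
    (tau t α l ((tau t α k a).coeff i)).coeff j = (tau t α k ((tau t α l a).coeff j)).coeff i := by
  rw [← double_II, ← double_I]
  congr 2
  rcases le_total l k with hlk | hkl
  · exact act_eq_of_mem t α l a ha _ _ (t.comm k l hlk X (C (X : A[X]))) _
  · exact (act_eq_of_mem t α k a (fun h hh => ha h (hh.trans_le hkl)) _ _
      (t.comm l k hkl (C (X : A[X])) X) _).symm

/-! ### the torus -/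

/-- the constants, as a homomorphism of `Λ`-algebras -/
noncomputable def cT (Λ : Type) [CommRing Λ] (n : ℕ) (R : Type) [CommRing R] [Algebra Λ R] :
    R →ₐ[Λ] TA n R := singleZeroAlgHom

theorem cT_apply {n : ℕ} {R : Type} [CommRing R] [Algebra Λ R] (a : R) :
    cT Λ n R a = single 0 a := rfl

theorem cT_coe {n : ℕ} {R : Type} [CommRing R] [Algebra Λ R] :
    ((cT Λ n R : R →ₐ[Λ] TA n R) : R →+* TA n R) = singleZeroRingHom := rfl

/-- evaluation of Laurent polynomials, as a homomorphism of `Λ`-algebras -/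
noncomputable def evL {n : ℕ} {R : Type} [CommRing R] [Algebra Λ R] (p : A →ₐ[Λ] R)
    (u : Fin n → Rˣ) : TA n A →ₐ[Λ] R :=
  AddMonoidAlgebra.liftNCAlgHom p ((Units.coeHom R).comp (chU u)) (fun _ _ => Commute.all _ _)

theorem evL_apply {n : ℕ} {R : Type} [CommRing R] [Algebra Λ R] (p : A →ₐ[Λ] R)
    (u : Fin n → Rˣ) (z : TA n A) : evL p u z = evT (p : A →+* R) u z := rfl

theorem evL_comp_cT {n : ℕ} {R : Type} [CommRing R] [Algebra Λ R] (p : A →ₐ[Λ] R)
    (u : Fin n → Rˣ) : (evL p u).comp (cT Λ n A) = p := by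
  ext a
  rw [AlgHom.comp_apply, evL_apply]
  exact congrArg (fun f => f a) (evT_comp_const (p : A →+* R) u)

theorem map_evL_TT {n : ℕ} {R : Type} [CommRing R] [Algebra Λ R] (p : A →ₐ[Λ] R)
    (u : Fin n → Rˣ) :
    (fun i => Units.map ((evL p u : TA n A →ₐ[Λ] R) : TA n A →* R) (TT n A i)) = u :=
  map_evT_TT (p : A →+* R) u

/-- the coaction of the torus -/
noncomputable def theta : A →ₐ[Λ] TA t.n A := α.act (t.t (TT t.n A)) (cT Λ t.n A)

theorem act_t {R : Type} [CommRing R] [Algebra Λ R] (p : A →ₐ[Λ] R) (u : Fin t.n → Rˣ) :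
    α.act (t.t u) p = (evL p u).comp (theta t α) := by
  have h := α.nat (evL p u) (t.t (TT t.n A)) (cT Λ t.n A)
  rw [t.t_nat, evL_comp_cT, map_evL_TT] at h
  exact h

theorem act_t_apply {R : Type} [CommRing R] [Algebra Λ R] (p : A →ₐ[Λ] R) (u : Fin t.n → Rˣ)
    (a : A) : α.act (t.t u) p a = evT (p : A →+* R) u (theta t α a) := by
  rw [act_t]; rfl

theorem theta_counit (a : A) : (theta t α a).coeff.sum (fun _ b => b) = a := by
  have h := act_t_apply t α (AlgHom.id Λ A) 1 a
  rw [map_one, α.one] at h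
  rw [← evT_one]
  exact h.symm

theorem theta_co (a : A) (χ : Fin t.n → ℤ) :
    theta t α ((theta t α a).coeff χ) = single χ ((theta t α a).coeff χ) := by
  have h := α.nat (cT Λ t.n (TA t.n A)) (t.t (TT t.n A)) (cT Λ t.n A)
  rw [t.t_nat] at h
  have h2 : α.act (t.t (fun i => TT t.n (TA t.n A) i * Units.map
      ((cT Λ t.n (TA t.n A) : TA t.n A →ₐ[Λ] TA t.n (TA t.n A)) : TA t.n A →* TA t.n (TA t.n A))
        (TT t.n A i))) ((cT Λ t.n (TA t.n A)).comp (cT Λ t.n A)) a =
      evT (((cT Λ t.n (TA t.n A)).comp (theta t α) : A →ₐ[Λ] TA t.n (TA t.n A)) :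
        A →+* TA t.n (TA t.n A)) (TT t.n (TA t.n A)) (theta t α a) := by
    have h3 : (fun i => TT t.n (TA t.n A) i * Units.map
      ((cT Λ t.n (TA t.n A) : TA t.n A →ₐ[Λ] TA t.n (TA t.n A)) : TA t.n A →* TA t.n (TA t.n A))
        (TT t.n A i)) = TT t.n (TA t.n A) * fun i => Units.map
      ((cT Λ t.n (TA t.n A) : TA t.n A →ₐ[Λ] TA t.n (TA t.n A)) : TA t.n A →* TA t.n (TA t.n A))
        (TT t.n A i) := rfl
    rw [h3, map_mul, α.mul, h, act_t_apply]
    rfl
  rw [act_t_apply] at h2
  have h4 := congrArg (fun z => z.coeff χ) h2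
  have h5 := coeff_evT_mul (theta t α a) χ
  have h6 := coeff_evT_TT (theta t α : A →+* TA t.n A) (theta t α a) χ
  exact (h6.symm.trans h4.symm).trans h5

theorem theta_wt (k : Fin t.N) (i : ℕ) (χ : Fin t.n → ℤ) (a : A)
    (hk : ∀ h < k, tau t α h a = C a) (ha : theta t α a = single χ a) :
    theta t α ((tau t α k a).coeff i) = single (χ + i • (-t.β k)) ((tau t α k a).coeff i) := by
  set p : A →ₐ[Λ] (TA t.n A)[X] := (cst Λ (TA t.n A)).comp (cT Λ t.n A) with hp
  set v : Fin t.n → ((TA t.n A)[X])ˣ := fun i =>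
    Units.map ((cst Λ (TA t.n A) : TA t.n A →ₐ[Λ] (TA t.n A)[X]) : TA t.n A →* (TA t.n A)[X])
      (TT t.n A i) with hv
  have h := α.nat (cst Λ (TA t.n A)) (t.t (TT t.n A)) (cT Λ t.n A)
  rw [t.t_nat] at h
  set w : TA t.n A := single (-t.β k) 1 with hw
  have h0 : ∏ i, v i ^ t.β k i = Units.map
      ((cst Λ (TA t.n A) : TA t.n A →ₐ[Λ] (TA t.n A)[X]) : TA t.n A →* (TA t.n A)[X])
      (sU t.n A (.ofAdd (t.β k))) := by
    rw [← chU_TT]
    have h2 := chU_map ((cst Λ (TA t.n A) : TA t.n A →ₐ[Λ] (TA t.n A)[X]) :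
      TA t.n A →+* (TA t.n A)[X]) (TT t.n A) (.ofAdd (t.β k))
    exact h2
  have h3 := t.conj k v (C w * X)
  have h4 : (((∏ i, v i ^ t.β k i : ((TA t.n A)[X])ˣ) : (TA t.n A)[X]) * (C w * X)) = X := by
    rw [h0]
    have h5 : ((Units.map ((cst Λ (TA t.n A) : TA t.n A →ₐ[Λ] (TA t.n A)[X]) :
        TA t.n A →* (TA t.n A)[X]) (sU t.n A (.ofAdd (t.β k))) : ((TA t.n A)[X])ˣ) :
        (TA t.n A)[X]) = C (single (t.β k) 1) := rfl
    have h6 : (single (t.β k) (1 : A) : TA t.n A) * w = 1 := by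
      rw [hw, AddMonoidAlgebra.single_mul_single, one_mul, add_neg_cancel]
      rfl
    rw [h5, ← mul_assoc, ← C_mul, h6, C_1, one_mul]
  rw [h4] at h3
  have h6 := act_eq_of_mem t α k a hk _ _ h3 p
  rw [α.mul, α.mul, h, act_t_apply, ha, evT_single, AlgHom.coe_toRingHom, act_x_apply,
    act_x_apply] at h6
  have h7 : eval₂ ((((cst Λ (TA t.n A)).comp (α.act (t.t (TT t.n A)) (cT Λ t.n A)) :
      A →ₐ[Λ] (TA t.n A)[X])) : A →+* (TA t.n A)[X]) X (tau t α k a) =
      (tau t α k a).map (theta t α : A →+* TA t.n A) := rfl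
  rw [h7, hv] at h6
  have h8 := congrArg (fun f => f.coeff i) h6
  simp only [coeff_map] at h8
  have h9 : ((chU (fun i => Units.map ((cst Λ (TA t.n A) : TA t.n A →ₐ[Λ] (TA t.n A)[X]) :
      TA t.n A →* (TA t.n A)[X]) (TT t.n A i)) (.ofAdd χ) : ((TA t.n A)[X])ˣ) : (TA t.n A)[X]) =
      C (single χ 1) := by
    have h2 := chU_map ((cst Λ (TA t.n A) : TA t.n A →ₐ[Λ] (TA t.n A)[X]) :
      TA t.n A →+* (TA t.n A)[X]) (TT t.n A) (.ofAdd χ)
    rw [chU_TT] at h2
    exact congrArg (fun z : ((TA t.n A)[X])ˣ => (z : (TA t.n A)[X])) h2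
  have h10 : (p : A →+* (TA t.n A)[X]) = (C : TA t.n A →+* (TA t.n A)[X]).comp
    singleZeroRingHom := rfl
  have h11 : ∀ c : A, (singleZeroRingHom c : TA t.n A) = single 0 c := fun _ => rfl
  rw [h9, coeff_mul_C, h10, coeff_CmulX, h11, hw, AddMonoidAlgebra.single_pow,
    AddMonoidAlgebra.single_mul_single, AddMonoidAlgebra.single_mul_single, one_pow, mul_one,
    mul_one, zero_add, add_comm (i • -t.β k) χ] at h8
  exact h8.symm

/-! ### stable ideals, semi-invariants -/

theorem stab_tau {e : Ideal A} (he : α.Stable e) (k : Fin t.N) (a : A) (ha : a ∈ e) (i : ℕ) :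
    (tau t α k a).coeff i ∈ e := by
  have h := he (t.x k (X : (A ⧸ e)[X])) ((cst Λ (A ⧸ e)).comp (Ideal.Quotient.mkₐ Λ e))
    (fun b hb => by
      rw [AlgHom.comp_apply, Ideal.Quotient.mkₐ_eq_mk, Ideal.Quotient.eq_zero_iff_mem.2 hb,
        map_zero]) a ha
  rw [act_x_apply] at h
  have h1 : eval₂ (((cst Λ (A ⧸ e)).comp (Ideal.Quotient.mkₐ Λ e) : A →ₐ[Λ] (A ⧸ e)[X]) :
      A →+* (A ⧸ e)[X]) X (tau t α k a) = (tau t α k a).map (Ideal.Quotient.mk e) := rfl
  rw [h1] at h
  have h2 := congrArg (fun f => f.coeff i) h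
  simp only [coeff_map, coeff_zero] at h2
  exact Ideal.Quotient.eq_zero_iff_mem.1 h2

theorem stab_theta {e : Ideal A} (he : α.Stable e) (a : A) (ha : a ∈ e) (χ : Fin t.n → ℤ) :
    (theta t α a).coeff χ ∈ e := by
  have h := he (t.t (TT t.n (A ⧸ e))) ((cT Λ t.n (A ⧸ e)).comp (Ideal.Quotient.mkₐ Λ e))
    (fun b hb => by
      rw [AlgHom.comp_apply, Ideal.Quotient.mkₐ_eq_mk, Ideal.Quotient.eq_zero_iff_mem.2 hb,
        map_zero]) a ha
  rw [act_t_apply] at h
  have h2 := congrArg (fun f => f.coeff χ) h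
  have h3 := coeff_evT_TT (Ideal.Quotient.mk e) (theta t α a) χ
  have h4 : (Ideal.Quotient.mk e) ((theta t α a).coeff χ) = 0 := by
    rw [← h3]
    exact h2
  exact Ideal.Quotient.eq_zero_iff_mem.1 h4

theorem semi_unit (f : A) (h1 : ∀ k : Fin t.N, tau t α k f = C f) (χ : Fin t.n → ℤ)
    (h2 : theta t α f = single χ f) {R : Type} [CommRing R] [Algebra Λ R] (g : G.Pt R) :
    ∃ u : Rˣ, ∀ x : A →ₐ[Λ] R, α.act g x f = u * x f := by
  have hg : g ∈ Subgroup.closure ({g : G.Pt R | ∃ k c, g = t.x k c} ∪ {g | ∃ u, g = t.t u}) := by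
    rw [t.gen]
    exact Subgroup.mem_top g
  induction hg using Subgroup.closure_induction with
  | mem g hg =>
    rcases hg with ⟨k, c, rfl⟩ | ⟨u, rfl⟩
    · refine ⟨1, fun x => ?_⟩
      rw [act_x_apply, h1, eval₂_C, Units.val_one, one_mul]
      rfl
    · refine ⟨chU u (.ofAdd χ), fun x => ?_⟩
      rw [act_t_apply, h2, evT_single, mul_comm]
      rfl
  | one => exact ⟨1, fun x => by rw [α.one, Units.val_one, one_mul]⟩
  | mul a b _ _ ha hb =>
    obtain ⟨u, hu⟩ := ha
    obtain ⟨v, hv⟩ := hb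
    exact ⟨u * v, fun x => by rw [α.mul, hu, hv, Units.val_mul, mul_assoc]⟩
  | inv a _ ha =>
    obtain ⟨u, hu⟩ := ha
    refine ⟨u⁻¹, fun x => ?_⟩
    have h := hu (α.act a⁻¹ x)
    rw [← α.mul, mul_inv_cancel, α.one] at h
    rw [h, Units.inv_mul_cancel_left]

end Coact

end G3

variable {Λ : Type} [CommRing Λ] {G : GSch Λ}

/-- the coactions attached to an action of a split solvable group -/
theorem exists_solvData (t : Solv G) {A : Type} [CommRing A] [Algebra Λ A] (α : Act G A) :
    ∃ s : SolvData A t.N t.n, (∀ e : Ideal A, α.Stable e → s.StabI e) ∧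
    (∀ f : A, s.Semi f → ∀ {R : Type} [CommRing R] [Algebra Λ R] (g : G.Pt R), ∃ u : Rˣ,
      ∀ x : A →ₐ[Λ] R, α.act g x f = u * x f) := by
  let s : SolvData A t.N t.n :=
    { τ := fun k => G3.tau t α k
      θ := ⟨G3.theta t α, G3.theta_counit t α, G3.theta_co t α⟩
      β := fun k => -t.β k
      zero := fun k a => G3.tau_coeff_zero t α k a
      co := fun l a ha i j => G3.tau_co t α l a ha i j
      comm := fun l k a ha i j => G3.tau_comm t α k l a ha i j
      wt := fun k i χ a ha h => G3.theta_wt t α k i χ a ha h }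
  refine ⟨s, fun I hI => ⟨fun k a ha i => ?_, fun a ha χ => ?_⟩, fun f hf R _ _ g => ?_⟩
  · exact G3.stab_tau t α hI k a ha i
  · exact G3.stab_theta t α hI a ha χ
  · obtain ⟨h1, χ, h2⟩ := hf
    exact G3.semi_unit t α f h1 χ h2 g

theorem gen_of_solv {P : Scheme.{0} → Prop} (hP : Rules P) (hG : G.Good) (t : Solv G) :
    Gen P G := by
  intro A _ _ _ hA α L _ _ y hL hinj
  obtain ⟨s, hs1, hs2⟩ := exists_solvData t α
  obtain ⟨f, hf0, hf, hf2⟩ := solvAbs hP hA s hL (y : A →+* L) (fun a ha h0 => by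
    obtain ⟨u, hu⟩ := hs2 a ha (gam G L)
    have h := hu ((ιR G L).comp y)
    have h0' : y a = 0 := h0
    rw [AlgHom.comp_apply, h0', map_zero, mul_zero] at h
    exact hinj (h.trans (map_zero (α.orb y)).symm))
  refine ⟨Ideal.span {f}, fun h => hf0 (Ideal.span_singleton_eq_bot.1 h), ?_, fun e he1 he2 he3 =>
    hf2 e he1 he2 (hs1 e he3)⟩
  intro R _ _ g x hx a ha
  obtain ⟨c, rfl⟩ := Ideal.mem_span_singleton'.1 ha
  obtain ⟨u, hu⟩ := hs2 f hf g
  rw [map_mul, hu, hx f (Ideal.mem_span_singleton_self f), mul_zero, mul_zero]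

end Pool.Agent.Helper72.OC
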