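import Pool.Agent.Helper72.OC.Hone
import Pool.Agent.Helper72.OC.Smo
import Pool.Agent.Helper72.OC.ProjAlg
import Pool.Agent.Helper72.OC.ProjSch
import Pool.Agent.Helper72.OC.SolvGrp
import Pool.Agent.Helper72.OC.ExtAlg
import Pool.Agent.Helper72.OC.ExtSch

/-!
# Orbit theorem for flagged groups, block I: the generic statement
-/

set_option autoImplicit false

namespace Pool.Agent.Helper72.OC

open AlgebraicGeometry CategoryTheory
open Pool.Agent.Helper65.Mor (Arithmetic ClosedOpen FGen)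
open Pool.Agent.Helper72.OB (Rules DD)

variable {P : Scheme.{0} → Prop}

theorem gen_of_flag {Λ : Type} [CommRing Λ] (hP : Rules P) {Q G : GSch Λ} (f : Flag Q G)
    (hQ : Q.Good) (hG : G.Good) (h : Gen P Q) : Gen P G := by
  intro A _ _ _ hA α L _ _ y hL hy
  obtain ⟨I, hIp, hIs, hcore, d1, h1, h1s, h1P⟩ := exists_section f hQ hG h hA α y hL hy
  obtain ⟨d2, h2, h2s, h2P⟩ := exists_smooth hG hA α
  obtain ⟨m, c, hc, pd, hinj, hpd⟩ := exists_projData f hQ hG hA α I hIs hcore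
  refine ⟨d1 * d2, ?_, h1s.mul h2s, ?_⟩
  · rw [Ne, Ideal.mul_eq_bot]
    tauto
  · intro e he hed hes
    obtain ⟨p, s, hp, hs⟩ := h2P e (hed.trans Ideal.mul_le_right)
    exact P_of_projData hP hA (hA.quot I) hc pd hinj e _ (hpd e hes) p s hp hs
      (h1P e he (hed.trans Ideal.mul_le_left) hes)

theorem gen_of_ext {Λ : Type} [CommRing Λ] (hP : Rules P) {G : GSch Λ} (hG : G.Good)
    (h : ∀ p : PrimeSpectrum Λ, ∃ (Λ' : Type) (_ : CommRing Λ') (_ : IsDomain Λ')
      (_ : Algebra Λ Λ') (_ : Algebra (Λ ⧸ p.asIdeal) Λ') (_ : IsScalarTower Λ (Λ ⧸ p.asIdeal) Λ')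
      (G' : GSch Λ'), Algebra.FiniteType Λ Λ' ∧
      Function.Injective (algebraMap (Λ ⧸ p.asIdeal) Λ') ∧
      Algebra.IsAlgebraic (Λ ⧸ p.asIdeal) Λ' ∧ IsBC G G' ∧ G'.Good ∧ Gen P G') : Gen P G := by
  intro A _ _ _ hA α L _ _ y hL hy
  have hprime : (RingHom.ker (algebraMap Λ A)).IsPrime := RingHom.ker_isPrime _
  obtain ⟨Λ', _, _, _, _, _, G', hft, hinj, halg, hBC, hG', hGen⟩ :=
    h ⟨RingHom.ker (algebraMap Λ A), hprime⟩
  obtain ⟨B, _, _, _, _, hB, hAB, ⟨l, hl0, hl⟩, β, L', _, _, y', hL', hy', hes, hds⟩ :=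
    exists_ext (RingHom.ker (algebraMap Λ A)) hft hinj halg hG hG' hBC rfl hA α y hL hy
  obtain ⟨d1, h1, h1s, h1P⟩ := hGen B hB β L' y' hL' hy'
  obtain ⟨d2, h2, h2s, h2P⟩ := exists_smooth hG hA α
  have hc : d1.comap (algebraMap A B) ≠ ⊥ := by
    obtain ⟨b, hb, hb0⟩ := Submodule.exists_mem_ne_zero_of_ne_bot h1
    obtain ⟨k, hk⟩ := hl b
    refine Ideal.comap_ne_bot_of_integral_mem ?_ (d1.mul_mem_left _ hb) hk
    refine mul_ne_zero ?_ hb0
    rw [Ne, map_eq_zero_iff _ hAB]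
    exact pow_ne_zero _ hl0
  have hs : Ideal.span {algebraMap Λ A l} ≠ ⊥ := by
    rwa [Ne, Ideal.span_singleton_eq_bot]
  refine ⟨d1.comap (algebraMap A B) * Ideal.span {algebraMap Λ A l} * d2, ?_,
    Act.Stable.mul (Act.Stable.mul (hds d1 h1s) (α.stable_span_const l)) h2s, ?_⟩
  · rw [Ne, Ideal.mul_eq_bot, Ideal.mul_eq_bot]
    tauto
  · intro e he hed hest
    obtain ⟨p, s, hp, hs⟩ := h2P e (hed.trans Ideal.mul_le_right)
    refine P_of_integral hP hA hB hAB (algebraMap Λ A l) hl e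
      ((hed.trans Ideal.mul_le_left).trans Ideal.mul_le_right) p s hp hs (h1P _ ?_ ?_ (hes e hest))
    · rwa [Ne, Ideal.map_eq_bot_iff_of_injective hAB]
    · rw [Ideal.map_le_iff_le_comap]
      exact (hed.trans Ideal.mul_le_left).trans Ideal.mul_le_left

theorem Flagged.good {Λ : Type} [CommRing Λ] {G : GSch Λ} (h : Flagged G) : G.Good := by
  cases h with
  | solv _ hG _ => exact hG
  | flag _ _ hG _ _ => exact hG
  | ext _ _ _ hG _ _ _ _ _ => exact hG

theorem gen_all (hP : Rules P) {Λ : Type} [CommRing Λ] {G : GSch Λ} (hG : Flagged G) :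
    Gen P G := by
  induction hG with
  | solv G hG h => exact gen_of_solv hP hG h.some
  | flag Q G hG h hQ ih => exact gen_of_flag hP h.some hQ.good hG ih
  | ext G Λ' G' hG hft hinj halg hBC hF ih =>
    exact gen_of_ext hP hG fun p => ⟨Λ' p, inferInstance, inferInstance, inferInstance,
      inferInstance, inferInstance, G' p, hft p, hinj p, halg p, hBC p, (hF p).good, ih p⟩

end Pool.Agent.Helper72.OC
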