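import Pool.Agent.Helper72.OC.Stab
import Pool.Agent.Helper9.RS.KD1

/-!
# Orbit theorem for flagged groups: points over the algebraic closures of finite fields suffice
-/

set_option autoImplicit false

namespace Pool.Agent.Helper72.OC

open TensorProduct Topology
open Pool.Agent.Helper65.Mor (FGen)

/-- a finitely generated field has an embedding to the algebraic closure of a finite field -/
theorem exists_embed {F : Type} [Field F] (hF : FGen F) : ∃ (p : ℕ) (_ : Fact p.Prime),
    Nonempty (F →+* AlgebraicClosure (ZMod p)) := by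
  have hft : Algebra.FiniteType ℤ F := by
    have h : (algebraMap ℤ F).FiniteType := hF
    exact RingHom.finiteType_algebraMap.1 h
  rcases CharP.exists F with ⟨p, hp⟩
  rcases CharP.char_is_prime_or_zero F p with hpr | hp0
  · have : Fact p.Prime := ⟨hpr⟩
    let _ : Algebra (ZMod p) F := ZMod.algebra F p
    have : IsScalarTower ℤ (ZMod p) F := IsScalarTower.of_algebraMap_eq' (RingHom.ext_int _ _)
    have h1 : Algebra.FiniteType (ZMod p) F :=
      Algebra.FiniteType.of_restrictScalars_finiteType ℤ (ZMod p) F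
    have h2 : Module.Finite (ZMod p) F := finite_of_finite_type_of_isJacobsonRing (ZMod p) F
    exact ⟨p, inferInstance, ⟨(IsAlgClosed.lift : F →ₐ[ZMod p] AlgebraicClosure (ZMod p))⟩⟩
  · subst hp0
    have : CharZero F := CharP.charP_to_charZero F
    exact (Pool.Agent.Helper9.RS.not_isField_of_finiteType hft).elim

/-- a nonempty constructible subset of the spectrum of a Jacobson ring has a closed point -/
theorem exists_closedPoint {A : Type} [CommRing A] [IsJacobsonRing A] {Z : Set (PrimeSpectrum A)}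
    (hZ : IsConstructible Z) (hne : Z.Nonempty) : ∃ m ∈ Z, m.asIdeal.IsMaximal := by
  have key : Z.Nonempty → (Z ∩ closedPoints (PrimeSpectrum A)).Nonempty := by
    refine IsConstructible.induction_of_isTopologicalBasis
      (P := fun s _ => s.Nonempty → (s ∩ closedPoints (PrimeSpectrum A)).Nonempty)
      (fun f : A => (PrimeSpectrum.basicOpen f : Set (PrimeSpectrum A)))
      PrimeSpectrum.isTopologicalBasis_basic_opens PrimeSpectrum.isCompact_basicOpen ?_ ?_ Z hZ
    · intro f s hs h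
      refine nonempty_inter_closedPoints h ?_
      exact (PrimeSpectrum.basicOpen f).2.isLocallyClosed.inter
        (isOpen_biUnion fun g _ => (PrimeSpectrum.basicOpen g).2).isClosed_compl.isLocallyClosed
    · intro s _ t _ hs ht h
      rcases h with ⟨x, hx | hx⟩
      · obtain ⟨y, hy⟩ := hs ⟨x, hx⟩
        exact ⟨y, Or.inl hy.1, hy.2⟩
      · obtain ⟨y, hy⟩ := ht ⟨x, hx⟩
        exact ⟨y, Or.inr hy.1, hy.2⟩
  obtain ⟨m, hm, hc⟩ := key hne
  exact ⟨m, hm, (PrimeSpectrum.isClosed_singleton_iff_isMaximal m).1 hc⟩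

/-- a nonzero finitely generated algebra over a field has a point over an algebraically closed
extension -/
theorem nonempty_algHom {κ T Ω : Type} [Field κ] [CommRing T] [Nontrivial T] [Algebra κ T]
    [Algebra.FiniteType κ T] [Field Ω] [IsAlgClosed Ω] [Algebra κ Ω] : Nonempty (T →ₐ[κ] Ω) := by
  obtain ⟨M, hM⟩ := Ideal.exists_maximal T
  let _ : Field (T ⧸ M) := Ideal.Quotient.field M
  have h2 : Module.Finite κ (T ⧸ M) := finite_of_finite_type_of_isJacobsonRing κ (T ⧸ M)
  let χ : T ⧸ M →ₐ[κ] Ω := IsAlgClosed.lift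
  exact ⟨χ.comp (Ideal.Quotient.mkₐ κ M)⟩

/-- points over the algebraic closures of finite fields suffice: the case of rings -/
theorem exists_point {A B : Type} [CommRing A] [CommRing B] (hA : FGen A) (hB : FGen B)
    (ψ : A →+* B) (c : Ideal A)
    (h : ∀ (p : ℕ) [Fact p.Prime] (x : A →+* AlgebraicClosure (ZMod p)), (∃ a ∈ c, x a ≠ 0) →
      ∃ φ : B →+* AlgebraicClosure (ZMod p), φ.comp ψ = x)
    {Ω : Type} [Field Ω] [IsAlgClosed Ω] (x : A →+* Ω) (hx : ∃ a ∈ c, x a ≠ 0) :
    ∃ φ : B →+* Ω, φ.comp ψ = x := by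
  have hftA : Algebra.FiniteType ℤ A := RingHom.finiteType_algebraMap.1 hA
  have hftB : Algebra.FiniteType ℤ B := RingHom.finiteType_algebraMap.1 hB
  have hJ := Pool.Agent.Helper16.isJacobsonRing_int
  have hJA : IsJacobsonRing A := isJacobsonRing_of_finiteType (A := ℤ)
  have hNA : IsNoetherianRing A := Algebra.FiniteType.isNoetherianRing ℤ A
  algebraize [ψ]
  have : IsScalarTower ℤ A B := IsScalarTower.of_algebraMap_eq' (RingHom.ext_int _ _)
  have hft : Algebra.FiniteType A B := Algebra.FiniteType.of_restrictScalars_finiteType ℤ A B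
  have hfp : ψ.FinitePresentation := by
    have h1 : Algebra.FinitePresentation A B := Algebra.FinitePresentation.of_finiteType.1 hft
    exact RingHom.finitePresentation_algebraMap.2 h1
  obtain ⟨a, ha, hxa⟩ := hx
  let P : PrimeSpectrum A := ⟨RingHom.ker x, RingHom.ker_isPrime x⟩
  have hP : P ∈ Set.range (PrimeSpectrum.comap ψ) := by
    by_contra hcon
    obtain ⟨m, ⟨hm1, hm2⟩, hmax⟩ := exists_closedPoint
      (Z := (PrimeSpectrum.basicOpen a : Set (PrimeSpectrum A)) \
        Set.range (PrimeSpectrum.comap ψ))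
      (PrimeSpectrum.isConstructible_basicOpen.sdiff
        (PrimeSpectrum.isConstructible_range_comap hfp))
      ⟨P, fun h => hxa (RingHom.mem_ker.1 h), hcon⟩
    let _ : Field (A ⧸ m.asIdeal) := Ideal.Quotient.field m.asIdeal
    have hF : FGen (A ⧸ m.asIdeal) :=
      hA.of_hom (Ideal.Quotient.mk _) (RingHom.FiniteType.of_surjective _
        Ideal.Quotient.mk_surjective)
    obtain ⟨p, _, ⟨f⟩⟩ := exists_embed hF
    obtain ⟨φ, hφ⟩ := h p (f.comp (Ideal.Quotient.mk m.asIdeal)) ⟨a, ha, fun h0 => hm1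
      (Ideal.Quotient.eq_zero_iff_mem.1 (f.injective (h0.trans (map_zero f).symm)))⟩
    refine hm2 ⟨⟨RingHom.ker φ, RingHom.ker_isPrime φ⟩, ?_⟩
    apply PrimeSpectrum.ext
    ext b
    show ψ b ∈ RingHom.ker φ ↔ _
    rw [RingHom.mem_ker, ← RingHom.comp_apply, hφ, RingHom.comp_apply, map_eq_zero_iff f f.injective,
      Ideal.Quotient.eq_zero_iff_mem]
  have hPp : P.asIdeal.IsPrime := P.isPrime
  have hnt : Nontrivial (P.asIdeal.ResidueField ⊗[A] B) :=
    (PrimeSpectrum.nontrivial_iff_mem_rangeComap P).2 hP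
  let κ := P.asIdeal.ResidueField
  let ξ : κ →+* Ω := Ideal.ResidueField.lift P.asIdeal x le_rfl fun b hb =>
    IsUnit.mk0 _ fun h0 => hb (RingHom.mem_ker.2 h0)
  let _ : Algebra κ Ω := ξ.toAlgebra
  obtain ⟨χ⟩ : Nonempty (κ ⊗[A] B →ₐ[κ] Ω) := nonempty_algHom
  refine ⟨χ.toRingHom.comp
    (Algebra.TensorProduct.includeRight : B →ₐ[A] κ ⊗[A] B).toRingHom, ?_⟩
  ext b
  have h3 : (Algebra.TensorProduct.includeRight : B →ₐ[A] κ ⊗[A] B) (algebraMap A B b) =
      algebraMap κ (κ ⊗[A] B) (algebraMap A κ b) := by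
    rw [AlgHom.commutes]
    rfl
  have h4 : χ (algebraMap κ (κ ⊗[A] B) (algebraMap A κ b)) = x b := by
    rw [χ.commutes]
    exact Ideal.ResidueField.lift_algebraMap (I := P.asIdeal) x _ _ b
  show χ ((Algebra.TensorProduct.includeRight : B →ₐ[A] κ ⊗[A] B) (algebraMap A B b)) = x b
  rw [h3]
  exact h4

/-- points over the algebraic closures of finite fields suffice -/
theorem weak {Λ : Type} [CommRing Λ] {G : GSch Λ} (hG : G.Good) {A : Type} [CommRing A]
    [Algebra Λ A] (hA : FGen A) (α : Act G A) (c : Ideal A) {R : Type} [CommRing R] [Algebra Λ R]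
    (hR : FGen R) (y : A →ₐ[Λ] R)
    (h : ∀ (p : ℕ) [Fact p.Prime] [Algebra Λ (AlgebraicClosure (ZMod p))]
      (x : A →ₐ[Λ] AlgebraicClosure (ZMod p)), (∃ a ∈ c, x a ≠ 0) →
      ∃ (z : R →ₐ[Λ] AlgebraicClosure (ZMod p)) (g : G.Pt (AlgebraicClosure (ZMod p))),
        x = α.act g (z.comp y))
    {Ω : Type} [Field Ω] [IsAlgClosed Ω] [Algebra Λ Ω] (x : A →ₐ[Λ] Ω) (hx : ∃ a ∈ c, x a ≠ 0) :
    ∃ (z : R →ₐ[Λ] Ω) (g : G.Pt Ω), x = α.act g (z.comp y) := by
  obtain ⟨φ, hφ⟩ := exists_point hA (fgen_RR G hG hR) (α.orb y : A →+* RR G R) c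
    (fun p _ x' hx' => by
      let _ : Algebra Λ (AlgebraicClosure (ZMod p)) := (x'.comp (algebraMap Λ A)).toAlgebra
      let x1 : A →ₐ[Λ] AlgebraicClosure (ZMod p) := { x' with commutes' := fun _ => rfl }
      obtain ⟨z, g, hz⟩ := h p x1 hx'
      refine ⟨(ev G z g : RR G R →+* _), ?_⟩
      have h1 := α.ev_orb y z g
      rw [← hz] at h1
      ext a
      exact congrArg (fun f : A →ₐ[Λ] AlgebraicClosure (ZMod p) => f a) h1)
    (x : A →+* Ω) hx
  have hc : ∀ l : Λ, φ (algebraMap Λ (RR G R) l) = algebraMap Λ Ω l := by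
    intro l
    have h1 := congrArg (fun f : A →+* Ω => f (algebraMap Λ A l)) hφ
    simp only [RingHom.comp_apply, AlgHom.coe_toRingHom, AlgHom.commutes] at h1
    exact h1
  let φ1 : RR G R →ₐ[Λ] Ω := { φ with commutes' := hc }
  have h2 : φ1.comp (α.orb y) = x := by
    apply AlgHom.ext
    intro a
    exact congrArg (fun f : A →+* Ω => f a) hφ
  refine ⟨φ1.comp (ιR G R), G.map φ1 (gam G R), ?_⟩
  rw [← α.ev_orb y (φ1.comp (ιR G R)) (G.map φ1 (gam G R))]
  have h3 : ev G (φ1.comp (ιR G R)) (G.map φ1 (gam G R)) = φ1 := by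
    apply RR_hom_ext
    · rw [ev_comp_ι]
    · rw [map_ev_gam]
  rw [h3, h2]

end Pool.Agent.Helper72.OC
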