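import Pool.Agent.Helper72.OC.Aff
import Pool.Agent.Helper72.OC.Ind
import Pool.Agent.Helper72.OC.Gm
import Pool.Agent.Helper72.OC.Weak

/-!
# Orbit theorem for flagged groups, block J: stable opens of projective schemes
-/

set_option autoImplicit false

namespace Pool.Agent.Helper72.OC

open AlgebraicGeometry CategoryTheory
open Pool.Agent.Helper65.Mor (Arithmetic ClosedOpen FGen)
open Pool.Agent.Helper72.OB (Rules DD Std projOpen)

section Scal

variable {Λ : Type} [CommRing Λ] {S : Type} [CommRing S] [Algebra Λ S]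
  (𝒮 : ℕ → AddSubgroup S) [GradedRing 𝒮]

/-- scaling of points: the additive maps on the homogeneous components -/
private def scalF38 {R : Type} [CommRing R] (u : R) (x : S →+* R) (d : ℕ) : 𝒮 d →+ R :=
  ((AddMonoidHom.mulLeft (u ^ d)).comp x.toAddMonoidHom).comp (𝒮 d).subtype

omit [Algebra Λ S] [GradedRing 𝒮] in
private theorem scalF38_apply {R : Type} [CommRing R] (u : R) (x : S →+* R) (d : ℕ) (s : 𝒮 d) :
    scalF38 𝒮 u x d s = u ^ d * x s := rfl

/-- scaling of points, as a ring homomorphism -/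
private def scalR38 {R : Type} [CommRing R] (u : R) (x : S →+* R) : S →+* R :=
  (DirectSum.toSemiring (scalF38 𝒮 u x)
    (by rw [scalF38_apply, pow_zero, one_mul]; exact map_one x)
    (fun {i j} a b => by
      rw [scalF38_apply, scalF38_apply, scalF38_apply, SetLike.coe_gMul, map_mul, pow_add]
      ring)).comp (DirectSum.decomposeRingEquiv 𝒮).toRingHom

omit [Algebra Λ S] in
private theorem scalR38_apply {R : Type} [CommRing R] (u : R) (x : S →+* R) {d : ℕ} {s : S}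
    (hs : s ∈ 𝒮 d) : scalR38 𝒮 u x s = u ^ d * x s := by
  have h1 : (DirectSum.decomposeRingEquiv 𝒮).toRingHom s = DirectSum.of (fun i => 𝒮 i) d ⟨s, hs⟩ :=
    DirectSum.decompose_of_mem 𝒮 hs
  rw [scalR38, RingHom.comp_apply, h1, DirectSum.toSemiring_of]
  rfl

variable (h0 : ∀ l : Λ, algebraMap Λ S l ∈ 𝒮 0)

/-- scaling of points -/
private def scal38 {R : Type} [CommRing R] [Algebra Λ R] (u : R) (x : S →ₐ[Λ] R) : S →ₐ[Λ] R :=
  { scalR38 𝒮 u (x : S →+* R) with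
    commutes' := fun l => by
      have h := scalR38_apply 𝒮 u (x : S →+* R) (h0 l)
      rw [pow_zero, one_mul] at h
      exact h.trans (x.commutes l) }

private theorem scal38_apply {R : Type} [CommRing R] [Algebra Λ R] (u : R) (x : S →ₐ[Λ] R) {d : ℕ}
    {s : S} (hs : s ∈ 𝒮 d) : scal38 𝒮 h0 u x s = u ^ d * x s :=
  scalR38_apply 𝒮 u (x : S →+* R) hs

private theorem hom_ext38 {R : Type} [CommRing R] [Algebra Λ R] {f f' : S →ₐ[Λ] R}
    (h : ∀ d, ∀ s ∈ 𝒮 d, f s = f' s) : f = f' := by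
  apply AlgHom.ext
  intro s
  refine DirectSum.Decomposition.inductionOn 𝒮 ?_ (fun {i} m => h i _ m.2) (fun a b ha hb => ?_) s
  · rw [map_zero, map_zero]
  · rw [map_add, map_add, ha, hb]

private theorem scal38_one {R : Type} [CommRing R] [Algebra Λ R] (x : S →ₐ[Λ] R) :
    scal38 𝒮 h0 1 x = x :=
  hom_ext38 𝒮 fun d s hs => by rw [scal38_apply 𝒮 h0 _ _ hs, one_pow, one_mul]

private theorem scal38_mul {R : Type} [CommRing R] [Algebra Λ R] (u v : R) (x : S →ₐ[Λ] R) :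
    scal38 𝒮 h0 (u * v) x = scal38 𝒮 h0 u (scal38 𝒮 h0 v x) :=
  hom_ext38 𝒮 fun d s hs => by
    rw [scal38_apply 𝒮 h0 _ _ hs, scal38_apply 𝒮 h0 _ _ hs, scal38_apply 𝒮 h0 _ _ hs, mul_pow,
      mul_assoc]

private theorem comp_scal38 {R R' : Type} [CommRing R] [Algebra Λ R] [CommRing R'] [Algebra Λ R']
    (f : R →ₐ[Λ] R') (u : R) (x : S →ₐ[Λ] R) :
    f.comp (scal38 𝒮 h0 u x) = scal38 𝒮 h0 (f u) (f.comp x) :=
  hom_ext38 𝒮 fun d s hs => by
    rw [AlgHom.comp_apply, scal38_apply 𝒮 h0 _ _ hs, scal38_apply 𝒮 h0 _ _ hs, map_mul, map_pow,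
      AlgHom.comp_apply]

private theorem act_scal38 {G : GSch Λ} {α : Act G S} (hα : α.Graded 𝒮) {R : Type} [CommRing R]
    [Algebra Λ R] (g : G.Pt R) (u : Rˣ) (x : S →ₐ[Λ] R) :
    α.act g (scal38 𝒮 h0 (u : R) x) = scal38 𝒮 h0 (u : R) (α.act g x) :=
  hom_ext38 𝒮 fun d s hs => by
    rw [scal38_apply 𝒮 h0 _ _ hs]
    exact hα g u x _ (fun d s hs => scal38_apply 𝒮 h0 _ _ hs) d s hs

/-- the action of `G × G_m` -/
private def plus38 {G : GSch Λ} (α : Act G S) (hα : α.Graded 𝒮) {G' : GSch Λ}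
    (e : ∀ (R : Type) [CommRing R] [Algebra Λ R], G'.Pt R ≃* G.Pt R × Rˣ)
    (he : ∀ (R R' : Type) [CommRing R] [Algebra Λ R] [CommRing R'] [Algebra Λ R'] (f : R →ₐ[Λ] R')
      (g : G'.Pt R), e R' (G'.map f g) = (G.map f (e R g).1, Units.map (f : R →* R') (e R g).2)) :
    Act G' S where
  act {R} _ _ g x := scal38 𝒮 h0 ((e R g).2 : R) (α.act (e R g).1 x)
  one {R} _ _ x := by
    rw [map_one, Prod.fst_one, Prod.snd_one, α.one, Units.val_one, scal38_one]
  mul {R} _ _ g h x := by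
    rw [map_mul, Prod.fst_mul, Prod.snd_mul, α.mul, Units.val_mul, scal38_mul,
      act_scal38 𝒮 h0 hα]
  nat {R R'} _ _ _ _ f g x := by
    rw [he, comp_scal38]
    show scal38 𝒮 h0 _ (α.act (G.map f (e R g).1) (f.comp x)) = _
    rw [α.nat]
    rfl

private theorem scal38_kill {c : Ideal S} (hc : c.IsHomogeneous 𝒮) {R : Type} [CommRing R]
    [Algebra Λ R] (u : R) {x : S →ₐ[Λ] R} (hx : ∀ a ∈ c, x a = 0) (a : S) (ha : a ∈ c) :
    scal38 𝒮 h0 u x a = 0 := by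
  classical
  rw [← DirectSum.sum_support_decompose 𝒮 a, map_sum]
  refine Finset.sum_eq_zero fun d _ => ?_
  rw [scal38_apply 𝒮 h0 u x (SetLike.coe_mem _), hx _ (hc d ha), mul_zero]

include h0 in
/-- an action which commutes with scaling preserves the vertex -/
private theorem act_kill38 {G : GSch Λ} {α : Act G S} (hα : α.Graded 𝒮) (hS : Std 𝒮) {R : Type}
    [CommRing R] [Algebra Λ R] (g : G.Pt R) (x : S →ₐ[Λ] R) (hx : ∀ s ∈ 𝒮 1, x s = 0) :
    ∀ s ∈ 𝒮 1, α.act g x s = 0 := by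
  let ι : R →ₐ[Λ] LaurentPolynomial R := Cl R
  have h1 : scal38 𝒮 h0 (Tu R : LaurentPolynomial R) (ι.comp x) = ι.comp x := by
    have h1' : (scal38 𝒮 h0 (Tu R : LaurentPolynomial R) (ι.comp x)).toRingHom =
        (ι.comp x).toRingHom := by
      refine RingHom.eq_of_eqOn_set_dense hS.gen ?_
      rintro s (hs | hs)
      · show scal38 𝒮 h0 (Tu R : LaurentPolynomial R) (ι.comp x) s = ι.comp x s
        rw [scal38_apply 𝒮 h0 _ _ hs, pow_zero, one_mul]
      · show scal38 𝒮 h0 (Tu R : LaurentPolynomial R) (ι.comp x) s = ι.comp x s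
        rw [scal38_apply 𝒮 h0 _ _ hs, AlgHom.comp_apply, hx s hs, map_zero, mul_zero]
    apply AlgHom.ext
    intro s
    exact congrArg (fun f : S →+* LaurentPolynomial R => f s) h1'
  have h2 := act_scal38 𝒮 h0 hα (G.map ι g) (Tu R) (ι.comp x)
  rw [h1, α.nat] at h2
  intro s hs
  have h4 := congrArg (fun f : S →ₐ[Λ] LaurentPolynomial R => f s) h2
  simp only [scal38_apply 𝒮 h0 _ _ hs, AlgHom.comp_apply, pow_one] at h4
  have h5 : (LaurentPolynomial.C (α.act g x s) : LaurentPolynomial R) =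
      (LaurentPolynomial.T 1 : LaurentPolynomial R) * LaurentPolynomial.C (α.act g x s) := h4
  have h6 : (LaurentPolynomial.C (α.act g x s) : LaurentPolynomial R) =
      .single 1 (α.act g x s) := by
    rw [LaurentPolynomial.single_eq_C_mul_T, ← LaurentPolynomial.T_mul]
    exact h5
  have h7 := congrArg (fun p : LaurentPolynomial R => p.coeff 0) h6
  simp only [LaurentPolynomial.C_apply, if_true, AddMonoidAlgebra.coeff_single] at h7
  rw [h7]
  exact Finsupp.single_eq_of_ne (by decide)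

end Scal

theorem final {P : Scheme.{0} → Prop} (hP : Rules P) {Λ : Type} [CommRing Λ]
    {G : GSch Λ} (hG : Flagged G) {S : Type} [CommRing S] [Algebra Λ S]
    (𝒮 : ℕ → AddSubgroup S) [GradedRing 𝒮] (hS : Std 𝒮) (h0 : ∀ l : Λ, algebraMap Λ S l ∈ 𝒮 0)
    (α : Act G S) (hα : α.Graded 𝒮) (c : Ideal S) (hc : c.IsHomogeneous 𝒮) (hcs : α.Stable c)
    {R : Type} [CommRing R] [Algebra Λ R] (hR : FGen R) (hdim : ringKrullDim R ≤ 1)
    (y : S →ₐ[Λ] R)
    (h : ∀ (p : ℕ) [Fact p.Prime] [Algebra Λ (AlgebraicClosure (ZMod p))]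
      (x : S →ₐ[Λ] AlgebraicClosure (ZMod p)), (∃ a ∈ c, x a ≠ 0) → (∃ a ∈ 𝒮 1, x a ≠ 0) →
      ∃ (z : R →ₐ[Λ] AlgebraicClosure (ZMod p)) (g : G.Pt (AlgebraicClosure (ZMod p)))
        (u : (AlgebraicClosure (ZMod p))ˣ),
        ∀ d, ∀ s ∈ 𝒮 d, x s = u ^ d * α.act g (z.comp y) s) :
    P (projOpen 𝒮 c).toScheme := by
  obtain ⟨G', e, he, hflag⟩ := exists_prodGm G
  have hG' : Flagged G' := hflag hG
  have hst1 : (plus38 𝒮 h0 α hα e he).Stable c :=
    fun _ _ hx a ha => scal38_kill 𝒮 h0 hc _ (hcs _ _ hx) a ha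
  have hst2 : (plus38 𝒮 h0 α hα e he).Stable (Ideal.span (𝒮 1 : Set S)) := by
    intro R _ _ g x hx a ha
    have h3 := act_kill38 𝒮 h0 hα hS (e R g).1 x fun s hs => hx s (Ideal.subset_span hs)
    have h8 : Ideal.span (𝒮 1 : Set S) ≤
        RingHom.ker ((plus38 𝒮 h0 α hα e he).act g x) := by
      rw [Ideal.span_le]
      intro s hs
      rw [SetLike.mem_coe, RingHom.mem_ker]
      show scal38 𝒮 h0 _ (α.act (e R g).1 x) s = 0
      rw [scal38_apply 𝒮 h0 _ _ hs, h3 s hs, mul_zero]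
    exact h8 ha
  have hst : (plus38 𝒮 h0 α hα e he).Stable (c * Ideal.span (𝒮 1 : Set S)) :=
    Act.Stable.mul hst1 hst2
  refine hP.cone S 𝒮 c hS hc (aff hP hG'.good (gen_all hP hG') hS.fg
    (plus38 𝒮 h0 α hα e he) _ hst hR hdim y fun Ω _ _ _ x hx =>
      weak hG'.good hS.fg (plus38 𝒮 h0 α hα e he) _ hR y ?_ x hx)
  intro p _ _ x ⟨a, ha, hxa⟩
  have ha1 : a ∈ c := Ideal.mul_le_left (I := c) (J := Ideal.span (𝒮 1 : Set S)) ha
  have ha2 : a ∈ Ideal.span (𝒮 1 : Set S) :=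
    Ideal.mul_le_right (I := c) (J := Ideal.span (𝒮 1 : Set S)) ha
  have h1 : ∃ a ∈ c, x a ≠ 0 := ⟨a, ha1, hxa⟩
  have h3 : ∃ a ∈ 𝒮 1, x a ≠ 0 := by
    by_contra h2
    push Not at h2
    have h4 : Ideal.span (𝒮 1 : Set S) ≤ RingHom.ker x := by
      rw [Ideal.span_le]
      exact fun b hb => RingHom.mem_ker.2 (h2 b hb)
    exact hxa (RingHom.mem_ker.1 (h4 ha2))
  obtain ⟨z, g, u, hz⟩ := h p x h1 h3
  refine ⟨z, (e (AlgebraicClosure (ZMod p))).symm (g, u), hom_ext38 𝒮 fun d s hs => ?_⟩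
  show x s = scal38 𝒮 h0 (((e _) ((e _).symm (g, u))).2 : AlgebraicClosure (ZMod p))
    (α.act ((e _) ((e _).symm (g, u))).1 (z.comp y)) s
  rw [MulEquiv.apply_symm_apply, scal38_apply 𝒮 h0 _ _ hs]
  exact hz d s hs

end Pool.Agent.Helper72.OC
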