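import Pool.Agent.Helper17.OCK.SL
import Pool.Agent.Helper72.OB.RR

/-!
# Orbit theorem for flagged groups, block K1: the group scheme of the invertible matrices supported
on a preorder is good
-/

set_option autoImplicit false

namespace Pool.Agent.Helper72.OC

open TensorProduct
open Pool.Agent.Helper72.OB (Pre Gp)

variable {n : ℕ} (r : Pre n)

/-- the structure map of the coordinate ring over `Λ` is the algebra map -/
private theorem algebraMap_RR74 (Λ : Type) [CommRing Λ] :
    algebraMap Λ (OB.RR r Λ) = OB.ιR r Λ := by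
  ext a
  exact IsScalarTower.algebraMap_apply Λ (MvPolynomial (OB.Idx r) Λ) (OB.RR r Λ) a

section

variable (Λ : Type) [CommRing Λ]

/-- the evaluation as a homomorphism of algebras -/
private noncomputable def evA74 {R : Type} [CommRing R] [Algebra Λ R] (g : Gp r R) :
    OB.RR r Λ →ₐ[Λ] R :=
  { OB.ev r (algebraMap Λ R) g with
    commutes' := fun a => by
      show OB.ev r (algebraMap Λ R) g (algebraMap Λ (OB.RR r Λ) a) = _
      rw [algebraMap_RR74, OB.ev_ι] }

private theorem evA_coe74 {R : Type} [CommRing R] [Algebra Λ R] (g : Gp r R) :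
    (evA74 r Λ g : OB.RR r Λ →+* R) = OB.ev r (algebraMap Λ R) g := rfl

/-- the group scheme of the invertible matrices supported on `r` -/
noncomputable def glG : GSch Λ where
  Pt := fun R _ _ => Gs False r R
  grp := fun R _ _ => inferInstance
  map := fun {R R'} _ _ _ _ f => Gs.map False r (f : R →+* R')
  O := OB.RR r Λ
  ring := inferInstance
  alg := inferInstance
  gen := ⟨OB.gam r Λ, fun h => h.elim⟩
  ev := fun {R} _ _ g => evA74 r Λ g.1
  map_ev := by
    intro R _ _ g
    apply Subtype.ext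
    show Gp.map r (evA74 r Λ g.1 : OB.RR r Λ →+* R) (OB.gam r Λ) = g.1
    rw [evA_coe74, OB.map_ev_gam]
  ev_map := by
    intro R _ _ f
    apply AlgHom.coe_ringHom_injective
    show OB.ev r (algebraMap Λ R) (Gp.map r (f : OB.RR r Λ →+* R) (OB.gam r Λ)) = f
    have h1 := OB.eq_ev r (f : OB.RR r Λ →+* R)
    rw [← algebraMap_RR74, AlgHom.comp_algebraMap] at h1
    exact h1.symm
  map_comp := by
    intro R R' R'' _ _ _ _ _ _ f f' g
    apply Subtype.ext
    exact OB.Gp.map_comp r (f : R →+* R') (f' : R' →+* R'') g.1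

theorem isGs_glG : IsGs False r (glG r Λ) :=
  ⟨fun R _ _ => MulEquiv.refl _, fun R R' _ _ _ _ f g => rfl⟩

end

section

variable (Λ : Type) [CommRing Λ] (A : Type) [CommRing A] [Algebra Λ A]

/-- base change of the coordinate ring, forward -/
private noncomputable def phi74 : A ⊗[Λ] OB.RR r Λ →+* OB.RR r A :=
  (Algebra.TensorProduct.lift
    (IsScalarTower.toAlgHom Λ A (OB.RR r A))
    (evA74 r Λ (OB.gam r A)) fun _ _ => mul_comm _ _).toRingHom

private theorem phi_left74 (a : A) : phi74 r Λ A (a ⊗ₜ 1) = OB.ιR r A a := by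
  show Algebra.TensorProduct.lift _ _ _ (a ⊗ₜ 1) = _
  rw [Algebra.TensorProduct.lift_tmul, map_one, mul_one]
  show algebraMap A (OB.RR r A) a = _
  rw [algebraMap_RR74]

private theorem phi_right74 (b : OB.RR r Λ) :
    phi74 r Λ A (1 ⊗ₜ b) = OB.RRmap r (algebraMap Λ A) b := by
  show Algebra.TensorProduct.lift _ _ _ (1 ⊗ₜ b) = _
  rw [Algebra.TensorProduct.lift_tmul, map_one, one_mul]
  show OB.ev r (algebraMap Λ (OB.RR r A)) (OB.gam r A) b =
    OB.ev r ((OB.ιR r A).comp (algebraMap Λ A)) (OB.gam r A) b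
  rw [← algebraMap_RR74, ← IsScalarTower.algebraMap_eq]

/-- base change of the coordinate ring, backward -/
private noncomputable def psi74 : OB.RR r A →+* A ⊗[Λ] OB.RR r Λ :=
  OB.ev r (algebraMap A (A ⊗[Λ] OB.RR r Λ))
    (Gp.map r ((Algebra.TensorProduct.includeRight : OB.RR r Λ →ₐ[Λ] A ⊗[Λ] OB.RR r Λ) :
      OB.RR r Λ →+* A ⊗[Λ] OB.RR r Λ) (OB.gam r Λ))

private theorem psi_phi74 (b : A ⊗[Λ] OB.RR r Λ) : psi74 r Λ A (phi74 r Λ A b) = b := by
  have h2 : (psi74 r Λ A).comp (OB.RRmap r (algebraMap Λ A)) =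
      ((Algebra.TensorProduct.includeRight : OB.RR r Λ →ₐ[Λ] A ⊗[Λ] OB.RR r Λ) :
        OB.RR r Λ →+* A ⊗[Λ] OB.RR r Λ) := by
    rw [psi74, OB.ev_comp_RRmap]
    have h1 := OB.eq_ev r ((Algebra.TensorProduct.includeRight :
      OB.RR r Λ →ₐ[Λ] A ⊗[Λ] OB.RR r Λ) : OB.RR r Λ →+* A ⊗[Λ] OB.RR r Λ)
    rw [← algebraMap_RR74, AlgHom.comp_algebraMap] at h1
    rw [← IsScalarTower.algebraMap_eq]
    exact h1.symm
  induction b using TensorProduct.induction_on with
  | zero => rw [map_zero, map_zero]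
  | tmul a x =>
    have h3 : a ⊗ₜ[Λ] x = (a ⊗ₜ[Λ] (1 : OB.RR r Λ)) * ((1 : A) ⊗ₜ[Λ] x) := by
      rw [Algebra.TensorProduct.tmul_mul_tmul, mul_one, one_mul]
    rw [h3, map_mul, map_mul, phi_left74, phi_right74]
    congr 1
    · rw [psi74, OB.ev_ι]
      rfl
    · exact congrArg (fun f => f x) h2
  | add x y hx hy => rw [map_add, map_add, hx, hy]

private theorem phi_psi74 (b : OB.RR r A) : phi74 r Λ A (psi74 r Λ A b) = b := by
  have h : (phi74 r Λ A).comp (psi74 r Λ A) = RingHom.id _ := by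
    apply OB.RR_hom_ext
    · ext a
      show phi74 r Λ A (psi74 r Λ A (OB.ιR r A a)) = OB.ιR r A a
      rw [psi74, OB.ev_ι]
      exact phi_left74 r Λ A a
    · rw [OB.Gp.map_comp, OB.Gp.map_id, psi74, OB.map_ev_gam, ← OB.Gp.map_comp]
      have h1 : (phi74 r Λ A).comp ((Algebra.TensorProduct.includeRight :
          OB.RR r Λ →ₐ[Λ] A ⊗[Λ] OB.RR r Λ) : OB.RR r Λ →+* A ⊗[Λ] OB.RR r Λ) =
          OB.RRmap r (algebraMap Λ A) := by
        ext1 x
        exact phi_right74 r Λ A x
      rw [h1, OB.map_RRmap_gam]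
  exact congrArg (fun f => f b) h

/-- base change of the coordinate ring -/
private noncomputable def bc74 : A ⊗[Λ] OB.RR r Λ ≃+* OB.RR r A :=
  { phi74 r Λ A with
    invFun := psi74 r Λ A
    left_inv := psi_phi74 r Λ A
    right_inv := phi_psi74 r Λ A }

private theorem phi_inj74 : Function.Injective (phi74 r Λ A) :=
  Function.LeftInverse.injective (psi_phi74 r Λ A)

variable {A}

private theorem phi_map74 {R : Type} [CommRing R] [Algebra Λ R] (f : A →ₐ[Λ] R)
    (b : A ⊗[Λ] OB.RR r Λ) :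
    phi74 r Λ R (Algebra.TensorProduct.map f (AlgHom.id Λ (OB.RR r Λ)) b) =
      OB.RRmap r (f : A →+* R) (phi74 r Λ A b) := by
  have h2 : (OB.RRmap r (f : A →+* R)).comp (OB.RRmap r (algebraMap Λ A)) =
      OB.RRmap r (algebraMap Λ R) := by
    rw [OB.RRmap, OB.ev_comp_RRmap, RingHom.comp_assoc, AlgHom.comp_algebraMap]
    rfl
  induction b using TensorProduct.induction_on with
  | zero => rw [map_zero, map_zero, map_zero, map_zero]
  | tmul a x =>
    have h3 : a ⊗ₜ[Λ] x = (a ⊗ₜ[Λ] (1 : OB.RR r Λ)) * ((1 : A) ⊗ₜ[Λ] x) := by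
      rw [Algebra.TensorProduct.tmul_mul_tmul, mul_one, one_mul]
    rw [h3, map_mul, map_mul, map_mul, map_mul, Algebra.TensorProduct.map_tmul,
      Algebra.TensorProduct.map_tmul, map_one, map_one, AlgHom.id_apply, phi_left74, phi_left74,
      phi_right74, phi_right74]
    congr 1
    · exact (congrArg (fun f => f a) (OB.RRmap_comp_ι r (f : A →+* R))).symm
    · exact (congrArg (fun f => f x) h2).symm
  | add x y hx hy => rw [map_add, map_add, map_add, map_add, hx, hy]

end

theorem good_glG (Λ : Type) [CommRing Λ] : (glG r Λ).Good := by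
  refine ⟨?_, fun A _ _ hA => ?_, fun A _ _ b => ?_⟩
  · show Algebra.Smooth Λ (OB.RR r Λ)
    have h1 : Algebra.Smooth Λ (MvPolynomial (OB.Idx r) Λ) := { }
    have h2 : Algebra.Smooth (MvPolynomial (OB.Idx r) Λ) (OB.RR r Λ) :=
      Algebra.Smooth.of_isLocalization_Away (OB.gmat r Λ).det
    exact Algebra.Smooth.comp Λ (MvPolynomial (OB.Idx r) Λ) (OB.RR r Λ)
  · have h1 : IsDomain (OB.RR r A) := OB.isDomain_RR r A
    exact (bc74 r Λ A).toMulEquiv.isDomain _
  · classical
    obtain ⟨k, F, hF⟩ := OB.exists_num r (phi74 r Λ A b)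
    refine ⟨F.support.image fun m => MvPolynomial.coeff m F, fun R _ _ f => ?_⟩
    have h1 : Algebra.TensorProduct.map f (AlgHom.id Λ (OB.RR r Λ)) b = 0 ↔
        OB.RRmap r (f : A →+* R) (phi74 r Λ A b) = 0 := by
      rw [← phi_map74, map_eq_zero_iff _ (phi_inj74 r Λ R)]
    have h2 : OB.RRmap r (f : A →+* R) (phi74 r Λ A b) = 0 ↔
        MvPolynomial.map (f : A →+* R) F = 0 := by
      have h3 : OB.RRmap r (f : A →+* R) (algebraMap _ _ F) = 0 ↔
          MvPolynomial.map (f : A →+* R) F = 0 := by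
        rw [OB.RRmap_algebraMap, map_eq_zero_iff _ (OB.algebraMap_RR_inj r R)]
      rw [← h3, ← hF, map_mul]
      have h4 : IsUnit (OB.RRmap r (f : A →+* R)
          (algebraMap _ (OB.RR r A) ((OB.gmat r A).det ^ k))) := by
        apply IsUnit.map
        rw [map_pow]
        exact (IsLocalization.Away.algebraMap_isUnit _).pow k
      exact (h4.mul_right_eq_zero).symm
    refine h1.trans (h2.trans ?_)
    rw [MvPolynomial.ext_iff]
    constructor
    · intro h c hc
      obtain ⟨m, _, rfl⟩ := Finset.mem_image.1 hc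
      have h3 := h m
      rw [MvPolynomial.coeff_map, MvPolynomial.coeff_zero] at h3
      exact h3
    · intro h m
      rw [MvPolynomial.coeff_map, MvPolynomial.coeff_zero]
      by_cases hm : m ∈ F.support
      · exact h _ (Finset.mem_image.2 ⟨m, hm, rfl⟩)
      · rw [MvPolynomial.notMem_support_iff.1 hm, map_zero]

/-- the group of the invertible matrices supported on `r` is a good group scheme -/
theorem exists_GL_good (Λ : Type) [CommRing Λ] : ∃ G : GSch Λ, IsGs False r G ∧ G.Good :=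
  ⟨glG r Λ, isGs_glG r Λ, good_glG r Λ⟩

end Pool.Agent.Helper72.OC
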