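import Pool.Agent.Helper6.OCK.SpAll
import Pool.Agent.Helper17.OCK.SL

/-!
# Orbit theorem for flagged groups, block K3: symplectic groups
-/

set_option autoImplicit false

namespace Pool.Agent.Helper72.OC

open Pool.Agent.Helper72.OB (Pre)

/-- `G` represents the functor of symplectic matrices of size `2m` -/
def IsSp (m : ℕ) {Λ : Type} [CommRing Λ] (G : GSch Λ) : Prop :=
  ∃ e : ∀ (R : Type) [CommRing R] [Algebra Λ R], G.Pt R ≃* Matrix.symplecticGroup (Fin m) R,
    ∀ (R R' : Type) [CommRing R] [Algebra Λ R] [CommRing R'] [Algebra Λ R'] (f : R →ₐ[Λ] R')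
      (g : G.Pt R), (e R' (G.map f g) : Matrix (Fin m ⊕ Fin m) (Fin m ⊕ Fin m) R') =
        (e R g : Matrix (Fin m ⊕ Fin m) (Fin m ⊕ Fin m) R).map f

/-- The symplectic groups are flagged if the linear groups of preorders are good. -/
theorem exists_Sp_of_good (m : ℕ) {Λ : Type} [CommRing Λ]
    (H : ∀ r : Pre m, ∃ G : GSch Λ, IsGs False r G ∧ G.Good) :
    ∃ G : GSch Λ, IsSp m G ∧ Flagged G := by
  obtain ⟨B, hB, hF⟩ := Pool.Agent.Helper17.OCK.exists_Gs_of_good False H (leP m)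
  refine ⟨Pool.Agent.Helper6.OCK.schSpF m 0 Λ,
    ⟨fun R _ _ => (MulEquiv.subgroupCongr (Pool.Agent.Helper6.OCK.SpF_zero m R)).trans
      Subgroup.topEquiv, fun R R' _ _ _ _ f g => rfl⟩, ?_⟩
  exact (Pool.Agent.Helper6.OCK.flagged_schSpF hB hF m 0 (zero_add m)).2

end Pool.Agent.Helper72.OC
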