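import Pool.Agent.Helper72.OC.GL
import Pool.Agent.Helper72.OC.Sp

/-!
# Orbit theorem for flagged groups, block K: linear groups of preorders and symplectic groups
-/

set_option autoImplicit false

namespace Pool.Agent.Helper72.OC

open Pool.Agent.Helper72.OB (Pre)

theorem exists_Gs (s : Prop) {n : ℕ} (r : Pre n) (Λ : Type) [CommRing Λ] :
    ∃ G : GSch Λ, IsGs s r G ∧ Flagged G :=
  Pool.Agent.Helper17.OCK.exists_Gs_of_good s (fun r => exists_GL_good r Λ) r

theorem exists_Sp (m : ℕ) (Λ : Type) [CommRing Λ] : ∃ G : GSch Λ, IsSp m G ∧ Flagged G :=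
  exists_Sp_of_good m fun r => exists_GL_good r Λ

end Pool.Agent.Helper72.OC
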