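import Pool.Agent.Helper72.OC.Defs2

/-!
# Orbit theorem for flagged groups, block B: coordinate rings and contents
-/

set_option autoImplicit false

namespace Pool.Agent.Helper72.OC

open TensorProduct
open Pool.Agent.Helper65.Mor (FGen)

variable {Λ : Type} [CommRing Λ] (G : GSch Λ)

section

variable {A B R : Type} [CommRing A] [Algebra Λ A] [CommRing B] [Algebra Λ B] [CommRing R]
  [Algebra Λ R]

theorem ιR_inj : Function.Injective (ιR G A) := by
  intro a b h
  have h1 := congrArg (ev G (AlgHom.id Λ A) 1) h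
  rwa [ev_ι, ev_ι] at h1

theorem isDomain_RR (hG : G.Good) [IsDomain A] : IsDomain (RR G A) := hG.domain A inferInstance

theorem fgen_RR (hG : G.Good) (hA : FGen A) : FGen (RR G A) := by
  have := hG.smooth
  exact hA.of_hom (algebraMap A (RR G A)) (RingHom.finiteType_algebraMap.2 inferInstance)

theorem RRmap_comp_ι (f : A →ₐ[Λ] B) : (RRmap G f).comp (ιR G A) = (ιR G B).comp f :=
  ev_comp_ι G _ _

theorem map_RRmap_gam (f : A →ₐ[Λ] B) : G.map (RRmap G f) (gam G A) = gam G B :=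
  map_ev_gam G _ _

private theorem RRmap_id56 : RRmap G (AlgHom.id Λ A) = AlgHom.id Λ (RR G A) := by
  rw [RRmap_eq, Algebra.TensorProduct.map_id]

theorem exists_content_aux56 (hG : G.Good) (b : RR G A) : ∃ s : Finset A,
    ∀ (R : Type) [CommRing R] [Algebra Λ R] (f : A →ₐ[Λ] R), RRmap G f b = 0 ↔ ∀ c ∈ s, f c = 0 := by
  obtain ⟨s, hs⟩ := hG.content A b
  refine ⟨s, fun R _ _ f => ?_⟩
  rw [RRmap_eq]
  exact hs R f

theorem RRmap_inj (hG : G.Good) {f : A →ₐ[Λ] B} (hf : Function.Injective f) :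
    Function.Injective (RRmap G f) := by
  rw [injective_iff_map_eq_zero]
  intro b hb
  obtain ⟨s, hs⟩ := exists_content_aux56 G hG b
  have h1 : ∀ c ∈ s, AlgHom.id Λ A c = 0 := fun c hc => by
    have h2 := (hs B f).1 hb c hc
    rw [← map_zero f] at h2
    exact hf h2
  have h2 := (hs A (AlgHom.id Λ A)).2 h1
  rwa [RRmap_id56, AlgHom.id_apply] at h2

theorem ker_RRmap_mk (I : Ideal A) :
    RingHom.ker (RRmap G (Ideal.Quotient.mkₐ Λ I)) = I.map (ιR G A) := by
  rw [RRmap_eq]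
  have h0 : RingHom.ker (Ideal.Quotient.mkₐ Λ I) = I := by
    ext a
    rw [RingHom.mem_ker, Ideal.Quotient.mkₐ_eq_mk, Ideal.Quotient.eq_zero_iff_mem]
  have h : RingHom.ker (Algebra.TensorProduct.map (Ideal.Quotient.mkₐ Λ I) (AlgHom.id Λ G.O)) =
      (RingHom.ker (Ideal.Quotient.mkₐ Λ I)).map (ιR G A) :=
    Algebra.TensorProduct.rTensor_ker _ (Ideal.Quotient.mkₐ_surjective Λ I)
  rw [h0] at h
  exact h

theorem ev_comp_RRmap (f : A →ₐ[Λ] B) (x : B →ₐ[Λ] R) (g : G.Pt R) :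
    (ev G x g).comp (RRmap G f) = ev G (x.comp f) g := by
  apply RR_hom_ext
  · rw [AlgHom.comp_assoc, RRmap_comp_ι, ← AlgHom.comp_assoc, ev_comp_ι, ev_comp_ι]
  · rw [G.map_comp, map_RRmap_gam, map_ev_gam, map_ev_gam]

/-- contents -/
theorem exists_content (hG : G.Good) (b : RR G A) : ∃ s : Finset A,
    ∀ (R : Type) [CommRing R] [Algebra Λ R] (f : A →ₐ[Λ] R), RRmap G f b = 0 ↔ ∀ c ∈ s, f c = 0 :=
  exists_content_aux56 G hG b

/-- the kernel criterion -/
theorem RRmap_eq_zero_iff (hG : G.Good) (b : RR G A) (f : A →ₐ[Λ] B) :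
    RRmap G f b = 0 ↔ b ∈ (RingHom.ker f).map (ιR G A) := by
  have h1 : (Ideal.kerLiftAlg f).comp (Ideal.Quotient.mkₐ Λ (RingHom.ker f)) = f := by
    ext a
    simp
  have h2 : RRmap G f = (RRmap G (Ideal.kerLiftAlg f)).comp
      (RRmap G (Ideal.Quotient.mkₐ Λ (RingHom.ker f))) := by
    conv_lhs => rw [← h1]
    rw [RRmap, RRmap, ev_comp_RRmap, AlgHom.comp_assoc]
  rw [h2, AlgHom.comp_apply, ← ker_RRmap_mk, RingHom.mem_ker]
  constructor
  · intro h
    apply RRmap_inj G hG (Ideal.kerLiftAlg_injective f)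
    rw [h, map_zero]
  · intro h
    rw [h, map_zero]

end

end Pool.Agent.Helper72.OC
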