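import Pool.Agent.Helper72.OC.SolvOps
import Pool.Agent.Helper72.OB.Torus
import Pool.Agent.Helper72.OB.SchLine

/-!
# Orbit theorem for flagged groups, block G2c: the generic statement for solvable data
-/

set_option autoImplicit false

namespace Pool.Agent.Helper72.OC

open AlgebraicGeometry CategoryTheory
open Pool.Agent.Helper65.Mor (Arithmetic ClosedOpen FGen)
open Pool.Agent.Helper9.RS (Kron)
open Pool.Agent.Helper72.OB (Rules DD GaCo ToCo P_away P_poly P_iso torusAbs)

section Aux54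

open Polynomial

variable {A : Type} [CommRing A] {N n : ℕ}

private theorem inv_iff54 (s : SolvData A N n) (k : Fin N) (a : A) :
    s.τ k a = C a ↔ ∀ i, 0 < i → (s.τ k a).coeff i = 0 := by
  constructor
  · intro h i hi
    rw [h, coeff_C, if_neg (by omega)]
  · intro h
    ext i
    rcases Nat.eq_zero_or_pos i with hi | hi
    · subst hi
      rw [s.zero, coeff_C_zero]
    · rw [h i hi, coeff_C, if_neg (by omega)]

/-- `D_i` is linear over the invariants -/
private theorem D_mul_inv54 (t : A →+* A[X]) {a b : A} (hb : t b = C b) (i : ℕ) :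
    (t (a * b)).coeff i = (t a).coeff i * b := by
  rw [map_mul, hb, coeff_mul_C]

private theorem inv_pow54 (t : A →+* A[X]) {b : A} (hb : t b = C b) (k : ℕ) : t (b ^ k) = C (b ^ k) := by
  rw [map_pow, hb, C_pow]

private theorem hom_mul54 (θ : ToCo n A) {χ χ' : Fin n → ℤ} {a b : A} (ha : θ.Hom χ a) (hb : θ.Hom χ' b) :
    θ.Hom (χ + χ') (a * b) := by
  unfold ToCo.Hom at *
  rw [map_mul, ha, hb, AddMonoidAlgebra.single_mul_single]

private theorem hom_pow54 (θ : ToCo n A) {χ : Fin n → ℤ} {a : A} (ha : θ.Hom χ a) (k : ℕ) :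
    θ.Hom (k • χ) (a ^ k) := by
  unfold ToCo.Hom at *
  rw [map_pow, ha, AddMonoidAlgebra.single_pow]

private theorem semi_mul54 (s : SolvData A N n) {a b : A} (ha : s.Semi a) (hb : s.Semi b) :
    s.Semi (a * b) := by
  obtain ⟨h1, χ, h2⟩ := ha
  obtain ⟨h3, χ', h4⟩ := hb
  exact ⟨fun h => by rw [map_mul, h1, h3, C_mul], χ + χ', hom_mul54 _ h2 h4⟩

private theorem semi_pow54 (s : SolvData A N n) {a : A} (ha : s.Semi a) (k : ℕ) : s.Semi (a ^ k) := by
  obtain ⟨h1, χ, h2⟩ := ha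
  exact ⟨fun h => inv_pow54 _ (h1 h) k, k • χ, hom_pow54 _ h2 k⟩

/-- the coefficients of `θ (a b)` for homogeneous `b` -/
private theorem coeff_hom54 (θ : ToCo n A) {χ : Fin n → ℤ} {a b : A} (hb : θ.Hom χ b) (ψ : Fin n → ℤ) :
    (θ.θ (a * b)).coeff (ψ + χ) = (θ.θ a).coeff ψ * b := by
  unfold ToCo.Hom at hb
  rw [map_mul, hb, AddMonoidAlgebra.coeff_mul_single_apply]
  congr 2
  abel

variable {B : Type} [CommRing B]

private theorem hom_map54 {θ : ToCo n A} {θ' : ToCo n B} {f : A →+* B}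
    (h : ∀ a χ, (θ'.θ (f a)).coeff χ = f ((θ.θ a).coeff χ)) {χ : Fin n → ℤ} {a : A} (ha : θ.Hom χ a) :
    θ'.Hom χ (f a) := by
  classical
  unfold ToCo.Hom at *
  apply AddMonoidAlgebra.ext
  ext ψ
  rw [h, ha, AddMonoidAlgebra.coeff_single, AddMonoidAlgebra.coeff_single, Finsupp.single_apply,
    Finsupp.single_apply, apply_ite f, map_zero]

private theorem hom_comap54 {θ : ToCo n A} {θ' : ToCo n B} {f : A →+* B} (hf : Function.Injective f)
    (h : ∀ a χ, (θ'.θ (f a)).coeff χ = f ((θ.θ a).coeff χ)) {χ : Fin n → ℤ} {a : A}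
    (ha : θ'.Hom χ (f a)) : θ.Hom χ a := by
  classical
  unfold ToCo.Hom at *
  apply AddMonoidAlgebra.ext
  ext ψ
  apply hf
  rw [← h, ha, AddMonoidAlgebra.coeff_single, AddMonoidAlgebra.coeff_single, Finsupp.single_apply,
    Finsupp.single_apply, apply_ite f, map_zero]

private theorem semi_map54 {s : SolvData A N n} {s' : SolvData B N n} {f : A →+* B}
    (h1 : ∀ k i a, (s'.τ k (f a)).coeff i = f ((s.τ k a).coeff i))
    (h2 : ∀ a χ, (s'.θ.θ (f a)).coeff χ = f ((s.θ.θ a).coeff χ)) {a : A} (ha : s.Semi a) :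
    s'.Semi (f a) := by
  obtain ⟨h3, χ, h4⟩ := ha
  refine ⟨fun k => ?_, χ, hom_map54 h2 h4⟩
  rw [inv_iff54]
  intro i hi
  rw [h1, (inv_iff54 _ _ _).1 (h3 k) i hi, map_zero]

private theorem semi_comap54 {s : SolvData A N n} {s' : SolvData B N n} {f : A →+* B}
    (hf : Function.Injective f) (h1 : ∀ k i a, (s'.τ k (f a)).coeff i = f ((s.τ k a).coeff i))
    (h2 : ∀ a χ, (s'.θ.θ (f a)).coeff χ = f ((s.θ.θ a).coeff χ)) {a : A} (ha : s'.Semi (f a)) :
    s.Semi a := by
  obtain ⟨h3, χ, h4⟩ := ha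
  refine ⟨fun k => ?_, χ, hom_comap54 hf h2 h4⟩
  rw [inv_iff54]
  intro i hi
  apply hf
  rw [← h1, (inv_iff54 _ _ _).1 (h3 k) i hi, map_zero]

/-- semi-invariants of the restricted data are semi-invariants -/
private theorem semi_restr54 {s : SolvData A (N + 1) n} {s' : SolvData s.ga.inv N n}
    (h1 : ∀ k i b, ((s'.τ k b).coeff i : A) = (s.τ k.succ (b : A)).coeff i)
    (h2 : ∀ b χ, ((s'.θ.θ b).coeff χ : A) = (s.θ.θ (b : A)).coeff χ) {b : s.ga.inv} (hb : s'.Semi b) :
    s.Semi (b : A) := by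
  obtain ⟨h3, χ, h4⟩ := hb
  refine ⟨fun k => ?_, χ, hom_map54 (f := s.ga.inv.subtype) (fun b χ => (h2 b χ).symm) h4⟩
  refine Fin.cases ?_ (fun k => ?_) k
  · exact (GaCo.mem_inv _ _).1 b.2
  · rw [inv_iff54]
    intro i hi
    rw [← h1, (inv_iff54 _ _ _).1 (h3 k) i hi]
    rfl

private theorem drop_aux54 (s : SolvData A (N + 1) n) (h0 : ∀ a, s.τ 0 a = C a) {l : Fin N} {a : A}
    (ha : ∀ h < l, s.τ h.succ a = C a) : ∀ h < l.succ, s.τ h a = C a := by
  intro h hh
  revert hh
  refine Fin.cases ?_ (fun h' => ?_) h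
  · intro _
    exact h0 a
  · intro hh
    exact ha h' (Fin.succ_lt_succ_iff.1 hh)

/-- drop the first additive coaction if it is trivial -/
private def drop54 (s : SolvData A (N + 1) n) (h0 : ∀ a, s.τ 0 a = C a) : SolvData A N n where
  τ k := s.τ k.succ
  θ := s.θ
  β k := s.β k.succ
  zero k a := s.zero k.succ a
  co l a ha i j := s.co l.succ a (drop_aux54 s h0 ha) i j
  comm l k a ha i j := s.comm l.succ k.succ a (drop_aux54 s h0 ha) i j
  wt k i χ a ha hχ := s.wt k.succ i χ a (drop_aux54 s h0 ha) hχ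

/-- stable ideals extend to stable ideals of the localisation at a semi-invariant -/
private theorem stab_loc54 {s : SolvData A N n} {f : A} (hs : s.Semi f) [Algebra A B]
    [IsLocalization.Away f B] {s' : SolvData B N n}
    (h1 : ∀ k i a, (s'.τ k (algebraMap A B a)).coeff i = algebraMap A B ((s.τ k a).coeff i))
    (h2 : ∀ a χ, (s'.θ.θ (algebraMap A B a)).coeff χ = algebraMap A B ((s.θ.θ a).coeff χ))
    {e : Ideal A} (he : s.StabI e) : s'.StabI (e.map (algebraMap A B)) := by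
  have hfs : s'.Semi (algebraMap A B f) := semi_map54 h1 h2 hs
  have hfu : IsUnit (algebraMap A B f) := IsLocalization.Away.algebraMap_isUnit f
  have hx : ∀ x ∈ e.map (algebraMap A B), ∃ (k : ℕ) (a : A), a ∈ e ∧
      x * algebraMap A B f ^ k = algebraMap A B a := by
    intro x hx
    rw [IsLocalization.mem_map_algebraMap_iff (Submonoid.powers f)] at hx
    obtain ⟨⟨⟨a, ha⟩, ⟨_, k, rfl⟩⟩, h⟩ := hx
    exact ⟨k, a, ha, by rw [← map_pow]; exact h⟩
  have hu : ∀ (k : ℕ) (x : B), x * algebraMap A B f ^ k ∈ e.map (algebraMap A B) →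
      x ∈ e.map (algebraMap A B) := by
    intro k x h
    obtain ⟨v, hv⟩ := (hfu.pow k).exists_right_inv
    have h3 := Ideal.mul_mem_right v _ h
    rwa [mul_assoc, hv, mul_one] at h3
  obtain ⟨hf1, χ, hf2⟩ := hfs
  refine ⟨fun j x hxe i => ?_, fun x hxe ψ => ?_⟩
  · obtain ⟨k, a, ha, h⟩ := hx x hxe
    apply hu k
    rw [← D_mul_inv54 _ (inv_pow54 _ (hf1 j) k), h, h1]
    exact Ideal.mem_map_of_mem _ (he.1 j a ha i)
  · obtain ⟨k, a, ha, h⟩ := hx x hxe
    apply hu k
    rw [← coeff_hom54 _ (hom_pow54 _ hf2 k), h, h2]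
    exact Ideal.mem_map_of_mem _ (he.2 a ha _)

end Aux54

open Polynomial in
private theorem step54 {P : Scheme.{0} → Prop} (hP : Rules P) {N n : ℕ} {L : Type} [Field L]
    (IH : ∀ (A : Type) [CommRing A] [IsDomain A], FGen A → ∀ (s : SolvData A N n) (y : A →+* L),
      (∀ a, s.Semi a → y a = 0 → a = 0) → ∃ f : A, f ≠ 0 ∧ s.Semi f ∧ ∀ e : Ideal A, e ≠ ⊥ →
        e ≤ Ideal.span {f} → s.StabI e → P (DD e).toScheme)
    (A : Type) [CommRing A] [IsDomain A] (hA : FGen A) (s : SolvData A (N + 1) n) (y : A →+* L)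
    (hy : ∀ a, s.Semi a → y a = 0 → a = 0) :
    ∃ f : A, f ≠ 0 ∧ s.Semi f ∧ ∀ e : Ideal A, e ≠ ⊥ → e ≤ Ideal.span {f} → s.StabI e →
      P (DD e).toScheme := by
  by_cases htop : s.ga.inv = ⊤
  · -- the first coaction is trivial
    have h0 : ∀ a, s.τ 0 a = C a := fun a => by
      have h1 : a ∈ s.ga.inv := by rw [htop]; trivial
      exact (GaCo.mem_inv _ _).1 h1
    have hsemi : ∀ a, (drop54 s h0).Semi a → s.Semi a := by
      rintro a ⟨h1, χ, h2⟩
      refine ⟨fun k => ?_, χ, h2⟩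
      refine Fin.cases (h0 a) (fun k => ?_) k
      exact h1 k
    obtain ⟨f, hf0, hfs, hf⟩ := IH A hA (drop54 s h0) y (fun a ha => hy a (hsemi a ha))
    exact ⟨f, hf0, hsemi f hfs, fun e he1 he2 he3 => hf e he1 he2 ⟨fun k => he3.1 k.succ, he3.2⟩⟩
  · obtain ⟨a, d, hd, hda, hmin, hsl⟩ := s.exists_slice htop
    set sl : A := s.ga.D d a with hsldef
    have hsl0 : sl ≠ 0 := by
      have h1 : sl = (s.ga.τ a).leadingCoeff := by
        rw [hsldef, GaCo.D, ← hda]; rfl
      rw [h1, Ne, leadingCoeff_eq_zero]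
      intro h2
      rw [h2, natDegree_zero] at hda
      omega
    let B : Type := Localization.Away sl
    have hle : Submonoid.powers sl ≤ nonZeroDivisors A := powers_le_nonZeroDivisors_of_noZeroDivisors hsl0
    have hinj : Function.Injective (algebraMap A B) := IsLocalization.injective B hle
    have hdom : IsDomain B := IsLocalization.isDomain_localization hle
    have hB : FGen B := hA.away sl
    have hunit : IsUnit (algebraMap A B sl) := IsLocalization.Away.algebraMap_isUnit sl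
    obtain ⟨s₁, h1, h2⟩ := s.exists_loc sl hsl B hsl0
    have hsl₁ : s₁.Semi (algebraMap A B sl) := semi_map54 h1 h2 hsl
    have hτmap : ∀ c : A, s₁.ga.τ (algebraMap A B c) = (s.ga.τ c).map (algebraMap A B) := by
      intro c
      ext i
      rw [coeff_map]
      exact h1 0 i c
    have hdeg : ∀ c : A, (s₁.ga.τ (algebraMap A B c)).natDegree = (s.ga.τ c).natDegree := by
      intro c
      rw [hτmap, natDegree_map_eq_of_injective hinj]
    have hda₁ : (s₁.ga.τ (algebraMap A B a)).natDegree = d := by rw [hdeg, hda]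
    have hmin₁ : ∀ c : B, (s₁.ga.τ c).natDegree = 0 ∨ d ≤ (s₁.ga.τ c).natDegree := by
      intro c
      obtain ⟨k, c', hc⟩ := IsLocalization.Away.surj sl c
      have h3 : s₁.ga.τ c * C (algebraMap A B sl ^ k) = s₁.ga.τ (algebraMap A B c') := by
        rw [← hc, map_mul]
        congr 1
        exact (inv_pow54 (s₁.τ 0) (hsl₁.1 0) k).symm
      have h4 : (s₁.ga.τ c).natDegree = (s.ga.τ c').natDegree := by
        rw [← hdeg, ← h3, natDegree_mul_C (pow_ne_zero _ hunit.ne_zero)]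
      rw [h4]
      exact hmin c'
    have hs₁ : IsUnit (s₁.ga.D d (algebraMap A B a)) := by
      have h3 : s₁.ga.D d (algebraMap A B a) = algebraMap A B sl := h1 0 d a
      rw [h3]
      exact hunit
    obtain ⟨φ, hφC, hφX⟩ := s₁.ga.slice_unit (algebraMap A B a) d hd hda₁ hmin₁ hs₁
    have hI : FGen s₁.ga.inv := by
      refine hB.of_surjective ((Polynomial.evalRingHom 0).comp (φ.symm : B →+* s₁.ga.inv[X])) ?_
      intro b
      refine ⟨φ (C b), ?_⟩
      show Polynomial.eval 0 (φ.symm (φ (C b))) = b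
      rw [φ.symm_apply_apply, eval_C]
    obtain ⟨s₂, h5, h6⟩ := s₁.exists_restr
    have hyu : IsUnit (y sl) := by
      rw [isUnit_iff_ne_zero]
      exact fun h => hsl0 (hy sl hsl h)
    let y₁ : B →+* L := IsLocalization.Away.lift sl hyu
    have hy₁ : ∀ c, y₁ (algebraMap A B c) = y c := fun c => IsLocalization.Away.lift_eq sl hyu c
    -- semi-invariants of `B` come from semi-invariants of `A`
    have hdesc : ∀ b : B, s₁.Semi b → ∃ (k : ℕ) (c : A), b * algebraMap A B sl ^ k = algebraMap A B c ∧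
        s.Semi c := by
      intro b hb
      obtain ⟨k, c, hc⟩ := IsLocalization.Away.surj sl b
      refine ⟨k, c, hc, semi_comap54 hinj h1 h2 ?_⟩
      rw [← hc]
      exact semi_mul54 _ hb (semi_pow54 _ hsl₁ k)
    have hy₂ : ∀ b : s₁.ga.inv, s₂.Semi b → (y₁.comp s₁.ga.inv.subtype) b = 0 → b = 0 := by
      intro b hb h0
      obtain ⟨k, c, hc, hcs⟩ := hdesc b (semi_restr54 h5 h6 hb)
      have h7 : y c = 0 := by
        rw [← hy₁, ← hc, map_mul]
        have : y₁ (b : B) = 0 := h0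
        rw [this, zero_mul]
      rw [hy c hcs h7, map_zero] at hc
      have h8 : (b : B) = 0 := by
        rcases mul_eq_zero.1 hc with h | h
        · exact h
        · exact absurd h (pow_ne_zero _ hunit.ne_zero)
      exact Subtype.ext h8
    obtain ⟨f₂, hf₂0, hf₂s, hf₂⟩ := IH s₁.ga.inv hI s₂ (y₁.comp s₁.ga.inv.subtype) hy₂
    obtain ⟨k, f', hf', hf's⟩ := hdesc f₂ (semi_restr54 h5 h6 hf₂s)
    have hf₂0' : (f₂ : B) ≠ 0 := fun h => hf₂0 (Subtype.ext h)
    have hf'0 : f' ≠ 0 := by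
      rintro rfl
      rw [map_zero] at hf'
      exact mul_ne_zero hf₂0' (pow_ne_zero _ hunit.ne_zero) hf'
    refine ⟨sl * f', mul_ne_zero hsl0 hf'0, semi_mul54 _ hsl hf's, fun e he0 hef hes => ?_⟩
    refine P_away hP hA sl e (hef.trans ?_) (B := B) ?_
    · rw [Ideal.span_singleton_le_span_singleton]
      exact dvd_mul_right _ _
    have hst : s₁.StabI (e.map (algebraMap A B)) := stab_loc54 hsl h1 h2 hes
    set J : Ideal B := e.map (algebraMap A B) with hJ
    have hJeq := s₁.ga.ideal_eq (algebraMap A B a) d hd hda₁ hmin₁ hs₁ J (hst.1 0)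
    set e₂ : Ideal s₁.ga.inv := J.comap s₁.ga.inv.subtype with he₂
    have he₂0 : e₂ ≠ ⊥ := by
      intro h
      rw [h, Ideal.map_bot] at hJeq
      apply he0
      rw [eq_bot_iff]
      intro x hx
      have h7 : algebraMap A B x ∈ J := Ideal.mem_map_of_mem _ hx
      rw [hJeq, Ideal.mem_bot] at h7
      rw [Ideal.mem_bot]
      exact hinj (h7.trans (map_zero _).symm)
    have he₂f : e₂ ≤ Ideal.span {f₂} := by
      intro b hb
      have h7 : (b : B) ∈ J := hb
      have h8 : J ≤ Ideal.span {(f₂ : B)} := by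
        rw [hJ]
        refine (Ideal.map_mono hef).trans ?_
        rw [Ideal.map_span, Set.image_singleton, Ideal.span_singleton_le_span_singleton, map_mul, ← hf']
        exact Dvd.intro (algebraMap A B sl ^ k * algebraMap A B sl) (by ring)
      obtain ⟨c, hc⟩ := Ideal.mem_span_singleton.1 (h8 h7)
      have hcinv : c ∈ s₁.ga.inv := by
        rw [GaCo.mem_inv]
        have h9 : C (f₂ : B) * s₁.ga.τ c = C (f₂ : B) * C c := by
          rw [← C_mul, ← hc, ← (GaCo.mem_inv _ _).1 b.2, hc, map_mul, (GaCo.mem_inv _ _).1 f₂.2]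
        exact mul_left_cancel₀ (C_ne_zero.2 hf₂0') h9
      rw [Ideal.mem_span_singleton]
      exact ⟨⟨c, hcinv⟩, Subtype.ext hc⟩
    have he₂s : s₂.StabI e₂ := by
      refine ⟨fun j b hb i => ?_, fun b hb χ => ?_⟩
      · show (((s₂.τ j b).coeff i : s₁.ga.inv) : B) ∈ J
        rw [h5]
        exact hst.1 j.succ b hb i
      · show (((s₂.θ.θ b).coeff χ : s₁.ga.inv) : B) ∈ J
        rw [h6]
        exact hst.2 b hb χ
    have hP1 := hf₂ e₂ he₂0 he₂f he₂s
    have hP2 := P_poly hP hI hP1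
    have hIX : FGen s₁.ga.inv[X] := FGen.of_hom hI Polynomial.C
      (RingHom.finiteType_algebraMap.2 (inferInstance : Algebra.FiniteType s₁.ga.inv s₁.ga.inv[X]))
    have hP3 := (P_iso hP hIX φ _).1 hP2
    have h10 : (e₂.map (C : s₁.ga.inv →+* s₁.ga.inv[X])).map (φ : s₁.ga.inv[X] →+* B) = J := by
      rw [Ideal.map_map, hJeq]
      congr 1
      ext b
      exact hφC b
    rwa [h10] at hP3

theorem solvAbs {P : Scheme.{0} → Prop} (hP : Rules P) {A : Type} [CommRing A] [IsDomain A]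
    (hA : FGen A) {N n : ℕ} (s : SolvData A N n) {L : Type} [Field L] (hL : Kron 0 L)
    (y : A →+* L) (hy : ∀ a, s.Semi a → y a = 0 → a = 0) :
    ∃ f : A, f ≠ 0 ∧ s.Semi f ∧ ∀ e : Ideal A, e ≠ ⊥ → e ≤ Ideal.span {f} → s.StabI e →
      P (DD e).toScheme := by
  have key : ∀ (N : ℕ) (A : Type) [CommRing A] [IsDomain A], FGen A → ∀ (s : SolvData A N n)
      (y : A →+* L), (∀ a, s.Semi a → y a = 0 → a = 0) → ∃ f : A, f ≠ 0 ∧ s.Semi f ∧
        ∀ e : Ideal A, e ≠ ⊥ → e ≤ Ideal.span {f} → s.StabI e → P (DD e).toScheme := by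
    intro N
    induction N with
    | zero =>
      intro A _ _ hA s y hy
      obtain ⟨f, hf0, hfh, hf⟩ := torusAbs hP hA s.θ hL y
        (fun a χ ha => hy a ⟨fun h => h.elim0, χ, ha⟩)
      exact ⟨f, hf0, ⟨fun h => h.elim0, hfh⟩, fun e he1 he2 he3 => hf e he1 he2 he3.2⟩
    | succ N ih =>
      intro A _ _ hA s y hy
      exact step54 hP ih A hA s y hy
  exact key N A hA s y hy

end Pool.Agent.Helper72.OC
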