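import Pool.Agent.Helper72.OC.Defs2
import Pool.Agent.Helper72.OB.Slice

/-!
# Orbit theorem for flagged groups: solvable data on rings
-/

set_option autoImplicit false

namespace Pool.Agent.Helper72.OC

open Polynomial
open Pool.Agent.Helper72.OB (GaCo ToCo)

/-- the data extracted from the action of a split solvable group: maps `τ k a = a(x_k(X) ·)` and a
torus coaction `θ`; on the elements `a` which are invariant under all `τ h`, `h < l`, the map `τ l`
is an additive coaction commuting with every `τ k`, and its coefficient operators shift weights -/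
structure SolvData (A : Type) [CommRing A] (N n : ℕ) where
  τ : Fin N → A →+* A[X]
  θ : ToCo n A
  β : Fin N → (Fin n → ℤ)
  zero : ∀ k a, (τ k a).coeff 0 = a
  co : ∀ (l : Fin N) (a : A), (∀ h < l, τ h a = C a) → ∀ i j,
    (τ l ((τ l a).coeff i)).coeff j = (Nat.choose (i + j) i : A) * (τ l a).coeff (i + j)
  comm : ∀ (l k : Fin N) (a : A), (∀ h < l, τ h a = C a) → ∀ i j,
    (τ l ((τ k a).coeff i)).coeff j = (τ k ((τ l a).coeff j)).coeff i
  wt : ∀ (k : Fin N) (i : ℕ) (χ : Fin n → ℤ) (a : A), (∀ h < k, τ h a = C a) → θ.Hom χ a →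
    θ.Hom (χ + i • β k) ((τ k a).coeff i)

variable {A : Type} [CommRing A] {N n : ℕ}

/-- semi-invariants -/
def SolvData.Semi (s : SolvData A N n) (a : A) : Prop :=
  (∀ h, s.τ h a = C a) ∧ ∃ χ, s.θ.Hom χ a

/-- stable ideals -/
def SolvData.StabI (s : SolvData A N n) (e : Ideal A) : Prop :=
  (∀ k, ∀ a ∈ e, ∀ i, (s.τ k a).coeff i ∈ e) ∧ ∀ a ∈ e, ∀ χ, (s.θ.θ a).coeff χ ∈ e

/-- the first map is an additive coaction -/
def SolvData.ga (s : SolvData A (N + 1) n) : GaCo A where
  τ := s.τ 0
  zero := s.zero 0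
  co a := s.co 0 a fun h hh => absurd hh (Fin.not_lt_zero h)

end Pool.Agent.Helper72.OC
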