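import Pool.Agent.Helper72.OC.SolvDefs

/-!
# Orbit theorem for flagged groups, block G2a: localisation, invariants and slices
-/

set_option autoImplicit false

namespace Pool.Agent.Helper72.OC

open Polynomial
open Pool.Agent.Helper72.OB (GaCo ToCo)

variable {A : Type} [CommRing A] {N n : ℕ}

/-! ### generalities -/

private theorem exists_factor54 {R Q S : Type} [CommRing R] [CommRing Q] [CommRing S] (f : R →+* S)
    (i : Q →+* S) (hi : Function.Injective i) (h : ∀ r, ∃ q, i q = f r) :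
    ∃ g : R →+* Q, ∀ r, i (g r) = f r := by
  choose g hg using h
  refine ⟨{ toFun := g, map_one' := ?_, map_mul' := ?_, map_zero' := ?_, map_add' := ?_ }, hg⟩
  · apply hi
    rw [hg, map_one, map_one]
  · intro x y
    apply hi
    rw [hg, map_mul, map_mul, hg, hg]
  · apply hi
    rw [hg, map_zero, map_zero]
  · intro x y
    apply hi
    rw [hg, map_add, map_add, hg, hg]

private theorem map_inj54 {B G : Type} [CommRing B] [AddMonoid G] {f : A →+* B}
    (hf : Function.Injective f) : Function.Injective (AddMonoidAlgebra.mapRingHom G f) := by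
  intro x y h
  rw [← AddMonoidAlgebra.coeff_inj]
  ext χ
  apply hf
  rw [← AddMonoidAlgebra.coeff_mapRingHom, ← AddMonoidAlgebra.coeff_mapRingHom, h]

private theorem sum_map54 {B G : Type} [CommRing B] [AddMonoid G] (f : A →+* B)
    (x : AddMonoidAlgebra A G) : (AddMonoidAlgebra.mapRingHom G f x).coeff.sum (fun _ b => b) =
      f (x.coeff.sum fun _ b => b) := by
  classical
  induction x using AddMonoidAlgebra.induction_linear with
  | zero => rw [map_zero]; exact (map_zero _).symm
  | add p q hp hq =>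
    have h1 : ∀ {R : Type} [CommRing R] (u v : AddMonoidAlgebra R G),
        (u + v).coeff.sum (fun _ b => b) = u.coeff.sum (fun _ b => b) + v.coeff.sum fun _ b => b :=
      fun u v => Finsupp.sum_add_index' (fun _ => rfl) fun _ _ _ => rfl
    rw [map_add, h1, h1, map_add, hp, hq]
  | single m c =>
    rw [AddMonoidAlgebra.mapRingHom_single, AddMonoidAlgebra.coeff_single,
      AddMonoidAlgebra.coeff_single, Finsupp.sum_single_index rfl, Finsupp.sum_single_index rfl]

private theorem exists_pre54 {B G : Type} [CommRing B] [AddMonoid G] (f : A →+* B)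
    (x : AddMonoidAlgebra B G) (h : ∀ χ, ∃ a, f a = x.coeff χ) :
    ∃ q, AddMonoidAlgebra.mapRingHom G f q = x := by
  classical
  choose g hg using h
  refine ⟨∑ χ ∈ x.coeff.support, AddMonoidAlgebra.single χ (g χ), ?_⟩
  rw [map_sum]
  conv_rhs => rw [← AddMonoidAlgebra.sum_coeff_single x]
  unfold Finsupp.sum
  refine Finset.sum_congr rfl fun χ _ => ?_
  rw [AddMonoidAlgebra.mapRingHom_single, hg]

private theorem coeff_self54 (θ : ToCo n A) {χ : Fin n → ℤ} {a : A} (ha : θ.Hom χ a) :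
    (θ.θ a).coeff χ = a := by
  rw [ha, AddMonoidAlgebra.coeff_single, Finsupp.single_eq_same]

private theorem coeff_ne54 (θ : ToCo n A) {χ χ' : Fin n → ℤ} {a : A} (ha : θ.Hom χ a)
    (h : χ' ≠ χ) : (θ.θ a).coeff χ' = 0 := by
  rw [ha, AddMonoidAlgebra.coeff_single, Finsupp.single_eq_of_ne h]

private theorem sum_coeff54 (θ : ToCo n A) (a : A) :
    ∑ χ ∈ (θ.θ a).coeff.support, (θ.θ a).coeff χ = a := θ.counit a

private theorem eq_C54 {a : A} {p : A[X]} (h0 : p.coeff 0 = a) (h : ∀ j, 0 < j → p.coeff j = 0) :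
    p = C a := by
  ext j
  rcases Nat.eq_zero_or_pos j with hj | hj
  · subst hj
    rw [h0, coeff_C_zero]
  · rw [h j hj, coeff_C, if_neg (by omega)]

private theorem C_coeff54 {a : A} {p : A[X]} (h : p = C a) {j : ℕ} (hj : 0 < j) : p.coeff j = 0 := by
  rw [h, coeff_C, if_neg (by omega)]

/-! ### localisation -/

private theorem exists_tor54 (θ : ToCo n A) {f : A}
    {χf : Fin n → ℤ} (hf : θ.Hom χf f) (B : Type) [CommRing B] [Algebra A B]
    [IsLocalization.Away f B] : ∃ θ' : ToCo n B, ∀ a, θ'.θ (algebraMap A B a) =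
      AddMonoidAlgebra.mapRingHom _ (algebraMap A B) (θ.θ a) := by
  classical
  obtain ⟨u, hu⟩ := IsLocalization.Away.algebraMap_isUnit (S := B) f
  have hunit : IsUnit (((AddMonoidAlgebra.mapRingHom (Fin n → ℤ) (algebraMap A B)).comp θ.θ) f) := by
    rw [RingHom.comp_apply, hf, AddMonoidAlgebra.mapRingHom_single, ← hu]
    refine IsUnit.of_mul_eq_one (AddMonoidAlgebra.single (-χf) ((u⁻¹ : Bˣ) : B)) ?_
    rw [AddMonoidAlgebra.single_mul_single, add_neg_cancel, Units.mul_inv]
    rfl
  let Θ : B →+* AddMonoidAlgebra B (Fin n → ℤ) := IsLocalization.Away.lift (S := B) f hunit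
  have hΘ : ∀ a, Θ (algebraMap A B a) = AddMonoidAlgebra.mapRingHom _ (algebraMap A B) (θ.θ a) :=
    fun a => IsLocalization.Away.lift_eq f hunit a
  let ε : AddMonoidAlgebra B (Fin n → ℤ) →+* B :=
    AddMonoidAlgebra.liftNCRingHom (RingHom.id B) 1 fun _ _ => Commute.all _ _
  have hε : ∀ x, ε x = x.coeff.sum (fun _ b => b) := by
    intro x
    induction x using AddMonoidAlgebra.induction_linear with
    | zero => rw [map_zero]; rfl
    | add p q hp hq =>
      rw [map_add, hp, hq]
      exact (Finsupp.sum_add_index' (fun _ => rfl) fun _ _ _ => rfl).symm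
    | single m c =>
      have h1 := AddMonoidAlgebra.liftNCRingHom_single (RingHom.id B)
        (1 : Multiplicative (Fin n → ℤ) →* B) (fun _ _ => Commute.all _ _) m c
      rw [MonoidHom.one_apply, mul_one] at h1
      rw [AddMonoidAlgebra.coeff_single, Finsupp.sum_single_index rfl]
      exact h1
  have hcu : ∀ b, (Θ b).coeff.sum (fun _ b => b) = b := by
    have h1 : ε.comp Θ = RingHom.id B := by
      apply IsLocalization.ringHom_ext (Submonoid.powers f)
      ext a
      show ε (Θ (algebraMap A B a)) = algebraMap A B a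
      rw [hΘ, hε, sum_map54, θ.counit]
    intro b
    rw [← hε]
    exact congrArg (fun g => g b) h1
  refine ⟨⟨Θ, hcu, fun b χ => ?_⟩, hΘ⟩
  obtain ⟨k, a, hab⟩ := IsLocalization.Away.surj f b
  have hfk : Θ (algebraMap A B f ^ k) = AddMonoidAlgebra.single (k • χf) (algebraMap A B f ^ k) := by
    rw [map_pow, hΘ, hf, AddMonoidAlgebra.mapRingHom_single, AddMonoidAlgebra.single_pow]
  have h1 : Θ b = AddMonoidAlgebra.single (-(k • χf)) (((u⁻¹) ^ k : Bˣ) : B) *
      AddMonoidAlgebra.mapRingHom _ (algebraMap A B) (θ.θ a) := by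
    rw [← hΘ, ← hab, map_mul, hfk, mul_comm (Θ b), ← mul_assoc,
      AddMonoidAlgebra.single_mul_single, neg_add_cancel, ← hu, ← Units.val_pow_eq_pow_val,
      ← Units.val_mul, inv_pow, inv_mul_cancel]
    exact (one_mul _).symm
  have h2 : ∀ χ, (Θ b).coeff χ = (((u⁻¹) ^ k : Bˣ) : B) *
      algebraMap A B ((θ.θ a).coeff (k • χf + χ)) := by
    intro χ
    rw [h1, AddMonoidAlgebra.coeff_single_mul_eq_mul_coeff (m₂ := k • χf + χ),
      AddMonoidAlgebra.coeff_mapRingHom]
    intro m _
    constructor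
    · intro h
      rw [← h, add_neg_cancel_left]
    · intro h
      rw [h, neg_add_cancel_left]
  have hui : Θ (((u⁻¹) ^ k : Bˣ) : B) = AddMonoidAlgebra.single (-(k • χf))
      (((u⁻¹) ^ k : Bˣ) : B) := by
    have h3 : Θ (((u⁻¹) ^ k : Bˣ) : B) * Θ (algebraMap A B f ^ k) = 1 := by
      rw [← map_mul, ← hu, ← Units.val_pow_eq_pow_val, ← Units.val_mul, inv_pow, inv_mul_cancel,
        Units.val_one, map_one]
    have h4 : AddMonoidAlgebra.single (k • χf) (algebraMap A B f ^ k) *
        AddMonoidAlgebra.single (-(k • χf)) (((u⁻¹) ^ k : Bˣ) : B) = 1 := by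
      rw [AddMonoidAlgebra.single_mul_single, add_neg_cancel, ← hu, ← Units.val_pow_eq_pow_val,
        ← Units.val_mul, inv_pow, mul_inv_cancel, Units.val_one]
      rfl
    rw [hfk] at h3
    calc Θ (((u⁻¹) ^ k : Bˣ) : B) = Θ (((u⁻¹) ^ k : Bˣ) : B) *
          (AddMonoidAlgebra.single (k • χf) (algebraMap A B f ^ k) *
            AddMonoidAlgebra.single (-(k • χf)) (((u⁻¹) ^ k : Bˣ) : B)) := by rw [h4, mul_one]
      _ = _ := by rw [← mul_assoc, h3, one_mul]
  rw [h2, map_mul, hui, hΘ, θ.co, AddMonoidAlgebra.mapRingHom_single,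
    AddMonoidAlgebra.single_mul_single, neg_add_cancel_left]

/-- localisation at a semi-invariant -/
theorem SolvData.exists_loc (s : SolvData A N n) (f : A) (hs : s.Semi f) (B : Type) [CommRing B]
    [Algebra A B] [IsLocalization.Away f B] [IsDomain A] [IsDomain B] (hf : f ≠ 0) :
    ∃ s' : SolvData B N n, (∀ k i a, (s'.τ k (algebraMap A B a)).coeff i =
      algebraMap A B ((s.τ k a).coeff i)) ∧ (∀ a χ, (s'.θ.θ (algebraMap A B a)).coeff χ =
        algebraMap A B ((s.θ.θ a).coeff χ)) := by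
  classical
  obtain ⟨hs1, χ0, hχ0⟩ := hs
  have hinj : Function.Injective (algebraMap A B) :=
    IsLocalization.injective B (powers_le_nonZeroDivisors_of_noZeroDivisors hf)
  set F : B := algebraMap A B f with hF
  have hFu : IsUnit F := IsLocalization.Away.algebraMap_isUnit (S := B) f
  have hunit : ∀ k, IsUnit (((mapRingHom (algebraMap A B)).comp (s.τ k)) f) := by
    intro k
    rw [RingHom.comp_apply, hs1 k, coe_mapRingHom, map_C]
    exact hFu.map C
  let t : Fin N → B →+* B[X] := fun k => IsLocalization.Away.lift (S := B) f (hunit k)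
  have ht : ∀ k a, t k (algebraMap A B a) = (s.τ k a).map (algebraMap A B) := fun k a =>
    IsLocalization.Away.lift_eq f (hunit k) a
  have htF : ∀ k m, t k (F ^ m) = C (F ^ m) := by
    intro k m
    rw [hF, map_pow, ht, hs1 k, map_C, ← C_pow]
  have hco : ∀ k b m a, b * F ^ m = algebraMap A B a → ∀ i,
      (t k b).coeff i * F ^ m = algebraMap A B ((s.τ k a).coeff i) := by
    intro k b m a hab i
    rw [← coeff_map, ← ht, ← hab, map_mul, htF, coeff_mul_C]
  have hin : ∀ k b m a, b * F ^ m = algebraMap A B a → t k b = C b → s.τ k a = C a := by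
    intro k b m a hab hb
    refine eq_C54 (s.zero k a) fun j hj => ?_
    apply hinj
    rw [← hco k b m a hab j, C_coeff54 hb hj, zero_mul, map_zero]
  obtain ⟨θ', hθ'⟩ := exists_tor54 s.θ hχ0 B
  have hθF : ∀ m, θ'.θ (F ^ m) = AddMonoidAlgebra.single (m • χ0) (F ^ m) := by
    intro m
    rw [hF, map_pow, hθ', hχ0, AddMonoidAlgebra.mapRingHom_single, AddMonoidAlgebra.single_pow]
  have hsu : ∀ m, IsUnit (AddMonoidAlgebra.single (m • χ0) (F ^ m)) := by
    intro m
    rw [← hθF]
    exact (hFu.pow m).map θ'.θ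
  have hom1 : ∀ b m a χ, b * F ^ m = algebraMap A B a → θ'.Hom χ b → s.θ.Hom (χ + m • χ0) a := by
    intro b m a χ hab hb
    apply map_inj54 hinj
    rw [← hθ', ← hab, map_mul, hθF, hb, AddMonoidAlgebra.single_mul_single, hab,
      AddMonoidAlgebra.mapRingHom_single]
  have hom2 : ∀ b m a χ, b * F ^ m = algebraMap A B a → s.θ.Hom (χ + m • χ0) a → θ'.Hom χ b := by
    intro b m a χ hab hb
    have h1 : θ'.θ b * AddMonoidAlgebra.single (m • χ0) (F ^ m) =
        AddMonoidAlgebra.single χ b * AddMonoidAlgebra.single (m • χ0) (F ^ m) := by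
      rw [← hθF, ← map_mul, hab, hθ', hb, AddMonoidAlgebra.mapRingHom_single, hθF,
        AddMonoidAlgebra.single_mul_single, hab]
    exact (hsu m).mul_left_injective h1
  have hcan : ∀ (m : ℕ) (x y : B), x * F ^ m = y * F ^ m → x = y := fun m x y h =>
    (hFu.pow m).mul_left_injective h
  refine ⟨{ τ := t, θ := θ', β := s.β, zero := ?_, co := ?_, comm := ?_, wt := ?_ }, ?_, ?_⟩
  · intro k b
    obtain ⟨m, a, hab⟩ := IsLocalization.Away.surj f b
    apply hcan m
    rw [hco k b m a hab, s.zero, hab]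
  · intro l b hb i j
    obtain ⟨m, a, hab⟩ := IsLocalization.Away.surj f b
    have h1 := s.co l a (fun h hh => hin h b m a hab (hb h hh)) i j
    have h2 := hco l b m a hab i
    apply hcan m
    rw [hco l _ m _ h2 j, h1, map_mul, map_natCast, mul_assoc, hco l b m a hab (i + j)]
  · intro l k b hb i j
    obtain ⟨m, a, hab⟩ := IsLocalization.Away.surj f b
    have h1 := s.comm l k a (fun h hh => hin h b m a hab (hb h hh)) i j
    have h2 := hco k b m a hab i
    have h3 := hco l b m a hab j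
    apply hcan m
    rw [hco l _ m _ h2 j, h1, hco k _ m _ h3 i]
  · intro k i χ b hb hχ
    obtain ⟨m, a, hab⟩ := IsLocalization.Away.surj f b
    have h1 := s.wt k i (χ + m • χ0) a (fun h hh => hin h b m a hab (hb h hh)) (hom1 b m a χ hab hχ)
    refine hom2 _ m _ _ (hco k b m a hab i) ?_
    have h2 : χ + m • χ0 + i • s.β k = χ + i • s.β k + m • χ0 := by abel
    rwa [h2] at h1
  · intro k i a
    change (t k (algebraMap A B a)).coeff i = _
    rw [ht, coeff_map]
  · intro a χ
    rw [hθ', AddMonoidAlgebra.coeff_mapRingHom]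

/-! ### invariants -/

/-- components and coefficients -/
private theorem tau_comp54 (s : SolvData A (N + 1) n) (a : A) (i : ℕ) (χ : Fin n → ℤ) :
    (s.τ 0 ((s.θ.θ a).coeff χ)).coeff i =
      (s.θ.θ ((s.τ 0 a).coeff i)).coeff (χ + i • s.β 0) := by
  classical
  have hsum : ∑ χ' ∈ insert χ (s.θ.θ a).coeff.support, (s.θ.θ a).coeff χ' = a := by
    by_cases hχ : χ ∈ (s.θ.θ a).coeff.support
    · rw [Finset.insert_eq_self.2 hχ, sum_coeff54]
    · rw [Finset.sum_insert hχ, sum_coeff54, Finsupp.notMem_support_iff.1 hχ, zero_add]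
  have h1 : (s.τ 0 a).coeff i = ∑ χ' ∈ insert χ (s.θ.θ a).coeff.support,
      (s.τ 0 ((s.θ.θ a).coeff χ')).coeff i := by
    conv_lhs => rw [← hsum]
    rw [map_sum, finsetSum_coeff]
  have hw : ∀ χ', s.θ.Hom (χ' + i • s.β 0) ((s.τ 0 ((s.θ.θ a).coeff χ')).coeff i) := fun χ' =>
    s.wt 0 i χ' _ (fun h hh => absurd hh (Fin.not_lt_zero h)) (s.θ.co a χ')
  rw [h1, map_sum, AddMonoidAlgebra.coeff_sum, Finsupp.finsetSum_apply,
    Finset.sum_eq_single χ]
  · exact (coeff_self54 s.θ (hw χ)).symm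
  · intro χ' _ hne
    refine coeff_ne54 s.θ (hw χ') fun h => hne ?_
    exact (add_right_cancel h).symm
  · intro h
    exact absurd (Finset.mem_insert_self _ _) h

/-- restriction to the invariants of the first additive coaction -/
theorem SolvData.exists_restr (s : SolvData A (N + 1) n) : ∃ s' : SolvData s.ga.inv N n,
    (∀ k i b, ((s'.τ k b).coeff i : A) = (s.τ k.succ (b : A)).coeff i) ∧
    (∀ b χ, ((s'.θ.θ b).coeff χ : A) = (s.θ.θ (b : A)).coeff χ) := by
  classical
  have hιinj : Function.Injective s.ga.inv.subtype := Subtype.val_injective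
  have hmem : ∀ a : A, a ∈ s.ga.inv ↔ ∀ i, 0 < i → (s.τ 0 a).coeff i = 0 := fun a =>
    s.ga.mem_inv_iff a
  have h1 : ∀ (k : Fin N) (b : s.ga.inv) (i : ℕ), (s.τ k.succ (b : A)).coeff i ∈ s.ga.inv := by
    intro k b i
    rw [hmem]
    intro j hj
    rw [s.comm 0 k.succ (b : A) (fun h hh => absurd hh (Fin.not_lt_zero h)) i j,
      (hmem b).1 b.2 j hj, map_zero, coeff_zero]
  have h2 : ∀ (b : s.ga.inv) (χ : Fin n → ℤ), (s.θ.θ (b : A)).coeff χ ∈ s.ga.inv := by
    intro b χ
    rw [hmem]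
    intro j hj
    rw [tau_comp54, (hmem b).1 b.2 j hj, map_zero]
    rfl
  have h3 : ∀ k : Fin N, ∃ g : s.ga.inv →+* (s.ga.inv)[X], ∀ b,
      mapRingHom s.ga.inv.subtype (g b) = (s.τ k.succ).comp s.ga.inv.subtype b := by
    intro k
    refine exists_factor54 _ _ (map_injective _ hιinj) fun b => ?_
    have h4 : (s.τ k.succ (b : A)) ∈ lifts s.ga.inv.subtype := by
      rw [lifts_iff_coeff_lifts]
      intro i
      exact ⟨⟨_, h1 k b i⟩, rfl⟩
    obtain ⟨q, hq⟩ := (mem_lifts _).1 h4
    exact ⟨q, hq⟩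
  choose t ht using h3
  have htc : ∀ (k : Fin N) (b : s.ga.inv) (i : ℕ),
      (((t k b).coeff i : s.ga.inv) : A) = (s.τ k.succ (b : A)).coeff i := by
    intro k b i
    have h4 := congrArg (fun p => coeff p i) (ht k b)
    simp only [coe_mapRingHom, coeff_map] at h4
    exact h4
  obtain ⟨Θ, hΘ⟩ : ∃ g : s.ga.inv →+* AddMonoidAlgebra s.ga.inv (Fin n → ℤ), ∀ b,
      AddMonoidAlgebra.mapRingHom _ s.ga.inv.subtype (g b) = (s.θ.θ).comp s.ga.inv.subtype b :=
    exists_factor54 _ _ (map_inj54 hιinj) fun b =>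
      exists_pre54 _ _ fun χ => ⟨⟨_, h2 b χ⟩, rfl⟩
  have hΘc : ∀ (b : s.ga.inv) (χ : Fin n → ℤ),
      (((Θ b).coeff χ : s.ga.inv) : A) = (s.θ.θ (b : A)).coeff χ := by
    intro b χ
    have h4 := congrArg (fun p => p.coeff χ) (hΘ b)
    simp only [AddMonoidAlgebra.coeff_mapRingHom] at h4
    exact h4
  let θ' : ToCo n s.ga.inv := ⟨Θ, by
    intro b
    apply hιinj
    rw [← sum_map54, hΘ]
    exact s.θ.counit b, by
    intro b χ
    apply map_inj54 hιinj
    rw [hΘ, AddMonoidAlgebra.mapRingHom_single]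
    change s.θ.θ (((Θ b).coeff χ : s.ga.inv) : A) = AddMonoidAlgebra.single χ (((Θ b).coeff χ : s.ga.inv) : A)
    rw [hΘc, s.θ.co]⟩
  have hom1 : ∀ (χ : Fin n → ℤ) (b : s.ga.inv), θ'.Hom χ b ↔ s.θ.Hom χ (b : A) := by
    intro χ b
    unfold ToCo.Hom
    rw [← (map_inj54 hιinj).eq_iff, AddMonoidAlgebra.mapRingHom_single]
    change AddMonoidAlgebra.mapRingHom _ s.ga.inv.subtype (Θ b) = _ ↔ _
    rw [hΘ]
    rfl
  have hin : ∀ (l : Fin N) (b : s.ga.inv), (∀ h < l, t h b = C b) →
      ∀ h < l.succ, s.τ h (b : A) = C (b : A) := by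
    intro l b hb h hh
    refine eq_C54 (s.zero h _) fun j hj => ?_
    revert hh
    refine Fin.cases ?_ (fun h' => ?_) h
    · intro _
      exact (hmem b).1 b.2 j hj
    · intro hh
      rw [← htc, C_coeff54 (hb h' (Fin.succ_lt_succ_iff.1 hh)) hj]
      rfl
  refine ⟨{ τ := t, θ := θ', β := fun k => s.β k.succ, zero := ?_, co := ?_, comm := ?_, wt := ?_ },
    fun k i b => htc k b i, hΘc⟩
  · intro k b
    apply hιinj
    change (((t k b).coeff 0 : s.ga.inv) : A) = b
    rw [htc, s.zero]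
  · intro l b hb i j
    apply hιinj
    change (((t l ((t l b).coeff i)).coeff j : s.ga.inv) : A) =
      ((((Nat.choose (i + j) i : ℕ) : s.ga.inv) * (t l b).coeff (i + j) : s.ga.inv) : A)
    rw [htc, htc, s.co l.succ b (hin l b hb)]
    push_cast
    rw [htc]
  · intro l k b hb i j
    apply hιinj
    change (((t l ((t k b).coeff i)).coeff j : s.ga.inv) : A) =
      (((t k ((t l b).coeff j)).coeff i : s.ga.inv) : A)
    rw [htc, htc, htc, htc, s.comm l.succ k.succ b (hin l b hb)]
  · intro k i χ b hb hχ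
    rw [hom1] at hχ ⊢
    rw [htc]
    exact s.wt k.succ i χ b (hin k b hb) hχ

/-! ### slices -/

/-- Lie-Kolchin: a slice of minimal degree with a semi-invariant leading coefficient -/
theorem SolvData.exists_slice [IsDomain A] (s : SolvData A (N + 1) n) (h : s.ga.inv ≠ ⊤) :
    ∃ (a : A) (e : ℕ), 0 < e ∧ (s.ga.τ a).natDegree = e ∧
      (∀ c, (s.ga.τ c).natDegree = 0 ∨ e ≤ (s.ga.τ c).natDegree) ∧ s.Semi (s.ga.D e a) := by
  classical
  have hex : ∃ e, 0 < e ∧ ∃ c, (s.τ 0 c).natDegree = e := by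
    obtain ⟨c, hc⟩ : ∃ c, c ∉ s.ga.inv := by
      by_contra hcon
      push Not at hcon
      exact h (eq_top_iff.2 fun c _ => hcon c)
    refine ⟨(s.τ 0 c).natDegree, ?_, c, rfl⟩
    rw [Nat.pos_iff_ne_zero]
    intro h0
    refine hc ((s.ga.mem_inv_iff c).2 fun i hi => ?_)
    exact coeff_eq_zero_of_natDegree_lt (by change (s.τ 0 c).natDegree < i; omega)
  obtain ⟨he0, c0, hc0⟩ := Nat.find_spec hex
  set e := Nat.find hex with he
  have hmin : ∀ c, (s.τ 0 c).natDegree = 0 ∨ e ≤ (s.τ 0 c).natDegree := by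
    intro c
    rcases Nat.eq_zero_or_pos (s.τ 0 c).natDegree with h1 | h1
    · exact Or.inl h1
    · exact Or.inr (Nat.find_min' hex ⟨h1, c, rfl⟩)
  -- degree `e` from vanishing and non-vanishing
  have hdeg : ∀ a, (∀ j, e < j → (s.τ 0 a).coeff j = 0) → (s.τ 0 a).coeff e ≠ 0 →
      (s.τ 0 a).natDegree = e := by
    intro a h1 h2
    refine le_antisymm (natDegree_le_iff_coeff_eq_zero.2 h1) (le_natDegree_of_ne_zero h2)
  have hlc : ∀ a, (s.τ 0 a).natDegree = e → (s.τ 0 a).coeff e ≠ 0 := by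
    intro a h1 h2
    rw [← h1, coeff_natDegree, leadingCoeff_eq_zero] at h2
    rw [h2, natDegree_zero] at h1
    omega
  have key : ∀ k : ℕ, ∃ (a : A) (χ : Fin n → ℤ), (s.τ 0 a).natDegree = e ∧
      (∀ h : Fin (N + 1), (h : ℕ) < k → s.τ h ((s.τ 0 a).coeff e) = C ((s.τ 0 a).coeff e)) ∧
      s.θ.Hom χ ((s.τ 0 a).coeff e) := by
    intro k
    induction k with
    | zero =>
      have h1 := hlc c0 hc0
      obtain ⟨χ', hχ'⟩ : ∃ χ', (s.θ.θ ((s.τ 0 c0).coeff e)).coeff χ' ≠ 0 := by
        by_contra hcon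
        push Not at hcon
        apply h1
        rw [← sum_coeff54 s.θ ((s.τ 0 c0).coeff e)]
        exact Finset.sum_eq_zero fun χ _ => hcon χ
      have h2 : χ' - e • s.β 0 + e • s.β 0 = χ' := sub_add_cancel _ _
      have h3 := tau_comp54 s c0 e (χ' - e • s.β 0)
      rw [h2] at h3
      refine ⟨(s.θ.θ c0).coeff (χ' - e • s.β 0), χ', hdeg _ (fun j hj => ?_) ?_,
        fun h hh => absurd hh (Nat.not_lt_zero _), ?_⟩
      · rw [tau_comp54, coeff_eq_zero_of_natDegree_lt (hc0.trans_lt hj), map_zero]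
        rfl
      · rw [h3]
        exact hχ'
      · rw [h3]
        exact s.θ.co _ _
    | succ k ih =>
      obtain ⟨a, χ, hd, hinv, hχ⟩ := ih
      by_cases hk : k < N + 1
      · set K : Fin (N + 1) := ⟨k, hk⟩ with hK
        set x := (s.τ 0 a).coeff e with hx
        have hx0 : x ≠ 0 := hlc a hd
        set m := (s.τ K x).natDegree with hm
        have hinv' : ∀ h < K, s.τ h x = C x := fun h hh => hinv h hh
        have hy0 : (s.τ K x).coeff m ≠ 0 := by
          rw [hm, coeff_natDegree, Ne, leadingCoeff_eq_zero]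
          intro h1
          have h2 := s.zero K x
          rw [h1, coeff_zero] at h2
          exact hx0 h2.symm
        have hc : ∀ j, (s.τ 0 ((s.τ K a).coeff m)).coeff j = (s.τ K ((s.τ 0 a).coeff j)).coeff m :=
          fun j => s.comm 0 K a (fun h hh => absurd hh (Fin.not_lt_zero h)) m j
        have hce : (s.τ 0 ((s.τ K a).coeff m)).coeff e = (s.τ K x).coeff m := hc e
        refine ⟨(s.τ K a).coeff m, χ + m • s.β K, hdeg _ (fun j hj => ?_) ?_, ?_, ?_⟩
        · rw [hc, coeff_eq_zero_of_natDegree_lt (hd.trans_lt hj), map_zero, coeff_zero]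
        · rw [hce]
          exact hy0
        · intro h hh
          rw [hce]
          refine eq_C54 (s.zero h _) fun j hj => ?_
          rcases Nat.lt_succ_iff_lt_or_eq.1 hh with h1 | h1
          · have h1' : h < K := h1
            rw [s.comm h K x (fun h' hh' => hinv' h' (hh'.trans h1')) m j,
              C_coeff54 (hinv' h h1') hj, map_zero, coeff_zero]
          · have h2 : h = K := Fin.ext h1
            rw [h2, s.co K x hinv' m j, coeff_eq_zero_of_natDegree_lt (by omega), mul_zero]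
        · rw [hce]
          exact s.wt K m χ x hinv' hχ
      · exact ⟨a, χ, hd, fun h _ => hinv h (by omega), hχ⟩
  obtain ⟨a, χ, hd, hinv, hχ⟩ := key (N + 1)
  exact ⟨a, e, he0, hd, hmin, fun h => hinv h h.2, χ, hχ⟩

end Pool.Agent.Helper72.OC
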