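import Pool.Agent.Helper72.OC.Defs
import Mathlib.LinearAlgebra.SymplecticGroup

/-!
# Orbit theorem for flagged groups, block K3: stabilisers of isotropic flags in `Sp_2m`
-/

set_option autoImplicit false

namespace Pool.Agent.Helper72.OC



variable (m k : ℕ)

/-- the matrix `g` maps the basis vector `e_i` to a combination of `e_1, ..., e_i`, for `i < k` -/
def FlagStab {R : Type} [CommRing R] (g : Matrix (Fin m ⊕ Fin m) (Fin m ⊕ Fin m) R) : Prop :=
  ∀ i : Fin m, (i : ℕ) < k →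
    (∀ j : Fin m, i < j → g (.inl j) (.inl i) = 0) ∧ ∀ j : Fin m, g (.inr j) (.inl i) = 0

variable {m k}

theorem FlagStab.one {R : Type} [CommRing R] :
    FlagStab m k (1 : Matrix (Fin m ⊕ Fin m) (Fin m ⊕ Fin m) R) := by
  intro i _
  refine ⟨fun j hj => ?_, fun j => ?_⟩
  · rw [Matrix.one_apply_ne]
    simpa using hj.ne'
  · rw [Matrix.one_apply_ne]
    simp

theorem FlagStab.mul {R : Type} [CommRing R] {g h : Matrix (Fin m ⊕ Fin m) (Fin m ⊕ Fin m) R}
    (hg : FlagStab m k g) (hh : FlagStab m k h) : FlagStab m k (g * h) := by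
  intro i hi
  have key : ∀ a : Fin m ⊕ Fin m, (∀ t : Fin m, t ≤ i → g a (.inl t) = 0) →
      (g * h) a (.inl i) = 0 := by
    intro a ha
    rw [Matrix.mul_apply]
    refine Finset.sum_eq_zero fun t _ => ?_
    rcases t with t | t
    · by_cases ht : t ≤ i
      · rw [ha t ht, zero_mul]
      · rw [(hh i hi).1 t (lt_of_not_ge ht), mul_zero]
    · rw [(hh i hi).2 t, mul_zero]
  refine ⟨fun j hj => key _ fun t ht => ?_, fun j => key _ fun t ht => ?_⟩
  · exact (hg t (lt_of_le_of_lt (Fin.le_def.1 ht) hi)).1 j (lt_of_le_of_lt ht hj)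
  · exact (hg t (lt_of_le_of_lt (Fin.le_def.1 ht) hi)).2 j

theorem FlagStab.map {R R' : Type} [CommRing R] [CommRing R'] (f : R →+* R')
    {g : Matrix (Fin m ⊕ Fin m) (Fin m ⊕ Fin m) R} (hg : FlagStab m k g) :
    FlagStab m k (g.map f) := by
  intro i hi
  refine ⟨fun j hj => ?_, fun j => ?_⟩
  · rw [Matrix.map_apply, (hg i hi).1 j hj, map_zero]
  · rw [Matrix.map_apply, (hg i hi).2 j, map_zero]

variable (m k)

/-- the stabiliser of the flag `<e_1> ⊂ <e_1, e_2> ⊂ ... ⊂ <e_1, ..., e_k>` in `Sp_2m(R)` -/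
def SpF (R : Type) [CommRing R] : Subgroup (Matrix.symplecticGroup (Fin m) R) where
  carrier := {g | FlagStab m k (g : Matrix (Fin m ⊕ Fin m) (Fin m ⊕ Fin m) R) ∧
    FlagStab m k ((g⁻¹ : Matrix.symplecticGroup (Fin m) R) :
      Matrix (Fin m ⊕ Fin m) (Fin m ⊕ Fin m) R)}
  one_mem' := ⟨FlagStab.one, by rw [inv_one]; exact FlagStab.one⟩
  mul_mem' {a b} ha hb := ⟨ha.1.mul hb.1, by rw [_root_.mul_inv_rev]; exact hb.2.mul ha.2⟩
  inv_mem' {a} ha := ⟨ha.2, by rw [inv_inv]; exact ha.1⟩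

/-- `G` represents the functor `SpF m k` -/
def IsSpF {Λ : Type} [CommRing Λ] (G : GSch Λ) : Prop :=
  ∃ e : ∀ (R : Type) [CommRing R] [Algebra Λ R], G.Pt R ≃* SpF m k R,
    ∀ (R R' : Type) [CommRing R] [Algebra Λ R] [CommRing R'] [Algebra Λ R'] (f : R →ₐ[Λ] R')
      (g : G.Pt R), (e R' (G.map f g)).1.1 = (e R g).1.1.map f

end Pool.Agent.Helper72.OC
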